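import Pool.Agent.SBW.Targets

set_option autoImplicit false

/-!
# BCUT: a bridge is cut into two bridges at a cut time
-/

open scoped Classical

noncomputable section

namespace Pool.Agent.SBW

theorem BCUT_.len_take {D : ℕ} {w : Wk D} {k : ℕ} (h : k ≤ w.length) :
    (w.take k).length = k := by
  rw [List.length_take, min_eq_left h]

theorem BCUT_.len_drop {D : ℕ} (w : Wk D) (k : ℕ) : (w.drop k).length = w.length - k :=
  List.length_drop

theorem p_BCUT : T_BCUT := by
  intro D w k hB hC
  obtain ⟨hs, hb⟩ := hB
  obtain ⟨hk, h1, h2⟩ := hC
  constructor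
  · refine ⟨?_, ?_⟩
    · intro i hi l hl hp
      rw [BCUT_.len_take hk] at hi hl
      apply hs i (hi.trans hk) l (hl.trans hk)
      intro j
      have := hp j
      rwa [pos_take_of_le w hi, pos_take_of_le w hl] at this
    · intro i hi0 hi
      rw [BCUT_.len_take hk] at hi
      have hh : hx (w.take k) = pos w k 0 := by
        unfold hx
        rw [BCUT_.len_take hk, pos_take_of_le w le_rfl]
      rw [hh, pos_take_of_le w hi]
      exact ⟨(hb i hi0 (hi.trans hk)).1, h1 i hi⟩
  · refine ⟨?_, ?_⟩
    · intro i hi l hl hp
      rw [BCUT_.len_drop] at hi hl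
      have := hs (k + i) (by omega) (k + l) (by omega) (by
        intro j
        have := hp j
        rw [pos_drop, pos_drop] at this
        linarith)
      omega
    · intro i hi0 hi
      rw [BCUT_.len_drop] at hi
      have hh : hx (w.drop k) = hx w - pos w k 0 := by
        unfold hx
        rw [BCUT_.len_drop, pos_drop, Nat.add_sub_cancel' hk]
      rw [hh, pos_drop]
      have h3 := h2 (k + i) (by omega) (by omega)
      have h4 := (hb (k + i) (by omega) (by omega)).2
      constructor <;> linarith

end Pool.Agent.SBW
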