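import Pool.Agent.SBW.Targets

set_option autoImplicit false

/-!
# MP_b5172a_pr: concatenation of a list of bridges
-/

open scoped Classical

noncomputable section

namespace Pool.Agent.SBW

theorem BFL_.br_nil {D : ℕ} : Br ([] : Wk D) := by
  refine ⟨?_, ?_⟩
  · intro i hi k hk _
    simp only [List.length_nil, Nat.le_zero] at hi hk
    rw [hi, hk]
  · intro k h0 hk
    simp only [List.length_nil, Nat.le_zero] at hk
    omega

theorem p_BFL : T_BAPP → T_BFL := by
  intro hB D l hl
  refine ⟨?_, hx_flatten_eq l, length_flatten_eq l⟩
  induction l with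
  | nil => exact BFL_.br_nil
  | cons w l ih =>
    rw [List.flatten_cons]
    exact (hB D w l.flatten (hl w (List.mem_cons_self ..))
      (ih fun u hu => hl u (List.mem_cons_of_mem _ hu))).1

end Pool.Agent.SBW
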