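import Pool.Agent.SBW.Targets

set_option autoImplicit false

/-!
# MP_b5172a_pr: probability of a good block
-/

open scoped Classical

noncomputable section

namespace Pool.Agent.SBW

namespace BLK_

/-- four independent variables, each good with high probability -/
theorem four {β : Type} (T : Finset β) (W B : β → ℝ)
    (hs : ∑ f ∈ T, W f = 1) (F0 F1 : β → β → β → β → ℝ) (bad : ℝ)
    (hb : ∑ f ∈ T, B f ≤ bad)
    (key : ∀ f₁ ∈ T, ∀ f₂ ∈ T, ∀ f₃ ∈ T, ∀ f₄ ∈ T, F0 f₁ f₂ f₃ f₄ ≤ F1 f₁ f₂ f₃ f₄ +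
      (B f₁ * W f₂ * W f₃ * W f₄ + W f₁ * B f₂ * W f₃ * W f₄ + W f₁ * W f₂ * B f₃ * W f₄ +
        W f₁ * W f₂ * W f₃ * B f₄)) :
    ∑ f₁ ∈ T, ∑ f₂ ∈ T, ∑ f₃ ∈ T, ∑ f₄ ∈ T, F0 f₁ f₂ f₃ f₄ ≤
    (∑ f₁ ∈ T, ∑ f₂ ∈ T, ∑ f₃ ∈ T, ∑ f₄ ∈ T, F1 f₁ f₂ f₃ f₄) + 4 * bad := by
  calc _ ≤ ∑ f₁ ∈ T, ∑ f₂ ∈ T, ∑ f₃ ∈ T, ∑ f₄ ∈ T, (F1 f₁ f₂ f₃ f₄ +
      (B f₁ * W f₂ * W f₃ * W f₄ + W f₁ * B f₂ * W f₃ * W f₄ + W f₁ * W f₂ * B f₃ * W f₄ +
        W f₁ * W f₂ * W f₃ * B f₄)) :=
        Finset.sum_le_sum fun f₁ h₁ => Finset.sum_le_sum fun f₂ h₂ =>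
          Finset.sum_le_sum fun f₃ h₃ => Finset.sum_le_sum fun f₄ h₄ => key f₁ h₁ f₂ h₂ f₃ h₃ f₄ h₄
    _ = (∑ f₁ ∈ T, ∑ f₂ ∈ T, ∑ f₃ ∈ T, ∑ f₄ ∈ T, F1 f₁ f₂ f₃ f₄) +
      4 * ∑ f ∈ T, B f := by
        simp only [Finset.sum_add_distrib]
        simp only [← Finset.mul_sum, ← Finset.sum_mul, hs]
        ring
    _ ≤ _ := by linarith

theorem total {α : Type} (Ω : Finset α) (N : ℕ) (q : α → ℝ) (hq : ∑ a ∈ Ω, q a = 1) :
    ∑ f ∈ Fintype.piFinset (fun _ : Fin N => Ω), ∏ i, q (f i) = 1 := by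
  rw [← Finset.prod_univ_sum]
  simp [hq]

end BLK_

theorem p_BLK : T_QEX → T_QGA → T_QGB → T_QGC → T_N96 → T_BLK := by
  intro hQEX hQGA hQGB hQGC hN96 α ι _ Ω p L X Y P R rr aa bb hP hL hR hr
  have hN : (1 : ℝ) ≤ (P.N : ℝ) := by exact_mod_cast hP.N1
  have hcN : ∀ i : Fin P.N, max (((i : ℕ) : ℝ) + 1) (P.N : ℝ) = P.N := by
    intro i
    apply max_eq_right
    have : (i : ℕ) + 1 ≤ P.N := i.2
    exact_mod_cast this
  have hc0 : max (((0 : ℕ) : ℝ) + 1) (P.N : ℝ) = P.N := by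
    apply max_eq_right
    simpa using hN
  set q : α → ℝ := fun a => qlaw Ω p L P 0 a with hq
  have hql : ∀ i : Fin P.N, qlaw Ω p L P i = q := by
    intro i
    funext a
    simp only [hq, qlaw]
    rw [hcN i, hc0]
  obtain ⟨hQ, hcost⟩ := hQEX α ι Ω p L X Y P hP hL P.N
  have hqe : (fun i : Fin P.N => qlaw Ω p L P i) = fun _ => q := by
    funext i
    exact hql i
  rw [hqe] at hQ
  have i0 : Fin P.N := ⟨0, hP.N1⟩
  have hq0 : ∀ a ∈ Ω, 0 ≤ q a := fun a ha => hQ.q0 i0 a ha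
  have hq1 : ∑ a ∈ Ω, q a = 1 := hQ.q1 i0
  set T := Fintype.piFinset (fun _ : Fin P.N => Ω) with hT
  set W : (Fin P.N → α) → ℝ := fun f => ∏ i, q (f i) with hW
  have memT : ∀ f ∈ T, ∀ i, f i ∈ Ω := by
    intro f hf i
    exact Fintype.mem_piFinset.1 hf i
  have hW0 : ∀ f ∈ T, 0 ≤ W f := fun f hf => Finset.prod_nonneg fun i _ => hq0 _ (memT f hf i)
  have hs : ∑ f ∈ T, W f = 1 := BLK_.total Ω P.N q hq1
  -- the probability of a bad segment
  have hbad : ∑ f ∈ T.filter (fun f => ¬ BGood L X Y P f), W f ≤ 13 / 10000 := by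
    have eA := hQGA α ι Ω p L X Y P P.N (fun _ => q) hP hL hQ
    have eB := hQGB α ι Ω p L X Y P P.N (fun _ => q) hP hL hQ
    obtain ⟨eC, eD⟩ := hQGC α ι Ω p L X Y P P.N (fun _ => q) 4000 hP hL hQ (by norm_num)
    set EA : (Fin P.N → α) → Prop := fun f => ∃ j, ∃ k ≤ P.N,
      P.θ2 * P.h * max (k : ℝ) (P.N : ℝ) < |psm (fun i => Y j (f i)) k| with hEA
    set EB : (Fin P.N → α) → Prop := fun f => ∃ k ≤ P.N, P.N ≤ k ∧
      psm (fun i => X (f i)) k < P.h / 4 * k with hEB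
    set EC : (Fin P.N → α) → Prop := fun f =>
      4000 * P.A * P.h * P.N < psm (fun i => L (f i)) P.N with hEC
    set ED : (Fin P.N → α) → Prop := fun f =>
      4000 * P.B * P.h * P.N < psm (fun i => X (f i)) P.N with hED
    change ∑ f ∈ T.filter EA, W f ≤ 1 / 5000 at eA
    change ∑ f ∈ T.filter EB, W f ≤ 1 / 10000 at eB
    change ∑ f ∈ T.filter EC, W f ≤ 2 / 4000 at eC
    change ∑ f ∈ T.filter ED, W f ≤ 2 / 4000 at eD
    have key : ∀ f ∈ T, (if ¬ BGood L X Y P f then W f else 0) ≤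
        (if EA f then W f else 0) + (if EB f then W f else 0) + (if EC f then W f else 0) +
          (if ED f then W f else 0) := by
      intro f hf
      have w := hW0 f hf
      have pos4 : 0 ≤ (if EA f then W f else 0) ∧ 0 ≤ (if EB f then W f else 0) ∧
          0 ≤ (if EC f then W f else 0) ∧ 0 ≤ (if ED f then W f else 0) := by
        refine ⟨?_, ?_, ?_, ?_⟩ <;> split_ifs <;> linarith
      obtain ⟨p1, p2, p3, p4⟩ := pos4
      by_cases hg : BGood L X Y P f
      · rw [if_neg (not_not.2 hg)]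
        linarith
      · rw [if_pos hg]
        rcases eq_or_ne (W f) 0 with h0 | h0
        · rw [h0] at p1 p2 p3 p4 ⊢
          linarith
        by_cases cA : EA f
        · rw [if_pos cA]; linarith
        by_cases cB : EB f
        · rw [if_pos cB]; linarith
        by_cases cC : EC f
        · rw [if_pos cC]; linarith
        by_cases cD : ED f
        · rw [if_pos cD]; linarith
        exfalso
        apply hg
        refine ⟨?_, ?_, ?_, ?_, ?_⟩
        · intro i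
          have hne : q (f i) ≠ 0 := by
            intro h
            exact h0 (Finset.prod_eq_zero (Finset.mem_univ i) h)
          have := hQ.q3 i (f i) (memT f hf i) hne
          rwa [hcN i] at this
        · intro j k hk
          by_contra hlt
          push Not at hlt
          apply cA
          refine ⟨j, k, hk, ?_⟩
          have : max (k : ℝ) (P.N : ℝ) = P.N := max_eq_right (by exact_mod_cast hk)
          rw [this]
          exact hlt
        · by_contra hlt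
          push Not at hlt
          exact cB ⟨P.N, le_rfl, le_rfl, hlt⟩
        · by_contra hlt
          push Not at hlt
          exact cC hlt
        · by_contra hlt
          push Not at hlt
          exact cD hlt
    rw [Finset.sum_filter] at eA eB eC eD ⊢
    have := Finset.sum_le_sum key
    simp only [Finset.sum_add_distrib] at this
    linarith
  -- N96
  have h96 := hN96 (Fin P.N → α) T W (fun f => fun i => R (f i)) rr aa bb (by
    intro f hf
    have hm := memT f hf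
    obtain ⟨h1, h2, h3⟩ := hr f hm
    refine ⟨hW0 f hf, ?_, ?_, ?_, h1, h2, h3⟩
    · rw [hT, Fintype.mem_piFinset]
      intro i
      exact (hR _ (hm i)).1
    · funext i
      exact (hR _ (hm i)).2.1
    · simp only [hW]
      refine Finset.prod_congr rfl fun i _ => ?_
      obtain ⟨_, _, h4, h5⟩ := hR _ (hm i)
      simp only [hq, qlaw]
      rw [h4, h5])
  rw [hs] at h96
  set B : (Fin P.N → α) → ℝ := fun f => if BGood L X Y P f then 0 else W f with hB
  have hbad' : ∑ f ∈ T, B f ≤ 13 / 10000 := by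
    refine le_trans (le_of_eq ?_) hbad
    rw [Finset.sum_filter]
    refine Finset.sum_congr rfl fun f _ => ?_
    by_cases h : BGood L X Y P f <;> simp [h, hB]
  have hB0 : ∀ f ∈ T, 0 ≤ B f := by
    intro f hf
    simp only [hB]
    split_ifs
    · exact le_rfl
    · exact hW0 f hf
  have hfour := BLK_.four T W B hs
    (fun f₁ f₂ f₃ f₄ => if bb f₁ ≤ aa f₂ ∧ aa f₄ ≤ bb f₃ then W f₁ * W f₂ * W f₃ * W f₄ else 0)
    (fun f₁ f₂ f₃ f₄ => if BGood L X Y P f₁ ∧ BGood L X Y P f₂ ∧ BGood L X Y P f₃ ∧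
      BGood L X Y P f₄ ∧ bb f₁ ≤ aa f₂ ∧ aa f₄ ≤ bb f₃ then W f₁ * W f₂ * W f₃ * W f₄ else 0)
    _ hbad' (by
    intro f₁ h₁ f₂ h₂ f₃ h₃ f₄ h₄
    have w1 := hW0 f₁ h₁
    have w2 := hW0 f₂ h₂
    have w3 := hW0 f₃ h₃
    have w4 := hW0 f₄ h₄
    have b1 := hB0 f₁ h₁
    have b2 := hB0 f₂ h₂
    have b3 := hB0 f₃ h₃
    have b4 := hB0 f₄ h₄
    have e1 : 0 ≤ B f₁ * W f₂ * W f₃ * W f₄ := by positivity
    have e2 : 0 ≤ W f₁ * B f₂ * W f₃ * W f₄ := by positivity
    have e3 : 0 ≤ W f₁ * W f₂ * B f₃ * W f₄ := by positivity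
    have e4 : 0 ≤ W f₁ * W f₂ * W f₃ * B f₄ := by positivity
    by_cases hC : bb f₁ ≤ aa f₂ ∧ aa f₄ ≤ bb f₃
    · rw [if_pos hC]
      by_cases g1 : BGood L X Y P f₁
      · by_cases g2 : BGood L X Y P f₂
        · by_cases g3 : BGood L X Y P f₃
          · by_cases g4 : BGood L X Y P f₄
            · rw [if_pos ⟨g1, g2, g3, g4, hC⟩]
              linarith
            · have h5 : B f₄ = W f₄ := by simp [hB, g4]
              rw [if_neg (fun h => g4 h.2.2.2.1), h5]
              rw [h5] at e4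
              linarith
          · have h5 : B f₃ = W f₃ := by simp [hB, g3]
            rw [if_neg (fun h => g3 h.2.2.1), h5]
            rw [h5] at e3
            linarith
        · have h5 : B f₂ = W f₂ := by simp [hB, g2]
          rw [if_neg (fun h => g2 h.2.1), h5]
          rw [h5] at e2
          linarith
      · have h5 : B f₁ = W f₁ := by simp [hB, g1]
        rw [if_neg (fun h => g1 h.1), h5]
        rw [h5] at e1
        linarith
    · rw [if_neg hC, if_neg (fun h => hC h.2.2.2.2)]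
      linarith)
  set S1 := ∑ f₁ ∈ T, ∑ f₂ ∈ T, ∑ f₃ ∈ T, ∑ f₄ ∈ T,
      (if BGood L X Y P f₁ ∧ BGood L X Y P f₂ ∧ BGood L X Y P f₃ ∧ BGood L X Y P f₄ ∧
        bb f₁ ≤ aa f₂ ∧ aa f₄ ≤ bb f₃ then W f₁ * W f₂ * W f₃ * W f₄ else 0) with hS1
  have hS : 1 / 200 ≤ S1 := by
    have h1 : (1 : ℝ) ^ 4 = 1 := one_pow 4
    rw [h1] at h96
    linarith
  set e := Real.exp (-(2 * P.A / P.θ1) - 2 * (P.N : ℝ) * P.ε) with he
  have he4 : Real.exp (-(8 * P.A / P.θ1) - 8 * P.N * P.ε) = e ^ 4 := by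
    rw [he, ← Real.exp_nat_mul]
    congr 1
    push_cast
    ring
  have he0 : 0 < e := Real.exp_pos _
  have hc : ∀ f ∈ T, e * W f ≤ ∏ i, p (f i) := by
    intro f hf
    have := hcost f (memT f hf)
    simp only [hql] at this
    exact this
  rw [he4]
  calc 1 / 200 * e ^ 4 ≤ S1 * e ^ 4 := by
        apply mul_le_mul_of_nonneg_right hS
        positivity
    _ ≤ _ := by
        rw [hS1]
        simp only [Finset.sum_mul]
        refine Finset.sum_le_sum fun f₁ h₁ => Finset.sum_le_sum fun f₂ h₂ =>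
          Finset.sum_le_sum fun f₃ h₃ => Finset.sum_le_sum fun f₄ h₄ => ?_
        split_ifs with hcond
        · have w1 := mul_nonneg he0.le (hW0 f₁ h₁)
          have w2 := mul_nonneg he0.le (hW0 f₂ h₂)
          have w3 := mul_nonneg he0.le (hW0 f₃ h₃)
          have w4 := mul_nonneg he0.le (hW0 f₄ h₄)
          have c1 := hc f₁ h₁
          have c2 := hc f₂ h₂
          have c3 := hc f₃ h₃
          have c4 := hc f₄ h₄
          calc W f₁ * W f₂ * W f₃ * W f₄ * e ^ 4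
              = (e * W f₁) * (e * W f₂) * (e * W f₃) * (e * W f₄) := by ring
            _ ≤ _ := by
              apply mul_le_mul (mul_le_mul (mul_le_mul c1 c2 w2 (w1.trans c1)) c3 w3
                (mul_nonneg (w1.trans c1) (w2.trans c2))) c4 w4
              exact mul_nonneg (mul_nonneg (w1.trans c1) (w2.trans c2)) (w3.trans c3)
        · simp

end Pool.Agent.SBW
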