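import Pool.Agent.SBW.Targets

set_option autoImplicit false

/-!
# MP_b5172a_pr: target CN, a lower bound for the number of self-avoiding walks
-/

open scoped Classical

noncomputable section

namespace Pool.Agent.SBW

namespace CN_

variable {D : ℕ}

theorem saw_take {w : Wk D} (h : Saw w) (a : ℕ) : Saw (w.take a) := by
  intro i hi k hk hp
  rw [List.length_take] at hi hk
  refine h i (by omega) k (by omega) ?_
  intro j
  have h1 := hp j
  rw [pos_take_of_le w (by omega : i ≤ a), pos_take_of_le w (by omega : k ≤ a)] at h1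
  exact h1

theorem saw_drop {w : Wk D} (h : Saw w) (a : ℕ) : Saw (w.drop a) := by
  intro i hi k hk hp
  rw [List.length_drop] at hi hk
  rcases Nat.lt_or_ge w.length a with ha | ha
  · omega
  · have h1 : a + i = a + k := by
      refine h (a + i) (by omega) (a + k) (by omega) ?_
      intro j
      have h2 := hp j
      rw [pos_drop, pos_drop] at h2
      linarith
    omega

theorem cS_card (D n : ℕ) : cS D n 0 = ((SwF D n).card : ℝ) := by
  unfold cS
  simp

theorem card_add (D a b : ℕ) :
    (SwF D (a + b)).card ≤ (SwF D a).card * (SwF D b).card := by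
  rw [← Finset.card_product]
  apply Finset.card_le_card_of_injOn (fun w => (w.take a, w.drop a))
  · intro w hw
    have hw' := mem_SwF.1 (Finset.mem_coe.1 hw)
    apply Finset.mem_coe.2
    rw [Finset.mem_product]
    refine ⟨mem_SwF.2 ⟨?_, saw_take hw'.2 a⟩, mem_SwF.2 ⟨?_, saw_drop hw'.2 a⟩⟩
    · simp only [List.length_take]
      have := hw'.1
      omega
    · simp only [List.length_drop]
      have := hw'.1
      omega
  · intro w _ v _ h
    simp only [Prod.mk.injEq] at h
    rw [← List.take_append_drop a w, ← List.take_append_drop a v, h.1, h.2]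

theorem saw_nil : Saw ([] : Wk D) := by
  intro i hi k hk _
  simp at hi hk
  omega

theorem card_zero (D : ℕ) : (SwF D 0).card = 1 := by
  have : SwF D 0 = {([] : Wk D)} := by
    ext w
    rw [mem_SwF, Finset.mem_singleton]
    constructor
    · intro h
      exact List.length_eq_zero_iff.1 h.1
    · rintro rfl
      exact ⟨rfl, saw_nil⟩
  rw [this, Finset.card_singleton]

theorem card_mul (D n m : ℕ) : (SwF D (m * n)).card ≤ (SwF D n).card ^ m := by
  induction m with
  | zero => simp [card_zero]
  | succ m ih =>
    have h1 : (m + 1) * n = m * n + n := by ring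
    rw [h1, pow_succ]
    exact (card_add D (m * n) n).trans (Nat.mul_le_mul_right _ ih)

theorem bS_le_cS (D n : ℕ) : bS D n 0 ≤ cS D n 0 := by
  unfold bS cS
  apply Finset.sum_le_sum_of_subset_of_nonneg
  · intro w hw
    have h := mem_BrF.1 hw
    exact mem_SwF.2 ⟨h.1, h.2.1⟩
  · intro w _ _
    exact (Real.exp_pos _).le

theorem bS_pow (hS : T_SMUL) (D m n : ℕ) : bS D m 0 ^ n ≤ bS D (m * n) 0 := by
  induction n with
  | zero =>
    have := (hS D 0 0 0).2.1
    simp [this]
  | succ n ih =>
    have h1 : m * (n + 1) = m * n + m := by ring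
    rw [h1, pow_succ]
    have h2 := (hS D (m * n) m 0).1
    have h3 := (hS D 0 m 0).2.2.1
    exact (mul_le_mul_of_nonneg_right ih h3.le).trans h2

end CN_

open CN_ in
/-- CN -/
theorem p_CN : T_SMUL → T_PSUP → T_CN := by
  intro hS hP D n
  rcases Nat.eq_zero_or_pos n with h0 | h0
  · subst h0
    rw [cS_card, card_zero]
    simp
  · have hc : 0 < cS D n 0 := lt_of_lt_of_le (hS D 0 n 0).2.2.1 (bS_le_cS D n)
    have hn : (0 : ℝ) < n := by exact_mod_cast h0
    have key : PP D 0 ≤ Real.log (cS D n 0) / n := by
      apply (hP D 0).2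
      intro m
      have hb : 0 < bS D m 0 := (hS D 0 m 0).2.2.1
      have h1 : bS D m 0 ^ n ≤ cS D n 0 ^ m := by
        calc bS D m 0 ^ n ≤ bS D (m * n) 0 := bS_pow hS D m n
          _ ≤ cS D (m * n) 0 := bS_le_cS D _
          _ ≤ cS D n 0 ^ m := by
            rw [cS_card, cS_card]
            exact_mod_cast card_mul D n m
      have h2 : (n : ℝ) * Real.log (bS D m 0) ≤ m * Real.log (cS D n 0) := by
        have := Real.log_le_log (pow_pos hb n) h1
        rwa [Real.log_pow, Real.log_pow] at this
      rw [← Real.log_le_iff_le_exp hb]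
      rw [div_mul_eq_mul_div, le_div_iff₀ hn]
      linarith
    rw [← Real.le_log_iff_exp_le hc]
    rw [le_div_iff₀ hn] at key
    exact key

end Pool.Agent.SBW
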