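import Pool.Agent.SBW.Targets

set_option autoImplicit false

/-!
# MP_b5172a_pr: a good chain stays in a cone seen from its end
-/

open scoped Classical

noncomputable section

namespace Pool.Agent.SBW

namespace CONEB_

variable {D : ℕ}

theorem psm_full {n : ℕ} (g : Fin n → ℝ) : psm g n = ∑ i, g i := by
  unfold psm
  exact Finset.sum_congr rfl fun i _ => if_pos i.2

theorem psm_castSucc {n : ℕ} (g : Fin (n + 1) → ℝ) {k : ℕ} (hk : k ≤ n) :
    psm g k = psm (fun i : Fin n => g i.castSucc) k := by
  unfold psm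
  rw [Fin.sum_univ_castSucc, if_neg (by simpa using hk), add_zero]
  rfl

theorem psm_nonneg {n : ℕ} (g : Fin n → ℝ) (hg : ∀ i, 0 ≤ g i) (k : ℕ) : 0 ≤ psm g k := by
  unfold psm
  refine Finset.sum_nonneg fun i _ => ?_
  split_ifs
  · exact hg i
  · exact le_rfl

theorem pos_end {n : ℕ} (f : Fin n → Wk D) (j : Fin (D + 2)) :
    (pos (List.ofFn f).reverse.flatten (List.ofFn f).reverse.flatten.length j : ℝ) =
      psm (fun i => (pos (f i) (f i).length j : ℝ)) n := by
  rw [psm_full, pos_end_flatten, List.map_reverse, List.sum_reverse, List.map_ofFn,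
    List.sum_ofFn]
  push_cast
  rfl

theorem flat_succ {n : ℕ} (f : Fin (n + 1) → Wk D) :
    (List.ofFn f).reverse.flatten =
      f (Fin.last n) ++ (List.ofFn (fun i : Fin n => f i.castSucc)).reverse.flatten := by
  rw [List.ofFn_succ', List.concat_eq_append, List.reverse_append, List.reverse_singleton,
    List.singleton_append, List.flatten_cons]

theorem key : ∀ (n : ℕ) (f : Fin n → Wk D) (k : ℕ),
    k ≤ (List.ofFn f).reverse.flatten.length →
    k = (List.ofFn f).reverse.flatten.length ∨ ∃ i : Fin n, ∃ k' ≤ (f i).length,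
      ∀ j, (pos (List.ofFn f).reverse.flatten (List.ofFn f).reverse.flatten.length j : ℝ) -
          pos (List.ofFn f).reverse.flatten k j =
        ((pos (f i) (f i).length j : ℝ) - pos (f i) k' j) +
          psm (fun i => (pos (f i) (f i).length j : ℝ)) (i : ℕ) := by
  intro n
  induction n with
  | zero =>
    intro f k hk
    left
    simp only [List.ofFn_zero, List.reverse_nil, List.flatten_nil, List.length_nil] at hk ⊢
    omega
  | succ n ih =>
    intro f k hk
    rw [flat_succ] at hk ⊢
    set Fl := (List.ofFn (fun i : Fin n => f i.castSucc)).reverse.flatten with hFl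
    rcases Nat.lt_or_ge k (f (Fin.last n)).length with h | h
    · right
      refine ⟨Fin.last n, k, h.le, fun j => ?_⟩
      rw [pos_end_append, pos_append_left _ _ h.le, Fin.val_last,
        psm_castSucc (fun i => (pos (f i) (f i).length j : ℝ)) le_rfl]
      have h1 := pos_end (fun i : Fin n => f i.castSucc) j
      rw [← hFl] at h1
      push_cast
      rw [h1]
      ring
    · obtain ⟨k₁, rfl⟩ := Nat.exists_eq_add_of_le h
      rw [List.length_append] at hk
      rcases ih (fun i : Fin n => f i.castSucc) k₁ (by rw [← hFl]; omega) with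
        h1 | ⟨i, k', hk', hi⟩
      · left
        rw [List.length_append, h1]
      · right
        refine ⟨i.castSucc, k', hk', fun j => ?_⟩
        have h2 := hi j
        rw [pos_end_append, pos_append_right, Fin.val_castSucc,
          psm_castSucc (fun i => (pos (f i) (f i).length j : ℝ)) i.2.le]
        push_cast
        rw [← hFl] at h2
        linarith

theorem br_le {w : Wk D} (hw : Br w) {k : ℕ} (hk : k ≤ w.length) :
    pos w k 0 ≤ hx w ∧ 0 ≤ hx w := by
  have h0 : 0 ≤ hx w := by
    rcases Nat.eq_zero_or_pos w.length with h | h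
    · unfold hx
      rw [h, pos_zero]
    · exact (hw.2 w.length h le_rfl).1.le
  refine ⟨?_, h0⟩
  rcases Nat.eq_zero_or_pos k with h | h
  · rw [h, pos_zero]
    exact h0
  · exact (hw.2 k h hk).2

end CONEB_

open CONEB_ in
theorem p_CONEB : T_CONEB := by
  intro D P n f hh h1 h2 hbr hG k hk j hj
  have hN : (0 : ℝ) ≤ P.N := Nat.cast_nonneg _
  have hθ : 0 < P.θ1 + P.θ2 := by linarith
  rcases key n f k hk with h3 | ⟨i, k', hk', hi⟩
  · rw [← h3]
    have h4 : (hx (List.ofFn f).reverse.flatten : ℝ) - pos (List.ofFn f).reverse.flatten k 0 = 0 := by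
      rw [h3]
      exact sub_self _
    rw [h4, sub_self, abs_zero, mul_zero, add_zero]
    positivity
  · -- the main coordinate
    have hm := hi 0
    have hX : (fun i => (pos (f i) (f i).length 0 : ℝ)) = fun i => Xw (f i) := rfl
    rw [hX] at hm
    have hfi : (pos (f i) k' 0 : ℝ) ≤ pos (f i) (f i).length 0 := by
      exact_mod_cast (br_le (hbr i) hk').1
    set m : ℝ := (hx (List.ofFn f).reverse.flatten : ℝ) - pos (List.ofFn f).reverse.flatten k 0
      with hmdef
    have hm' : psm (fun i => Xw (f i)) (i : ℕ) ≤ m := by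
      have e : m = (pos (List.ofFn f).reverse.flatten (List.ofFn f).reverse.flatten.length 0 : ℝ) -
          pos (List.ofFn f).reverse.flatten k 0 := rfl
      rw [e, hm]
      linarith
    have hm0 : 0 ≤ m := by
      refine le_trans (psm_nonneg _ (fun i => ?_) _) hm'
      show (0 : ℝ) ≤ (hx (f i) : ℝ)
      exact_mod_cast (br_le (hbr i) (Nat.zero_le _)).2
    -- the lateral coordinate
    have hl := hi j
    have hY : (fun i => (pos (f i) (f i).length j : ℝ)) = fun i => Yw ⟨j, hj⟩ (f i) := rfl
    rw [hY] at hl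
    have hlat1 : |((pos (f i) (f i).length j : ℝ) - pos (f i) k' j)| ≤
        P.θ1 * P.h * max ((i : ℝ) + 1) (P.N : ℝ) := by
      have h5 := abs_pos_sub_le (f i) k' ((f i).length - k') j
      rw [Nat.add_sub_cancel' hk'] at h5
      have h6 : |((pos (f i) (f i).length j : ℝ) - pos (f i) k' j)| ≤ (((f i).length - k' : ℕ) : ℝ) := by
        have h7 : ((|pos (f i) (f i).length j - pos (f i) k' j| : ℤ) : ℝ) ≤
            ((((f i).length - k' : ℕ) : ℤ) : ℝ) := by exact_mod_cast h5
        push_cast at h7
        exact h7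
      have h8 : (((f i).length - k' : ℕ) : ℝ) ≤ Lw (f i) := by
        unfold Lw
        exact_mod_cast Nat.sub_le _ _
      exact (h6.trans h8).trans (hG.g1 i)
    have hlat2 := hG.g2 ⟨j, hj⟩ (i : ℕ) i.2.le
    have hlat : |(pos (List.ofFn f).reverse.flatten k j : ℝ) -
        pos (List.ofFn f).reverse.flatten (List.ofFn f).reverse.flatten.length j| ≤
        P.θ1 * P.h * max ((i : ℝ) + 1) (P.N : ℝ) + P.θ2 * P.h * max (i : ℝ) (P.N : ℝ) := by
      rw [abs_sub_comm, hl]
      exact (abs_add_le _ _).trans (add_le_add hlat1 hlat2)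
    refine hlat.trans ?_
    have hth1 : 0 < P.θ1 * P.h := mul_pos h1 hh
    have hth2 : 0 < P.θ2 * P.h := mul_pos h2 hh
    have hpm : 0 ≤ 4 * (P.θ1 + P.θ2) * m := by positivity
    rcases Nat.lt_or_ge (i : ℕ) P.N with hc | hc
    · have h9 : ((i : ℕ) : ℝ) + 1 ≤ P.N := by exact_mod_cast hc
      rw [max_eq_right h9, max_eq_right (by linarith)]
      nlinarith
    · have h9 : (P.N : ℝ) ≤ ((i : ℕ) : ℝ) := by exact_mod_cast hc
      rw [max_eq_left (by linarith), max_eq_left h9]
      have h10 := hG.g3 (i : ℕ) i.2.le hc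
      have h11 : P.h * (i : ℕ) ≤ 4 * m := by linarith
      have h12 : (P.θ1 + P.θ2) * (P.h * (i : ℕ)) ≤ (P.θ1 + P.θ2) * (4 * m) :=
        mul_le_mul_of_nonneg_left h11 hθ.le
      nlinarith

end Pool.Agent.SBW
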