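import Pool.Agent.SBW.Targets

set_option autoImplicit false

/-!
# MP_b5172a_pr, CONEF: good chains stay in a cone (from the start)
-/

open scoped Classical

noncomputable section

namespace Pool.Agent.SBW

namespace CONEF_

/-- partial sums along a list -/
theorem psm_take {α : Type*} (F : α → ℤ) : ∀ (n : ℕ) (f : Fin n → α) (k : ℕ),
    ((((List.ofFn f).take k).map F).sum : ℝ) = psm (fun i => (F (f i) : ℝ)) k := by
  intro n
  induction n with
  | zero =>
    intro f k
    simp [psm]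
  | succ n ih =>
    intro f k
    cases k with
    | zero => simp [psm]
    | succ k =>
      rw [List.ofFn_succ, List.take_succ_cons, List.map_cons, List.sum_cons]
      unfold psm
      rw [Fin.sum_univ_succ]
      have h := ih (fun i => f i.succ) k
      unfold psm at h
      rw [Int.cast_add, h]
      simp

theorem psm_all {n : ℕ} (g : Fin n → ℝ) (k : ℕ) (hk : n ≤ k) : psm g k = psm g n := by
  unfold psm
  refine Finset.sum_congr rfl fun i _ => ?_
  rw [if_pos (lt_of_lt_of_le i.2 hk), if_pos i.2]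

theorem br_nonneg {D : ℕ} {w : Wk D} (h : Br w) {k : ℕ} (hk : k ≤ w.length) :
    0 ≤ pos w k 0 := by
  rcases Nat.eq_zero_or_pos k with h0 | h0
  · rw [h0, pos_zero]
  · exact (h.2 k h0 hk).1.le

theorem psm_nonneg {n : ℕ} (g : Fin n → ℝ) (hg : ∀ i, 0 ≤ g i) (k : ℕ) : 0 ≤ psm g k := by
  unfold psm
  refine Finset.sum_nonneg fun i _ => ?_
  split_ifs
  · exact hg i
  · exact le_rfl

/-- the time `k` lies in the piece number `i` or at its end -/
theorem locate {D n : ℕ} (f : Fin n → Wk D) (k : ℕ) (hk : k ≤ (List.ofFn f).flatten.length) :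
    ∃ i ≤ n, ∃ b : Fin (D + 2) → ℤ,
      (∀ j, (pos (List.ofFn f).flatten k j : ℝ) =
        psm (fun i => ((pos (f i) (f i).length j : ℤ) : ℝ)) i + b j) ∧
      ((b = fun _ => 0) ∨ ∃ i' : Fin n, (i' : ℕ) = i ∧ ∃ k' ≤ (f i').length,
        ∀ j, b j = pos (f i') k' j) := by
  rcases Nat.lt_or_ge k (List.ofFn f).flatten.length with h | h
  · obtain ⟨i, hi, k', hk', _, hp⟩ := pos_flatten (List.ofFn f) k h
    have hi' : i < n := by simpa using hi
    refine ⟨i, hi'.le, fun j => pos (f ⟨i, hi'⟩) k' j, ?_, Or.inr ⟨⟨i, hi'⟩, rfl, k', ?_,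
      fun j => rfl⟩⟩
    · intro j
      rw [hp j, Int.cast_add, psm_take (fun w : Wk D => pos w w.length j) n f i]
      simp
    · simpa using hk'.le
  · have hk2 : k = (List.ofFn f).flatten.length := le_antisymm hk h
    refine ⟨n, le_rfl, fun _ => 0, ?_, Or.inl rfl⟩
    intro j
    rw [hk2, pos_end_flatten]
    have := psm_take (fun w : Wk D => pos w w.length j) n f n
    rw [List.take_of_length_le (by simp)] at this
    rw [this]
    simp

theorem final {h θ1 θ2 m A b c x N i : ℝ} (h0 : 0 < h) (t1 : 0 < θ1) (t2 : 0 < θ2)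
    (hN : 0 ≤ N) (hm : m = x + c) (hc : 0 ≤ c) (hx : 0 ≤ x)
    (hA : |A| ≤ θ2 * h * max i N) (hb : |b| ≤ θ1 * h * max (i + 1) N)
    (hor : i + 1 ≤ N ∨ (N ≤ i ∧ h / 4 * i ≤ x)) :
    |A + b| ≤ (θ1 + θ2) * h * (N + 1) + 4 * (θ1 + θ2) * m := by
  have h1 := abs_add_le A b
  have hth : 0 < (θ1 + θ2) * h := by positivity
  rcases hor with h2 | ⟨h2, h3⟩
  · rw [max_eq_right (by linarith)] at hA
    rw [max_eq_right h2] at hb
    have h4 : 0 ≤ 4 * (θ1 + θ2) * m := by
      rw [hm]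
      positivity
    nlinarith
  · rw [max_eq_left h2] at hA
    rw [max_eq_left (by linarith)] at hb
    have h4 : 4 * (θ1 + θ2) * (h / 4 * i) ≤ 4 * (θ1 + θ2) * m := by
      apply mul_le_mul_of_nonneg_left _ (by positivity)
      linarith
    have h5 : (θ1 + θ2) * h * 1 ≤ (θ1 + θ2) * h * (N + 1) :=
      mul_le_mul_of_nonneg_left (by linarith) hth.le
    have h6 : 0 < θ2 * h := by positivity
    nlinarith

end CONEF_

open CONEF_ in
/-- CONEF. -/
theorem p_CONEF : T_CONEF := by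
  intro D P n f h0 t1 t2 hBr hG k hk j hj
  obtain ⟨i, hi, b, hp, hb⟩ := locate f k hk
  have hlat := hp j
  have hmain := hp 0
  rw [hlat]
  have hx : ∀ i, 0 ≤ ((pos (f i) (f i).length 0 : ℤ) : ℝ) := by
    intro i
    exact_mod_cast br_nonneg (hBr i) le_rfl
  have hg2 : |psm (fun i => ((pos (f i) (f i).length j : ℤ) : ℝ)) i| ≤
      P.θ2 * P.h * max (i : ℝ) (P.N : ℝ) := hG.g2 ⟨j, hj⟩ i hi
  have hg3 : P.N ≤ i → P.h / 4 * i ≤ psm (fun i => ((pos (f i) (f i).length 0 : ℤ) : ℝ)) i :=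
    fun h => hG.g3 i hi h
  have hbj : |(b j : ℝ)| ≤ P.θ1 * P.h * max ((i : ℝ) + 1) (P.N : ℝ) ∧ 0 ≤ (b 0 : ℝ) := by
    rcases hb with rfl | ⟨i', hi', k', hk', hb'⟩
    · simp only [Int.cast_zero, abs_zero, le_refl, and_true]
      positivity
    · constructor
      · rw [hb' j]
        have h1 := abs_pos_le (f i') k' j
        have h2 : |((pos (f i') k' j : ℤ) : ℝ)| ≤ (k' : ℝ) := by exact_mod_cast h1
        have h3 : (k' : ℝ) ≤ Lw (f i') := by
          unfold Lw
          exact_mod_cast hk'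
        have h4 := hG.g1 i'
        rw [hi'] at h4
        linarith
      · rw [hb' 0]
        exact_mod_cast br_nonneg (hBr i') hk'
  have hor : (i : ℝ) + 1 ≤ (P.N : ℝ) ∨ ((P.N : ℝ) ≤ (i : ℝ) ∧
      P.h / 4 * i ≤ psm (fun i => ((pos (f i) (f i).length 0 : ℤ) : ℝ)) i) := by
    rcases Nat.lt_or_ge i P.N with h | h
    · left
      exact_mod_cast h
    · right
      exact ⟨by exact_mod_cast h, hg3 h⟩
  exact final h0 t1 t2 (Nat.cast_nonneg _) hmain hbj.2 (psm_nonneg _ hx i) hg2 hbj.1 hor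

end Pool.Agent.SBW
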