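import Pool.Agent.SBW.Targets

set_option autoImplicit false

/-!
# MP_b5172a_pr: translation to the set of walks of the problem
-/

open scoped Classical

noncomputable section

namespace Pool.Agent.SBW

namespace CONV_

variable {D : ℕ}

theorem sg_ne (b : Bool) : sg b ≠ 0 := by cases b <;> simp [sg]

theorem abs_sg (b : Bool) : |sg b| = 1 := by cases b <;> simp [sg]

theorem sg_inj {a b : Bool} (h : sg a = sg b) : a = b := by
  cases a <;> cases b <;> simp [sg] at h ⊢

/-- unit vectors are steps -/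
theorem exists_step (v : Fin (D + 2) → ℤ) (h : ∑ i, |v i| = 1) :
    ∃ s : St D, ∀ j, stv s j = v j := by
  have h1 : ∃ i, v i ≠ 0 := by
    by_contra hc
    push Not at hc
    rw [Finset.sum_eq_zero fun i _ => by rw [hc i, abs_zero]] at h
    norm_num at h
  obtain ⟨i, hi⟩ := h1
  have h2 := Finset.add_sum_erase Finset.univ (fun i => |v i|) (Finset.mem_univ i)
  have h3 : 1 ≤ |v i| := Int.one_le_abs hi
  have h4 : 0 ≤ ∑ k ∈ Finset.univ.erase i, |v k| := Finset.sum_nonneg fun k _ => abs_nonneg _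
  have h2' : |v i| + ∑ k ∈ Finset.univ.erase i, |v k| = 1 := h2.trans h
  have h5 : ∑ k ∈ Finset.univ.erase i, |v k| = 0 := by linarith
  have h6 : |v i| = 1 := by linarith
  have h7 : ∀ k, k ≠ i → v k = 0 := by
    intro k hk
    have := (Finset.sum_eq_zero_iff_of_nonneg fun k _ => abs_nonneg (v k)).1 h5 k
      (Finset.mem_erase.2 ⟨hk, Finset.mem_univ k⟩)
    exact abs_eq_zero.1 this
  rcases (abs_eq (by norm_num : (0 : ℤ) ≤ 1)).1 h6 with h8 | h8
  · refine ⟨(i, true), fun j => ?_⟩
    by_cases hj : i = j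
    · subst hj; simp [stv, sg, h8]
    · simp [stv, hj, h7 j (fun h => hj h.symm)]
  · refine ⟨(i, false), fun j => ?_⟩
    by_cases hj : i = j
    · subst hj; simp [stv, sg, h8]
    · simp [stv, hj, h7 j (fun h => hj h.symm)]

theorem sum_abs_stv (s : St D) : ∑ j, |stv s j| = 1 := by
  rw [Finset.sum_eq_single s.1]
  · simp [stv, abs_sg]
  · intro j _ hj
    have h : ¬ s.1 = j := fun h => hj h.symm
    simp [stv, h]
  · intro h
    exact absurd (Finset.mem_univ _) h

theorem stv_inj {s s' : St D} (h : ∀ j, stv s j = stv s' j) : s = s' := by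
  obtain ⟨a, b⟩ := s
  obtain ⟨a', b'⟩ := s'
  have h1 := h a
  have hab : a' = a := by
    by_contra hc
    simp only [stv, if_true, hc, if_false] at h1
    exact sg_ne b h1
  subst hab
  simp only [stv, if_true] at h1
  rw [sg_inj h1]

/-- the walk as a function -/
def Phi (n : ℕ) (w : Wk D) : Fin (n + 1) → Fin (D + 2) → ℤ := fun k j => pos w k j

/-- the set of the problem -/
def SS (D n : ℕ) : Set (Fin (n + 1) → Fin (D + 2) → ℤ) :=
  {γ : Fin (n + 1) → Fin (D + 2) → ℤ | γ 0 = 0 ∧ Function.Injective γ ∧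
      ∀ k : Fin n, ∑ i : Fin (D + 2), |γ k.succ i - γ k.castSucc i| = 1}

theorem mem_SS_of (n : ℕ) {w : Wk D} (hw : w ∈ SwF D n) : Phi n w ∈ SS D n := by
  obtain ⟨hl, hs⟩ := mem_SwF.1 hw
  refine ⟨?_, ?_, ?_⟩
  · funext j
    simp [Phi]
  · intro i k hik
    have h1 : (i : ℕ) = k := hs i (by have := i.2; omega) k (by have := k.2; omega)
      (fun j => congrFun hik j)
    exact Fin.ext h1
  · intro k
    have hk : (k : ℕ) < w.length := by rw [hl]; exact k.2
    have : ∀ i : Fin (D + 2), Phi n w k.succ i - Phi n w k.castSucc i = stv w[(k : ℕ)] i := by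
      intro i
      simp only [Phi, Fin.val_succ, Fin.val_castSucc]
      rw [pos_succ w hk]
      ring
    rw [Finset.sum_congr rfl fun i _ => by rw [this i]]
    exact sum_abs_stv _

theorem Phi_injOn (n : ℕ) : Set.InjOn (Phi (D := D) n) (SwF D n : Set (Wk D)) := by
  intro w hw w' hw' h
  obtain ⟨hl, -⟩ := mem_SwF.1 (Finset.mem_coe.1 hw)
  obtain ⟨hl', -⟩ := mem_SwF.1 (Finset.mem_coe.1 hw')
  have hpos : ∀ k ≤ n, ∀ j, pos w k j = pos w' k j := fun k hk j =>
    congrFun (congrFun h ⟨k, by omega⟩) j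
  apply List.ext_getElem (by rw [hl, hl'])
  intro i h1 h2
  apply stv_inj
  intro j
  have e1 := pos_succ w h1 j
  have e2 := pos_succ w' h2 j
  rw [hpos (i + 1) (by omega) j, hpos i (by omega) j] at e1
  linarith

theorem surj (n : ℕ) {γ : Fin (n + 1) → Fin (D + 2) → ℤ} (hγ : γ ∈ SS D n) :
    ∃ w ∈ SwF D n, Phi n w = γ := by
  obtain ⟨h0, hi, hs⟩ := hγ
  choose s hs' using fun k : Fin n => exists_step (fun i => γ k.succ i - γ k.castSucc i) (hs k)
  have hlen : (List.ofFn s).length = n := List.length_ofFn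
  have hpos : ∀ k, (hk : k ≤ n) → ∀ j, pos (List.ofFn s) k j = γ ⟨k, by omega⟩ j := by
    intro k
    induction k with
    | zero =>
      intro hk j
      have : γ ⟨0, by omega⟩ = 0 := h0
      rw [this]
      simp
    | succ k ih =>
      intro hk j
      rw [pos_succ _ (by rw [hlen]; omega), ih (by omega) j, List.getElem_ofFn, hs']
      have e1 : (⟨k, by omega⟩ : Fin n).succ = (⟨k + 1, by omega⟩ : Fin (n + 1)) := rfl
      have e2 : (⟨k, by omega⟩ : Fin n).castSucc = (⟨k, by omega⟩ : Fin (n + 1)) := rfl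
      rw [e1, e2]
      ring
  refine ⟨List.ofFn s, mem_SwF.2 ⟨hlen, ?_⟩, ?_⟩
  · intro i hi' k hk hik
    rw [hlen] at hi' hk
    have : γ ⟨i, by omega⟩ = γ ⟨k, by omega⟩ := by
      funext j
      rw [← hpos i hi' j, ← hpos k hk j]
      exact hik j
    have := hi this
    exact congrArg Fin.val this
  · funext k j
    exact hpos k (by have := k.2; omega) j

theorem image_eq (n : ℕ) : Phi n '' (SwF D n : Set (Wk D)) = SS D n := by
  apply Set.Subset.antisymm
  · rintro _ ⟨w, hw, rfl⟩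
    exact mem_SS_of n (Finset.mem_coe.1 hw)
  · intro γ hγ
    obtain ⟨w, hw, h⟩ := surj n hγ
    exact ⟨w, Finset.mem_coe.2 hw, h⟩

end CONV_

theorem p_CONV : T_CONV := by
  intro D n
  constructor
  · change (∑ᶠ γ ∈ CONV_.SS D n,
      ((∑ i : Fin (D + 2), (γ (Fin.last n) i) ^ 2 : ℤ) : ℝ)) = _
    rw [← CONV_.image_eq n, finsum_mem_image (CONV_.Phi_injOn n), finsum_mem_coe_finset]
    refine Finset.sum_congr rfl fun w _ => ?_
    simp only [CONV_.Phi, Fin.val_last]
    push_cast
    rfl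
  · change (CONV_.SS D n).ncard = _
    rw [← CONV_.image_eq n, Set.InjOn.ncard_image (CONV_.Phi_injOn n), Set.ncard_coe_finset]

end Pool.Agent.SBW
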