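import Pool.Agent.SBW.Targets

set_option autoImplicit false

/-!
# MP_b5172a_pr: the main comparison (COUNT)
-/

open scoped Classical

noncomputable section

namespace Pool.Agent.SBW

namespace COUNT_

/-- the conditions of OUT for one input -/
def Cnd (D r Nm : ℕ) (t θ hm : ℝ) (x : List (Wk D) × List (Wk D)) (a : ℕ) : Prop :=
  (∀ w ∈ x.1, Irr w) ∧ (∀ w ∈ x.2, Irr w) ∧ a ≤ x.1.flatten.length ∧
    Br (glue x.1.flatten a x.2.flatten) ∧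
    Val r θ hm (glue x.1.flatten a x.2.flatten) a (a + x.2.flatten.length) ∧
    x.1.flatten.length + x.2.flatten.length ≤ Nm ∧
    t * ((hx x.1.flatten : ℝ) + hx x.2.flatten) ≤ 1

theorem len_GS {D K n₁ n₂ J : ℕ} {P : Par} {x : List (Wk D) × List (Wk D)}
    (hx : x ∈ GS D K P n₁ n₂ J) :
    x.1.length = n₁ + 4 * P.N + n₂ ∧ x.2.length = 2 * J := by
  unfold GS at hx
  obtain ⟨z, -, rfl⟩ := Finset.mem_image.1 hx
  constructor
  · simp only [Rl, List.length_append, List.length_reverse, List.length_ofFn]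
    ring
  · simp only [Sl, List.length_append, List.length_reverse, List.length_ofFn]
    ring

theorem cnd_GS (hR : T_RCOND) (hS : T_SCONE) (hG : T_GLUE) {D K J₀ r Nm n₂ J : ℕ} {t θ : ℝ}
    {P : Par} (hP : ParOK (D + 1) P) (hN : NumOK P J₀ r Nm t θ) (h1 : 10 ^ 5 * J₀ ≤ n₂)
    (h2 : n₂ ≤ 2 * (10 ^ 5 * J₀)) (h3 : J₀ ≤ J) (h4 : J ≤ 2 * J₀)
    {x : List (Wk D) × List (Wk D)} (hx' : x ∈ GS D K P (10 ^ 5 * J₀) n₂ J) :
    ∃ a, Cnd D r Nm t θ (P.h / 4 * J₀) x a := by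
  unfold GS at hx'
  obtain ⟨⟨f₁, ⟨g₁, g₂, g₃, g₄⟩, f₂, s₁, s₂⟩, hz, rfl⟩ := Finset.mem_image.1 hx'
  rw [Finset.mem_filter] at hz
  obtain ⟨hmem, hf₁, ⟨hg₁, hg₂, hg₃, hg₄, hb1, hb2⟩, hf₂, hs₁, hs₂⟩ := hz
  simp only [Finset.mem_product, Fintype.mem_piFinset, mem_IrLe] at hmem
  obtain ⟨mf₁, ⟨mg₁, mg₂, mg₃, mg₄⟩, mf₂, ms₁, ms₂⟩ := hmem
  dsimp only at hf₁ hg₁ hg₂ hg₃ hg₄ hb1 hb2 hf₂ hs₁ hs₂ ⊢
  have hh := hP.h0
  have hA := hP.A1
  have hB := hP.B1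
  have hθ1 := hP.t1
  have hθ2 := hP.t2
  have hN1 := hP.N1
  have hNJ := hN.NJ
  have hr1 := hN.r1
  have hr2 := hN.r2
  have hth1 := hN.θ1
  have hth2 := hN.θ2
  have hr3 := hN.r3
  have hhm := hN.hm
  have hQ := hN.Q
  have hex := hN.ex
  have hth := hN.th
  have hNm := hN.Nm
  have ht0 := hN.t0
  have hJ0 : 1 ≤ J₀ := le_trans hN1 hNJ
  -- real versions
  have h1' : (10 : ℝ) ^ 5 * J₀ ≤ n₂ := by exact_mod_cast h1
  have h2' : (n₂ : ℝ) ≤ 2 * (10 ^ 5 * J₀) := by exact_mod_cast h2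
  have h3' : (J₀ : ℝ) ≤ J := by exact_mod_cast h3
  have h4' : (J : ℝ) ≤ 2 * J₀ := by exact_mod_cast h4
  have hn1 : ((10 ^ 5 * J₀ : ℕ) : ℝ) = 10 ^ 5 * (J₀ : ℝ) := by push_cast; ring
  have hBh : 0 < P.B * P.h := by positivity
  have hAh : 0 < P.A * P.h := by positivity
  have hθs : 0 < P.θ1 + P.θ2 := by linarith
  have hN0 : (0 : ℝ) ≤ (P.N : ℝ) := Nat.cast_nonneg _
  have hθ4 : 4 * (P.θ1 + P.θ2) ≤ θ := by
    have : 4 * (P.θ1 + P.θ2) * 1 ≤ 4 * (P.θ1 + P.θ2) * (1 + 512 * P.B) := by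
      apply mul_le_mul_of_nonneg_left _ (by positivity)
      linarith
    linarith
  have hθ0 : 0 ≤ θ := by linarith
  have hr3' : 3 * (P.θ1 + P.θ2) * P.h * (P.N + 1) ≤ r := by
    have : 3 * ((P.θ1 + P.θ2) * P.h * (P.N + 1)) ≤ 8 * ((P.θ1 + P.θ2) * P.h * (P.N + 1)) := by
      have : 0 ≤ (P.θ1 + P.θ2) * P.h * (P.N + 1) := by positivity
      linarith
    linarith
  obtain ⟨⟨a, hRC⟩, hR1, hR2⟩ := hR D P (10 ^ 5 * J₀) n₂ r θ f₁ g₁ g₂ g₃ g₄ f₂ hh hθ1 hθ2 hB hN1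
    (le_trans hNJ (by omega)) h1 (fun i => (mf₁ i).2) (fun i => (mg₁ i).2) (fun i => (mg₂ i).2)
    (fun i => (mg₃ i).2) (fun i => (mg₄ i).2) (fun i => (mf₂ i).2) hf₁ hf₂ hg₁ hg₂ hg₃ hg₄
    hb1 hb2 hr2 hθ4
  obtain ⟨hSC, hS1, hS2, hS3⟩ := hS D P J r θ s₁ s₂ hh hθ1 hθ2 hB hN1 (le_trans hNJ h3)
    (fun i => (ms₁ i).2) (fun i => (ms₂ i).2) hs₁ hs₂ hr3' hth1
  rw [hn1] at hRC hR1 hR2
  set R := (Rl f₁ g₁ g₂ g₃ g₄ f₂).flatten with hRdef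
  set S := (Sl s₁ s₂).flatten with hSdef
  have hhmS : P.h / 4 * J₀ ≤ (hx S : ℝ) := by
    refine le_trans ?_ hS1
    apply mul_le_mul_of_nonneg_left h3' (by positivity)
  have hS2' : (hx S : ℝ) ≤ 128 * P.B * P.h * (2 * J₀) := by
    refine le_trans hS2 ?_
    apply mul_le_mul_of_nonneg_left h4' (by positivity)
  have hS3' : (S.length : ℝ) ≤ 128 * P.A * P.h * (2 * J₀) := by
    refine le_trans hS3 ?_
    apply mul_le_mul_of_nonneg_left h4' (by positivity)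
  have hnn : (10 : ℝ) ^ 5 * J₀ + n₂ ≤ 3 * (10 ^ 5 * J₀) := by linarith
  have hR1' : (hx R : ℝ) ≤ 64 * P.B * P.h * (3 * (10 ^ 5 * J₀)) + 16000 * P.B * P.h * P.N := by
    have : 64 * P.B * P.h * ((10 : ℝ) ^ 5 * J₀ + n₂) ≤ 64 * P.B * P.h * (3 * (10 ^ 5 * J₀)) :=
      mul_le_mul_of_nonneg_left hnn (by positivity)
    linarith
  have hR2' : (R.length : ℝ) ≤
      64 * P.A * P.h * (3 * (10 ^ 5 * J₀)) + 16000 * P.A * P.h * P.N := by
    have : 64 * P.A * P.h * ((10 : ℝ) ^ 5 * J₀ + n₂) ≤ 64 * P.A * P.h * (3 * (10 ^ 5 * J₀)) :=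
      mul_le_mul_of_nonneg_left hnn (by positivity)
    linarith
  have hex' : 4 * (r : ℝ) + 8 * (P.θ1 + P.θ2) *
      (64 * P.B * P.h * (10 ^ 5 * J₀ + n₂) + 16000 * P.B * P.h * P.N) + 1 < P.h / 4 * J₀ := by
    have e1 : 64 * P.B * P.h * ((10 : ℝ) ^ 5 * J₀ + n₂) ≤ 64 * P.B * P.h * (3 * (10 ^ 5 * J₀)) :=
      mul_le_mul_of_nonneg_left hnn (by positivity)
    have e2 : 8 * (P.θ1 + P.θ2) *
        (64 * P.B * P.h * (10 ^ 5 * J₀ + n₂) + 16000 * P.B * P.h * P.N) ≤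
        8 * (P.θ1 + P.θ2) *
        (64 * P.B * P.h * (3 * (10 ^ 5 * J₀)) + 16000 * P.B * P.h * P.N) :=
      mul_le_mul_of_nonneg_left (by linarith) (by positivity)
    linarith
  have hQ' : 2 * (r : ℝ) + 2 * θ * (hx S : ℝ) + 16000 * P.B * P.h * P.N + 1 ≤
      P.h / 4 * (10 ^ 5 * J₀) := by
    have : 2 * θ * (hx S : ℝ) ≤ 2 * θ * (128 * P.B * P.h * (2 * J₀)) :=
      mul_le_mul_of_nonneg_left hS2' (by positivity)
    linarith
  obtain ⟨hBr, hVal, -⟩ := hG D r θ (P.h / 4 * P.N) (16000 * P.B * P.h * P.N)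
    (P.h / 4 * (10 ^ 5 * J₀)) _ (P.h / 4 * J₀) R S a hRC hSC hθ0 hth2 hr1 (by positivity)
    hr3 hhm hhmS hex' hQ'
  refine ⟨a, ?_, ?_, hRC.le, hBr, hVal, ?_, ?_⟩
  · intro w hw
    simp only [Rl, List.mem_append, List.mem_reverse, List.mem_ofFn] at hw
    rcases hw with (⟨i, rfl⟩ | (((⟨i, rfl⟩ | ⟨i, rfl⟩) | ⟨i, rfl⟩) | ⟨i, rfl⟩)) | ⟨i, rfl⟩
    · exact (mf₁ i).2
    · exact (mg₁ i).2
    · exact (mg₂ i).2
    · exact (mg₃ i).2
    · exact (mg₄ i).2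
    · exact (mf₂ i).2
  · intro w hw
    simp only [Sl, List.mem_append, List.mem_reverse, List.mem_ofFn] at hw
    rcases hw with ⟨i, rfl⟩ | ⟨i, rfl⟩
    · exact (ms₁ i).2
    · exact (ms₂ i).2
  · have : ((R.length + S.length : ℕ) : ℝ) ≤ (Nm : ℝ) := by
      push_cast
      linarith
    exact_mod_cast this
  · refine le_trans ?_ hth
    apply mul_le_mul_of_nonneg_left _ ht0
    change (hx R : ℝ) + (hx S : ℝ) ≤ _
    linarith

end COUNT_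

open COUNT_

theorem p_COUNT : T_INP → T_RCOND → T_SCONE → T_GLUE → T_OUT → T_BFL → T_COUNT := by
  intro hI hR hS hG hO _ D K J₀ r Nm t θ P hP hL hN
  have hJ0 : 1 ≤ J₀ := le_trans hP.N1 hN.NJ
  set n₁ := 10 ^ 5 * J₀ with hn₁
  set I : Finset (ℕ × ℕ) := (Finset.Ico n₁ (2 * n₁)) ×ˢ (Finset.Ico J₀ (2 * J₀)) with hIdef
  set G : Finset (List (Wk D) × List (Wk D)) :=
    I.biUnion (fun q => GS D K P n₁ q.1 q.2) with hGdef
  have hdisj : (I : Set (ℕ × ℕ)).PairwiseDisjoint (fun q => GS D K P n₁ q.1 q.2) := by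
    intro q _ q' _ hqq
    rw [Function.onFun, Finset.disjoint_left]
    intro x hx1 hx2
    obtain ⟨a1, a2⟩ := len_GS hx1
    obtain ⟨b1, b2⟩ := len_GS hx2
    apply hqq
    ext
    · omega
    · omega
  have hsum : ∑ x ∈ G, (x.1.map (pw D t)).prod * (x.2.map (pw D t)).prod =
      ∑ q ∈ I, ∑ x ∈ GS D K P n₁ q.1 q.2,
        (x.1.map (pw D t)).prod * (x.2.map (pw D t)).prod := by
    rw [hGdef, Finset.sum_biUnion hdisj]
  have hcard : (I.card : ℝ) = (J₀ : ℝ) * (10 ^ 5 * J₀) := by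
    rw [hIdef, Finset.card_product, Nat.card_Ico, Nat.card_Ico]
    have e1 : 2 * n₁ - n₁ = n₁ := by omega
    have e2 : 2 * J₀ - J₀ = J₀ := by omega
    rw [e1, e2, hn₁]
    push_cast
    ring
  have hlow : (I.card : ℝ) * (1 / 3200 * Real.exp (-(16 * P.A / P.θ1) -
      2 * P.ε * (3 * (10 ^ 5 * J₀) + 4 * P.N + 4 * J₀))) ≤
      ∑ x ∈ G, (x.1.map (pw D t)).prod * (x.2.map (pw D t)).prod := by
    rw [hsum, ← nsmul_eq_mul]
    refine Finset.card_nsmul_le_sum _ _ _ ?_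
    intro q hq
    rw [hIdef, Finset.mem_product, Finset.mem_Ico, Finset.mem_Ico] at hq
    refine le_trans ?_ (hI D K n₁ q.1 q.2 t P hP hL)
    apply mul_le_mul_of_nonneg_left _ (by norm_num)
    apply Real.exp_le_exp.2
    have e1 : (q.1 : ℝ) ≤ 2 * (10 ^ 5 * J₀) := by
      have : q.1 ≤ 2 * n₁ := le_of_lt hq.1.2
      rw [hn₁] at this
      exact_mod_cast this
    have e2 : (q.2 : ℝ) ≤ 2 * J₀ := by exact_mod_cast le_of_lt hq.2.2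
    have e3 : (n₁ : ℝ) = 10 ^ 5 * J₀ := by rw [hn₁]; push_cast; ring
    rw [e3]
    have e4 : 2 * P.ε * (10 ^ 5 * J₀ + q.1 + 4 * P.N + 2 * q.2) ≤
        2 * P.ε * (3 * (10 ^ 5 * J₀) + 4 * P.N + 4 * J₀) := by
      apply mul_le_mul_of_nonneg_left _ (by have := hP.e0; linarith)
      linarith
    linarith
  have hex : ∀ x : List (Wk D) × List (Wk D), ∃ a : ℕ, x ∈ G →
      Cnd D r Nm t θ (P.h / 4 * J₀) x a := by
    intro x
    by_cases hx1 : x ∈ G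
    · rw [hGdef, Finset.mem_biUnion] at hx1
      obtain ⟨q, hq, hxq⟩ := hx1
      rw [hIdef, Finset.mem_product, Finset.mem_Ico, Finset.mem_Ico] at hq
      obtain ⟨a, ha⟩ := cnd_GS hR hS hG hP hN hq.1.1 (le_of_lt hq.1.2) hq.2.1
        (le_of_lt hq.2.2) hxq
      exact ⟨a, fun _ => ha⟩
    · exact ⟨0, fun h => absurd h hx1⟩
  choose a ha using hex
  have hθ0 : 0 ≤ θ := by
    have h1 := hN.θ1
    have h2 := hP.t1
    have h3 := hP.t2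
    have h4 := hP.B1
    have : 0 ≤ 4 * (P.θ1 + P.θ2) * (1 + 512 * P.B) := by positivity
    linarith
  have hup := hO D r Nm t θ (P.h / 4 * J₀) hN.t0 hθ0 hN.θ2 hN.r1 G a (fun x hx1 => ha x hx1)
  rw [← hcard]
  exact le_trans hlow hup

end Pool.Agent.SBW
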