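import Pool.Agent.SBW.Targets

set_option autoImplicit false

/-!
# MP_b5172a_pr: CUTC, the number of cut times of the unfolded walk
-/

open scoped Classical

noncomputable section

namespace Pool.Agent.SBW

namespace CUTC_

variable {D : ℕ}

lemma gsh_nonneg {w : Wk D} {p : ℕ × ℕ} (hp : Pair w p) {k : ℕ} :
    0 ≤ gsh w p k := by
  obtain ⟨h1, h2, h3, h4, h5, h6⟩ := hp
  unfold gsh
  split_ifs with a b
  · exact le_refl _
  · have := h3 k b
    omega
  · have := h3 p.2 le_rfl
    omega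

lemma gsh_le {w : Wk D} {p : ℕ × ℕ} (hp : Pair w p) {k : ℕ} (hk : k ≤ w.length) :
    gsh w p k ≤ pos w p.1 0 - pos w p.2 0 := by
  obtain ⟨h1, h2, h3, h4, h5, h6⟩ := hp
  have h7 := h3 p.2 le_rfl
  unfold gsh
  split_ifs with a b
  · omega
  · have := h5 k (by omega) hk
    omega
  · exact le_refl _

lemma gsh_zero {w : Wk D} {p : ℕ × ℕ} {k : ℕ} (hk : k ≤ p.1) : gsh w p k = 0 := by
  unfold gsh
  rw [if_pos hk]

lemma gsh_full {w : Wk D} {p : ℕ × ℕ} (hp : p.1 < p.2) {k : ℕ} (hk : p.2 ≤ k) :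
    gsh w p k = pos w p.1 0 - pos w p.2 0 := by
  unfold gsh
  rw [if_neg (by omega)]
  split_ifs with a
  · have : k = p.2 := by omega
    rw [this]
  · rfl

/-- cut times have different heights -/
lemma cut_lt {w : Wk D} {c c' : ℕ} (hc : Cut w c) (hc' : Cut w c') (h : c < c') :
    pos w c 0 < pos w c' 0 := hc.2.2 c' h hc'.1

lemma cut_inj {w : Wk D} {c c' : ℕ} (hc : Cut w c) (hc' : Cut w c')
    (h : pos w c 0 = pos w c' 0) : c = c' := by
  rcases Nat.lt_trichotomy c c' with h1 | h1 | h1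
  · have := cut_lt hc hc' h1; omega
  · exact h1
  · have := cut_lt hc' hc h1; omega

/-- `p` is the last pair before `c`, and `c` is covered by no pair -/
def LA (S : Finset (ℕ × ℕ)) (p : ℕ × ℕ) (c : ℕ) : Prop :=
  p.2 < c ∧ ∀ q ∈ S, (q.2 ≤ p.2 ∧ q.2 < c) ∨ (p.2 < q.2 ∧ c < q.1)

/-- `p` is the first pair after `c`, and `c` is covered by no pair -/
def FB (S : Finset (ℕ × ℕ)) (p : ℕ × ℕ) (c : ℕ) : Prop :=
  c < p.1 ∧ ∀ q ∈ S, (q.1 < p.1 ∧ q.2 < c) ∨ (p.1 ≤ q.1 ∧ c < q.1)

lemma sum_LA {w : Wk D} {S : Finset (ℕ × ℕ)} (hS : ∀ q ∈ S, q.1 < q.2) {p : ℕ × ℕ} {c : ℕ}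
    (h : LA S p c) : ∑ q ∈ S, gsh w q c =
      ∑ q ∈ S, if q.2 ≤ p.2 then pos w q.1 0 - pos w q.2 0 else 0 := by
  refine Finset.sum_congr rfl fun q hq => ?_
  rcases h.2 q hq with ⟨h1, h2⟩ | ⟨h1, h2⟩
  · rw [if_pos h1, gsh_full (hS q hq) h2.le]
  · rw [if_neg (by omega), gsh_zero h2.le]

lemma sum_FB {w : Wk D} {S : Finset (ℕ × ℕ)} (hS : ∀ q ∈ S, q.1 < q.2) {p : ℕ × ℕ} {c : ℕ}
    (h : FB S p c) : ∑ q ∈ S, gsh w q c =
      ∑ q ∈ S, if q.1 < p.1 then pos w q.1 0 - pos w q.2 0 else 0 := by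
  refine Finset.sum_congr rfl fun q hq => ?_
  rcases h.2 q hq with ⟨h1, h2⟩ | ⟨h1, h2⟩
  · rw [if_pos h1, gsh_full (hS q hq) h2.le]
  · rw [if_neg (by omega), gsh_zero h2.le]

end CUTC_

open CUTC_ in
theorem p_CUTC : T_PDIS → T_UNFP → T_UNF → T_CUTC := by
  intro hPDIS hUNFP hUNF D w S hw hS
  have hSP : ∀ q ∈ S, Pair w q := fun q hq => mem_pairF.1 (hS hq)
  have hSlt : ∀ q ∈ S, q.1 < q.2 := fun q hq => (hSP q hq).1
  set w' := flipAt w (cov S) with hw'
  have hlen : w'.length = w.length := length_flipAt _ _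
  have hX : ∀ k ≤ w.length, pos w' k 0 = pos w k 0 + 2 * ∑ p ∈ S, gsh w p k :=
    hUNFP D w S hS
  obtain ⟨-, -, hU⟩ := hUNF D w S hw.1 hS
  -- the sum at the first coordinate of a pair
  have hsum1 : ∀ p ∈ S, ∑ q ∈ S, gsh w q p.1 =
      ∑ q ∈ S, if q.1 < p.1 then pos w q.1 0 - pos w q.2 0 else 0 := by
    intro p hp
    refine Finset.sum_congr rfl fun q hq => ?_
    by_cases h : q.1 < p.1
    · rw [if_pos h]
      have hne : q ≠ p := fun h' => by rw [h'] at h; omega
      rcases hPDIS D w q p (hSP q hq) (hSP p hp) hne with h1 | h1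
      · exact gsh_full (hSlt q hq) h1.le
      · have := hSlt p hp
        have := hSlt q hq
        omega
    · rw [if_neg h, gsh_zero (by omega)]
  -- classification
  have hcl : ∀ c, Cut w' c → 0 < c → c < w.length → ∃ p ∈ S,
      (p.1 ≤ c ∧ c ≤ p.2) ∨ (LA S p c ∧ pos w p.2 0 < pos w c 0 ∧ pos w c 0 < pos w p.1 0) ∨
        (FB S p c ∧ pos w p.2 0 ≤ pos w c 0 ∧ pos w c 0 < pos w p.1 0) := by
    intro c hc hc0 hcn
    by_cases hB : ∃ p ∈ S, p.1 ≤ c ∧ c ≤ p.2
    · obtain ⟨p, hp, h⟩ := hB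
      exact ⟨p, hp, Or.inl h⟩
    push Not at hB
    have hout : ∀ q ∈ S, q.2 < c ∨ c < q.1 := by
      intro q hq
      by_cases h : q.1 ≤ c
      · exact Or.inl (hB q hq h)
      · exact Or.inr (by omega)
    have hncut := hw.2.2 c hc0 hcn
    have hXc := hX c hcn.le
    have hcase : (∃ s, s ≤ c ∧ pos w c 0 < pos w s 0) ∨
        ∃ s, c < s ∧ s ≤ w.length ∧ pos w s 0 ≤ pos w c 0 := by
      by_contra hcon
      push Not at hcon
      exact hncut ⟨hcn.le, hcon.1, hcon.2⟩
    rcases hcase with ⟨s, hs, hlt⟩ | ⟨s, hs, hsn, hle⟩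
    · have hs' : s < c := by
        rcases Nat.lt_or_eq_of_le hs with h | h
        · exact h
        · rw [h] at hlt; omega
      have h1 : pos w' s 0 ≤ pos w' c 0 := hc.2.1 s hs
      have hXs := hX s (by omega)
      have h2 : ∑ q ∈ S, gsh w q s < ∑ q ∈ S, gsh w q c := by omega
      obtain ⟨p, hp, hpl⟩ := Finset.exists_lt_of_sum_lt h2
      have h3 : p.2 < c := by
        rcases hout p hp with h | h
        · exact h
        · rw [gsh_zero h.le] at hpl
          have := gsh_nonneg (hSP p hp) (k := s)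
          omega
      have h4 : s < p.2 := by
        by_contra h
        push Not at h
        rw [gsh_full (hSlt p hp) h, gsh_full (hSlt p hp) h3.le] at hpl
        omega
      have h5 : pos w s 0 ≤ pos w p.1 0 := (hSP p hp).2.2.1 s h4.le
      obtain ⟨p1, hp1, hmax⟩ := Finset.exists_max_image (S.filter (fun q => q.2 < c))
        (fun q => q.2) ⟨p, Finset.mem_filter.2 ⟨hp, h3⟩⟩
      rw [Finset.mem_filter] at hp1
      refine ⟨p1, hp1.1, Or.inr (Or.inl ⟨⟨hp1.2, fun q hq => ?_⟩, ?_, ?_⟩)⟩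
      · rcases hout q hq with h | h
        · exact Or.inl ⟨hmax q (Finset.mem_filter.2 ⟨hq, h⟩), h⟩
        · have := hSlt q hq
          exact Or.inr ⟨by omega, h⟩
      · exact (hSP p1 hp1.1).2.2.2.2.2 c hp1.2 hcn.le
      · have h6 := hmax p (Finset.mem_filter.2 ⟨hp, h3⟩)
        have h7 := (hSP p1 hp1.1).2.2.1 p.1 (by have := hSlt p hp; omega)
        omega
    · have h1 : pos w' c 0 < pos w' s 0 := hc.2.2 s hs (by omega)
      have hXs := hX s hsn
      have h2 : ∑ q ∈ S, gsh w q c < ∑ q ∈ S, gsh w q s := by omega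
      obtain ⟨p, hp, hpl⟩ := Finset.exists_lt_of_sum_lt h2
      have h3 : c < p.1 := by
        rcases hout p hp with h | h
        · rw [gsh_full (hSlt p hp) h.le] at hpl
          have := gsh_le (hSP p hp) hsn
          omega
        · exact h
      have h4 : p.1 < s := by
        by_contra h
        push Not at h
        rw [gsh_zero h, gsh_zero h3.le] at hpl
        omega
      have h5 : pos w p.2 0 ≤ pos w s 0 := (hSP p hp).2.2.2.2.1 s h4.le hsn
      obtain ⟨p2, hp2, hmin⟩ := Finset.exists_min_image (S.filter (fun q => c < q.1))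
        (fun q => q.1) ⟨p, Finset.mem_filter.2 ⟨hp, h3⟩⟩
      rw [Finset.mem_filter] at hp2
      have hFB : FB S p2 c := by
        refine ⟨hp2.2, fun q hq => ?_⟩
        rcases hout q hq with h | h
        · have := hSlt q hq
          exact Or.inl ⟨by omega, h⟩
        · exact Or.inr ⟨hmin q (Finset.mem_filter.2 ⟨hq, h⟩), h⟩
      have h6 := hmin p (Finset.mem_filter.2 ⟨hp, h3⟩)
      have hp2n := (hSP p2 hp2.1).2.1
      have hp2l := hSlt p2 hp2.1
      refine ⟨p2, hp2.1, Or.inr (Or.inr ⟨hFB, ?_, ?_⟩)⟩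
      · have h7 := (hSP p2 hp2.1).2.2.2.2.1 p.2 (by have := hSlt p hp; omega)
          (hSP p hp).2.1
        omega
      · have h7 := (hSP p2 hp2.1).2.2.1 c (by omega)
        have h8 : pos w' c 0 < pos w' p2.1 0 := hc.2.2 p2.1 hp2.2 (by omega)
        have h9 := hX p2.1 (by omega)
        rw [hsum1 p2 hp2.1] at h9
        rw [sum_FB hSlt hFB] at hXc
        omega
  -- the three types
  set B : ℕ × ℕ → Finset ℕ := fun p => (cutF w').filter (fun c => p.1 ≤ c ∧ c ≤ p.2) with hB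
  set A : ℕ × ℕ → Finset ℕ := fun p => (cutF w').filter (fun c => LA S p c ∧
    pos w p.2 0 < pos w c 0 ∧ pos w c 0 < pos w p.1 0) with hA
  set C : ℕ × ℕ → Finset ℕ := fun p => (cutF w').filter (fun c => FB S p c ∧
    pos w p.2 0 ≤ pos w c 0 ∧ pos w c 0 < pos w p.1 0) with hC
  have hsub : cutF w' ⊆ {0, w.length} ∪ S.biUnion (fun p => (B p ∪ A p) ∪ C p) := by
    intro c hc
    have hc' := mem_cutF.1 hc
    have hcn : c ≤ w.length := by rw [← hlen]; exact hc'.1
    rw [Finset.mem_union]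
    by_cases h0 : c = 0
    · left; simp [h0]
    by_cases h1 : c = w.length
    · left; simp [h1]
    right
    obtain ⟨p, hp, h⟩ := hcl c hc' (by omega) (by omega)
    rw [Finset.mem_biUnion]
    refine ⟨p, hp, ?_⟩
    rw [Finset.mem_union, Finset.mem_union]
    rcases h with h | h | h
    · exact Or.inl (Or.inl (Finset.mem_filter.2 ⟨hc, h⟩))
    · exact Or.inl (Or.inr (Finset.mem_filter.2 ⟨hc, h⟩))
    · exact Or.inr (Finset.mem_filter.2 ⟨hc, h⟩)
  have hdep : ∀ p ∈ S, (dep w p : ℤ) = pos w p.1 0 - pos w p.2 0 := by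
    intro p hp
    have := (hSP p hp).2.2.1 p.2 le_rfl
    unfold dep
    rw [Int.toNat_of_nonneg (by omega)]
  have hBc : ∀ p ∈ S, (B p).card ≤ dep w p + 1 := by
    intro p hp
    obtain ⟨h1, h2, h3, h4, h5⟩ := hU p hp
    have h6 : (B p).card ≤ (Finset.Icc (pos w' p.1 0) (pos w' p.2 0)).card := by
      refine Finset.card_le_card_of_injOn (fun c => pos w' c 0) ?_ ?_
      · intro c hc
        have hc' := Finset.mem_filter.1 (Finset.mem_coe.1 hc)
        have hcut := mem_cutF.1 hc'.1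
        exact Finset.mem_coe.2 (Finset.mem_Icc.2 ⟨hcut.2.1 _ hc'.2.1, h4.2.1 _ hc'.2.2⟩)
      · intro c hc c' hc' h
        have hc1 := Finset.mem_filter.1 (Finset.mem_coe.1 hc)
        have hc2 := Finset.mem_filter.1 (Finset.mem_coe.1 hc')
        exact cut_inj (mem_cutF.1 hc1.1) (mem_cutF.1 hc2.1) h
    rw [Int.card_Icc] at h6
    have h7 : pos w' p.2 0 - pos w' p.1 0 = dep w p := h5
    omega
  have hAc : ∀ p ∈ S, (A p).card + 1 ≤ dep w p := by
    intro p hp
    obtain ⟨h1, h2, h3, h4, h5⟩ := hU p hp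
    have h6 : (A p).card ≤ (Finset.Ioo (pos w p.2 0) (pos w p.1 0)).card := by
      refine Finset.card_le_card_of_injOn (fun c => pos w c 0) ?_ ?_
      · intro c hc
        have hc' := Finset.mem_filter.1 (Finset.mem_coe.1 hc)
        exact Finset.mem_coe.2 (Finset.mem_Ioo.2 hc'.2.2)
      · intro c hc c' hc' h
        have hc1 := Finset.mem_filter.1 (Finset.mem_coe.1 hc)
        have hc2 := Finset.mem_filter.1 (Finset.mem_coe.1 hc')
        have k1 := mem_cutF.1 hc1.1
        have k2 := mem_cutF.1 hc2.1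
        refine cut_inj k1 k2 ?_
        have e1 := hX c (by rw [← hlen]; exact k1.1)
        have e2 := hX c' (by rw [← hlen]; exact k2.1)
        rw [sum_LA hSlt hc1.2.1] at e1
        rw [sum_LA hSlt hc2.2.1] at e2
        have h' : pos w c 0 = pos w c' 0 := h
        omega
    rw [Int.card_Ioo] at h6
    have := hdep p hp
    omega
  have hCc : ∀ p ∈ S, (C p).card ≤ dep w p := by
    intro p hp
    have h6 : (C p).card ≤ (Finset.Ico (pos w p.2 0) (pos w p.1 0)).card := by
      refine Finset.card_le_card_of_injOn (fun c => pos w c 0) ?_ ?_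
      · intro c hc
        have hc' := Finset.mem_filter.1 (Finset.mem_coe.1 hc)
        exact Finset.mem_coe.2 (Finset.mem_Ico.2 hc'.2.2)
      · intro c hc c' hc' h
        have hc1 := Finset.mem_filter.1 (Finset.mem_coe.1 hc)
        have hc2 := Finset.mem_filter.1 (Finset.mem_coe.1 hc')
        have k1 := mem_cutF.1 hc1.1
        have k2 := mem_cutF.1 hc2.1
        refine cut_inj k1 k2 ?_
        have e1 := hX c (by rw [← hlen]; exact k1.1)
        have e2 := hX c' (by rw [← hlen]; exact k2.1)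
        rw [sum_FB hSlt hc1.2.1] at e1
        rw [sum_FB hSlt hc2.2.1] at e2
        have h' : pos w c 0 = pos w c' 0 := h
        omega
    rw [Int.card_Ico] at h6
    have := hdep p hp
    omega
  calc (cutF w').card ≤ ({0, w.length} ∪ S.biUnion (fun p => (B p ∪ A p) ∪ C p)).card :=
        Finset.card_le_card hsub
    _ ≤ ({0, w.length} : Finset ℕ).card + (S.biUnion (fun p => (B p ∪ A p) ∪ C p)).card :=
        Finset.card_union_le _ _
    _ ≤ 2 + ∑ p ∈ S, ((B p ∪ A p) ∪ C p).card :=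
        Nat.add_le_add Finset.card_le_two Finset.card_biUnion_le
    _ ≤ 2 + ∑ p ∈ S, 3 * dep w p := by
        refine Nat.add_le_add_left (Finset.sum_le_sum fun p hp => ?_) _
        have e1 := Finset.card_union_le (B p ∪ A p) (C p)
        have e2 := Finset.card_union_le (B p) (A p)
        have e3 := hBc p hp
        have e4 := hAc p hp
        have e5 := hCc p hp
        omega
    _ = 2 + 3 * ∑ p ∈ S, dep w p := by rw [← Finset.mul_sum]

end Pool.Agent.SBW
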