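import Pool.Agent.SBW.Targets

set_option autoImplicit false

/-!
# MP_b5172a_pr: DEEP, irreducible bridges with many deep backtracks
-/

open scoped Classical

noncomputable section

namespace Pool.Agent.SBW

namespace DEEP_

theorem sum_tele (N : ℕ) :
    ∑ k ∈ Finset.Icc 1 N, (1 : ℝ) / ((k : ℝ) * ((k : ℝ) + 1)) = 1 - 1 / ((N : ℝ) + 1) := by
  induction N with
  | zero => simp
  | succ N ih =>
    rw [Finset.sum_Icc_succ_top (by omega), ih]
    push_cast
    field_simp
    ring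

theorem exp_big (s : ℝ) (hs : 100 ≤ s) : 48 * s ^ 5 ≤ Real.exp (3 / 8 * s) := by
  have h0 : (0 : ℝ) ≤ 3 / 8 * s := by positivity
  have h1 := Real.pow_div_factorial_le_exp (3 / 8 * s) h0 20
  refine le_trans ?_ h1
  have h2 : (3 / 8 * s) ^ 20 / ((Nat.factorial 20 : ℕ) : ℝ) =
      s ^ 5 * ((3 / 8 : ℝ) ^ 20 * s ^ 15 / ((Nat.factorial 20 : ℕ) : ℝ)) := by
    ring
  rw [h2]
  have h3 : (100 : ℝ) ^ 15 ≤ s ^ 15 := pow_le_pow_left₀ (by norm_num) hs 15
  have h4 : (48 : ℝ) ≤ (3 / 8 : ℝ) ^ 20 * s ^ 15 / ((Nat.factorial 20 : ℕ) : ℝ) := by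
    have h5 : (48 : ℝ) ≤ (3 / 8 : ℝ) ^ 20 * 100 ^ 15 / ((Nat.factorial 20 : ℕ) : ℝ) := by
      norm_num [Nat.factorial]
    refine h5.trans ?_
    gcongr
  have h6 : (0 : ℝ) ≤ s ^ 5 := by positivity
  nlinarith

/-- the factor of a deep pair -/
theorem factor_big (t1 : ℝ) (ht1 : 0 < t1) (ht1' : t1 ≤ 1 / 100) (k : ℕ)
    (hk : 1 ≤ t1 ^ 2 * (k : ℝ)) :
    Real.exp (3 / 2 * t1 * k) ≤
      1 + (t1 / 24) / (1 + t1 / 24) ^ (3 * k) * (1 / ((k : ℝ) * ((k : ℝ) + 1))) *
        Real.exp (2 * t1 * k) := by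
  have hk0 : (0 : ℝ) < k := by
    rcases Nat.eq_zero_or_pos k with h | h
    · subst h; simp at hk; linarith
    · exact_mod_cast h
  set s := √(k : ℝ) with hs
  have hs2 : s ^ 2 = k := Real.sq_sqrt hk0.le
  have hs0 : 0 < s := Real.sqrt_pos.mpr hk0
  have h1 : 1 ≤ t1 * s := by
    have h2 : 1 ≤ (t1 * s) ^ 2 := by rw [mul_pow, hs2]; exact hk
    by_contra h3
    push Not at h3
    have h4 : 0 ≤ t1 * s := by positivity
    nlinarith
  have hs100 : 100 ≤ s := by
    by_contra h3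
    push Not at h3
    nlinarith
  have h2 : s ≤ t1 * k := by rw [← hs2]; nlinarith
  have h3 := exp_big s hs100
  have h4 : Real.exp (3 / 8 * s) ≤ Real.exp (3 / 8 * (t1 * k)) :=
    Real.exp_le_exp.mpr (by linarith)
  -- (t1/24) * exp(3/8 t1 k) ≥ k (k+1)
  have h5 : (k : ℝ) * (k + 1) ≤ t1 / 24 * Real.exp (3 / 8 * (t1 * k)) := by
    have h6 : (k : ℝ) * (k + 1) ≤ 2 * s ^ 4 := by
      rw [← hs2]
      have h10 : 1 ≤ s ^ 2 := by nlinarith
      have h11 : s ^ 2 * 1 ≤ s ^ 2 * s ^ 2 := mul_le_mul_of_nonneg_left h10 (by positivity)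
      have h12 : s ^ 4 = s ^ 2 * s ^ 2 := by ring
      rw [h12]
      linarith
    have h7 : t1 / 24 * (48 * s ^ 5) ≤ t1 / 24 * Real.exp (3 / 8 * (t1 * k)) :=
      mul_le_mul_of_nonneg_left (h3.trans h4) (by positivity)
    have h8 : 2 * s ^ 4 ≤ t1 / 24 * (48 * s ^ 5) := by
      have h9 : t1 / 24 * (48 * s ^ 5) = 2 * s ^ 4 * (t1 * s) := by ring
      rw [h9]
      have : 0 ≤ 2 * s ^ 4 := by positivity
      nlinarith
    linarith
  have h6 : (1 + t1 / 24) ^ (3 * k) ≤ Real.exp (1 / 8 * (t1 * k)) := by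
    have h7 : 1 + t1 / 24 ≤ Real.exp (t1 / 24) := by
      have := Real.add_one_le_exp (t1 / 24)
      linarith
    calc (1 + t1 / 24) ^ (3 * k) ≤ Real.exp (t1 / 24) ^ (3 * k) :=
          pow_le_pow_left₀ (by positivity) h7 _
      _ = Real.exp (1 / 8 * (t1 * k)) := by
          rw [← Real.exp_nat_mul]
          congr 1
          push_cast
          ring
  have hpos : 0 < (1 + t1 / 24) ^ (3 * k) := by positivity
  have hkk : 0 < (k : ℝ) * (k + 1) := by positivity
  have h7 : Real.exp (3 / 2 * t1 * k) ≤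
      (t1 / 24) / (1 + t1 / 24) ^ (3 * k) * (1 / ((k : ℝ) * ((k : ℝ) + 1))) *
        Real.exp (2 * t1 * k) := by
    have h8 : (t1 / 24) / (1 + t1 / 24) ^ (3 * k) * (1 / ((k : ℝ) * ((k : ℝ) + 1))) *
        Real.exp (2 * t1 * k) =
        (t1 / 24 * Real.exp (2 * t1 * k)) / ((1 + t1 / 24) ^ (3 * k) * ((k : ℝ) * (k + 1))) := by
      field_simp
    rw [h8, le_div_iff₀ (by positivity)]
    calc Real.exp (3 / 2 * t1 * k) * ((1 + t1 / 24) ^ (3 * k) * ((k : ℝ) * (k + 1)))
        ≤ Real.exp (3 / 2 * t1 * k) * (Real.exp (1 / 8 * (t1 * k)) *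
            (t1 / 24 * Real.exp (3 / 8 * (t1 * k)))) := by
          apply mul_le_mul_of_nonneg_left _ (Real.exp_pos _).le
          apply mul_le_mul h6 h5 hkk.le (Real.exp_pos _).le
      _ = t1 / 24 * (Real.exp (3 / 2 * t1 * k) * Real.exp (1 / 8 * (t1 * k)) *
            Real.exp (3 / 8 * (t1 * k))) := by ring
      _ = t1 / 24 * Real.exp (2 * t1 * k) := by
          rw [← Real.exp_add, ← Real.exp_add]
          congr 2
          ring
  linarith

end DEEP_

open DEEP_ in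
theorem p_DEEP : T_UL → T_PSUP → T_VMON → T_DEEP := by
  intro hUL hPSUP hVMON D m t0 t1 ht0 h100 ht1' hvv
  have ht1 : 0 < t1 := by linarith
  obtain ⟨-, hv0, hv1, -⟩ := hVMON D t0 ht0
  obtain ⟨hP1, -, -, -⟩ := hVMON D t1 ht1
  obtain ⟨hP2, -, -, hmono⟩ := hVMON D (2 * t0) (by positivity)
  have hP2' := hmono t0 ht0 (by linarith)
  set v := vv D t0 with hv
  let z : ℕ → ℝ := fun k =>
    (t1 / 24) / (1 + t1 / 24) ^ (3 * k) * (1 / ((k : ℝ) * ((k : ℝ) + 1)))
  have hz0 : ∀ k, 0 ≤ z k := by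
    intro k
    simp only [z]
    positivity
  have hzs : ∀ N : ℕ, ∑ k ∈ Finset.Icc 1 N, z k * (1 + t1 / 24) ^ (3 * k) ≤ t1 / 24 := by
    intro N
    have h1 : ∑ k ∈ Finset.Icc 1 N, z k * (1 + t1 / 24) ^ (3 * k) =
        t1 / 24 * ∑ k ∈ Finset.Icc 1 N, (1 : ℝ) / ((k : ℝ) * ((k : ℝ) + 1)) := by
      rw [Finset.mul_sum]
      apply Finset.sum_congr rfl
      intro k _
      simp only [z]
      have : (0 : ℝ) < (1 + t1 / 24) ^ (3 * k) := by positivity
      field_simp
    rw [h1, sum_tele]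
    have h2 : (0 : ℝ) ≤ 1 / ((N : ℝ) + 1) := by positivity
    have h3 : 0 ≤ t1 / 24 := by positivity
    nlinarith
  have hmain := hUL D m t1 (t1 / 24) z (by positivity) hz0 hzs
  set F := (IrF D m).filter (fun w => 19 / 20 * v * m ≤ (hx w : ℝ) ∧
      1 / 8 * v * m ≤
        ∑ p ∈ (pairF w).filter (fun p => 1 ≤ t1 ^ 2 * (dep w p : ℝ)), (dep w p : ℝ)) with hF
  -- lower bound of the product
  have hprod : ∀ w ∈ F, Real.exp (3 / 16 * t1 * v * m) ≤
      ∏ p ∈ pairF w, (1 + z (dep w p) * Real.exp (2 * t1 * (dep w p : ℝ))) := by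
    intro w hw
    rw [hF, Finset.mem_filter] at hw
    obtain ⟨-, hw1, hw2⟩ := hw
    set Dp := (pairF w).filter (fun p => 1 ≤ t1 ^ 2 * (dep w p : ℝ)) with hDp
    calc Real.exp (3 / 16 * t1 * v * m) ≤ Real.exp (∑ p ∈ Dp, 3 / 2 * t1 * (dep w p : ℝ)) := by
          apply Real.exp_le_exp.mpr
          rw [← Finset.mul_sum]
          have : 3 / 2 * t1 * (1 / 8 * v * m) ≤ 3 / 2 * t1 * ∑ p ∈ Dp, (dep w p : ℝ) :=
            mul_le_mul_of_nonneg_left hw2 (by positivity)
          linarith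
      _ = ∏ p ∈ Dp, Real.exp (3 / 2 * t1 * (dep w p : ℝ)) := by rw [Real.exp_sum]
      _ ≤ ∏ p ∈ Dp, (1 + z (dep w p) * Real.exp (2 * t1 * (dep w p : ℝ))) := by
          apply Finset.prod_le_prod
          · intro p _; exact (Real.exp_pos _).le
          · intro p hp
            rw [hDp, Finset.mem_filter] at hp
            exact factor_big t1 ht1 ht1' (dep w p) hp.2
      _ ≤ ∏ p ∈ pairF w, (1 + z (dep w p) * Real.exp (2 * t1 * (dep w p : ℝ))) := by
          apply Finset.prod_le_prod_of_subset_of_one_le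
          · exact Finset.filter_subset _ _
          · intro p _
            have h4 := hz0 (dep w p)
            have h5 := Real.exp_pos (2 * t1 * (dep w p : ℝ))
            positivity
          · intro p _ _
            have h4 := hz0 (dep w p)
            have h5 := Real.exp_pos (2 * t1 * (dep w p : ℝ))
            have h6 : 0 ≤ z (dep w p) * Real.exp (2 * t1 * (dep w p : ℝ)) :=
              mul_nonneg h4 h5.le
            linarith
  have hA : (∑ w ∈ F, Real.exp (2 * t0 * (hx w : ℝ))) *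
      Real.exp ((t1 - 2 * t0) * (19 / 20 * v * m) + 3 / 16 * t1 * v * m) ≤
      (1 + t1 / 24) ^ 2 * bS D m t1 := by
    refine le_trans ?_ hmain
    rw [Finset.sum_mul]
    calc ∑ w ∈ F, Real.exp (2 * t0 * (hx w : ℝ)) *
          Real.exp ((t1 - 2 * t0) * (19 / 20 * v * m) + 3 / 16 * t1 * v * m) ≤
        ∑ w ∈ F, Real.exp (t1 * (hx w : ℝ)) *
          ∏ p ∈ pairF w, (1 + z (dep w p) * Real.exp (2 * t1 * (dep w p : ℝ))) := by
          apply Finset.sum_le_sum
          intro w hw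
          have hw' := hw
          rw [hF, Finset.mem_filter] at hw'
          obtain ⟨-, hw1, -⟩ := hw'
          have e1 : Real.exp (2 * t0 * (hx w : ℝ)) *
              Real.exp ((t1 - 2 * t0) * (19 / 20 * v * m) + 3 / 16 * t1 * v * m) =
              Real.exp (2 * t0 * (hx w : ℝ) + (t1 - 2 * t0) * (19 / 20 * v * m)) *
                Real.exp (3 / 16 * t1 * v * m) := by
            rw [← Real.exp_add, ← Real.exp_add]
            congr 1
            ring
          rw [e1]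
          apply mul_le_mul _ (hprod w hw) (Real.exp_pos _).le (Real.exp_pos _).le
          apply Real.exp_le_exp.mpr
          have e2 : (t1 - 2 * t0) * (19 / 20 * v * m) ≤ (t1 - 2 * t0) * (hx w : ℝ) :=
            mul_le_mul_of_nonneg_left hw1 (by linarith)
          linarith
      _ ≤ _ := by
          apply Finset.sum_le_sum_of_subset_of_nonneg
          · exact Finset.filter_subset _ _
          · intro w _ _
            apply mul_nonneg (Real.exp_pos _).le
            apply Finset.prod_nonneg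
            intro p _
            have h4 := hz0 (dep w p)
            have h5 := Real.exp_pos (2 * t1 * (dep w p : ℝ))
            positivity
  have hB : bS D m t1 ≤ Real.exp (PP D t1 * m) := (hPSUP D t1).1 m
  have hC : (1 + t1 / 24) ^ 2 ≤ 4 := by nlinarith
  have hD : (∑ w ∈ F, Real.exp (2 * t0 * (hx w : ℝ))) *
      Real.exp ((t1 - 2 * t0) * (19 / 20 * v * m) + 3 / 16 * t1 * v * m) ≤
      4 * Real.exp (PP D t1 * m) := by
    refine hA.trans ?_
    have h9 := Real.exp_pos (PP D t1 * m)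
    calc (1 + t1 / 24) ^ 2 * bS D m t1 ≤
        (1 + t1 / 24) ^ 2 * Real.exp (PP D t1 * m) :=
          mul_le_mul_of_nonneg_left hB (by positivity)
      _ ≤ _ := mul_le_mul_of_nonneg_right hC h9.le
  rw [← le_div_iff₀ (Real.exp_pos _), mul_div_assoc, ← Real.exp_sub] at hD
  refine hD.trans ?_
  apply mul_le_mul_of_nonneg_left _ (by norm_num)
  apply Real.exp_le_exp.mpr
  have hm0 : (0 : ℝ) ≤ m := Nat.cast_nonneg m
  have hvt1 : 0 ≤ v * t1 := by positivity
  have hvt0 : 0 ≤ v * t0 := by positivity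
  have k1 : PP D t1 ≤ PP D 0 + t1 * (21 / 20 * v) := by
    rw [hP1]
    have := mul_le_mul_of_nonneg_left hvv ht1.le
    linarith
  have k2 : PP D 0 + 2 * t0 * v ≤ PP D (2 * t0) := by
    rw [hP2]
    have := mul_le_mul_of_nonneg_left hP2' (by positivity : (0 : ℝ) ≤ 2 * t0)
    linarith
  have k3 : PP D t1 - ((t1 - 2 * t0) * (19 / 20 * v) + 3 / 16 * t1 * v) ≤
      PP D (2 * t0) - v * t1 / 100 := by nlinarith
  have k4 := mul_le_mul_of_nonneg_right k3 hm0
  nlinarith [k4]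

end Pool.Agent.SBW
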