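import Pool.Agent.SBW.Targets

set_option autoImplicit false

/-!
# MP_b5172a_pr: the glued walk (target GLUE)
-/

open scoped Classical

noncomputable section

namespace Pool.Agent.SBW

namespace GLUE_

variable {D : ℕ}

theorem len (R S : Wk D) (a : ℕ) (ha : a ≤ R.length) :
    (glue R a S).length = R.length + S.length + 1 := by
  simp only [glue, List.length_append, List.length_take, List.length_map, List.length_drop,
    List.length_cons, List.length_nil]
  omega

theorem g_past (R S : Wk D) (a : ℕ) (ha : a ≤ R.length) (i : ℕ) (hi : i ≤ a)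
    (j : Fin (D + 2)) : pos (glue R a S) i j = pos R i j := by
  have hl : (R.take a).length = a := by rw [List.length_take]; omega
  rw [glue, pos_append_left _ _ (by simp only [List.length_append, hl]; omega),
    pos_append_left _ _ (by simp only [List.length_append, hl]; omega),
    pos_append_left _ _ (by rw [hl]; exact hi), pos_take_of_le _ hi]

theorem g_stick (R S : Wk D) (a : ℕ) (ha : a ≤ R.length) (k : ℕ) (hk : k ≤ S.length)
    (j : Fin (D + 2)) :
    pos (glue R a S) (a + k) j = pos R a j + pos S k (Equiv.swap 0 1 j) := by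
  have hl : (R.take a).length = a := by rw [List.length_take]; omega
  rw [glue, pos_append_left _ _ (by
      simp only [List.length_append, hl, List.length_map, List.length_cons, List.length_nil]
      omega),
    pos_append_left _ _ (by simp only [List.length_append, hl, List.length_map]; omega)]
  have h := pos_append_right (R.take a) (S.map swS) k j
  rw [hl] at h
  rw [h, pos_take_of_le _ le_rfl, pos_map_sw]

theorem g_after (R S : Wk D) (a : ℕ) (ha : a ≤ R.length) (i : ℕ) (j : Fin (D + 2)) :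
    pos (glue R a S) (a + S.length + 1 + i) j =
      pos R a j + pos S S.length (Equiv.swap 0 1 j) +
        (if j = 1 then 1 - (pos R (a + i) j - pos R a j) else pos R (a + i) j - pos R a j) := by
  have hl : (R.take a).length = a := by rw [List.length_take]; omega
  set e : Wk D := [((1 : Fin (D + 2)), true)] with he
  have hu : (R.take a ++ S.map swS ++ e).length = a + S.length + 1 := by
    simp only [he, List.length_append, hl, List.length_map, List.length_cons, List.length_nil]
  have h := pos_append_right (R.take a ++ S.map swS ++ e) ((R.drop a).map (flipS 1)) i j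
  rw [hu] at h
  rw [glue, ← he, h, pos_map_flip, pos_drop]
  have h2 : pos (R.take a ++ S.map swS ++ e) (a + S.length + 1) j =
      pos R a j + pos S S.length (Equiv.swap 0 1 j) + (if j = 1 then 1 else 0) := by
    rw [← hu, pos_end_append, pos_end_append, hl, pos_take_of_le _ le_rfl, List.length_map,
      pos_map_sw]
    congr 1
    rw [he]
    have := pos_cons_succ ((1 : Fin (D + 2)), true) ([] : Wk D) 0 j
    simp only [List.length_cons, List.length_nil]
    rw [this, pos_nil, add_zero, stv, sg]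
    by_cases hj : j = 1
    · simp [hj]
    · have hj' : ¬ (1 : Fin (D + 2)) = j := fun h => hj h.symm
      simp [hj, hj']
  rw [h2]
  by_cases hj : j = 1
  · simp only [hj, if_true]; ring
  · simp only [hj, if_false]; ring

/-- a point of the past or of the future is near or far -/
def NF (r θ ρ0 ρ1 z0 z1 : ℝ) : Prop :=
  (z1 ≤ 0 ∧ |z0| ≤ ρ1 ∧ |z1| ≤ 2 * r) ∨ (ρ0 ≤ z0 ∧ |z1| ≤ 2 * r + θ * z0)

theorem L1 {r θ ρ0 ρ1 s0 s1 : ℝ} (hr : 1 ≤ r) (hθ4 : θ ≤ 1 / 4)
    (hρ : 3 * r ≤ ρ0) (hs : 0 < s1) (hc : |s0| ≤ r + θ * s1)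
    (h : NF r θ ρ0 ρ1 (-s0) s1) : False := by
  rcases h with h | ⟨h1, h2⟩
  · linarith [h.1]
  · have h3 : θ * s1 ≤ 1 / 4 * s1 := mul_le_mul_of_nonneg_right hθ4 hs.le
    have h4 : θ * (-s0) ≤ 1 / 4 * (-s0) :=
      mul_le_mul_of_nonneg_right hθ4 (by linarith)
    have h5 := (abs_le.1 hc).1
    have h6 := (abs_le.1 h2).2
    linarith

theorem L2 {r θ ρ0 ρ1 s0 s1 h0 H z0 z1 : ℝ} (hr : 1 ≤ r) (hθ4 : θ ≤ 1 / 4)
    (hρ : 3 * r ≤ ρ0) (hs : s1 ≤ H) (hc : |s0 - h0| ≤ r + θ * (H - s1))
    (e0 : s0 = h0 + z0) (e1 : s1 = H + 1 - z1)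
    (h : NF r θ ρ0 ρ1 z0 z1) : False := by
  rcases h with h | ⟨h1, h2⟩
  · linarith [h.1]
  · have h3 : θ * (H - s1) ≤ 1 / 4 * (H - s1) := mul_le_mul_of_nonneg_right hθ4 (by linarith)
    have h4 : θ * z0 ≤ 1 / 4 * z0 :=
      mul_le_mul_of_nonneg_right hθ4 (by linarith)
    have h5 := (abs_le.1 hc).2
    have h6 := (abs_le.1 h2).2
    linarith

theorem L3 {r θ ρ0 ρ1 y0 y1 h0 H z0 z1 : ℝ} (hr : 1 ≤ r) (hθ4 : θ ≤ 1 / 4)
    (hρ : 3 * r ≤ ρ0) (hρ1 : 0 ≤ ρ1) (hH : 8 * (r + ρ1) ≤ H) (hc : |h0| ≤ r + θ * H)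
    (e0 : y0 = h0 + z0) (e1 : y1 = H + 1 - z1)
    (hy : NF r θ ρ0 ρ1 (-y0) y1) (hz : NF r θ ρ0 ρ1 z0 z1) : False := by
  have h3 : θ * H ≤ 1 / 4 * H := mul_le_mul_of_nonneg_right hθ4 (by linarith)
  have hc1 := (abs_le.1 hc).1
  have hc2 := (abs_le.1 hc).2
  rcases hy with ⟨a1, a2, a3⟩ | ⟨a1, a2⟩
  · rcases hz with ⟨b1, b2, b3⟩ | ⟨b1, b2⟩
    · linarith
    · have h4 : θ * z0 ≤ 1 / 4 * z0 := mul_le_mul_of_nonneg_right hθ4 (by linarith)
      have h5 := (abs_le.1 a2).1
      have h6 := (abs_le.1 b2).2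
      linarith
  · have h4 : θ * (-y0) ≤ 1 / 4 * (-y0) := mul_le_mul_of_nonneg_right hθ4 (by linarith)
    have a3 := (abs_le.1 a2).2
    rcases hz with ⟨b1, b2, b3⟩ | ⟨b1, b2⟩
    · have h5 := (abs_le.1 b2).1
      linarith
    · have h5 : θ * z0 ≤ 1 / 4 * z0 := mul_le_mul_of_nonneg_right hθ4 (by linarith)
      have h6 := (abs_le.1 b2).2
      linarith

theorem g_stick0 (R S : Wk D) (a : ℕ) (ha : a ≤ R.length) (k : ℕ) (hk : k ≤ S.length) :
    pos (glue R a S) (a + k) 0 = pos R a 0 + pos S k 1 := by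
  rw [g_stick R S a ha k hk, Equiv.swap_apply_left]

theorem g_stick1 (R S : Wk D) (a : ℕ) (ha : a ≤ R.length) (k : ℕ) (hk : k ≤ S.length) :
    pos (glue R a S) (a + k) 1 = pos R a 1 + pos S k 0 := by
  rw [g_stick R S a ha k hk, Equiv.swap_apply_right]

theorem g_after0 (R S : Wk D) (a : ℕ) (ha : a ≤ R.length) (i : ℕ) :
    pos (glue R a S) (a + S.length + 1 + i) 0 =
      pos R a 0 + pos S S.length 1 + (pos R (a + i) 0 - pos R a 0) := by
  have h01 : ¬ (0 : Fin (D + 2)) = 1 := by simp
  rw [g_after R S a ha i, Equiv.swap_apply_left, if_neg h01]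

theorem g_after1 (R S : Wk D) (a : ℕ) (ha : a ≤ R.length) (i : ℕ) :
    pos (glue R a S) (a + S.length + 1 + i) 1 =
      pos R a 1 + hx S + (1 - (pos R (a + i) 1 - pos R a 1)) := by
  rw [g_after R S a ha i, Equiv.swap_apply_right, if_pos rfl, hx]

theorem cls (R S : Wk D) (a : ℕ) (ha : a ≤ R.length) (t : ℕ) (ht : t ≤ (glue R a S).length) :
    t ≤ a ∨ (∃ k, 0 < k ∧ k ≤ S.length ∧ t = a + k) ∨
      ∃ i, a + i ≤ R.length ∧ t = a + S.length + 1 + i := by
  rw [len R S a ha] at ht
  rcases Nat.lt_or_ge a t with h | h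
  · rcases Nat.lt_or_ge (a + S.length) t with h' | h'
    · exact Or.inr (Or.inr ⟨t - (a + S.length + 1), by omega, by omega⟩)
    · exact Or.inr (Or.inl ⟨t - a, by omega, by omega, by omega⟩)
  · exact Or.inl h

end GLUE_

open GLUE_ in
theorem p_GLUE : T_GLUE := by
  intro D r θ ρ0 ρ1 Q ex hm R S a hR hS hθ hθ4 hr hρ1 hρ0 hm8 hmH hex hQ
  have ha := hR.le
  have hr' : (1 : ℝ) ≤ r := by exact_mod_cast hr
  have hSlen : 0 < S.length := by
    rcases Nat.eq_zero_or_pos S.length with h | h
    · exfalso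
      have h1 : S = [] := List.length_eq_zero_iff.1 h
      rw [h1, hx_nil, Int.cast_zero] at hmH
      linarith
    · exact h
  have hH8 : 8 * ((r : ℝ) + ρ1) ≤ (hx S : ℝ) := hm8.trans hmH
  have hH0 : 0 ≤ (hx S : ℝ) := by linarith
  have hθH : 0 ≤ θ * (hx S : ℝ) := mul_nonneg hθ hH0
  have h10 : (1 : Fin (D + 2)) ≠ 0 := by simp
  -- the past
  have hpast : ∀ i ≤ a, NF r θ ρ0 ρ1 (-((pos R i 0 : ℝ) - pos R a 0))
      ((pos R i 1 : ℝ) - pos R a 1) := by
    intro i hi
    rcases Nat.lt_or_ge i a with h | h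
    · rcases hR.past i h with ⟨h1, h2, h3⟩ | ⟨h1, h2⟩
      · left
        refine ⟨?_, ?_, h3⟩
        · have : (pos R i 1 : ℝ) ≤ pos R a 1 := by exact_mod_cast h1
          linarith
        · rw [abs_neg]; exact h2
      · right
        refine ⟨by linarith, ?_⟩
        have h4 : -((pos R i 0 : ℝ) - pos R a 0) = (pos R a 0 : ℝ) - pos R i 0 := by ring
        rw [h4]
        exact h2
    · have h1 : i = a := le_antisymm hi h
      subst h1
      left
      refine ⟨by linarith, ?_, ?_⟩
      · rw [sub_self, neg_zero, abs_zero]; exact hρ1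
      · rw [sub_self, abs_zero]; linarith
  -- the future
  have hfut : ∀ i, a ≤ i → i ≤ R.length → NF r θ ρ0 ρ1 ((pos R i 0 : ℝ) - pos R a 0)
      ((pos R i 1 : ℝ) - pos R a 1) := by
    intro i hi hil
    rcases Nat.lt_or_ge a i with h | h
    · rcases hR.fut i h hil with ⟨h1, h2, h3⟩ | ⟨h1, h2⟩
      · left
        refine ⟨?_, h2, h3⟩
        have : (pos R i 1 : ℝ) ≤ pos R a 1 := by exact_mod_cast h1
        linarith
      · right
        exact ⟨h1, h2⟩
    · have h1 : i = a := le_antisymm h hi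
      subst h1
      left
      refine ⟨by linarith, ?_, ?_⟩
      · rw [sub_self, abs_zero]; exact hρ1
      · rw [sub_self, abs_zero]; linarith
  -- the stick
  have hs1 : ∀ k ≤ S.length, (0 : ℝ) ≤ pos S k 0 ∧ (pos S k 0 : ℝ) ≤ hx S := by
    intro k hk
    rcases Nat.eq_zero_or_pos k with h | h
    · subst h
      rw [pos_zero, Int.cast_zero]
      exact ⟨le_rfl, hH0⟩
    · obtain ⟨h1, h2⟩ := hS.br.2 k h hk
      exact ⟨by exact_mod_cast h1.le, by exact_mod_cast h2⟩
  have hs0 : ∀ k ≤ S.length, |(pos S k 1 : ℝ)| ≤ r + θ * (pos S k 0 : ℝ) :=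
    fun k hk => hS.c1 k hk 1 h10
  have hs2 : ∀ k ≤ S.length, |(pos S k 1 : ℝ) - pos S S.length 1| ≤
      r + θ * ((hx S : ℝ) - pos S k 0) := fun k hk => hS.c2 k hk 1 h10
  have hh0 : |(pos S S.length 1 : ℝ)| ≤ r + θ * (hx S : ℝ) := by
    have := hs0 S.length le_rfl
    simpa [hx] using this
  -- self-avoiding
  have haux : ∀ t t' : ℕ, t ≤ t' → t' ≤ (glue R a S).length →
      (∀ j, pos (glue R a S) t j = pos (glue R a S) t' j) → t = t' := by
    intro t t' htt ht' h
    have h0 := h 0
    have h1 := h 1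
    rcases cls R S a ha t (htt.trans ht') with hc | ⟨k, hk0, hkl, rfl⟩ | ⟨i, hil, rfl⟩
    · rcases cls R S a ha t' ht' with hc' | ⟨k', hk0', hkl', rfl⟩ | ⟨i', hil', rfl⟩
      · refine hR.br.1 t (by omega) t' (by omega) fun j => ?_
        rw [← g_past R S a ha t hc, ← g_past R S a ha t' hc']
        exact h j
      · exfalso
        rw [g_past R S a ha t hc, g_stick0 R S a ha k' hkl'] at h0
        rw [g_past R S a ha t hc, g_stick1 R S a ha k' hkl'] at h1
        have e0 : (pos R t 0 : ℝ) = pos R a 0 + pos S k' 1 := by exact_mod_cast h0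
        have e1 : (pos R t 1 : ℝ) = pos R a 1 + pos S k' 0 := by exact_mod_cast h1
        have hn := hpast t hc
        rw [e0, e1, add_sub_cancel_left, add_sub_cancel_left] at hn
        have hpos : (0 : ℝ) < pos S k' 0 := by exact_mod_cast (hS.br.2 k' hk0' hkl').1
        exact L1 hr' hθ4 hρ0 hpos (hs0 k' hkl') hn
      · exfalso
        rw [g_past R S a ha t hc, g_after0 R S a ha i'] at h0
        rw [g_past R S a ha t hc, g_after1 R S a ha i'] at h1
        have e0 : (pos R t 0 : ℝ) = pos R a 0 + pos S S.length 1 +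
          (pos R (a + i') 0 - pos R a 0) := by exact_mod_cast h0
        have e1 : (pos R t 1 : ℝ) = pos R a 1 + hx S +
          (1 - (pos R (a + i') 1 - pos R a 1)) := by exact_mod_cast h1
        exact L3 hr' hθ4 hρ0 hρ1 hH8 hh0 (y0 := (pos R t 0 : ℝ) - pos R a 0)
          (y1 := (pos R t 1 : ℝ) - pos R a 1) (z0 := (pos R (a + i') 0 : ℝ) - pos R a 0)
          (z1 := (pos R (a + i') 1 : ℝ) - pos R a 1) (by linarith) (by linarith) (hpast t hc)
          (hfut (a + i') (by omega) hil')
    · rcases cls R S a ha t' ht' with hc' | ⟨k', hk0', hkl', rfl⟩ | ⟨i', hil', rfl⟩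
      · omega
      · have hkk : k = k' := by
          refine hS.br.1 k hkl k' hkl' fun j => ?_
          have h2 := h (Equiv.swap 0 1 j)
          rw [g_stick R S a ha k hkl, g_stick R S a ha k' hkl', Equiv.swap_apply_self] at h2
          linarith
        rw [hkk]
      · exfalso
        rw [g_stick0 R S a ha k hkl, g_after0 R S a ha i'] at h0
        rw [g_stick1 R S a ha k hkl, g_after1 R S a ha i'] at h1
        have e0 : (pos R a 0 : ℝ) + pos S k 1 = pos R a 0 + pos S S.length 1 +
          (pos R (a + i') 0 - pos R a 0) := by exact_mod_cast h0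
        have e1 : (pos R a 1 : ℝ) + pos S k 0 = pos R a 1 + hx S +
          (1 - (pos R (a + i') 1 - pos R a 1)) := by exact_mod_cast h1
        exact L2 hr' hθ4 hρ0 (hs1 k hkl).2 (hs2 k hkl)
          (z0 := (pos R (a + i') 0 : ℝ) - pos R a 0)
          (z1 := (pos R (a + i') 1 : ℝ) - pos R a 1) (by linarith) (by linarith)
          (hfut (a + i') (by omega) hil')
    · rcases cls R S a ha t' ht' with hc' | ⟨k', hk0', hkl', rfl⟩ | ⟨i', hil', rfl⟩
      · omega
      · omega
      · have hii : a + i = a + i' := by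
          refine hR.br.1 (a + i) hil (a + i') hil' fun j => ?_
          have h2 := h j
          rw [g_after R S a ha i, g_after R S a ha i'] at h2
          by_cases hj : j = 1
          · simp only [hj, if_true] at h2 ⊢
            linarith
          · simp only [hj, if_false] at h2
            linarith
        omega
  have hsaw : Saw (glue R a S) := by
    intro t ht t' ht' h
    rcases le_total t t' with h1 | h1
    · exact haux t t' h1 ht' h
    · exact (haux t' t h1 ht fun j => (h j).symm).symm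
  -- the bridge property
  have hhx : hx (glue R a S) = pos S S.length 1 + hx R := by
    have h1 : (glue R a S).length = a + S.length + 1 + (R.length - a) := by
      rw [len R S a ha]; omega
    rw [hx, h1, g_after0 R S a ha, hx, Nat.add_sub_cancel' ha]
    ring
  have hhx' : (hx (glue R a S) : ℝ) = pos S S.length 1 + hx R := by exact_mod_cast hhx
  have hq1 := hR.q1
  have hq2 := hR.q2
  have hh0a := (abs_le.1 hh0).1
  have hh0b := (abs_le.1 hh0).2
  have hbr : Br (glue R a S) := by
    refine ⟨hsaw, fun t ht0 ht => ?_⟩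
    suffices h : (0 : ℝ) < pos (glue R a S) t 0 ∧
        (pos (glue R a S) t 0 : ℝ) ≤ hx (glue R a S) by
      exact ⟨by exact_mod_cast h.1, by exact_mod_cast h.2⟩
    rw [hhx']
    rcases cls R S a ha t ht with hc | ⟨k, hk0, hkl, rfl⟩ | ⟨i, hil, rfl⟩
    · rw [g_past R S a ha t hc]
      refine ⟨by exact_mod_cast (hR.br.2 t ht0 (hc.trans ha)).1, ?_⟩
      rcases hpast t hc with ⟨_, h2, _⟩ | ⟨h1, _⟩
      · have h3 := (abs_le.1 h2).1
        linarith
      · linarith
    · rw [g_stick0 R S a ha k hkl]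
      push_cast
      have h1 := hs0 k hkl
      have h2 : θ * (pos S k 0 : ℝ) ≤ θ * (hx S : ℝ) :=
        mul_le_mul_of_nonneg_left (hs1 k hkl).2 hθ
      have h3 := (abs_le.1 h1).1
      have h4 := (abs_le.1 h1).2
      constructor <;> linarith
    · rw [g_after0 R S a ha i]
      push_cast
      have h5 : (pos R (a + i) 0 : ℝ) ≤ hx R := by
        rcases Nat.eq_zero_or_pos (a + i) with h | h
        · rw [h, pos_zero, Int.cast_zero]
          linarith
        · exact_mod_cast (hR.br.2 (a + i) h hil).2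
      refine ⟨?_, by linarith⟩
      rcases hfut (a + i) (by omega) hil with ⟨_, h2, _⟩ | ⟨h1, _⟩
      · have h3 := (abs_le.1 h2).1
        linarith
      · linarith
  refine ⟨hbr, ?_, len R S a ha⟩
  have hmax : ∀ x : ℝ, θ * x ≤ θ * max 0 x := fun x =>
    mul_le_mul_of_nonneg_left (le_max_right _ _) hθ
  have hmax0 : ∀ x : ℝ, 0 ≤ θ * max 0 x := fun x => mul_nonneg hθ (le_max_left _ _)
  have ga : ∀ j, pos (glue R a S) a j = pos R a j := fun j => g_past R S a ha a le_rfl j
  have ga0 : pos (glue R a S) (a + S.length) 0 = pos R a 0 + pos S S.length 1 :=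
    g_stick0 R S a ha S.length le_rfl
  have ga1 : pos (glue R a S) (a + S.length) 1 = pos R a 1 + hx S :=
    g_stick1 R S a ha S.length le_rfl
  have hafter : ∀ i, a + S.length < i → i ≤ (glue R a S).length →
      ∃ i', a + i' ≤ R.length ∧ i = a + S.length + 1 + i' := by
    intro i hi hil
    rw [len R S a ha] at hil
    exact ⟨i - (a + S.length + 1), by omega, by omega⟩
  have hstick : ∀ i, a ≤ i → i ≤ a + S.length → ∃ k, k ≤ S.length ∧ i = a + k := by
    intro i hi hil
    exact ⟨i - a, by omega, by omega⟩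
  refine
    { lt := by omega
      le := by rw [len R S a ha]; omega
      hh := ?_
      past := ?_
      pext := ?_
      st0 := ?_
      st1 := ?_
      st2 := ?_
      fut := ?_
      fext := ?_ }
  · rw [ga1, ga]
    push_cast
    linarith
  · intro i hi
    rw [ga, ga, g_past R S a ha i hi.le, g_past R S a ha i hi.le]
    rcases hpast i hi.le with ⟨_, _, h3⟩ | ⟨_, h2⟩
    · have := hmax0 ((pos R a 0 : ℝ) - pos R i 0)
      linarith
    · have h4 : -((pos R i 0 : ℝ) - pos R a 0) = (pos R a 0 : ℝ) - pos R i 0 := by ring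
      rw [h4] at h2
      have := hmax ((pos R a 0 : ℝ) - pos R i 0)
      linarith
  · intro i hi i' hi'
    rw [g_past R S a ha i hi, g_past R S a ha i' hi']
    have := hR.ext i (hi.trans ha) i' (hi'.trans ha)
    linarith
  · intro i hi hil
    obtain ⟨k, hk, rfl⟩ := hstick i hi hil
    rw [ga, ga1, g_stick1 R S a ha k hk]
    obtain ⟨h1, h2⟩ := hs1 k hk
    have h1' : 0 ≤ pos S k 0 := by exact_mod_cast h1
    have h2' : pos S k 0 ≤ hx S := by exact_mod_cast h2
    constructor <;> linarith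
  · intro i hi hil j hj
    obtain ⟨k, hk, rfl⟩ := hstick i hi hil
    rw [ga, ga, g_stick1 R S a ha k hk, g_stick R S a ha k hk]
    have hsw : Equiv.swap (0 : Fin (D + 2)) 1 j ≠ 0 := by
      intro h
      rw [Equiv.swap_apply_eq_iff, Equiv.swap_apply_left] at h
      exact hj h
    have h1 := hS.c1 k hk _ hsw
    push_cast
    rw [add_sub_cancel_left, add_sub_cancel_left]
    exact h1
  · intro i hi hil j hj
    obtain ⟨k, hk, rfl⟩ := hstick i hi hil
    rw [ga1, g_stick R S a ha S.length le_rfl, g_stick1 R S a ha k hk, g_stick R S a ha k hk]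
    have hsw : Equiv.swap (0 : Fin (D + 2)) 1 j ≠ 0 := by
      intro h
      rw [Equiv.swap_apply_eq_iff, Equiv.swap_apply_left] at h
      exact hj h
    have h1 := hS.c2 k hk _ hsw
    push_cast
    rw [add_sub_add_left_eq_sub, add_sub_add_left_eq_sub]
    exact h1
  · intro i hi hil
    obtain ⟨i', hi', rfl⟩ := hafter i hi hil
    rw [ga0, ga1, g_after0 R S a ha i', g_after1 R S a ha i']
    push_cast
    have e1 : (pos R a 1 : ℝ) + hx S + (1 - (pos R (a + i') 1 - pos R a 1)) -
        (pos R a 1 + hx S) = 1 - (pos R (a + i') 1 - pos R a 1) := by ring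
    have e0 : (pos R a 0 : ℝ) + pos S S.length 1 + (pos R (a + i') 0 - pos R a 0) -
        (pos R a 0 + pos S S.length 1) = pos R (a + i') 0 - pos R a 0 := by ring
    rw [e1, e0]
    have h4 : |1 - ((pos R (a + i') 1 : ℝ) - pos R a 1)| ≤
        1 + |(pos R (a + i') 1 : ℝ) - pos R a 1| := by
      have := abs_sub (1 : ℝ) ((pos R (a + i') 1 : ℝ) - pos R a 1)
      rwa [abs_one] at this
    rcases hfut (a + i') (by omega) hi' with ⟨_, _, h3⟩ | ⟨_, h2⟩
    · have := hmax0 ((pos R (a + i') 0 : ℝ) - pos R a 0)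
      linarith
    · have := hmax ((pos R (a + i') 0 : ℝ) - pos R a 0)
      linarith
  · intro i i' hi hil hi' hil'
    have hex1 : ∀ l, a + l ≤ R.length → (pos R (a + l) 1 : ℝ) - pos R a 1 ≤ ex :=
      fun l hl => hR.ext (a + l) hl a ha
    have hex2 : ∀ l, a + l ≤ R.length → (pos R a 1 : ℝ) - pos R (a + l) 1 ≤ ex :=
      fun l hl => hR.ext a ha (a + l) hl
    rcases Nat.eq_or_lt_of_le hi with rfl | h1
    · rcases Nat.eq_or_lt_of_le hi' with h2 | h2
      · rw [← h2]
        linarith
      · obtain ⟨l', hl', rfl⟩ := hafter i' h2 hil'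
        rw [ga1, g_after1 R S a ha l']
        push_cast
        have := hex1 l' hl'
        linarith
    · obtain ⟨l, hl, rfl⟩ := hafter i h1 hil
      rcases Nat.eq_or_lt_of_le hi' with rfl | h2
      · rw [ga1, g_after1 R S a ha l]
        push_cast
        have := hex2 l hl
        linarith
      · obtain ⟨l', hl', rfl⟩ := hafter i' h2 hil'
        rw [g_after1 R S a ha l, g_after1 R S a ha l']
        push_cast
        have := hR.ext (a + l') hl' (a + l) hl
        linarith

end Pool.Agent.SBW
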