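import Pool.Agent.SBW.Targets

set_option autoImplicit false

/-!
# MP_b5172a_pr: probability of a good chain
-/

open scoped Classical

noncomputable section

namespace Pool.Agent.SBW

namespace GOOD_

/-- weights of the complement of the good event -/
theorem split {α : Type} {n : ℕ} (T : Finset (Fin n → α)) (w : (Fin n → α) → ℝ)
    (hw : ∀ f ∈ T, 0 ≤ w f) (G E1 E2 E3 E4 : (Fin n → α) → Prop) [DecidablePred G]
    [DecidablePred E1] [DecidablePred E2] [DecidablePred E3] [DecidablePred E4]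
    (h : ∀ f ∈ T, w f ≠ 0 → ¬ E1 f → ¬ E2 f → ¬ E3 f → ¬ E4 f → G f) :
    ∑ f ∈ T, w f ≤ ∑ f ∈ T.filter G, w f + ∑ f ∈ T.filter E1, w f + ∑ f ∈ T.filter E2, w f +
      ∑ f ∈ T.filter E3, w f + ∑ f ∈ T.filter E4, w f := by
  rw [Finset.sum_filter, Finset.sum_filter, Finset.sum_filter, Finset.sum_filter,
    Finset.sum_filter, ← Finset.sum_add_distrib, ← Finset.sum_add_distrib,
    ← Finset.sum_add_distrib, ← Finset.sum_add_distrib]
  refine Finset.sum_le_sum fun f hf => ?_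
  have h0 := hw f hf
  have i0 : ∀ (Q : Prop) [Decidable Q], 0 ≤ (if Q then w f else 0) := fun Q _ => by
    split_ifs
    · exact h0
    · exact le_rfl
  have a0 := i0 (G f)
  have a1 := i0 (E1 f)
  have a2 := i0 (E2 f)
  have a3 := i0 (E3 f)
  have a4 := i0 (E4 f)
  by_cases hz : w f = 0
  · simp [hz]
  by_cases c1 : E1 f
  · rw [if_pos c1]; linarith
  by_cases c2 : E2 f
  · rw [if_pos c2]; linarith
  by_cases c3 : E3 f
  · rw [if_pos c3]; linarith
  by_cases c4 : E4 f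
  · rw [if_pos c4]; linarith
  rw [if_pos (h f hf hz c1 c2 c3 c4)]
  linarith

end GOOD_

theorem p_GOOD : T_QEX → T_QGA → T_QGB → T_QGC → T_GOOD := by
  intro hQEX hQGA hQGB hQGC α ι _ Ω p L X Y P hP hL n
  obtain ⟨hq, hcost⟩ := hQEX α ι Ω p L X Y P hP hL n
  have hA := hQGA α ι Ω p L X Y P n _ hP hL hq
  have hB := hQGB α ι Ω p L X Y P n _ hP hL hq
  obtain ⟨hC1, hC2⟩ := hQGC α ι Ω p L X Y P n _ 64 hP hL hq (by norm_num)
  have htot : ∑ f ∈ Fintype.piFinset (fun _ : Fin n => Ω), ∏ i : Fin n, qlaw Ω p L P i (f i) =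
      1 := by
    rw [← Finset.prod_univ_sum (fun _ : Fin n => Ω) (fun i a => qlaw Ω p L P i a)]
    exact Finset.prod_eq_one fun i _ => hq.q1 i
  have hnn : ∀ f ∈ Fintype.piFinset (fun _ : Fin n => Ω),
      0 ≤ ∏ i : Fin n, qlaw Ω p L P i (f i) := fun f hf =>
    Finset.prod_nonneg fun i _ => hq.q0 i _ (Fintype.mem_piFinset.1 hf i)
  have hs := GOOD_.split (Fintype.piFinset (fun _ : Fin n => Ω))
    (fun f => ∏ i : Fin n, qlaw Ω p L P i (f i)) hnn (fun f => Good L X Y P f)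
    (fun f => ∃ j, ∃ k ≤ n, P.θ2 * P.h * max (k : ℝ) (P.N : ℝ) < |psm (fun i => Y j (f i)) k|)
    (fun f => ∃ k ≤ n, P.N ≤ k ∧ psm (fun i => X (f i)) k < P.h / 4 * k)
    (fun f => 64 * P.A * P.h * n < psm (fun i => L (f i)) n)
    (fun f => 64 * P.B * P.h * n < psm (fun i => X (f i)) n) (by
      intro f hf h0 c1 c2 c3 c4
      push Not at c1 c2 c3 c4
      refine ⟨fun i => ?_, fun j k hk => c1 j k hk, fun k hk hN => c2 k hk hN, c3, c4⟩
      have h1 : qlaw Ω p L P i (f i) ≠ 0 := fun h => h0 (Finset.prod_eq_zero (Finset.mem_univ i) h)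
      exact hq.q3 i (f i) (Fintype.mem_piFinset.1 hf i) h1)
  rw [htot] at hs
  have hgood : 1 / 2 ≤ ∑ f ∈ (Fintype.piFinset (fun _ : Fin n => Ω)).filter
      (fun f => Good L X Y P f), ∏ i : Fin n, qlaw Ω p L P i (f i) := by
    linarith
  calc 1 / 2 * Real.exp (-(2 * P.A / P.θ1) - 2 * n * P.ε)
      ≤ (∑ f ∈ (Fintype.piFinset (fun _ : Fin n => Ω)).filter
        (fun f => Good L X Y P f), ∏ i : Fin n, qlaw Ω p L P i (f i)) *
        Real.exp (-(2 * P.A / P.θ1) - 2 * n * P.ε) := by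
        gcongr
    _ = ∑ f ∈ (Fintype.piFinset (fun _ : Fin n => Ω)).filter
        (fun f => Good L X Y P f), Real.exp (-(2 * P.A / P.θ1) - 2 * n * P.ε) *
          ∏ i : Fin n, qlaw Ω p L P i (f i) := by
        rw [Finset.sum_mul]
        exact Finset.sum_congr rfl fun f _ => mul_comm _ _
    _ ≤ _ := Finset.sum_le_sum fun f hf =>
        hcost f fun i => Fintype.mem_piFinset.1 (Finset.mem_filter.1 hf).1 i

end Pool.Agent.SBW
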