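import Pool.Agent.SBW.Targets

set_option autoImplicit false

/-!
# MP_b5172a_pr, HSB: partition function of half-space walks
-/

open scoped Classical

noncomputable section

namespace Pool.Agent.SBW

namespace HSB_

/-- weight of a list of walks -/
def g {D : ℕ} (t : ℝ) (l : List (Wk D)) : ℝ := Real.exp (t * (((l.map hx).sum : ℤ) : ℝ))

theorem g_pos {D : ℕ} (t : ℝ) (l : List (Wk D)) : 0 < g t l := Real.exp_pos _

theorem g_nil {D : ℕ} (t : ℝ) : g t ([] : List (Wk D)) = 1 := by simp [g]

theorem g_cons {D : ℕ} (t : ℝ) (b : Wk D) (l : List (Wk D)) :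
    g t (b :: l) = Real.exp (t * (hx b : ℝ)) * g t l := by
  unfold g
  rw [← Real.exp_add, List.map_cons, List.sum_cons]
  congr 1
  push_cast
  ring

/-- lists of `r` bridges of total length `n` -/
def LL (D : ℕ) : ℕ → ℕ → Finset (List (Wk D))
  | 0, n => if n = 0 then {[]} else ∅
  | (r + 1), n => ((Finset.range (n + 1)).sigma (fun k => BrF D k ×ˢ LL D r (n - k))).image
      (fun x => x.2.1 :: x.2.2)

theorem mem_LL {D : ℕ} (l : List (Wk D)) : ∀ n : ℕ, (∀ b ∈ l, Br b) →
    (l.map List.length).sum = n → l ∈ LL D l.length n := by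
  induction l with
  | nil =>
    intro n _ h
    simp only [List.map_nil, List.sum_nil] at h
    subst h
    simp [LL]
  | cons b l ih =>
    intro n hb h
    simp only [List.map_cons, List.sum_cons] at h
    simp only [List.length_cons, LL, Finset.mem_image, Finset.mem_sigma, Finset.mem_range,
      Finset.mem_product]
    refine ⟨⟨b.length, (b, l)⟩, ⟨by simp only; omega, mem_BrF.2 ⟨rfl, hb b (by simp)⟩, ?_⟩, rfl⟩
    exact ih (n - b.length) (fun c hc => hb c (by simp [hc])) (by omega)

theorem len_LL {D : ℕ} (r : ℕ) : ∀ n : ℕ, ∀ l ∈ LL D r n, l.length = r := by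
  induction r with
  | zero =>
    intro n l hl
    by_cases hn : n = 0
    · simp [LL, hn] at hl
      simp [hl]
    · simp [LL, hn] at hl
  | succ r ih =>
    intro n l hl
    simp only [LL, Finset.mem_image, Finset.mem_sigma, Finset.mem_range,
      Finset.mem_product] at hl
    obtain ⟨x, ⟨_, _, h3⟩, rfl⟩ := hl
    simp [ih _ _ h3]

theorem sum_LL {D : ℕ} (t : ℝ) (hP : ∀ n : ℕ, bS D n t ≤ Real.exp (PP D t * n)) (r : ℕ) :
    ∀ n : ℕ, ∑ l ∈ LL D r n, g t l ≤ ((n : ℝ) + 1) ^ r * Real.exp (PP D t * n) := by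
  induction r with
  | zero =>
    intro n
    by_cases hn : n = 0
    · simp [LL, hn, g_nil]
    · simp only [LL, hn, if_false, Finset.sum_empty]
      positivity
  | succ r ih =>
    intro n
    rw [LL, Finset.sum_image]
    · rw [Finset.sum_sigma]
      have h1 : ∀ k ∈ Finset.range (n + 1),
          ∑ x ∈ BrF D k ×ˢ LL D r (n - k), g t (x.1 :: x.2) ≤
            ((n : ℝ) + 1) ^ r * Real.exp (PP D t * n) := by
        intro k hk
        have hk' : k ≤ n := by simpa [Nat.lt_succ_iff] using hk
        rw [Finset.sum_product]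
        have h2 : ∀ b ∈ BrF D k, ∑ l ∈ LL D r (n - k), g t (b :: l) =
            Real.exp (t * (hx b : ℝ)) * ∑ l ∈ LL D r (n - k), g t l := by
          intro b _
          rw [Finset.mul_sum]
          exact Finset.sum_congr rfl fun l _ => g_cons t b l
        rw [Finset.sum_congr rfl h2, ← Finset.sum_mul]
        have h3 : ∑ b ∈ BrF D k, Real.exp (t * (hx b : ℝ)) = bS D k t := rfl
        rw [h3]
        have h4 : (((n - k : ℕ) : ℝ) + 1) ^ r ≤ ((n : ℝ) + 1) ^ r := by
          apply pow_le_pow_left₀ (by positivity)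
          have : ((n - k : ℕ) : ℝ) ≤ (n : ℝ) := by exact_mod_cast Nat.sub_le n k
          linarith
        calc bS D k t * ∑ l ∈ LL D r (n - k), g t l
            ≤ Real.exp (PP D t * k) *
              ((((n - k : ℕ) : ℝ) + 1) ^ r * Real.exp (PP D t * ((n - k : ℕ) : ℝ))) := by
              apply mul_le_mul (hP k) (ih (n - k))
              · exact Finset.sum_nonneg fun l _ => (g_pos t l).le
              · positivity
          _ ≤ Real.exp (PP D t * k) *
              (((n : ℝ) + 1) ^ r * Real.exp (PP D t * ((n - k : ℕ) : ℝ))) := by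
              gcongr
          _ = ((n : ℝ) + 1) ^ r * Real.exp (PP D t * n) := by
              have h5 : Real.exp (PP D t * n) =
                  Real.exp (PP D t * k) * Real.exp (PP D t * ((n - k : ℕ) : ℝ)) := by
                rw [← Real.exp_add, Nat.cast_sub hk']
                congr 1
                ring
              rw [h5]
              ring
      refine (Finset.sum_le_sum h1).trans ?_
      rw [Finset.sum_const, Finset.card_range, nsmul_eq_mul, pow_succ]
      push_cast
      apply le_of_eq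
      ring
    · rintro ⟨k, b, l⟩ hx ⟨k', b', l'⟩ hx' h
      simp only [Finset.coe_sigma, Set.mem_sigma_iff, Finset.mem_coe, Finset.mem_product,
        mem_BrF] at hx hx'
      simp only [List.cons.injEq] at h
      obtain ⟨rfl, rfl⟩ := h
      have : k = k' := by rw [← hx.2.1.1, ← hx'.2.1.1]
      subst this
      rfl

end HSB_

open HSB_ in
/-- HSB. -/
theorem p_HSB : T_HSD → T_SMUL → T_PSUP → T_HSB := by
  intro hHSD _ hPSUP D n t ht
  have hP := (hPSUP D t).1
  have hch : ∀ w : Wk D, ∃ l : List (Wk D), Hs w → (∀ b ∈ l, Br b ∧ 0 < b.length) ∧ alt l = w ∧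
      (l.map List.length).sum = w.length ∧ l.length * (l.length + 1) ≤ 2 * w.length ∧
      hx w ≤ (l.map hx).sum := by
    intro w
    by_cases h : Hs w
    · obtain ⟨l, hl⟩ := hHSD D w h
      exact ⟨l, fun _ => hl⟩
    · exact ⟨[], fun h' => absurd h' h⟩
  choose L hL using hch
  set R := Nat.sqrt (2 * n) with hR
  have h1 : hS D n t ≤ ∑ w ∈ HsF D n, g t (L w) := by
    unfold hS
    apply Finset.sum_le_sum
    intro w hw
    have hw' := (mem_HsF.1 hw).2
    unfold g
    apply Real.exp_le_exp.2
    apply mul_le_mul_of_nonneg_left _ ht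
    exact_mod_cast (hL w hw').2.2.2.2
  have h2 : ∑ w ∈ HsF D n, g t (L w) = ∑ l ∈ (HsF D n).image L, g t l := by
    rw [Finset.sum_image]
    intro w hw w' hw' h
    have e := (hL w (mem_HsF.1 hw).2).2.1
    have e' := (hL w' (mem_HsF.1 hw').2).2.1
    rw [← e, ← e', h]
  have h3 : (HsF D n).image L ⊆ (Finset.range (R + 1)).biUnion (fun r => LL D r n) := by
    intro l hl
    obtain ⟨w, hw, rfl⟩ := Finset.mem_image.1 hl
    obtain ⟨hlen, hs⟩ := mem_HsF.1 hw
    obtain ⟨a1, _, a3, a4, _⟩ := hL w hs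
    rw [Finset.mem_biUnion]
    refine ⟨(L w).length, ?_, mem_LL (L w) n (fun b hb => (a1 b hb).1) (by rw [a3, hlen])⟩
    rw [Finset.mem_range, Nat.lt_succ_iff, hR, Nat.le_sqrt]
    rw [hlen] at a4
    nlinarith
  have h4 : ∑ l ∈ (Finset.range (R + 1)).biUnion (fun r => LL D r n), g t l =
      ∑ r ∈ Finset.range (R + 1), ∑ l ∈ LL D r n, g t l := by
    apply Finset.sum_biUnion
    intro r _ r' _ hne
    rw [Function.onFun, Finset.disjoint_left]
    intro l hl hl'
    exact hne ((len_LL r n l hl).symm.trans (len_LL r' n l hl'))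
  have h5 : ∑ r ∈ Finset.range (R + 1), ((n : ℝ) + 1) ^ r ≤ ((n : ℝ) + 1) ^ (R + 1) := by
    rcases Nat.eq_zero_or_pos n with hn | hn
    · have : R = 0 := by rw [hR, hn]; simp
      rw [this, hn]
      simp
    · have hx : (2 : ℝ) ≤ (n : ℝ) + 1 := by
        have : (1 : ℝ) ≤ (n : ℝ) := by exact_mod_cast hn
        linarith
      generalize R + 1 = q
      induction q with
      | zero => simp
      | succ q ih =>
        rw [Finset.sum_range_succ, pow_succ]
        have : 0 ≤ ((n : ℝ) + 1) ^ q := by positivity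
        nlinarith
  calc hS D n t ≤ ∑ w ∈ HsF D n, g t (L w) := h1
    _ = ∑ l ∈ (HsF D n).image L, g t l := h2
    _ ≤ ∑ l ∈ (Finset.range (R + 1)).biUnion (fun r => LL D r n), g t l :=
        Finset.sum_le_sum_of_subset_of_nonneg h3 fun l _ _ => (g_pos t l).le
    _ = ∑ r ∈ Finset.range (R + 1), ∑ l ∈ LL D r n, g t l := h4
    _ ≤ ∑ r ∈ Finset.range (R + 1), ((n : ℝ) + 1) ^ r * Real.exp (PP D t * n) :=
        Finset.sum_le_sum fun r _ => sum_LL t hP r n
    _ = (∑ r ∈ Finset.range (R + 1), ((n : ℝ) + 1) ^ r) * Real.exp (PP D t * n) := by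
        rw [Finset.sum_mul]
    _ ≤ ((n : ℝ) + 1) ^ (R + 1) * Real.exp (PP D t * n) := by gcongr

end Pool.Agent.SBW
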