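import Pool.Agent.SBW.Targets

set_option autoImplicit false

/-!
# SBW, HSD: Hammersley-Welsh decomposition of half-space walks
-/

open scoped Classical

noncomputable section

namespace Pool.Agent.SBW

namespace HSD_

variable {D : ℕ}

theorem hx_nonneg {w : Wk D} (h : Br w) : 0 ≤ hx w := by
  rcases Nat.eq_zero_or_pos w.length with h0 | h0
  · have : w = [] := List.length_eq_zero_iff.mp h0
    rw [this]
    simp
  · exact (h.2 w.length h0 le_rfl).1.le

theorem hx_nonneg_hs {w : Wk D} (h : Hs w) : 0 ≤ hx w := by
  rcases Nat.eq_zero_or_pos w.length with h0 | h0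
  · have : w = [] := List.length_eq_zero_iff.mp h0
    rw [this]
    simp
  · exact (h.2 w.length h0 le_rfl).le

theorem sum_nonneg' (l : List (Wk D)) (h : ∀ b ∈ l, Br b) : 0 ≤ (l.map hx).sum := by
  apply List.sum_nonneg
  intro x hx'
  rw [List.mem_map] at hx'
  obtain ⟨b, hb, rfl⟩ := hx'
  exact hx_nonneg (h b hb)

/-- last time of the maximum -/
theorem exists_last_max (w : Wk D) : ∃ k ≤ w.length, (∀ i ≤ w.length, pos w i 0 ≤ pos w k 0) ∧
    ∀ i, k < i → i ≤ w.length → pos w i 0 < pos w k 0 := by
  obtain ⟨k, hk, hmax⟩ := Finset.exists_max_image (Finset.range (w.length + 1))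
    (fun k => pos w k 0 * ((w.length : ℤ) + 1) + k) ⟨0, by simp⟩
  have hk' : k ≤ w.length := by
    have := Finset.mem_range.mp hk
    omega
  have hm : ∀ i ≤ w.length, pos w i 0 * ((w.length : ℤ) + 1) + i ≤
      pos w k 0 * ((w.length : ℤ) + 1) + k := by
    intro i hi
    exact hmax i (Finset.mem_range.mpr (by omega))
  refine ⟨k, hk', ?_, ?_⟩
  · intro i hi
    by_contra hc
    push Not at hc
    have h1 := hm i hi
    have h2 : (pos w k 0 + 1) * ((w.length : ℤ) + 1) ≤ pos w i 0 * ((w.length : ℤ) + 1) :=
      mul_le_mul_of_nonneg_right (by omega) (by positivity)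
    have h3 : (k : ℤ) ≤ w.length := by exact_mod_cast hk'
    have h4 : (0 : ℤ) ≤ i := by positivity
    have h5 : (pos w k 0 + 1) * ((w.length : ℤ) + 1) =
        pos w k 0 * ((w.length : ℤ) + 1) + ((w.length : ℤ) + 1) := by ring
    linarith
  · intro i hki hi
    by_contra hc
    push Not at hc
    have h1 := hm i hi
    have h2 : pos w k 0 * ((w.length : ℤ) + 1) ≤ pos w i 0 * ((w.length : ℤ) + 1) :=
      mul_le_mul_of_nonneg_right hc (by positivity)
    have h3 : (k : ℤ) < i := by exact_mod_cast hki
    linarith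

theorem main (n : ℕ) : ∀ w : Wk D, w.length = n → Hs w → ∃ l : List (Wk D),
    (∀ b ∈ l, Br b ∧ 0 < b.length) ∧ alt l = w ∧ (l.map List.length).sum = w.length ∧
    l.length * (l.length + 1) ≤ 2 * w.length ∧ hx w ≤ (l.map hx).sum ∧
    ∃ k ≤ w.length, (l.length : ℤ) ≤ pos w k 0 := by
  induction n using Nat.strong_induction_on with
  | _ n ih =>
  intro w hn hw
  rcases Nat.eq_zero_or_pos n with h0 | hpos
  · have hwn : w = [] := List.length_eq_zero_iff.mp (by omega)
    subst hwn
    refine ⟨[], by simp, rfl, by simp, by simp, by simp, 0, by simp, by simp⟩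
  obtain ⟨k, hk, hmax, hlast⟩ := exists_last_max w
  have h1 : 0 < pos w 1 0 := hw.2 1 one_pos (by omega)
  have hposk : 0 < pos w k 0 := h1.trans_le (hmax 1 (by omega))
  have hk1 : 0 < k := by
    rcases Nat.eq_zero_or_pos k with h | h
    · rw [h, pos_zero] at hposk
      exact absurd hposk (lt_irrefl _)
    · exact h
  -- first bridge
  have hlt : (w.take k).length = k := by
    rw [List.length_take]
    omega
  have hxb : hx (w.take k) = pos w k 0 := by
    unfold hx
    rw [hlt, pos_take_of_le w le_rfl]
  have hb : Br (w.take k) := by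
    constructor
    · intro i hi i' hi' he
      rw [hlt] at hi hi'
      apply hw.1 i (by omega) i' (by omega)
      intro j
      have := he j
      rwa [pos_take_of_le w hi, pos_take_of_le w hi'] at this
    · intro i hi0 hi
      rw [hlt] at hi
      rw [pos_take_of_le w hi, hxb]
      exact ⟨hw.2 i hi0 (by omega), hmax i (by omega)⟩
  -- the rest
  set w2 : Wk D := (w.drop k).map (flipS 0) with hw2
  have hl2 : w2.length = n - k := by
    rw [hw2, List.length_map, List.length_drop, hn]
  have hpos2 : ∀ i j, pos w2 i j = if j = 0 then -(pos w (k + i) j - pos w k j) else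
      pos w (k + i) j - pos w k j := by
    intro i j
    rw [hw2, pos_map_flip, pos_drop]
  have hpos20 : ∀ i, pos w2 i 0 = pos w k 0 - pos w (k + i) 0 := by
    intro i
    rw [hpos2, if_pos rfl]
    ring
  have hHs2 : Hs w2 := by
    constructor
    · intro i hi i' hi' he
      rw [hl2] at hi hi'
      have h2 := hw.1 (k + i) (by omega) (k + i') (by omega) (by
        intro j
        have h3 := he j
        rw [hpos2, hpos2] at h3
        by_cases hj : j = 0
        · rw [if_pos hj, if_pos hj] at h3
          linarith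
        · rw [if_neg hj, if_neg hj] at h3
          linarith)
      omega
    · intro i hi0 hi
      rw [hl2] at hi
      rw [hpos20]
      have := hlast (k + i) (by omega) (by omega)
      linarith
  obtain ⟨l2, hl2a, hl2b, hl2c, hl2d, hl2e, k2, hk2, hl2f⟩ := ih (n - k) (by omega) w2 hl2 hHs2
  -- number of bridges
  have hr : (l2.length : ℤ) + 1 ≤ pos w k 0 := by
    rw [hpos20] at hl2f
    rcases Nat.eq_zero_or_pos k2 with h | h
    · rw [h, add_zero, sub_self] at hl2f
      linarith
    · rw [hl2] at hk2
      have := hw.2 (k + k2) (by omega) (by omega)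
      linarith
  have hrk : l2.length + 1 ≤ k := by
    have h2 := abs_pos_le w k 0
    have h3 : pos w k 0 ≤ (k : ℤ) := (le_abs_self _).trans h2
    have h4 : (l2.length : ℤ) + 1 ≤ (k : ℤ) := hr.trans h3
    exact_mod_cast h4
  have hsum2 : 0 ≤ (l2.map hx).sum := sum_nonneg' l2 (fun b hb => (hl2a b hb).1)
  refine ⟨w.take k :: l2, ?_, ?_, ?_, ?_, ?_, k, hk, ?_⟩
  · intro b hb'
    rcases List.mem_cons.mp hb' with h | h
    · rw [h]
      exact ⟨hb, by omega⟩
    · exact hl2a b h
  · show w.take k ++ (alt l2).map (flipS 0) = w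
    rw [hl2b, hw2, map_flip_flip, List.take_append_drop]
  · rw [List.map_cons, List.sum_cons, hl2c, hl2, hlt, hn]
    omega
  · rw [List.length_cons, hn]
    rw [hl2] at hl2d
    have h2 : (l2.length + 1) * (l2.length + 1 + 1) =
        l2.length * (l2.length + 1) + 2 * (l2.length + 1) := by ring
    rw [h2]
    omega
  · rw [List.map_cons, List.sum_cons]
    have h2 : hx w = hx (w.take k) - hx w2 := by
      have h3 : hx w2 = pos w k 0 - hx w := by
        have h4 : hx w2 = pos w2 w2.length 0 := rfl
        rw [h4, hpos20, hl2]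
        have h5 : k + (n - k) = w.length := by omega
        rw [h5]
        rfl
      rw [h3, hxb]
      ring
    have h3 := hx_nonneg_hs hHs2
    linarith
  · rw [List.length_cons]
    push_cast
    exact hr

end HSD_

open HSD_ in
theorem p_HSD : T_HSD := by
  intro D w hw
  obtain ⟨l, h1, h2, h3, h4, h5, _⟩ := main w.length w rfl hw
  exact ⟨l, h1, h2, h3, h4, h5⟩

end Pool.Agent.SBW
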