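import Pool.Agent.SBW.Targets

set_option autoImplicit false

/-!
# MP_b5172a_pr: HW, the partition function of self-avoiding walks
-/

open scoped Classical

noncomputable section

namespace Pool.Agent.SBW

namespace HW_

variable {D : ℕ}

/-- last time of the minimum -/
def IsLM (w : Wk D) (k : ℕ) : Prop :=
  k ≤ w.length ∧ (∀ i ≤ w.length, pos w k 0 ≤ pos w i 0) ∧
    ∀ i, k < i → i ≤ w.length → pos w k 0 < pos w i 0

theorem exists_lm (w : Wk D) : ∃ k, IsLM w k := by
  obtain ⟨a, ha, hmin⟩ := Finset.exists_min_image (Finset.range (w.length + 1))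
    (fun i => pos w i 0) ⟨0, Finset.mem_range.2 (Nat.succ_pos _)⟩
  have hne : ((Finset.range (w.length + 1)).filter (fun i => pos w i 0 = pos w a 0)).Nonempty :=
    ⟨a, Finset.mem_filter.2 ⟨ha, rfl⟩⟩
  obtain ⟨k, hk, hmax⟩ := Finset.exists_max_image _ (fun i : ℕ => i) hne
  rw [Finset.mem_filter, Finset.mem_range] at hk
  refine ⟨k, by omega, fun i hi => ?_, fun i hi hi' => ?_⟩
  · rw [hk.2]
    exact hmin i (Finset.mem_range.2 (by omega))
  · refine lt_of_le_of_ne ?_ fun h => ?_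
    · rw [hk.2]
      exact hmin i (Finset.mem_range.2 (by omega))
    · have h1 := hmax i (Finset.mem_filter.2 ⟨Finset.mem_range.2 (by omega), by rw [← h, hk.2]⟩)
      omega

/-- the last time of the minimum -/
def k0 (w : Wk D) : ℕ := (exists_lm w).choose

theorem k0_spec (w : Wk D) : IsLM w (k0 w) := (exists_lm w).choose_spec

/-- the first part -/
def uu (w : Wk D) : Wk D := ((0 : Fin (D + 2)), true) :: revW (w.take (k0 w))

/-- the second part -/
def vv' (w : Wk D) : Wk D := w.drop (k0 w)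

theorem length_uu (w : Wk D) : (uu w).length = k0 w + 1 := by
  unfold uu
  rw [List.length_cons, length_revW, List.length_take, min_eq_left (k0_spec w).1]

theorem length_vv (w : Wk D) : (vv' w).length = w.length - k0 w := by
  unfold vv'
  rw [List.length_drop]

theorem pos_uu (w : Wk D) {k : ℕ} (hk : k ≤ k0 w) (j : Fin (D + 2)) :
    pos (uu w) (k + 1) j = stv ((0 : Fin (D + 2)), true) j +
      (pos w (k0 w - k) j - pos w (k0 w) j) := by
  have hl : (w.take (k0 w)).length = k0 w := by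
    rw [List.length_take, min_eq_left (k0_spec w).1]
  unfold uu
  rw [pos_cons_succ, pos_revW _ (by rw [hl]; exact hk), hl, pos_take_of_le w (Nat.sub_le _ _),
    pos_take_of_le w le_rfl]

theorem hs_uu {w : Wk D} (hw : Saw w) : Hs (uu w) := by
  obtain ⟨h1, h2, -⟩ := k0_spec w
  have hpos : ∀ k ≤ k0 w, 0 < pos (uu w) (k + 1) 0 := by
    intro k hk
    rw [pos_uu w hk]
    have h3 := h2 (k0 w - k) (by omega)
    have h4 : stv ((0 : Fin (D + 2)), true) (0 : Fin (D + 2)) = 1 := by simp [stv, sg]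
    rw [h4]
    linarith
  have hpos' : ∀ k, 0 < k → k ≤ (uu w).length → 0 < pos (uu w) k 0 := by
    intro k hk hk'
    rw [length_uu] at hk'
    obtain ⟨i, rfl⟩ : ∃ i, k = i + 1 := ⟨k - 1, by omega⟩
    exact hpos i (by omega)
  refine ⟨fun i hi k hk h => ?_, hpos'⟩
  rcases Nat.eq_zero_or_pos i with hi0 | hi0 <;> rcases Nat.eq_zero_or_pos k with hk0 | hk0
  · rw [hi0, hk0]
  · subst hi0
    have h3 := hpos' k hk0 hk
    rw [← h 0, pos_zero] at h3
    exact absurd h3 (lt_irrefl _)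
  · subst hk0
    have h3 := hpos' i hi0 hi
    rw [h 0, pos_zero] at h3
    exact absurd h3 (lt_irrefl _)
  · rw [length_uu] at hi hk
    obtain ⟨a, rfl⟩ : ∃ a, i = a + 1 := ⟨i - 1, by omega⟩
    obtain ⟨b, rfl⟩ : ∃ b, k = b + 1 := ⟨k - 1, by omega⟩
    have h3 := hw (k0 w - a) (by omega) (k0 w - b) (by omega) fun j => by
      have h4 := h j
      rw [pos_uu w (by omega), pos_uu w (by omega)] at h4
      linarith
    omega

theorem hs_vv {w : Wk D} (hw : Saw w) : Hs (vv' w) := by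
  obtain ⟨h1, -, h3⟩ := k0_spec w
  refine ⟨fun i hi k hk h => ?_, fun k hk hk' => ?_⟩
  · rw [length_vv] at hi hk
    have h4 := hw (k0 w + i) (by omega) (k0 w + k) (by omega) fun j => by
      have h5 := h j
      unfold vv' at h5
      rw [pos_drop, pos_drop] at h5
      linarith
    omega
  · rw [length_vv] at hk'
    unfold vv'
    rw [pos_drop]
    have h4 := h3 (k0 w + k) (by omega) (by omega)
    linarith

theorem hx_vv (w : Wk D) : hx w ≤ hx (vv' w) := by
  obtain ⟨h1, h2, -⟩ := k0_spec w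
  have h3 := h2 0 (Nat.zero_le _)
  rw [pos_zero] at h3
  unfold hx
  rw [length_vv]
  unfold vv'
  rw [pos_drop, Nat.add_sub_cancel' h1]
  linarith

/-- the code of a walk -/
def code (w : Wk D) : (_ : ℕ) × (Wk D × Wk D) := ⟨k0 w, (uu w, vv' w)⟩

theorem code_inj : Function.Injective (code (D := D)) := by
  intro w w' h
  unfold code at h
  have h1 : k0 w = k0 w' := congrArg Sigma.fst h
  have h2 : (uu w, vv' w) = (uu w', vv' w') := eq_of_heq (Sigma.mk.inj h).2
  have h3 : uu w = uu w' := congrArg Prod.fst h2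
  have h4 : vv' w = vv' w' := congrArg Prod.snd h2
  unfold uu at h3
  have h5 : revW (w.take (k0 w)) = revW (w'.take (k0 w')) := (List.cons.inj h3).2
  have h6 := congrArg revW h5
  rw [revW_revW, revW_revW] at h6
  unfold vv' at h4
  rw [← List.take_append_drop (k0 w) w, ← List.take_append_drop (k0 w') w', h6, h4]

theorem hS_nonneg (n : ℕ) (t : ℝ) : 0 ≤ hS D n t :=
  Finset.sum_nonneg fun _ _ => (Real.exp_pos _).le

/-- the basic inequality -/
theorem main (n : ℕ) {t : ℝ} (ht : 0 ≤ t) :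
    cS D n t ≤ ∑ k ∈ Finset.range (n + 1), hS D (k + 1) 0 * hS D (n - k) t := by
  have h1 : ∀ k, hS D (k + 1) 0 * hS D (n - k) t =
      ∑ x ∈ HsF D (k + 1) ×ˢ HsF D (n - k), Real.exp (t * (hx x.2 : ℝ)) := by
    intro k
    rw [Finset.sum_product]
    unfold hS
    rw [Finset.sum_mul]
    refine Finset.sum_congr rfl fun u _ => ?_
    rw [zero_mul, Real.exp_zero, one_mul]
  rw [Finset.sum_congr rfl fun k _ => h1 k]
  have h2 := Finset.sum_sigma (Finset.range (n + 1))
    (fun k => HsF D (k + 1) ×ˢ HsF D (n - k)) (fun x => Real.exp (t * (hx x.2.2 : ℝ)))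
  rw [← h2]
  unfold cS
  calc ∑ w ∈ SwF D n, Real.exp (t * (hx w : ℝ))
      ≤ ∑ w ∈ SwF D n, Real.exp (t * (hx (code w).2.2 : ℝ)) := by
        refine Finset.sum_le_sum fun w _ => Real.exp_le_exp.2
          (mul_le_mul_of_nonneg_left ?_ ht)
        exact_mod_cast hx_vv w
    _ = ∑ x ∈ (SwF D n).image code, Real.exp (t * (hx x.2.2 : ℝ)) := by
        rw [Finset.sum_image fun a _ b _ h => code_inj h]
    _ ≤ _ := by
        refine Finset.sum_le_sum_of_subset_of_nonneg ?_ fun _ _ _ => (Real.exp_pos _).le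
        intro x hx
        obtain ⟨w, hw, rfl⟩ := Finset.mem_image.1 hx
        obtain ⟨hl, hs⟩ := mem_SwF.1 hw
        have hk := (k0_spec w).1
        rw [Finset.mem_sigma, Finset.mem_product]
        refine ⟨Finset.mem_range.2 ?_, mem_HsF.2 ⟨length_uu w, hs_uu hs⟩,
          mem_HsF.2 ⟨?_, hs_vv hs⟩⟩
        · show k0 w < n + 1
          omega
        · show (vv' w).length = n - k0 w
          rw [length_vv, hl]

theorem pow_bound (n a s : ℕ) (x : ℝ) (hx : 0 ≤ x) (hx' : x ≤ (n : ℝ) + 2) (ha : a ≤ s) :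
    x ^ a ≤ ((n : ℝ) + 2) ^ s := by
  have h1 : (1 : ℝ) ≤ (n : ℝ) + 2 := by
    have : (0 : ℝ) ≤ n := Nat.cast_nonneg n
    linarith
  exact (pow_le_pow_left₀ hx hx' a).trans (pow_le_pow_right₀ h1 ha)

end HW_

/-- HW -/
theorem p_HW : T_HSB → T_PMON → T_HW := by
  intro hHSB hPMON D n t ht
  have hP := (hPMON D t ht).1
  set R := Nat.sqrt (2 * n + 2) + 1 with hR
  have hn : (0 : ℝ) ≤ n := Nat.cast_nonneg n
  refine (HW_.main n ht).trans ?_
  have hterm : ∀ k ∈ Finset.range (n + 1), hS D (k + 1) 0 * hS D (n - k) t ≤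
      ((n : ℝ) + 2) ^ (2 * R) * Real.exp (PP D t * ((n : ℝ) + 1)) := by
    intro k hk
    have hk' : k ≤ n := by
      have := Finset.mem_range.1 hk
      omega
    have h1 := hHSB D (k + 1) 0 le_rfl
    have h2 := hHSB D (n - k) t ht
    have hs1 : Nat.sqrt (2 * (k + 1)) + 1 ≤ R := by
      have := Nat.sqrt_le_sqrt (show 2 * (k + 1) ≤ 2 * n + 2 by omega)
      omega
    have hs2 : Nat.sqrt (2 * (n - k)) + 1 ≤ R := by
      have := Nat.sqrt_le_sqrt (show 2 * (n - k) ≤ 2 * n + 2 by omega)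
      omega
    have hkn : (k : ℝ) ≤ n := by exact_mod_cast hk'
    have hk0 : (0 : ℝ) ≤ k := Nat.cast_nonneg k
    have h3 : hS D (k + 1) 0 ≤ ((n : ℝ) + 2) ^ R * Real.exp (PP D t * ((k : ℝ) + 1)) := by
      refine h1.trans (mul_le_mul ?_ ?_ (Real.exp_pos _).le (by positivity))
      · refine HW_.pow_bound n _ _ _ (by positivity) ?_ hs1
        push_cast
        linarith
      · refine Real.exp_le_exp.2 ?_
        push_cast
        exact mul_le_mul_of_nonneg_right hP (by linarith)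
    have hnk : ((n - k : ℕ) : ℝ) = (n : ℝ) - k := Nat.cast_sub hk'
    have h4 : hS D (n - k) t ≤ ((n : ℝ) + 2) ^ R * Real.exp (PP D t * ((n : ℝ) - k)) := by
      rw [hnk] at h2
      refine h2.trans (mul_le_mul_of_nonneg_right ?_ (Real.exp_pos _).le)
      exact HW_.pow_bound n _ _ _ (by linarith) (by linarith) hs2
    refine (mul_le_mul h3 h4 (HW_.hS_nonneg _ _) (by positivity)).trans (le_of_eq ?_)
    have h5 : PP D t * ((n : ℝ) + 1) = PP D t * ((k : ℝ) + 1) + PP D t * ((n : ℝ) - k) := by ring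
    rw [h5, Real.exp_add, two_mul, pow_add]
    ring
  refine (Finset.sum_le_sum hterm).trans ?_
  rw [Finset.sum_const, Finset.card_range, nsmul_eq_mul]
  have h6 : 2 * Nat.sqrt (2 * n + 2) + 3 = 2 * R + 1 := by omega
  rw [h6, pow_succ]
  have h7 : ((n + 1 : ℕ) : ℝ) ≤ (n : ℝ) + 2 := by
    push_cast
    linarith
  have h8 : 0 ≤ ((n : ℝ) + 2) ^ (2 * R) * Real.exp (PP D t * ((n : ℝ) + 1)) := by positivity
  calc ((n + 1 : ℕ) : ℝ) * (((n : ℝ) + 2) ^ (2 * R) * Real.exp (PP D t * ((n : ℝ) + 1)))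
      ≤ ((n : ℝ) + 2) * (((n : ℝ) + 2) ^ (2 * R) * Real.exp (PP D t * ((n : ℝ) + 1))) :=
        mul_le_mul_of_nonneg_right h7 h8
    _ = _ := by ring

end Pool.Agent.SBW
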