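import Pool.Agent.SBW.Basic

set_option autoImplicit false

/-!
# MP_b5172a_pr: quantitative sub-ballisticity of self-avoiding walk: targets

Proofs: `Blueprint.lean.txt`. All decidability is classical.
-/

open scoped Classical

noncomputable section

namespace Pool.Agent.SBW

/-! ## A. Bridges -/

/-- BAPP: concatenation of bridges, cut times. -/
def T_BAPP : Prop := ∀ (D : ℕ) (u v : Wk D), Br u → Br v → Br (u ++ v) ∧ Cut (u ++ v) u.length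

/-- BCUT: a bridge is cut into two bridges at a cut time. -/
def T_BCUT : Prop := ∀ (D : ℕ) (w : Wk D) (k : ℕ), Br w → Cut w k →
  Br (w.take k) ∧ Br (w.drop k)

/-- UF: unique factorization into irreducible bridges. -/
def T_UF : Prop := ∀ (D : ℕ) (l₁ l₂ : List (Wk D)), (∀ w ∈ l₁, Irr w) → (∀ w ∈ l₂, Irr w) →
  l₁.flatten = l₂.flatten → l₁ = l₂

/-- BFL: a concatenation of bridges is a bridge, heights and lengths add up. -/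
def T_BFL : Prop := ∀ (D : ℕ) (l : List (Wk D)), (∀ w ∈ l, Br w) →
  Br l.flatten ∧ hx l.flatten = (l.map hx).sum ∧
  l.flatten.length = (l.map List.length).sum

/-- REN: renewal equation. -/
def T_REN : Prop := ∀ (D n : ℕ) (t : ℝ), 1 ≤ n →
  bS D n t = ∑ k ∈ Finset.Icc 1 n, aS D k t * bS D (n - k) t

/-- SMUL: supermultiplicativity and trivial bounds. -/
def T_SMUL : Prop := ∀ (D m n : ℕ) (t : ℝ), bS D m t * bS D n t ≤ bS D (m + n) t ∧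
  bS D 0 t = 1 ∧ 0 < bS D n t ∧
  bS D n t ≤ Real.exp ((Real.log (2 * ((D : ℝ) + 2)) + |t|) * n)

/-! ## B. Pressure -/

/-- PSUP: the pressure is the growth rate. -/
def T_PSUP : Prop := ∀ (D : ℕ) (t : ℝ), (∀ n : ℕ, bS D n t ≤ Real.exp (PP D t * n)) ∧
  ∀ c : ℝ, (∀ n : ℕ, bS D n t ≤ Real.exp (c * n)) → PP D t ≤ c

/-- PCVX: convexity of the pressure. -/
def T_PCVX : Prop := ∀ (D : ℕ) (s u lam : ℝ), 0 ≤ lam → lam ≤ 1 →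
  PP D (lam * s + (1 - lam) * u) ≤ lam * PP D s + (1 - lam) * PP D u

/-- PMON: monotonicity and slope at most one. -/
def T_PMON : Prop := ∀ (D : ℕ) (t : ℝ), 0 ≤ t →
  PP D 0 ≤ PP D t ∧ PP D t ≤ PP D 0 + t ∧ PP D t ≤ Real.log (2 * ((D : ℝ) + 2)) + t ∧ 0 ≤ PP D 0

/-- VMON: `v` is monotone with values in `[0,1]`. -/
def T_VMON : Prop := ∀ (D : ℕ) (t : ℝ), 0 < t →
  PP D t = PP D 0 + t * vv D t ∧ 0 ≤ vv D t ∧ vv D t ≤ 1 ∧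
  ∀ s : ℝ, 0 < s → s ≤ t → vv D s ≤ vv D t

/-- CN: lower bound for the number of self-avoiding walks. -/
def T_CN : Prop := ∀ (D n : ℕ), Real.exp (PP D 0 * n) ≤ cS D n 0

/-! ## C. Hammersley-Welsh unfolding -/

/-- alternating concatenation of bridges -/
def alt {D : ℕ} : List (Wk D) → Wk D
  | [] => []
  | (b :: l) => b ++ (alt l).map (flipS 0)

/-- HSD: decomposition of half-space walks. -/
def T_HSD : Prop := ∀ (D : ℕ) (w : Wk D), Hs w → ∃ l : List (Wk D),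
  (∀ b ∈ l, Br b ∧ 0 < b.length) ∧ alt l = w ∧ (l.map List.length).sum = w.length ∧
  l.length * (l.length + 1) ≤ 2 * w.length ∧ hx w ≤ (l.map hx).sum

/-- HSB: partition function of half-space walks. -/
def T_HSB : Prop := ∀ (D n : ℕ) (t : ℝ), 0 ≤ t →
  hS D n t ≤ ((n : ℝ) + 1) ^ (Nat.sqrt (2 * n) + 1) * Real.exp (PP D t * n)

/-- HW: partition function of self-avoiding walks. -/
def T_HW : Prop := ∀ (D n : ℕ) (t : ℝ), 0 ≤ t →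
  cS D n t ≤ ((n : ℝ) + 2) ^ (2 * Nat.sqrt (2 * n + 2) + 3) * Real.exp (PP D t * ((n : ℝ) + 1))

/-! ## D. Unfolding of backtrack pairs -/

/-- PDIS: two backtrack pairs are disjoint. -/
def T_PDIS : Prop := ∀ (D : ℕ) (w : Wk D) (p q : ℕ × ℕ), Pair w p → Pair w q → p ≠ q →
  p.2 < q.1 ∨ q.2 < p.1

/-- PCOV: the backtrack pairs of an irreducible bridge cover all interior levels. -/
def T_PCOV : Prop := ∀ (D : ℕ) (w : Wk D), Irr w → hx w ≤ 1 + ∑ p ∈ pairF w, (dep w p : ℤ)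

/-- the shift produced by the unfolding of the pair `p` at time `k` -/
def gsh {D : ℕ} (w : Wk D) (p : ℕ × ℕ) (k : ℕ) : ℤ :=
  if k ≤ p.1 then 0 else if k ≤ p.2 then pos w p.1 0 - pos w k 0 else
    pos w p.1 0 - pos w p.2 0

/-- UNFP: positions of the unfolded walk. -/
def T_UNFP : Prop := ∀ (D : ℕ) (w : Wk D) (S : Finset (ℕ × ℕ)), S ⊆ pairF w →
  ∀ k ≤ w.length, pos (flipAt w (cov S)) k 0 = pos w k 0 + 2 * ∑ p ∈ S, gsh w p k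

/-- UNF: the unfolded walk is a bridge. -/
def T_UNF : Prop := ∀ (D : ℕ) (w : Wk D) (S : Finset (ℕ × ℕ)), Br w → S ⊆ pairF w →
  Br (flipAt w (cov S)) ∧ hx (flipAt w (cov S)) = hx w + 2 * ∑ p ∈ S, (dep w p : ℤ) ∧
  ∀ p ∈ S, p.1 < p.2 ∧ 0 < dep w p ∧ Cut (flipAt w (cov S)) p.1 ∧ Cut (flipAt w (cov S)) p.2 ∧
    pos (flipAt w (cov S)) p.2 0 - pos (flipAt w (cov S)) p.1 0 = dep w p

/-- CUTC: number of cut times of the unfolded walk. -/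
def T_CUTC : Prop := ∀ (D : ℕ) (w : Wk D) (S : Finset (ℕ × ℕ)), Irr w → S ⊆ pairF w →
  (cutF (flipAt w (cov S))).card ≤ 2 + 3 * ∑ p ∈ S, dep w p

/-- ULS: sum over the sets of pairs of cut times. -/
def T_ULS : Prop := ∀ (D : ℕ) (w : Wk D) (y : ℝ) (z : ℕ → ℝ) (V : Finset (Finset (ℕ × ℕ))),
  0 < y → (∀ k, 0 ≤ z k) → (∀ N : ℕ, ∑ k ∈ Finset.Icc 1 N, z k * (1 + y) ^ (3 * k) ≤ y) →
  (∀ S ∈ V, (∀ p ∈ S, p.1 < p.2 ∧ Cut w p.1 ∧ Cut w p.2) ∧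
    (∀ p ∈ S, ∀ q ∈ S, p.1 = q.1 → p = q) ∧
    (cutF w).card ≤ 2 + 3 * ∑ p ∈ S, (pos w p.2 0 - pos w p.1 0).toNat) →
  ∑ S ∈ V, ∏ p ∈ S, z ((pos w p.2 0 - pos w p.1 0).toNat) ≤ (1 + y) ^ 2

/-- UL: the unfolding inequality. -/
def T_UL : Prop := ∀ (D m : ℕ) (t y : ℝ) (z : ℕ → ℝ), 0 < y → (∀ k, 0 ≤ z k) →
  (∀ N : ℕ, ∑ k ∈ Finset.Icc 1 N, z k * (1 + y) ^ (3 * k) ≤ y) →
  ∑ w ∈ IrF D m, Real.exp (t * (hx w : ℝ)) *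
      ∏ p ∈ pairF w, (1 + z (dep w p) * Real.exp (2 * t * (dep w p : ℝ))) ≤
    (1 + y) ^ 2 * bS D m t

/-! ## E. Irreducible bridges under the contradiction hypothesis -/

/-- SLOW: slow irreducible bridges. -/
def T_SLOW : Prop := ∀ (D m : ℕ) (t0 ζ : ℝ), 0 < t0 → 0 ≤ ζ →
  ∑ w ∈ (IrF D m).filter (fun w => (hx w : ℝ) < (1 - ζ) * vv D t0 * m),
      Real.exp (2 * t0 * (hx w : ℝ)) ≤
    Real.exp ((PP D (2 * t0) - ζ * vv D t0 * t0) * m)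

/-- DEEP: irreducible bridges with many deep backtracks. -/
def T_DEEP : Prop := ∀ (D m : ℕ) (t0 t1 : ℝ), 0 < t0 → 100 * t0 ≤ t1 → t1 ≤ 1 / 100 →
  vv D t1 ≤ 21 / 20 * vv D t0 →
  ∑ w ∈ (IrF D m).filter (fun w => 19 / 20 * vv D t0 * m ≤ (hx w : ℝ) ∧
      1 / 8 * vv D t0 * m ≤
        ∑ p ∈ (pairF w).filter (fun p => 1 ≤ t1 ^ 2 * (dep w p : ℝ)), (dep w p : ℝ)),
      Real.exp (2 * t0 * (hx w : ℝ)) ≤
    4 * Real.exp ((PP D (2 * t0) - vv D t0 * t1 / 100) * m)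

/-- SHORT: irreducible bridges with many short backtracks. -/
def T_SHORT : Prop := ∀ (D m : ℕ) (t0 t1 : ℝ), 0 < t0 → 0 < t1 → t1 ≤ 1 / 100 →
  4 ≤ vv D t0 * m →
  ∑ w ∈ (IrF D m).filter (fun w => 19 / 20 * vv D t0 * m ≤ (hx w : ℝ) ∧
      ∑ p ∈ (pairF w).filter (fun p => 1 ≤ t1 ^ 2 * (dep w p : ℝ)), (dep w p : ℝ) <
        1 / 8 * vv D t0 * m),
      Real.exp (2 * t0 * (hx w : ℝ)) ≤
    4 * Real.exp ((PP D (2 * t0) - vv D t0 * t1 ^ 6 / 36) * m)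

/-- MLE: total mass at most one. -/
def T_MLE : Prop := ∀ (D K : ℕ) (t : ℝ),
  ∑ k ∈ Finset.Icc 1 K, aS D k t * Real.exp (-(PP D t * k)) ≤ 1

/-- MGE: total mass one under exponential decay. -/
def T_MGE : Prop := ∀ (D : ℕ) (t C δ : ℝ), 0 < δ →
  (∀ m : ℕ, aS D m t ≤ C * Real.exp ((PP D t - δ) * m)) → ∀ ε : ℝ, 0 < ε → ∃ K₀ : ℕ, ∀ K ≥ K₀,
  1 - ε ≤ ∑ k ∈ Finset.Icc 1 K, aS D k t * Real.exp (-(PP D t * k))

/-- the weight of an irreducible bridge -/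
def pw (D : ℕ) (t : ℝ) (w : Wk D) : ℝ := Real.exp (t * (hx w : ℝ) - PP D t * (w.length : ℝ))

/-- NSL: exponential decay of the weight of the irreducible bridges that are not slow. -/
def T_NSL : Prop := ∀ (D m : ℕ) (t0 t1 : ℝ), 0 < t0 → 100 * t0 ≤ t1 → t1 ≤ 1 / 100 →
  t1 ≤ vv D t0 → vv D t1 ≤ 21 / 20 * vv D t0 → 4 ≤ vv D t0 * m →
  ∑ w ∈ (IrF D m).filter (fun w => 19 / 20 * vv D t0 * m ≤ (hx w : ℝ)), pw D (2 * t0) w ≤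
    8 * Real.exp (-(t1 ^ 8 * m))

/-- MASS: the total mass of irreducible bridges is one. -/
def T_MASS : Prop := ∀ (D : ℕ) (t0 t1 : ℝ), 0 < t0 → 100 * t0 ≤ t1 → t1 ≤ 1 / 100 →
  t1 ≤ vv D t0 → vv D t1 ≤ 21 / 20 * vv D t0 →
  (∀ K : ℕ, ∑ w ∈ IrLe D K, pw D (2 * t0) w ≤ 1) ∧
  ∀ ε : ℝ, 0 < ε → ∃ K : ℕ, 1 - ε ≤ ∑ w ∈ IrLe D K, pw D (2 * t0) w

/-- TILT: first order comparison of two tilts. -/
def T_TILT : Prop := ∀ (D K : ℕ) (t t' ε : ℝ), 1 - ε ≤ ∑ w ∈ IrLe D K, pw D t w →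
  (PP D t - PP D t') * ∑ w ∈ IrLe D K, pw D t w * (w.length : ℝ) -
    (t - t') * ∑ w ∈ IrLe D K, pw D t w * (hx w : ℝ) ≤ ε

/-- MOM: first moments of the law of irreducible bridges. -/
def T_MOM : Prop := ∀ (D : ℕ) (t0 t1 ε : ℝ), 0 < t0 → 100 * t0 ≤ t1 → t1 ≤ 1 / 100 →
  t1 ≤ vv D t0 → vv D t1 ≤ 21 / 20 * vv D t0 → 0 < ε → ∃ K : ℕ,
  1 - ε ≤ ∑ w ∈ IrLe D K, pw D (2 * t0) w ∧
  ∑ w ∈ IrLe D K, pw D (2 * t0) w ≤ 1 ∧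
  1 / 2 ≤ ∑ w ∈ IrLe D K, pw D (2 * t0) w * (w.length : ℝ) ∧
  t1 ^ 12 * ∑ w ∈ IrLe D K, pw D (2 * t0) w * (w.length : ℝ) ≤ 1 ∧
  ∑ w ∈ IrLe D K, pw D (2 * t0) w * (hx w : ℝ) ≤
    2 * vv D t0 * ∑ w ∈ IrLe D K, pw D (2 * t0) w * (w.length : ℝ) ∧
  vv D t0 / 40 * ∑ w ∈ IrLe D K, pw D (2 * t0) w * (w.length : ℝ) ≤
    ∑ w ∈ (IrLe D K).filter (fun w => t1 ^ 10 * (w.length : ℝ) ≤ 1),
      pw D (2 * t0) w * (hx w : ℝ)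

/-- SYM: lateral displacements have mean zero. -/
def T_SYM : Prop := ∀ (D K : ℕ) (t T : ℝ) (j : Fin (D + 2)), j ≠ 0 →
  ∑ w ∈ (IrLe D K).filter (fun w => (w.length : ℝ) ≤ T), pw D t w * (pos w w.length j : ℝ) = 0

/-- IFL: lateral reflection of irreducible bridges. -/
def T_IFL : Prop := ∀ (D : ℕ) (j : Fin (D + 2)) (w : Wk D), j ≠ 0 → Irr w →
  Irr (w.map (flipS j)) ∧ hx (w.map (flipS j)) = hx w

/-! ## F. Probability (abstract) -/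

/-- partial sum of the first `k` terms -/
def psm {n : ℕ} (g : Fin n → ℝ) (k : ℕ) : ℝ := ∑ i : Fin n, if (i : ℕ) < k then g i else 0

/-- KOL: Kolmogorov's inequality. -/
def T_KOL : Prop := ∀ (α : Type) (Ω : Finset α) (n : ℕ) (q Z : Fin n → α → ℝ) (lam : ℝ),
  0 < lam → (∀ i, ∀ a ∈ Ω, 0 ≤ q i a) → (∀ i, ∑ a ∈ Ω, q i a = 1) →
  (∀ i, ∑ a ∈ Ω, q i a * Z i a = 0) →
  ∑ f ∈ (Fintype.piFinset (fun _ : Fin n => Ω)).filter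
      (fun f => ∃ k ≤ n, lam ≤ |psm (fun i => Z i (f i)) k|), ∏ i, q i (f i) ≤
    (∑ i, ∑ a ∈ Ω, q i a * Z i a ^ 2) / lam ^ 2

/-- parameters of the probabilistic part -/
structure Par where
  /-- lower bound for the truncated mean height -/
  h : ℝ
  /-- mean length over `h` -/
  A : ℝ
  /-- mean height over `h` -/
  B : ℝ
  /-- defect of mass -/
  ε : ℝ
  /-- truncation -/
  x : ℝ
  /-- cone parameter for lengths -/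
  θ1 : ℝ
  /-- cone parameter for lateral displacements -/
  θ2 : ℝ
  /-- block size -/
  N : ℕ

/-- conditions on the parameters; `m` is the number of lateral coordinates -/
structure ParOK (m : ℕ) (P : Par) : Prop where
  h0 : 0 < P.h
  A1 : 1 ≤ P.A
  B1 : 1 ≤ P.B
  e0 : 0 ≤ P.ε
  e1 : P.ε ≤ 1 / 16
  x1 : 1 ≤ P.x
  t1 : 0 < P.θ1
  t2 : 0 < P.θ2
  N1 : 1 ≤ P.N
  k1 : 10 ^ 5 * P.x ≤ P.N * P.h
  k2 : P.x ≤ P.θ1 * P.h * P.N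
  k3 : 16 * P.A ≤ P.θ1 * P.N
  k4 : 10 ^ 5 * m * P.θ1 * P.A ≤ P.θ2 ^ 2

/-- conditions on the law of pieces -/
structure LawOK {α ι : Type} (Ω : Finset α) (p L X : α → ℝ) (Y : ι → α → ℝ) (P : Par) :
    Prop where
  p0 : ∀ a ∈ Ω, 0 ≤ p a
  m1 : ∑ a ∈ Ω, p a ≤ 1
  m2 : 1 - P.ε ≤ ∑ a ∈ Ω, p a
  L1 : ∀ a ∈ Ω, 1 ≤ L a
  X0 : ∀ a ∈ Ω, 0 ≤ X a
  XL : ∀ a ∈ Ω, X a ≤ L a
  YL : ∀ j, ∀ a ∈ Ω, |Y j a| ≤ L a
  Y0 : ∀ j, ∀ T : ℝ, ∑ a ∈ Ω.filter (fun a => L a ≤ T), p a * Y j a = 0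
  EX : ∑ a ∈ Ω, p a * X a ≤ P.B * P.h
  EXx : P.h ≤ ∑ a ∈ Ω.filter (fun a => L a ≤ P.x), p a * X a
  EL : ∑ a ∈ Ω, p a * L a ≤ P.A * P.h

/-- good one-sided chain (indexed by the distance to the apex) -/
structure Good {α ι : Type} (L X : α → ℝ) (Y : ι → α → ℝ) (P : Par) {n : ℕ} (f : Fin n → α) :
    Prop where
  g1 : ∀ i : Fin n, L (f i) ≤ P.θ1 * P.h * max ((i : ℝ) + 1) (P.N : ℝ)
  g2 : ∀ j, ∀ k ≤ n, |psm (fun i => Y j (f i)) k| ≤ P.θ2 * P.h * max (k : ℝ) (P.N : ℝ)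
  g3 : ∀ k ≤ n, P.N ≤ k → P.h / 4 * k ≤ psm (fun i => X (f i)) k
  g4 : psm (fun i => L (f i)) n ≤ 64 * P.A * P.h * n
  g5 : psm (fun i => X (f i)) n ≤ 64 * P.B * P.h * n

/-- the law of the piece at distance `i`, conditioned to be short -/
def qlaw {α : Type} (Ω : Finset α) (p L : α → ℝ) (P : Par) (i : ℕ) (a : α) : ℝ :=
  if L a ≤ P.θ1 * P.h * max ((i : ℝ) + 1) (P.N : ℝ) then
    p a / ∑ b ∈ Ω.filter (fun b => L b ≤ P.θ1 * P.h * max ((i : ℝ) + 1) (P.N : ℝ)), p b else 0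

/-- properties of a sequence of conditioned laws -/
structure QOK {α ι : Type} (Ω : Finset α) (p L X : α → ℝ) (Y : ι → α → ℝ) (P : Par) (n : ℕ)
    (q : Fin n → α → ℝ) : Prop where
  q0 : ∀ i, ∀ a ∈ Ω, 0 ≤ q i a
  q1 : ∀ i, ∑ a ∈ Ω, q i a = 1
  q2 : ∀ i, ∀ a ∈ Ω, q i a ≤ 2 * p a
  q3 : ∀ i, ∀ a ∈ Ω, q i a ≠ 0 → L a ≤ P.θ1 * P.h * max ((i : ℝ) + 1) (P.N : ℝ)
  q4 : ∀ i j, ∑ a ∈ Ω, q i a * Y j a = 0
  q5 : ∀ i, P.h ≤ ∑ a ∈ Ω.filter (fun a => L a ≤ P.x), q i a * X a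

/-- QEX: the conditioned laws are fine and the cost of conditioning. -/
def T_QEX : Prop := ∀ (α ι : Type) [Fintype ι] (Ω : Finset α) (p L X : α → ℝ) (Y : ι → α → ℝ)
  (P : Par), ParOK (Fintype.card ι) P → LawOK Ω p L X Y P → ∀ n : ℕ,
  QOK Ω p L X Y P n (fun i => qlaw Ω p L P i) ∧
  ∀ f : Fin n → α, (∀ i, f i ∈ Ω) →
    Real.exp (-(2 * P.A / P.θ1) - 2 * n * P.ε) * ∏ i : Fin n, qlaw Ω p L P i (f i) ≤
      ∏ i, p (f i)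

/-- QGA: lateral displacements of a chain. -/
def T_QGA : Prop := ∀ (α ι : Type) [Fintype ι] (Ω : Finset α) (p L X : α → ℝ) (Y : ι → α → ℝ)
  (P : Par) (n : ℕ) (q : Fin n → α → ℝ), ParOK (Fintype.card ι) P → LawOK Ω p L X Y P →
  QOK Ω p L X Y P n q →
  ∑ f ∈ (Fintype.piFinset (fun _ : Fin n => Ω)).filter (fun f => ∃ j, ∃ k ≤ n,
      P.θ2 * P.h * max (k : ℝ) (P.N : ℝ) < |psm (fun i => Y j (f i)) k|), ∏ i, q i (f i) ≤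
    1 / 5000

/-- QGB: heights of a chain. -/
def T_QGB : Prop := ∀ (α ι : Type) [Fintype ι] (Ω : Finset α) (p L X : α → ℝ) (Y : ι → α → ℝ)
  (P : Par) (n : ℕ) (q : Fin n → α → ℝ), ParOK (Fintype.card ι) P → LawOK Ω p L X Y P →
  QOK Ω p L X Y P n q →
  ∑ f ∈ (Fintype.piFinset (fun _ : Fin n => Ω)).filter (fun f => ∃ k ≤ n, P.N ≤ k ∧
      psm (fun i => X (f i)) k < P.h / 4 * k), ∏ i, q i (f i) ≤ 1 / 10000

/-- QGC: total length and height of a chain. -/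
def T_QGC : Prop := ∀ (α ι : Type) [Fintype ι] (Ω : Finset α) (p L X : α → ℝ) (Y : ι → α → ℝ)
  (P : Par) (n : ℕ) (q : Fin n → α → ℝ) (c : ℝ), ParOK (Fintype.card ι) P →
  LawOK Ω p L X Y P → QOK Ω p L X Y P n q → 0 < c →
  ∑ f ∈ (Fintype.piFinset (fun _ : Fin n => Ω)).filter (fun f =>
      c * P.A * P.h * n < psm (fun i => L (f i)) n), ∏ i, q i (f i) ≤ 2 / c ∧
  ∑ f ∈ (Fintype.piFinset (fun _ : Fin n => Ω)).filter (fun f =>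
      c * P.B * P.h * n < psm (fun i => X (f i)) n), ∏ i, q i (f i) ≤ 2 / c

/-- GOOD: probability of the good event. -/
def T_GOOD : Prop := ∀ (α ι : Type) [Fintype ι] (Ω : Finset α) (p L X : α → ℝ) (Y : ι → α → ℝ)
  (P : Par), ParOK (Fintype.card ι) P → LawOK Ω p L X Y P → ∀ n : ℕ,
  1 / 2 * Real.exp (-(2 * P.A / P.θ1) - 2 * n * P.ε) ≤
    ∑ f ∈ (Fintype.piFinset (fun _ : Fin n => Ω)).filter (fun f => Good L X Y P f),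
      ∏ i, p (f i)

/-- good block segment -/
structure BGood {α ι : Type} (L X : α → ℝ) (Y : ι → α → ℝ) (P : Par) (f : Fin P.N → α) :
    Prop where
  b1 : ∀ i, L (f i) ≤ P.θ1 * P.h * P.N
  b2 : ∀ j, ∀ k ≤ P.N, |psm (fun i => Y j (f i)) k| ≤ P.θ2 * P.h * P.N
  b3 : P.h / 4 * P.N ≤ psm (fun i => X (f i)) P.N
  b4 : psm (fun i => L (f i)) P.N ≤ 4000 * P.A * P.h * P.N
  b5 : psm (fun i => X (f i)) P.N ≤ 4000 * P.B * P.h * P.N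

/-- N96: the maximum of four exchangeable symmetric segments is in the middle. -/
def T_N96 : Prop := ∀ (β : Type) (T : Finset β) (W : β → ℝ) (R : β → β) (r a b : β → ℝ),
  (∀ f ∈ T, 0 ≤ W f ∧ R f ∈ T ∧ R (R f) = f ∧ W (R f) = W f ∧ r (R f) = r f ∧
    a (R f) = r f - a f ∧ b (R f) = r f - b f) →
  (∑ f ∈ T, W f) ^ 4 ≤ 96 * ∑ f₁ ∈ T, ∑ f₂ ∈ T, ∑ f₃ ∈ T, ∑ f₄ ∈ T,
    if b f₁ ≤ a f₂ ∧ a f₄ ≤ b f₃ then W f₁ * W f₂ * W f₃ * W f₄ else 0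

/-- BLK: probability of a good block. -/
def T_BLK : Prop := ∀ (α ι : Type) [Fintype ι] (Ω : Finset α) (p L X : α → ℝ) (Y : ι → α → ℝ)
  (P : Par) (R : α → α) (rr aa bb : (Fin P.N → α) → ℝ),
  ParOK (Fintype.card ι) P → LawOK Ω p L X Y P →
  (∀ a ∈ Ω, R a ∈ Ω ∧ R (R a) = a ∧ p (R a) = p a ∧ L (R a) = L a) →
  (∀ f : Fin P.N → α, (∀ i, f i ∈ Ω) → rr (fun i => R (f i)) = rr f ∧
    aa (fun i => R (f i)) = rr f - aa f ∧ bb (fun i => R (f i)) = rr f - bb f) →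
  1 / 200 * Real.exp (-(8 * P.A / P.θ1) - 8 * P.N * P.ε) ≤
    ∑ g₁ ∈ Fintype.piFinset (fun _ : Fin P.N => Ω), ∑ g₂ ∈ Fintype.piFinset (fun _ : Fin P.N => Ω),
    ∑ g₃ ∈ Fintype.piFinset (fun _ : Fin P.N => Ω), ∑ g₄ ∈ Fintype.piFinset (fun _ : Fin P.N => Ω),
      if BGood L X Y P g₁ ∧ BGood L X Y P g₂ ∧ BGood L X Y P g₃ ∧ BGood L X Y P g₄ ∧
        bb g₁ ≤ aa g₂ ∧ aa g₄ ≤ bb g₃ then
        (∏ i, p (g₁ i)) * (∏ i, p (g₂ i)) * (∏ i, p (g₃ i)) * (∏ i, p (g₄ i)) else 0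

/-! ## G. Geometry of the gluing -/

/-- insertion of the rotated bridge `S` into `R` at time `a` -/
def glue {D : ℕ} (R : Wk D) (a : ℕ) (S : Wk D) : Wk D :=
  R.take a ++ S.map swS ++ [((1 : Fin (D + 2)), true)] ++ (R.drop a).map (flipS 1)

/-- geometric properties of the pair of corners `a < a'` -/
structure Val {D : ℕ} (r : ℕ) (θ hm : ℝ) (Γ : Wk D) (a a' : ℕ) : Prop where
  lt : a < a'
  le : a' ≤ Γ.length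
  hh : hm ≤ (pos Γ a' 1 : ℝ) - pos Γ a 1
  past : ∀ i < a, |(pos Γ i 1 : ℝ) - pos Γ a 1| ≤
    2 * r + θ * max 0 ((pos Γ a 0 : ℝ) - pos Γ i 0)
  pext : ∀ i ≤ a, ∀ i' ≤ a, (pos Γ i 1 : ℝ) - pos Γ i' 1 < hm
  st0 : ∀ i, a ≤ i → i ≤ a' → pos Γ a 1 ≤ pos Γ i 1 ∧ pos Γ i 1 ≤ pos Γ a' 1
  st1 : ∀ i, a ≤ i → i ≤ a' → ∀ j, j ≠ 1 → |(pos Γ i j : ℝ) - pos Γ a j| ≤
    r + θ * ((pos Γ i 1 : ℝ) - pos Γ a 1)
  st2 : ∀ i, a ≤ i → i ≤ a' → ∀ j, j ≠ 1 → |(pos Γ i j : ℝ) - pos Γ a' j| ≤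
    r + θ * ((pos Γ a' 1 : ℝ) - pos Γ i 1)
  fut : ∀ i, a' < i → i ≤ Γ.length → |(pos Γ i 1 : ℝ) - pos Γ a' 1| ≤
    2 * r + 1 + θ * max 0 ((pos Γ i 0 : ℝ) - pos Γ a' 0)
  fext : ∀ i i', a' ≤ i → i ≤ Γ.length → a' ≤ i' → i' ≤ Γ.length →
    (pos Γ i 1 : ℝ) - pos Γ i' 1 < hm

/-- UNIQ: few pairs of corners. -/
def T_UNIQ : Prop := ∀ (D r : ℕ) (θ hm : ℝ) (Γ : Wk D), 0 ≤ θ → θ ≤ 1 / 4 → 1 ≤ r → Saw Γ →
  (((Finset.range (Γ.length + 1)) ×ˢ (Finset.range (Γ.length + 1))).filter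
    (fun p => Val r θ hm Γ p.1 p.2)).card ≤ (8 * r + 1) ^ (D + 2) * (8 * r + 5) ^ (D + 2)

/-- the walk `R` is good around time `a` -/
structure RC {D : ℕ} (r : ℕ) (θ ρ0 ρ1 Q ex : ℝ) (R : Wk D) (a : ℕ) : Prop where
  br : Br R
  le : a ≤ R.length
  past : ∀ i < a,
    (pos R i 1 ≤ pos R a 1 ∧ |(pos R i 0 : ℝ) - pos R a 0| ≤ ρ1 ∧
      |(pos R i 1 : ℝ) - pos R a 1| ≤ 2 * r) ∨
    (ρ0 ≤ (pos R a 0 : ℝ) - pos R i 0 ∧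
      |(pos R i 1 : ℝ) - pos R a 1| ≤ 2 * r + θ * ((pos R a 0 : ℝ) - pos R i 0))
  fut : ∀ i, a < i → i ≤ R.length →
    (pos R i 1 ≤ pos R a 1 ∧ |(pos R i 0 : ℝ) - pos R a 0| ≤ ρ1 ∧
      |(pos R i 1 : ℝ) - pos R a 1| ≤ 2 * r) ∨
    (ρ0 ≤ (pos R i 0 : ℝ) - pos R a 0 ∧
      |(pos R i 1 : ℝ) - pos R a 1| ≤ 2 * r + θ * ((pos R i 0 : ℝ) - pos R a 0))
  q1 : Q ≤ (pos R a 0 : ℝ)
  q2 : Q ≤ (hx R : ℝ) - pos R a 0
  ext : ∀ i ≤ R.length, ∀ i' ≤ R.length, (pos R i 1 : ℝ) - pos R i' 1 ≤ ex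

/-- the stick `S` stays in a cone seen from both ends -/
structure SC {D : ℕ} (r : ℕ) (θ : ℝ) (S : Wk D) : Prop where
  br : Br S
  c1 : ∀ i ≤ S.length, ∀ j, j ≠ 0 → |(pos S i j : ℝ)| ≤ r + θ * (pos S i 0 : ℝ)
  c2 : ∀ i ≤ S.length, ∀ j, j ≠ 0 → |(pos S i j : ℝ) - pos S S.length j| ≤
    r + θ * ((hx S : ℝ) - pos S i 0)

/-- GLUE: the glued walk is a bridge with a valid pair of corners. -/
def T_GLUE : Prop := ∀ (D r : ℕ) (θ ρ0 ρ1 Q ex hm : ℝ) (R S : Wk D) (a : ℕ),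
  RC r θ ρ0 ρ1 Q ex R a → SC r θ S → 0 ≤ θ → θ ≤ 1 / 4 → 1 ≤ r → 0 ≤ ρ1 →
  3 * (r : ℝ) ≤ ρ0 → 8 * (r + ρ1) ≤ hm → hm ≤ (hx S : ℝ) → ex + 1 < hm →
  2 * r + 2 * θ * (hx S : ℝ) + ρ1 + 1 ≤ Q →
  Br (glue R a S) ∧ Val r θ hm (glue R a S) a (a + S.length) ∧
    (glue R a S).length = R.length + S.length + 1

/-- the length of a piece -/
def Lw {D : ℕ} (w : Wk D) : ℝ := (w.length : ℝ)
/-- the height of a piece -/
def Xw {D : ℕ} (w : Wk D) : ℝ := (hx w : ℝ)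
/-- the lateral displacement of a piece -/
def Yw {D : ℕ} (j : {j : Fin (D + 2) // j ≠ 0}) (w : Wk D) : ℝ := (pos w w.length j.1 : ℝ)

/-- CONEF: a good chain stays in a cone seen from its start. -/
def T_CONEF : Prop := ∀ (D : ℕ) (P : Par) (n : ℕ) (f : Fin n → Wk D), 0 < P.h → 0 < P.θ1 →
  0 < P.θ2 → (∀ i, Br (f i)) → Good Lw Xw Yw P f →
  ∀ k ≤ (List.ofFn f).flatten.length, ∀ j : Fin (D + 2), j ≠ 0 →
    |(pos (List.ofFn f).flatten k j : ℝ)| ≤ (P.θ1 + P.θ2) * P.h * (P.N + 1) +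
      4 * (P.θ1 + P.θ2) * (pos (List.ofFn f).flatten k 0 : ℝ)

/-- CONEB: a good chain stays in a cone seen from its end. -/
def T_CONEB : Prop := ∀ (D : ℕ) (P : Par) (n : ℕ) (f : Fin n → Wk D), 0 < P.h → 0 < P.θ1 →
  0 < P.θ2 → (∀ i, Br (f i)) → Good Lw Xw Yw P f →
  ∀ k ≤ (List.ofFn f).reverse.flatten.length, ∀ j : Fin (D + 2), j ≠ 0 →
    |(pos (List.ofFn f).reverse.flatten k j : ℝ) -
        pos (List.ofFn f).reverse.flatten (List.ofFn f).reverse.flatten.length j| ≤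
      (P.θ1 + P.θ2) * P.h * (P.N + 1) +
      4 * (P.θ1 + P.θ2) *
        ((hx (List.ofFn f).reverse.flatten : ℝ) - pos (List.ofFn f).reverse.flatten k 0)

/-- list of the pieces of the stick -/
def Sl {D J : ℕ} (s₁ s₂ : Fin J → Wk D) : List (Wk D) := List.ofFn s₁ ++ (List.ofFn s₂).reverse

/-- SCONE: the stick. -/
def T_SCONE : Prop := ∀ (D : ℕ) (P : Par) (J r : ℕ) (θ : ℝ) (s₁ s₂ : Fin J → Wk D), 0 < P.h →
  0 < P.θ1 → 0 < P.θ2 → 1 ≤ P.B → 1 ≤ P.N → P.N ≤ J → (∀ i, Irr (s₁ i)) → (∀ i, Irr (s₂ i)) →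
  Good Lw Xw Yw P s₁ → Good Lw Xw Yw P s₂ →
  3 * (P.θ1 + P.θ2) * P.h * (P.N + 1) ≤ r → 4 * (P.θ1 + P.θ2) * (1 + 512 * P.B) ≤ θ →
  SC r θ (Sl s₁ s₂).flatten ∧ P.h / 4 * J ≤ (hx (Sl s₁ s₂).flatten : ℝ) ∧
  (hx (Sl s₁ s₂).flatten : ℝ) ≤ 128 * P.B * P.h * J ∧
  ((Sl s₁ s₂).flatten.length : ℝ) ≤ 128 * P.A * P.h * J

/-- maximum of coordinate `1` along a walk -/
def mxY {D : ℕ} (w : Wk D) : ℤ :=
  (Finset.range (w.length + 1)).sup' (by simp) (fun k => pos w k 1)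
/-- minimum of coordinate `1` along a walk -/
def mnY {D : ℕ} (w : Wk D) : ℤ :=
  (Finset.range (w.length + 1)).inf' (by simp) (fun k => pos w k 1)

/-- range of coordinate `1` along a chain -/
def rrB {D N : ℕ} (f : Fin N → Wk D) : ℝ := (mxY (List.ofFn f).flatten : ℝ) -
  mnY (List.ofFn f).flatten
/-- maximum of coordinate `1` relative to the start -/
def aaB {D N : ℕ} (f : Fin N → Wk D) : ℝ := (mxY (List.ofFn f).flatten : ℝ)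
/-- maximum of coordinate `1` relative to the end -/
def bbB {D N : ℕ} (f : Fin N → Wk D) : ℝ := (mxY (List.ofFn f).flatten : ℝ) -
  pos (List.ofFn f).flatten (List.ofFn f).flatten.length 1

/-- MAXR: behaviour of the maxima under reflection. -/
def T_MAXR : Prop := ∀ (D N : ℕ) (f : Fin N → Wk D),
  rrB (fun i => (f i).map (flipS 1)) = rrB f ∧
  aaB (fun i => (f i).map (flipS 1)) = rrB f - aaB f ∧
  bbB (fun i => (f i).map (flipS 1)) = rrB f - bbB f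

/-- list of the pieces of the long walk -/
def Rl {D n₁ N n₂ : ℕ} (f₁ : Fin n₁ → Wk D) (g₁ g₂ g₃ g₄ : Fin N → Wk D) (f₂ : Fin n₂ → Wk D) :
    List (Wk D) :=
  (List.ofFn f₁).reverse ++ (List.ofFn g₁ ++ List.ofFn g₂ ++ List.ofFn g₃ ++ List.ofFn g₄) ++
    List.ofFn f₂

/-- RCOND: the long walk is good around some time of the block. -/
def T_RCOND : Prop := ∀ (D : ℕ) (P : Par) (n₁ n₂ r : ℕ) (θ : ℝ) (f₁ : Fin n₁ → Wk D)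
  (g₁ g₂ g₃ g₄ : Fin P.N → Wk D) (f₂ : Fin n₂ → Wk D),
  0 < P.h → 0 < P.θ1 → 0 < P.θ2 → 1 ≤ P.B → 1 ≤ P.N → P.N ≤ n₁ → n₁ ≤ n₂ →
  (∀ i, Irr (f₁ i)) → (∀ i, Irr (g₁ i)) → (∀ i, Irr (g₂ i)) → (∀ i, Irr (g₃ i)) →
  (∀ i, Irr (g₄ i)) → (∀ i, Irr (f₂ i)) →
  Good Lw Xw Yw P f₁ → Good Lw Xw Yw P f₂ → BGood Lw Xw Yw P g₁ → BGood Lw Xw Yw P g₂ →
  BGood Lw Xw Yw P g₃ → BGood Lw Xw Yw P g₄ → bbB g₁ ≤ aaB g₂ → aaB g₄ ≤ bbB g₃ →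
  8 * (P.θ1 + P.θ2) * P.h * (P.N + 1) ≤ r → 4 * (P.θ1 + P.θ2) ≤ θ →
  (∃ a : ℕ, RC r θ (P.h / 4 * P.N) (16000 * P.B * P.h * P.N) (P.h / 4 * n₁)
    (4 * r + 8 * (P.θ1 + P.θ2) *
      (64 * P.B * P.h * (n₁ + n₂) + 16000 * P.B * P.h * P.N))
    (Rl f₁ g₁ g₂ g₃ g₄ f₂).flatten a) ∧
  (hx (Rl f₁ g₁ g₂ g₃ g₄ f₂).flatten : ℝ) ≤
    64 * P.B * P.h * (n₁ + n₂) + 16000 * P.B * P.h * P.N ∧
  ((Rl f₁ g₁ g₂ g₃ g₄ f₂).flatten.length : ℝ) ≤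
    64 * P.A * P.h * (n₁ + n₂) + 16000 * P.A * P.h * P.N

/-- OUT: the total weight of the outputs. -/
def T_OUT : Prop := ∀ (D r Nm : ℕ) (t θ hm : ℝ), 0 ≤ t → 0 ≤ θ → θ ≤ 1 / 4 → 1 ≤ r →
  ∀ (G : Finset (List (Wk D) × List (Wk D))) (a : List (Wk D) × List (Wk D) → ℕ),
  (∀ x ∈ G, (∀ w ∈ x.1, Irr w) ∧ (∀ w ∈ x.2, Irr w) ∧ a x ≤ x.1.flatten.length ∧
    Br (glue x.1.flatten (a x) x.2.flatten) ∧
    Val r θ hm (glue x.1.flatten (a x) x.2.flatten) (a x) (a x + x.2.flatten.length) ∧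
    x.1.flatten.length + x.2.flatten.length ≤ Nm ∧
    t * ((hx x.1.flatten : ℝ) + hx x.2.flatten) ≤ 1) →
  ∑ x ∈ G, (x.1.map (pw D t)).prod * (x.2.map (pw D t)).prod ≤
    Real.exp (1 + PP D t) * ((8 * (r : ℝ) + 1) ^ (D + 2) * (8 * (r : ℝ) + 5) ^ (D + 2)) *
      ((Nm : ℝ) + 2)

/-! ## H. Assembly -/

/-- numerical conditions for the comparison; `n₁ = 10 ^ 5 * J₀` -/
structure NumOK (P : Par) (J₀ r Nm : ℕ) (t θ : ℝ) : Prop where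
  B80 : P.B = 80
  t0 : 0 ≤ t
  r1 : 1 ≤ r
  NJ : P.N ≤ J₀
  r2 : 8 * (P.θ1 + P.θ2) * P.h * (P.N + 1) ≤ r
  θ1 : 4 * (P.θ1 + P.θ2) * (1 + 512 * P.B) ≤ θ
  θ2 : θ ≤ 1 / 4
  r3 : 3 * (r : ℝ) ≤ P.h / 4 * P.N
  hm : 8 * (r + 16000 * P.B * P.h * P.N) ≤ P.h / 4 * J₀
  Q : 2 * r + 2 * θ * (128 * P.B * P.h * (2 * J₀)) + 16000 * P.B * P.h * P.N + 1 ≤
    P.h / 4 * (10 ^ 5 * J₀)
  ex : 4 * r + 8 * (P.θ1 + P.θ2) *
      (64 * P.B * P.h * (3 * (10 ^ 5 * J₀)) + 16000 * P.B * P.h * P.N) + 1 < P.h / 4 * J₀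
  th : t * (64 * P.B * P.h * (3 * (10 ^ 5 * J₀)) + 16000 * P.B * P.h * P.N +
      128 * P.B * P.h * (2 * J₀)) ≤ 1
  Nm : 64 * P.A * P.h * (3 * (10 ^ 5 * J₀)) + 16000 * P.A * P.h * P.N +
      128 * P.A * P.h * (2 * J₀) ≤ Nm

/-- the good inputs: lists of pieces of the long walk and of the stick -/
def GS (D K : ℕ) (P : Par) (n₁ n₂ J : ℕ) : Finset (List (Wk D) × List (Wk D)) :=
  (((Fintype.piFinset (fun _ : Fin n₁ => IrLe D K)) ×ˢ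
    ((Fintype.piFinset (fun _ : Fin P.N => IrLe D K)) ×ˢ
     (Fintype.piFinset (fun _ : Fin P.N => IrLe D K)) ×ˢ
     (Fintype.piFinset (fun _ : Fin P.N => IrLe D K)) ×ˢ
     (Fintype.piFinset (fun _ : Fin P.N => IrLe D K))) ×ˢ
    (Fintype.piFinset (fun _ : Fin n₂ => IrLe D K)) ×ˢ
    (Fintype.piFinset (fun _ : Fin J => IrLe D K)) ×ˢ
    (Fintype.piFinset (fun _ : Fin J => IrLe D K))).filter (fun z =>
      Good Lw Xw (Yw (D := D)) P z.1 ∧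
      (BGood Lw Xw (Yw (D := D)) P z.2.1.1 ∧ BGood Lw Xw (Yw (D := D)) P z.2.1.2.1 ∧
       BGood Lw Xw (Yw (D := D)) P z.2.1.2.2.1 ∧ BGood Lw Xw (Yw (D := D)) P z.2.1.2.2.2 ∧
       bbB z.2.1.1 ≤ aaB z.2.1.2.1 ∧ aaB z.2.1.2.2.2 ≤ bbB z.2.1.2.2.1) ∧
      Good Lw Xw (Yw (D := D)) P z.2.2.1 ∧
      Good Lw Xw (Yw (D := D)) P z.2.2.2.1 ∧ Good Lw Xw (Yw (D := D)) P z.2.2.2.2)).image
    (fun z => (Rl z.1 z.2.1.1 z.2.1.2.1 z.2.1.2.2.1 z.2.1.2.2.2 z.2.2.1,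
      Sl z.2.2.2.1 z.2.2.2.2))

/-- INP: the total weight of the inputs. -/
def T_INP : Prop := ∀ (D K n₁ n₂ J : ℕ) (t : ℝ) (P : Par), ParOK (D + 1) P →
  LawOK (IrLe D K) (pw D t) Lw Xw (Yw (D := D)) P →
  1 / 3200 * Real.exp (-(16 * P.A / P.θ1) - 2 * P.ε * (n₁ + n₂ + 4 * P.N + 2 * J)) ≤
    ∑ x ∈ GS D K P n₁ n₂ J, (x.1.map (pw D t)).prod * (x.2.map (pw D t)).prod

/-- COUNT: the main comparison. -/
def T_COUNT : Prop := ∀ (D K J₀ r Nm : ℕ) (t θ : ℝ) (P : Par), ParOK (D + 1) P →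
  LawOK (IrLe D K) (pw D t) Lw Xw (Yw (D := D)) P → NumOK P J₀ r Nm t θ →
  (J₀ : ℝ) * (10 ^ 5 * J₀) * (1 / 3200 * Real.exp (-(16 * P.A / P.θ1) -
      2 * P.ε * (3 * (10 ^ 5 * J₀) + 4 * P.N + 4 * J₀))) ≤
    Real.exp (1 + PP D t) * ((8 * (r : ℝ) + 1) ^ (D + 2) * (8 * (r : ℝ) + 5) ^ (D + 2)) *
      ((Nm : ℝ) + 2)

/-- CONTR: the velocity drops between polynomially related scales. -/
def T_CONTR : Prop := ∀ D : ℕ, ∃ A₀ : ℕ, 2 ≤ A₀ ∧ ∃ C₀ : ℝ, 0 < C₀ ∧ ∃ τ : ℝ, 0 < τ ∧ τ < 1 / 2 ∧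
  ∀ t1 : ℝ, 0 < t1 → t1 ≤ τ → C₀ / √(Real.log (1 / t1)) ≤ vv D (t1 ^ A₀) →
    21 / 20 * vv D (t1 ^ A₀) < vv D t1

/-- RATE: decay of the velocity. -/
def T_RATE : Prop := ∀ D : ℕ, ∃ c : ℝ, 0 < c ∧ ∃ C : ℝ, 0 < C ∧ ∀ t : ℝ, 0 < t → t ≤ 1 / 2 →
  vv D t ≤ C / (Real.log (1 / t)) ^ c

/-- SYMC: the axes are equivalent for self-avoiding walks. -/
def T_SYMC : Prop := ∀ (D n : ℕ) (h : ℝ) (j : Fin (D + 2)),
  ((SwF D n).filter (fun w => h ≤ |(pos w n j : ℝ)|)).card ≤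
    2 * ((SwF D n).filter (fun w => h ≤ (hx w : ℝ))).card

/-- TAIL: upper bound for the tail of one coordinate. -/
def T_TAIL : Prop := ∀ (D n : ℕ) (h t : ℝ) (j : Fin (D + 2)), 0 < t →
  (((SwF D n).filter (fun w => h ≤ |(pos w n j : ℝ)|)).card : ℝ) ≤
    2 * ((n : ℝ) + 2) ^ (2 * Nat.sqrt (2 * n + 2) + 3) * Real.exp (PP D t) *
      Real.exp (t * vv D t * n - t * h) * ((SwF D n).card : ℝ)

/-- MSD: mean square displacement in terms of lists of steps. -/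
def T_MSD : Prop := ∀ D : ℕ, ∃ c : ℝ, 0 < c ∧ ∃ C : ℝ, 0 < C ∧ ∀ n : ℕ, 2 ≤ n →
  ∑ w ∈ SwF D n, ∑ j, (pos w n j : ℝ) ^ 2 ≤
    C * (n : ℝ) ^ 2 / (Real.log n) ^ c * ((SwF D n).card : ℝ)

/-- CONV: translation to the set of walks of the problem. -/
def T_CONV : Prop := ∀ (D n : ℕ),
  (∑ᶠ γ ∈ {γ : Fin (n + 1) → Fin (D + 2) → ℤ | γ 0 = 0 ∧ Function.Injective γ ∧
      ∀ k : Fin n, ∑ i : Fin (D + 2), |γ k.succ i - γ k.castSucc i| = 1},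
      ((∑ i : Fin (D + 2), (γ (Fin.last n) i) ^ 2 : ℤ) : ℝ)) =
    ∑ w ∈ SwF D n, ∑ j, (pos w n j : ℝ) ^ 2 ∧
  ({γ : Fin (n + 1) → Fin (D + 2) → ℤ | γ 0 = 0 ∧ Function.Injective γ ∧
      ∀ k : Fin n, ∑ i : Fin (D + 2), |γ k.succ i - γ k.castSucc i| = 1}).ncard =
    (SwF D n).card

end Pool.Agent.SBW
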