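import Mathlib
import Pool.Agent.SBW.Targets

set_option autoImplicit false

/-!
# IFL: lateral reflection of irreducible bridges
-/

open scoped Classical

namespace Pool.Agent.SBW

theorem p_IFL : T_IFL := by
  intro D j w hj hw
  have h0 : ∀ k, pos (w.map (flipS j)) k 0 = pos w k 0 := by
    intro k
    rw [pos_map_flip]
    rw [if_neg (Ne.symm hj)]
  have hlen : (w.map (flipS j)).length = w.length := List.length_map _
  have hhx : hx (w.map (flipS j)) = hx w := by
    unfold hx
    rw [h0, hlen]
  have hsaw : Saw (w.map (flipS j)) := by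
    intro i hi k hk h
    rw [hlen] at hi hk
    refine hw.1.1 i hi k hk fun c => ?_
    have h1 := h c
    rw [pos_map_flip, pos_map_flip] at h1
    by_cases hc : c = j
    · subst hc
      simp only [if_true] at h1
      linarith
    · rw [if_neg hc, if_neg hc] at h1
      exact h1
  have hcut : ∀ k, Cut (w.map (flipS j)) k → Cut w k := by
    intro k h
    refine ⟨by rw [← hlen]; exact h.1, fun i hi => ?_, fun i hi hi2 => ?_⟩
    · have := h.2.1 i hi
      rwa [h0, h0] at this
    · have := h.2.2 i hi (by rw [hlen]; exact hi2)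
      rwa [h0, h0] at this
  refine ⟨⟨⟨hsaw, fun k hk hk2 => ?_⟩, by rw [hlen]; exact hw.2.1, fun k hk hk2 h => ?_⟩, hhx⟩
  · rw [h0, hhx]
    exact hw.1.2 k hk (by rw [← hlen]; exact hk2)
  · exact hw.2.2 k hk (by rw [← hlen]; exact hk2) (hcut k h)

end Pool.Agent.SBW
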