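import Pool.Agent.SBW.Targets

set_option autoImplicit false

/-!
# MP_b5172a_pr: INP, total weight of the inputs
-/

open scoped Classical

noncomputable section

namespace Pool.Agent.SBW

namespace INP_

theorem card_lat (D : ℕ) : Fintype.card {j : Fin (D + 2) // j ≠ 0} = D + 1 := by
  rw [Fintype.card_subtype_compl, Fintype.card_fin, Fintype.card_subtype_eq]
  rfl

theorem prod_map_ofFn {D n : ℕ} (p : Wk D → ℝ) (f : Fin n → Wk D) :
    ((List.ofFn f).map p).prod = ∏ i, p (f i) := by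
  rw [List.map_ofFn, List.prod_ofFn]
  rfl

theorem prod_map_rev {D n : ℕ} (p : Wk D → ℝ) (f : Fin n → Wk D) :
    ((List.ofFn f).reverse.map p).prod = ∏ i, p (f i) := by
  rw [List.map_reverse, List.prod_reverse, prod_map_ofFn]

theorem prod_Rl {D n₁ N n₂ : ℕ} (p : Wk D → ℝ) (f₁ : Fin n₁ → Wk D)
    (g₁ g₂ g₃ g₄ : Fin N → Wk D) (f₂ : Fin n₂ → Wk D) :
    ((Rl f₁ g₁ g₂ g₃ g₄ f₂).map p).prod = (∏ i, p (f₁ i)) *
      ((∏ i, p (g₁ i)) * (∏ i, p (g₂ i)) * (∏ i, p (g₃ i)) * (∏ i, p (g₄ i))) *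
      (∏ i, p (f₂ i)) := by
  unfold Rl
  simp only [List.map_append, List.prod_append, prod_map_ofFn, prod_map_rev]

theorem prod_Sl {D J : ℕ} (p : Wk D → ℝ) (s₁ s₂ : Fin J → Wk D) :
    ((Sl s₁ s₂).map p).prod = (∏ i, p (s₁ i)) * (∏ i, p (s₂ i)) := by
  unfold Sl
  simp only [List.map_append, List.prod_append, prod_map_ofFn, prod_map_rev]

theorem Rl_inj {D n₁ N n₂ : ℕ} {f₁ f₁' : Fin n₁ → Wk D}
    {g₁ g₂ g₃ g₄ g₁' g₂' g₃' g₄' : Fin N → Wk D} {f₂ f₂' : Fin n₂ → Wk D}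
    (h : Rl f₁ g₁ g₂ g₃ g₄ f₂ = Rl f₁' g₁' g₂' g₃' g₄' f₂') :
    f₁ = f₁' ∧ g₁ = g₁' ∧ g₂ = g₂' ∧ g₃ = g₃' ∧ g₄ = g₄' ∧ f₂ = f₂' := by
  unfold Rl at h
  obtain ⟨h1, h2⟩ := List.append_inj h (by simp)
  obtain ⟨h3, h4⟩ := List.append_inj h1 (by simp)
  obtain ⟨h5, h6⟩ := List.append_inj h4 (by simp)
  obtain ⟨h7, h8⟩ := List.append_inj h5 (by simp)
  obtain ⟨h9, h10⟩ := List.append_inj h7 (by simp)
  exact ⟨List.ofFn_injective (List.reverse_injective h3), List.ofFn_injective h9,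
    List.ofFn_injective h10, List.ofFn_injective h8, List.ofFn_injective h6,
    List.ofFn_injective h2⟩

theorem Sl_inj {D J : ℕ} {s₁ s₂ s₁' s₂' : Fin J → Wk D} (h : Sl s₁ s₂ = Sl s₁' s₂') :
    s₁ = s₁' ∧ s₂ = s₂' := by
  unfold Sl at h
  obtain ⟨h1, h2⟩ := List.append_inj h (by simp)
  exact ⟨List.ofFn_injective h1, List.ofFn_injective (List.reverse_injective h2)⟩

/-- factorization of a sum over tuples -/
theorem fact5 {A B C E F : Type} (a : Finset A) (b : Finset B) (c : Finset C) (e : Finset E)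
    (g : Finset F) (PA : A → Prop) (PB : B → Prop) (PC : C → Prop) (PE : E → Prop)
    (PF : F → Prop) (wA : A → ℝ) (wB : B → ℝ) (wC : C → ℝ) (wE : E → ℝ) (wF : F → ℝ) :
    ∑ z ∈ (a ×ˢ b ×ˢ c ×ˢ e ×ˢ g).filter (fun z => PA z.1 ∧ PB z.2.1 ∧ PC z.2.2.1 ∧
      PE z.2.2.2.1 ∧ PF z.2.2.2.2),
      wA z.1 * wB z.2.1 * wC z.2.2.1 * (wE z.2.2.2.1 * wF z.2.2.2.2) =
    (∑ x ∈ a.filter PA, wA x) * (∑ x ∈ b, if PB x then wB x else 0) *
      (∑ x ∈ c.filter PC, wC x) *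
      ((∑ x ∈ e.filter PE, wE x) * (∑ x ∈ g.filter PF, wF x)) := by
  rw [Finset.sum_filter, Finset.sum_filter, Finset.sum_filter, Finset.sum_filter,
    Finset.sum_filter]
  have h : ∀ z ∈ a ×ˢ b ×ˢ c ×ˢ e ×ˢ g,
      (if PA z.1 ∧ PB z.2.1 ∧ PC z.2.2.1 ∧ PE z.2.2.2.1 ∧ PF z.2.2.2.2 then
        wA z.1 * wB z.2.1 * wC z.2.2.1 * (wE z.2.2.2.1 * wF z.2.2.2.2) else 0) =
      (if PA z.1 then wA z.1 else 0) * ((if PB z.2.1 then wB z.2.1 else 0) *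
        ((if PC z.2.2.1 then wC z.2.2.1 else 0) * ((if PE z.2.2.2.1 then wE z.2.2.2.1 else 0) *
          (if PF z.2.2.2.2 then wF z.2.2.2.2 else 0)))) := by
    intro z _
    by_cases h1 : PA z.1 <;> by_cases h2 : PB z.2.1 <;> by_cases h3 : PC z.2.2.1 <;>
      by_cases h4 : PE z.2.2.2.1 <;> by_cases h5 : PF z.2.2.2.2 <;>
      simp [h1, h2, h3, h4, h5]
    ring
  rw [Finset.sum_congr rfl h]
  rw [Finset.sum_product, ]
  simp only [Finset.sum_product, ← Finset.mul_sum, ← Finset.sum_mul]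
  ring

end INP_

/-- INP -/
theorem p_INP : T_GOOD → T_BLK → T_IFL → T_MAXR → T_INP := by
  intro hG hB hI hM D K n₁ n₂ J t P hP hL
  have hP' : ParOK (Fintype.card {j : Fin (D + 2) // j ≠ 0}) P := by
    rw [INP_.card_lat]; exact hP
  have gd := hG (Wk D) {j : Fin (D + 2) // j ≠ 0} (IrLe D K) (pw D t) Lw Xw Yw P hP' hL
  have bl := hB (Wk D) {j : Fin (D + 2) // j ≠ 0} (IrLe D K) (pw D t) Lw Xw Yw P
    (fun w => w.map (flipS 1)) rrB aaB bbB hP' hL (by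
      intro w hw
      rw [mem_IrLe] at hw
      obtain ⟨h1, h2⟩ := hI D 1 w (by simp) hw.2
      refine ⟨?_, map_flip_flip 1 w, ?_, ?_⟩
      · rw [mem_IrLe]
        exact ⟨by simpa using hw.1, h1⟩
      · unfold pw
        rw [h2, List.length_map]
      · unfold Lw
        rw [List.length_map]) (fun f _ => hM D P.N f)
  unfold GS
  rw [Finset.sum_image (by
    intro z _ z' _ h
    obtain ⟨h1, h2⟩ := Prod.mk.inj h
    obtain ⟨a1, a2, a3, a4, a5, a6⟩ := INP_.Rl_inj h1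
    obtain ⟨b1, b2⟩ := INP_.Sl_inj h2
    obtain ⟨z1, ⟨y1, y2, y3, y4⟩, z3, z4, z5⟩ := z
    obtain ⟨z1', ⟨y1', y2', y3', y4'⟩, z3', z4', z5'⟩ := z'
    simp only at a1 a2 a3 a4 a5 a6 b1 b2
    subst a1 a2 a3 a4 a5 a6 b1 b2
    rfl)]
  simp only [INP_.prod_Rl, INP_.prod_Sl]
  have key := INP_.fact5 (Fintype.piFinset (fun _ : Fin n₁ => IrLe D K))
    ((Fintype.piFinset (fun _ : Fin P.N => IrLe D K)) ×ˢ
     (Fintype.piFinset (fun _ : Fin P.N => IrLe D K)) ×ˢ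
     (Fintype.piFinset (fun _ : Fin P.N => IrLe D K)) ×ˢ
     (Fintype.piFinset (fun _ : Fin P.N => IrLe D K)))
    (Fintype.piFinset (fun _ : Fin n₂ => IrLe D K))
    (Fintype.piFinset (fun _ : Fin J => IrLe D K))
    (Fintype.piFinset (fun _ : Fin J => IrLe D K))
    (fun f => Good Lw Xw (Yw (D := D)) P f)
    (fun g => BGood Lw Xw (Yw (D := D)) P g.1 ∧ BGood Lw Xw (Yw (D := D)) P g.2.1 ∧
       BGood Lw Xw (Yw (D := D)) P g.2.2.1 ∧ BGood Lw Xw (Yw (D := D)) P g.2.2.2 ∧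
       bbB g.1 ≤ aaB g.2.1 ∧ aaB g.2.2.2 ≤ bbB g.2.2.1)
    (fun f => Good Lw Xw (Yw (D := D)) P f)
    (fun f => Good Lw Xw (Yw (D := D)) P f)
    (fun f => Good Lw Xw (Yw (D := D)) P f)
    (fun f => ∏ i, pw D t (f i))
    (fun g => (∏ i, pw D t (g.1 i)) * (∏ i, pw D t (g.2.1 i)) * (∏ i, pw D t (g.2.2.1 i)) *
      (∏ i, pw D t (g.2.2.2 i)))
    (fun f => ∏ i, pw D t (f i)) (fun f => ∏ i, pw D t (f i)) (fun f => ∏ i, pw D t (f i))
  refine le_of_le_of_eq ?_ (Eq.trans key.symm ?_)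
  swap
  · refine Finset.sum_congr ?_ (fun _ _ => rfl)
    ext z
    simp only [Finset.mem_filter]
  have hblk : 1 / 200 * Real.exp (-(8 * P.A / P.θ1) - 8 * P.N * P.ε) ≤
      ∑ g ∈ (Fintype.piFinset (fun _ : Fin P.N => IrLe D K)) ×ˢ
     (Fintype.piFinset (fun _ : Fin P.N => IrLe D K)) ×ˢ
     (Fintype.piFinset (fun _ : Fin P.N => IrLe D K)) ×ˢ
     (Fintype.piFinset (fun _ : Fin P.N => IrLe D K)),
     if BGood Lw Xw (Yw (D := D)) P g.1 ∧ BGood Lw Xw (Yw (D := D)) P g.2.1 ∧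
       BGood Lw Xw (Yw (D := D)) P g.2.2.1 ∧ BGood Lw Xw (Yw (D := D)) P g.2.2.2 ∧
       bbB g.1 ≤ aaB g.2.1 ∧ aaB g.2.2.2 ≤ bbB g.2.2.1 then
       (∏ i, pw D t (g.1 i)) * (∏ i, pw D t (g.2.1 i)) * (∏ i, pw D t (g.2.2.1 i)) *
      (∏ i, pw D t (g.2.2.2 i)) else 0 := by
    simp only [Finset.sum_product]
    exact bl
  have h1 := gd n₁
  have h2 := gd n₂
  have h3 := gd J
  have e0 : ∀ x : ℝ, 0 ≤ 1 / 2 * Real.exp x := fun x => by positivity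
  have e1 : ∀ x : ℝ, 0 ≤ 1 / 200 * Real.exp x := fun x => by positivity
  have hmul := mul_le_mul (mul_le_mul (mul_le_mul h1 hblk (e1 _) ((e0 _).trans h1)) h2 (e0 _)
    (mul_nonneg ((e0 _).trans h1) ((e1 _).trans hblk)))
    (mul_le_mul h3 h3 (e0 _) ((e0 _).trans h3)) (mul_nonneg (e0 _) (e0 _))
    (mul_nonneg (mul_nonneg ((e0 _).trans h1) ((e1 _).trans hblk)) ((e0 _).trans h2))
  refine le_trans (le_of_eq ?_) (le_trans hmul (le_of_eq ?_))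
  swap
  · congr!
  have hexp : Real.exp (-(16 * P.A / P.θ1) - 2 * P.ε * (n₁ + n₂ + 4 * P.N + 2 * J)) =
      Real.exp (-(2 * P.A / P.θ1) - 2 * n₁ * P.ε) *
      Real.exp (-(8 * P.A / P.θ1) - 8 * P.N * P.ε) *
      Real.exp (-(2 * P.A / P.θ1) - 2 * n₂ * P.ε) *
      (Real.exp (-(2 * P.A / P.θ1) - 2 * J * P.ε) *
      Real.exp (-(2 * P.A / P.θ1) - 2 * J * P.ε)) := by
    simp only [← Real.exp_add]
    congr 1
    ring
  rw [hexp]
  ring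

end Pool.Agent.SBW
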