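import Pool.Agent.SBW.Targets

set_option autoImplicit false

/-!
# SBW, target KOL: Kolmogorov's inequality on a finite product
-/

open scoped Classical

noncomputable section

namespace Pool.Agent.SBW

namespace KOL_

/-- splitting off the first coordinate -/
theorem sum_pi_succ {α : Type} (Ω : Finset α) (n : ℕ) (F : (Fin (n + 1) → α) → ℝ) :
    ∑ f ∈ Fintype.piFinset (fun _ : Fin (n + 1) => Ω), F f =
      ∑ a ∈ Ω, ∑ g ∈ Fintype.piFinset (fun _ : Fin n => Ω), F (Fin.cons a g) := by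
  rw [← Finset.sum_product']
  refine Finset.sum_nbij' (fun f => (f 0, Fin.tail f)) (fun p => Fin.cons p.1 p.2) ?_ ?_ ?_ ?_ ?_
  · intro f hf
    rw [Fintype.mem_piFinset] at hf
    rw [Finset.mem_product, Fintype.mem_piFinset]
    exact ⟨hf 0, fun i => hf i.succ⟩
  · intro p hp
    rw [Finset.mem_product, Fintype.mem_piFinset] at hp
    rw [Fintype.mem_piFinset]
    intro i
    refine Fin.cases ?_ (fun j => ?_) i
    · simpa using hp.1
    · simpa using hp.2 j
  · intro f _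
    exact Fin.cons_self_tail f
  · intro p _
    simp [Fin.tail_cons]
  · intro f _
    rw [Fin.cons_self_tail]

theorem psm_zero {n : ℕ} (g : Fin n → ℝ) : psm g 0 = 0 := by simp [psm]

theorem psm_succ {n : ℕ} (g : Fin (n + 1) → ℝ) (k : ℕ) :
    psm g (k + 1) = g 0 + psm (fun i : Fin n => g i.succ) k := by
  unfold psm
  rw [Fin.sum_univ_succ]
  simp

theorem mass {α : Type} (Ω : Finset α) (n : ℕ) (q : Fin n → α → ℝ)
    (h1 : ∀ i, ∑ a ∈ Ω, q i a = 1) :
    ∑ f ∈ Fintype.piFinset (fun _ : Fin n => Ω), ∏ i, q i (f i) = 1 := by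
  rw [← Finset.prod_univ_sum]
  exact Finset.prod_eq_one (fun i _ => h1 i)

theorem prod_nonneg {α : Type} (Ω : Finset α) (n : ℕ) (q : Fin n → α → ℝ)
    (h0 : ∀ i, ∀ a ∈ Ω, 0 ≤ q i a) (f : Fin n → α)
    (hf : f ∈ Fintype.piFinset (fun _ : Fin n => Ω)) : 0 ≤ ∏ i, q i (f i) := by
  rw [Fintype.mem_piFinset] at hf
  exact Finset.prod_nonneg (fun i _ => h0 i _ (hf i))

/-- the case of a large shift -/
theorem big {α : Type} (Ω : Finset α) (lam : ℝ) (hl : 0 < lam) (n : ℕ) (q Z : Fin n → α → ℝ)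
    (s : ℝ) (h0 : ∀ i, ∀ a ∈ Ω, 0 ≤ q i a) (h1 : ∀ i, ∑ a ∈ Ω, q i a = 1) (hs : lam ≤ |s|) :
    ∑ f ∈ Fintype.piFinset (fun _ : Fin n => Ω),
      (if ∃ k ≤ n, lam ≤ |s + psm (fun i => Z i (f i)) k| then ∏ i, q i (f i) else 0) ≤
      (s ^ 2 + ∑ i, ∑ a ∈ Ω, q i a * Z i a ^ 2) / lam ^ 2 := by
  have hV : 0 ≤ ∑ i, ∑ a ∈ Ω, q i a * Z i a ^ 2 :=
    Finset.sum_nonneg (fun i _ => Finset.sum_nonneg
      (fun a ha => mul_nonneg (h0 i a ha) (sq_nonneg _)))
  have hL : ∑ f ∈ Fintype.piFinset (fun _ : Fin n => Ω),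
      (if ∃ k ≤ n, lam ≤ |s + psm (fun i => Z i (f i)) k| then ∏ i, q i (f i) else 0) ≤ 1 := by
    rw [← mass Ω n q h1]
    refine Finset.sum_le_sum (fun f hf => ?_)
    split_ifs
    · exact le_refl _
    · exact prod_nonneg Ω n q h0 f hf
  refine hL.trans ?_
  rw [le_div_iff₀ (by positivity), one_mul]
  have h2 : lam ^ 2 ≤ s ^ 2 := by
    rw [← sq_abs s]
    exact pow_le_pow_left₀ hl.le hs 2
  linarith

theorem gen {α : Type} (Ω : Finset α) (lam : ℝ) (hl : 0 < lam) : ∀ (n : ℕ)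
    (q Z : Fin n → α → ℝ) (s : ℝ), (∀ i, ∀ a ∈ Ω, 0 ≤ q i a) → (∀ i, ∑ a ∈ Ω, q i a = 1) →
    (∀ i, ∑ a ∈ Ω, q i a * Z i a = 0) →
    ∑ f ∈ Fintype.piFinset (fun _ : Fin n => Ω),
      (if ∃ k ≤ n, lam ≤ |s + psm (fun i => Z i (f i)) k| then ∏ i, q i (f i) else 0) ≤
      (s ^ 2 + ∑ i, ∑ a ∈ Ω, q i a * Z i a ^ 2) / lam ^ 2 := by
  intro n
  induction n with
  | zero =>
    intro q Z s h0 h1 _
    rcases le_or_gt lam |s| with hs | hs
    · exact big Ω lam hl 0 q Z s h0 h1 hs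
    · refine le_trans (le_of_eq ?_) (?_ : (0 : ℝ) ≤ _)
      · refine Finset.sum_eq_zero (fun f _ => ?_)
        rw [if_neg]
        rintro ⟨k, hk, h⟩
        have hk0 : k = 0 := by omega
        subst hk0
        rw [psm_zero, add_zero] at h
        linarith
      · simp only [Finset.univ_eq_empty, Finset.sum_empty, add_zero]
        positivity
  | succ n ih =>
    intro q Z s h0 h1 h2
    rcases le_or_gt lam |s| with hs | hs
    · exact big Ω lam hl (n + 1) q Z s h0 h1 hs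
    · rw [sum_pi_succ]
      have key : ∀ a ∈ Ω, ∑ g ∈ Fintype.piFinset (fun _ : Fin n => Ω),
          (if ∃ k ≤ n + 1, lam ≤ |s + psm (fun i => Z i ((Fin.cons a g : Fin (n + 1) → α) i)) k|
            then ∏ i, q i ((Fin.cons a g : Fin (n + 1) → α) i) else 0) ≤
          q 0 a * (((s + Z 0 a) ^ 2 +
            ∑ i : Fin n, ∑ b ∈ Ω, q i.succ b * Z i.succ b ^ 2) / lam ^ 2) := by
        intro a ha
        have h3 := ih (fun i => q i.succ) (fun i => Z i.succ) (s + Z 0 a)
          (fun i => h0 i.succ) (fun i => h1 i.succ) (fun i => h2 i.succ)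
        refine le_trans (le_of_eq ?_) (mul_le_mul_of_nonneg_left h3 (h0 0 a ha))
        rw [Finset.mul_sum]
        refine Finset.sum_congr rfl (fun g _ => ?_)
        have hiff : (∃ k ≤ n + 1,
            lam ≤ |s + psm (fun i => Z i ((Fin.cons a g : Fin (n + 1) → α) i)) k|) ↔
            ∃ k ≤ n, lam ≤ |s + Z 0 a + psm (fun i => Z i.succ (g i)) k| := by
          constructor
          · rintro ⟨k, hk, h⟩
            cases k with
            | zero =>
              rw [psm_zero, add_zero] at h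
              linarith
            | succ k =>
              refine ⟨k, by omega, ?_⟩
              rw [psm_succ] at h
              simpa [add_assoc] using h
          · rintro ⟨k, hk, h⟩
            refine ⟨k + 1, by omega, ?_⟩
            rw [psm_succ]
            simpa [add_assoc] using h
        rw [Fin.prod_univ_succ]
        simp only [Fin.cons_zero, Fin.cons_succ]
        by_cases hc : ∃ k ≤ n, lam ≤ |s + Z 0 a + psm (fun i => Z i.succ (g i)) k|
        · rw [if_pos (hiff.2 hc), if_pos hc]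
        · rw [if_neg (fun h => hc (hiff.1 h)), if_neg hc, mul_zero]
      refine (Finset.sum_le_sum key).trans (le_of_eq ?_)
      have e1 : ∀ a ∈ Ω, q 0 a * (((s + Z 0 a) ^ 2 +
            ∑ i : Fin n, ∑ b ∈ Ω, q i.succ b * Z i.succ b ^ 2) / lam ^ 2) =
          (q 0 a * (s ^ 2 + ∑ i : Fin n, ∑ b ∈ Ω, q i.succ b * Z i.succ b ^ 2) +
            2 * s * (q 0 a * Z 0 a) + q 0 a * Z 0 a ^ 2) / lam ^ 2 := by
        intro a _
        ring
      rw [Finset.sum_congr rfl e1, ← Finset.sum_div, Finset.sum_add_distrib,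
        Finset.sum_add_distrib, ← Finset.sum_mul, ← Finset.mul_sum, h1 0, h2 0,
        Fin.sum_univ_succ]
      ring

end KOL_

theorem p_KOL : T_KOL := by
  intro α Ω n q Z lam hl h0 h1 h2
  have h := KOL_.gen Ω lam hl n q Z 0 h0 h1 h2
  rw [Finset.sum_filter]
  simpa using h

end Pool.Agent.SBW
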