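import Mathlib
import Pool.Agent.SBW.Targets

/-!
# The total mass of irreducible bridges is one
-/

set_option autoImplicit false

open scoped Classical

namespace Pool.Agent.SBW

namespace MASS_

theorem mem_WL {D n : ℕ} {w : Wk D} : w ∈ WL D n ↔ w.length = n := by
  unfold WL
  rw [Set.Finite.mem_toFinset]
  rfl

theorem mem_IrF {D n : ℕ} {w : Wk D} : w ∈ IrF D n ↔ w.length = n ∧ Irr w := by
  unfold IrF
  rw [Finset.mem_filter, mem_WL]

theorem sum_pw (D k : ℕ) (t : ℝ) :
    ∑ w ∈ IrF D k, pw D t w = aS D k t * Real.exp (-(PP D t * k)) := by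
  unfold aS
  rw [Finset.sum_mul]
  refine Finset.sum_congr rfl fun w hw => ?_
  rw [mem_IrF] at hw
  unfold pw
  rw [hw.1, ← Real.exp_add]
  congr 1

theorem sum_IrLe (D K : ℕ) (t : ℝ) :
    ∑ w ∈ IrLe D K, pw D t w = ∑ k ∈ Finset.Icc 1 K, aS D k t * Real.exp (-(PP D t * k)) := by
  unfold IrLe
  rw [Finset.sum_biUnion]
  · rw [Finset.sum_congr rfl fun k _ => sum_pw D k t]
    symm
    apply Finset.sum_subset
    · intro k hk
      rw [Finset.mem_Icc] at hk
      rw [Finset.mem_range]
      omega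
    · intro k hk hk'
      rw [Finset.mem_range] at hk
      rw [Finset.mem_Icc] at hk'
      have hk0 : k = 0 := by omega
      subst hk0
      rw [← sum_pw]
      apply Finset.sum_eq_zero
      intro w hw
      rw [mem_IrF] at hw
      exact absurd hw.2.2.1 (by omega)
  · intro i _ j _ hij
    rw [Function.onFun, Finset.disjoint_left]
    intro w hwi hwj
    rw [mem_IrF] at hwi hwj
    exact hij (hwi.1.symm.trans hwj.1)

theorem aS_nonneg (D k : ℕ) (t : ℝ) : 0 ≤ aS D k t :=
  Finset.sum_nonneg fun _ _ => (Real.exp_pos _).le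

end MASS_

open MASS_ in
theorem p_MASS (hSLOW : T_SLOW) (hNSL : T_NSL) (hMLE : T_MLE) (hMGE : T_MGE)
    (_hVMON : T_VMON) : T_MASS := by
  intro D t0 t1 h0 h1 h2 h3 h4
  refine ⟨fun K => ?_, fun ε hε => ?_⟩
  · rw [sum_IrLe]
    exact hMLE D K (2 * t0)
  set v := vv D t0 with hv
  have ht1 : 0 < t1 := by linarith
  have hv0 : 0 < v := by linarith
  set P := PP D (2 * t0) with hP
  set δ := min (v * t0 / 20) (t1 ^ 8) with hδ
  have hδ0 : 0 < δ := lt_min (by positivity) (by positivity)
  have hδ1 : δ ≤ v * t0 / 20 := min_le_left _ _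
  have hδ2 : δ ≤ t1 ^ 8 := min_le_right _ _
  obtain ⟨M, hM⟩ := exists_nat_ge (4 / v)
  set C0 := ∑ m ∈ Finset.range M, aS D m (2 * t0) * Real.exp (-((P - δ) * m)) with hC0
  have hC00 : 0 ≤ C0 := Finset.sum_nonneg fun m _ =>
    mul_nonneg (aS_nonneg _ _ _) (Real.exp_pos _).le
  have hbound : ∀ m : ℕ, aS D m (2 * t0) ≤ (9 + C0) * Real.exp ((P - δ) * m) := by
    intro m
    by_cases hm : m < M
    · have e1 : aS D m (2 * t0) * Real.exp (-((P - δ) * m)) ≤ C0 :=
        Finset.single_le_sum (f := fun m : ℕ => aS D m (2 * t0) * Real.exp (-((P - δ) * m)))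
          (fun m _ => mul_nonneg (aS_nonneg _ _ _) (Real.exp_pos _).le)
          (Finset.mem_range.2 hm)
      have e2 : aS D m (2 * t0)
          = aS D m (2 * t0) * Real.exp (-((P - δ) * m)) * Real.exp ((P - δ) * m) := by
        rw [mul_assoc, ← Real.exp_add]
        simp
      rw [e2]
      exact mul_le_mul_of_nonneg_right (by linarith) (Real.exp_pos _).le
    · push Not at hm
      have hvm : 4 ≤ v * m := by
        have e1 : 4 / v ≤ m := hM.trans (by exact_mod_cast hm)
        rw [div_le_iff₀ hv0] at e1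
        linarith
      have s1 := hSLOW D m t0 (1 / 20) h0 (by norm_num)
      have s2 := hNSL D m t0 t1 h0 h1 h2 h3 h4 hvm
      have e0 : (1 : ℝ) - 1 / 20 = 19 / 20 := by norm_num
      rw [e0] at s1
      have e1 : aS D m (2 * t0)
          = ∑ w ∈ (IrF D m).filter (fun w => (hx w : ℝ) < 19 / 20 * vv D t0 * m),
              Real.exp (2 * t0 * (hx w : ℝ))
            + ∑ w ∈ (IrF D m).filter (fun w => ¬ (hx w : ℝ) < 19 / 20 * vv D t0 * m),
              Real.exp (2 * t0 * (hx w : ℝ)) := by
        unfold aS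
        rw [Finset.sum_filter_add_sum_filter_not]
      have e2 : ∑ w ∈ (IrF D m).filter (fun w => ¬ (hx w : ℝ) < 19 / 20 * vv D t0 * m),
              Real.exp (2 * t0 * (hx w : ℝ))
            = Real.exp (P * m) *
              ∑ w ∈ (IrF D m).filter (fun w => 19 / 20 * vv D t0 * m ≤ (hx w : ℝ)),
                pw D (2 * t0) w := by
        rw [Finset.mul_sum]
        have e3 : (IrF D m).filter (fun w => ¬ (hx w : ℝ) < 19 / 20 * vv D t0 * m)
            = (IrF D m).filter (fun w => 19 / 20 * vv D t0 * m ≤ (hx w : ℝ)) := by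
          ext w
          simp only [Finset.mem_filter, not_lt]
        rw [e3]
        refine Finset.sum_congr rfl fun w hw => ?_
        rw [Finset.mem_filter, mem_IrF] at hw
        unfold pw
        rw [hw.1.1, ← Real.exp_add]
        congr 1
        ring
      have hm0 : (0 : ℝ) ≤ m := Nat.cast_nonneg m
      have e4 : Real.exp ((P - 1 / 20 * vv D t0 * t0) * m) ≤ Real.exp ((P - δ) * m) := by
        apply Real.exp_le_exp.2
        apply mul_le_mul_of_nonneg_right _ hm0
        rw [← hv]
        linarith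
      have e5 : Real.exp (P * m) * (8 * Real.exp (-(t1 ^ 8 * m)))
          ≤ 8 * Real.exp ((P - δ) * m) := by
        have e6 : Real.exp (P * m) * (8 * Real.exp (-(t1 ^ 8 * m)))
            = 8 * Real.exp ((P - t1 ^ 8) * m) := by
          rw [mul_left_comm, ← Real.exp_add]
          congr 2
          ring
        rw [e6]
        apply mul_le_mul_of_nonneg_left _ (by norm_num)
        apply Real.exp_le_exp.2
        apply mul_le_mul_of_nonneg_right _ hm0
        linarith
      have e7 : Real.exp (P * m) *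
              ∑ w ∈ (IrF D m).filter (fun w => 19 / 20 * vv D t0 * m ≤ (hx w : ℝ)),
                pw D (2 * t0) w ≤ Real.exp (P * m) * (8 * Real.exp (-(t1 ^ 8 * m))) :=
        mul_le_mul_of_nonneg_left s2 (Real.exp_pos _).le
      have e8 : 0 ≤ C0 * Real.exp ((P - δ) * m) := mul_nonneg hC00 (Real.exp_pos _).le
      rw [e1, e2]
      linarith
  obtain ⟨K, hK⟩ := hMGE D (2 * t0) (9 + C0) δ hδ0 hbound ε hε
  refine ⟨K, ?_⟩
  rw [sum_IrLe]
  exact hK K le_rfl

end Pool.Agent.SBW
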