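import Pool.Agent.SBW.Targets

set_option autoImplicit false

/-!
# MP_b5172a_pr: MAXR, maxima under reflection
-/

open scoped Classical

noncomputable section

namespace Pool.Agent.SBW

namespace MAXR_

variable {D : ℕ}

theorem le_mxY (w : Wk D) {k : ℕ} (hk : k ≤ w.length) : pos w k 1 ≤ mxY w := by
  unfold mxY
  exact Finset.le_sup' (fun k => pos w k 1) (by simp; omega)

theorem mxY_le (w : Wk D) {c : ℤ} (h : ∀ k ≤ w.length, pos w k 1 ≤ c) : mxY w ≤ c := by
  unfold mxY
  apply Finset.sup'_le
  intro k hk
  apply h
  simp at hk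
  omega

theorem mnY_le (w : Wk D) {k : ℕ} (hk : k ≤ w.length) : mnY w ≤ pos w k 1 := by
  unfold mnY
  exact Finset.inf'_le (fun k => pos w k 1) (by simp; omega)

theorem le_mnY (w : Wk D) {c : ℤ} (h : ∀ k ≤ w.length, c ≤ pos w k 1) : c ≤ mnY w := by
  unfold mnY
  apply Finset.le_inf'
  intro k hk
  apply h
  simp at hk
  omega

theorem mxY_flip (w : Wk D) : mxY (w.map (flipS 1)) = - mnY w := by
  apply le_antisymm
  · apply mxY_le
    intro k hk
    rw [List.length_map] at hk
    rw [pos_map_flip]
    simp only [if_true]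
    have := mnY_le w hk
    linarith
  · have : - mxY (w.map (flipS 1)) ≤ mnY w := by
      apply le_mnY
      intro k hk
      have h1 := le_mxY (w.map (flipS 1)) (k := k) (by simpa using hk)
      rw [pos_map_flip] at h1
      simp only [if_true] at h1
      linarith
    linarith

theorem mnY_flip (w : Wk D) : mnY (w.map (flipS 1)) = - mxY w := by
  have h := mxY_flip (w.map (flipS 1))
  rw [map_flip_flip] at h
  linarith

theorem flatten_flip {N : ℕ} (f : Fin N → Wk D) :
    (List.ofFn (fun i => (f i).map (flipS 1))).flatten =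
      ((List.ofFn f).flatten).map (flipS 1) := by
  rw [List.map_flatten, List.map_ofFn]
  rfl

end MAXR_

open MAXR_ in
theorem p_MAXR : T_MAXR := by
  intro D N f
  have h1 : mxY (List.ofFn (fun i => (f i).map (flipS 1))).flatten =
      - mnY (List.ofFn f).flatten := by rw [flatten_flip, mxY_flip]
  have h2 : mnY (List.ofFn (fun i => (f i).map (flipS 1))).flatten =
      - mxY (List.ofFn f).flatten := by rw [flatten_flip, mnY_flip]
  have h3 : pos (List.ofFn (fun i => (f i).map (flipS 1))).flatten
      (List.ofFn (fun i => (f i).map (flipS 1))).flatten.length 1 =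
      - pos (List.ofFn f).flatten (List.ofFn f).flatten.length 1 := by
    rw [flatten_flip, List.length_map, pos_map_flip]
    simp
  refine ⟨?_, ?_, ?_⟩
  · unfold rrB
    rw [h1, h2]
    push_cast
    ring
  · unfold aaB rrB
    rw [h1]
    push_cast
    ring
  · unfold bbB rrB
    rw [h1, h3]
    push_cast
    ring

end Pool.Agent.SBW
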