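import Pool.Agent.SBW.Targets

set_option autoImplicit false

/-!
# MP_b5172a_pr: MGE, total mass one under exponential decay
-/

open scoped Classical

noncomputable section

namespace Pool.Agent.SBW

private theorem MGE_aS_nonneg (D k : ℕ) (t : ℝ) : 0 ≤ aS D k t :=
  Finset.sum_nonneg fun _ _ => (Real.exp_pos _).le

/-- choice of the rate -/
private theorem MGE_rate (a : ℕ → ℝ) (C δ ε : ℝ) (ha : ∀ k, 0 ≤ a k) (hδ : 0 < δ)
    (haC : ∀ k, a k ≤ C * Real.exp (-(δ * k))) (hε : 0 < ε)
    (hS : ∀ K : ℕ, ∑ k ∈ Finset.Icc 1 K, a k ≤ 1 - ε) :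
    ∃ x : ℝ, 0 < x ∧ ∀ K : ℕ, ∑ k ∈ Finset.Icc 1 K, a k * Real.exp (x * k) ≤ 1 := by
  have hC : 0 ≤ C := by
    have h0 := haC 0
    have h1 := ha 0
    simp at h0
    linarith
  have hr : ‖Real.exp (-(δ / 2))‖ < 1 := by
    rw [Real.norm_eq_abs, abs_of_pos (Real.exp_pos _)]
    rw [Real.exp_lt_one_iff]
    linarith
  have hsum := summable_pow_mul_geometric_of_norm_lt_one 1 hr
  set B : ℝ := ∑' k : ℕ, ((k : ℝ) ^ 1 * Real.exp (-(δ / 2)) ^ k) with hB
  have hterm : ∀ k : ℕ, 0 ≤ (k : ℝ) ^ 1 * Real.exp (-(δ / 2)) ^ k := fun k => by positivity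
  have hB0 : 0 ≤ B := tsum_nonneg hterm
  have hfin : ∀ K : ℕ, ∑ k ∈ Finset.Icc 1 K, ((k : ℝ) ^ 1 * Real.exp (-(δ / 2)) ^ k) ≤ B :=
    fun K => hsum.sum_le_tsum _ (fun k _ => hterm k)
  have hCB : 0 < C * B + 1 := by positivity
  refine ⟨min (δ / 2) (ε / (C * B + 1)), lt_min (by linarith) (by positivity), fun K => ?_⟩
  set x : ℝ := min (δ / 2) (ε / (C * B + 1)) with hx
  have hx0 : 0 < x := lt_min (by linarith) (by positivity)
  have hx1 : x ≤ δ / 2 := min_le_left _ _
  have hx2 : x ≤ ε / (C * B + 1) := min_le_right _ _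
  have key : ∀ k : ℕ, a k * Real.exp (x * k) ≤
      a k + C * x * ((k : ℝ) ^ 1 * Real.exp (-(δ / 2)) ^ k) := by
    intro k
    have h1 : Real.exp (x * k) - 1 ≤ x * k * Real.exp (x * k) := by
      have h2 := Real.add_one_le_exp (-(x * k))
      have h3 : Real.exp (x * k) * (1 - x * k) ≤ 1 := by
        calc Real.exp (x * k) * (1 - x * k) ≤ Real.exp (x * k) * Real.exp (-(x * k)) :=
              mul_le_mul_of_nonneg_left (by linarith) (Real.exp_pos _).le
          _ = 1 := by rw [← Real.exp_add]; simp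
      nlinarith
    have hxk : 0 ≤ x * (k : ℝ) := by positivity
    have h4 : Real.exp (x * k) ≤ Real.exp (δ / 2 * k) := by
      apply Real.exp_le_exp.mpr
      exact mul_le_mul_of_nonneg_right hx1 (by positivity)
    have h5 : Real.exp (x * k) - 1 ≤ x * k * Real.exp (δ / 2 * k) :=
      h1.trans (mul_le_mul_of_nonneg_left h4 hxk)
    have h6 : a k * (Real.exp (x * k) - 1) ≤
        C * Real.exp (-(δ * k)) * (x * k * Real.exp (δ / 2 * k)) := by
      have h7 : 0 ≤ x * k * Real.exp (δ / 2 * k) := by positivity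
      calc a k * (Real.exp (x * k) - 1) ≤ a k * (x * k * Real.exp (δ / 2 * k)) :=
            mul_le_mul_of_nonneg_left h5 (ha k)
        _ ≤ _ := mul_le_mul_of_nonneg_right (haC k) h7
    have h8 : Real.exp (-(δ * k)) * Real.exp (δ / 2 * k) = Real.exp (-(δ / 2)) ^ k := by
      rw [← Real.exp_add, ← Real.exp_nat_mul]
      congr 1
      ring
    calc a k * Real.exp (x * k) = a k + a k * (Real.exp (x * k) - 1) := by ring
      _ ≤ a k + C * Real.exp (-(δ * k)) * (x * k * Real.exp (δ / 2 * k)) := by linarith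
      _ = a k + C * x * ((k : ℝ) * (Real.exp (-(δ * k)) * Real.exp (δ / 2 * k))) := by ring
      _ = _ := by rw [h8, pow_one]
  calc ∑ k ∈ Finset.Icc 1 K, a k * Real.exp (x * k)
      ≤ ∑ k ∈ Finset.Icc 1 K, (a k + C * x * ((k : ℝ) ^ 1 * Real.exp (-(δ / 2)) ^ k)) :=
        Finset.sum_le_sum fun k _ => key k
    _ = ∑ k ∈ Finset.Icc 1 K, a k +
          C * x * ∑ k ∈ Finset.Icc 1 K, ((k : ℝ) ^ 1 * Real.exp (-(δ / 2)) ^ k) := by
        rw [Finset.sum_add_distrib, Finset.mul_sum]
    _ ≤ (1 - ε) + C * x * B := by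
        have h9 : C * x * ∑ k ∈ Finset.Icc 1 K, ((k : ℝ) ^ 1 * Real.exp (-(δ / 2)) ^ k) ≤
            C * x * B := mul_le_mul_of_nonneg_left (hfin K) (by positivity)
        linarith [hS K]
    _ ≤ 1 := by
        have h10 : x * (C * B + 1) ≤ ε := by
          rwa [le_div_iff₀ hCB] at hx2
        nlinarith

theorem p_MGE : T_REN → T_PSUP → T_SMUL → T_MLE → T_MGE := by
  intro hREN hPSUP hSMUL _ D t C δ hδ hdec ε hε
  by_contra hcon
  push Not at hcon
  set P : ℝ := PP D t with hP
  set a : ℕ → ℝ := fun k => aS D k t * Real.exp (-(P * k)) with ha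
  have ha0 : ∀ k, 0 ≤ a k := fun k => mul_nonneg (MGE_aS_nonneg D k t) (Real.exp_pos _).le
  have hS : ∀ K : ℕ, ∑ k ∈ Finset.Icc 1 K, a k ≤ 1 - ε := by
    intro K
    obtain ⟨K', hK', hlt⟩ := hcon K
    refine le_trans (Finset.sum_le_sum_of_subset_of_nonneg ?_ (fun k _ _ => ha0 k)) hlt.le
    exact Finset.Icc_subset_Icc le_rfl hK'
  have haC : ∀ k, a k ≤ C * Real.exp (-(δ * k)) := by
    intro k
    calc a k ≤ C * Real.exp ((P - δ) * k) * Real.exp (-(P * k)) :=
          mul_le_mul_of_nonneg_right (hdec k) (Real.exp_pos _).le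
      _ = C * (Real.exp ((P - δ) * k) * Real.exp (-(P * k))) := by ring
      _ = _ := by rw [← Real.exp_add]; congr 2; ring
  obtain ⟨x, hx0, hx⟩ := MGE_rate a C δ ε ha0 hδ haC hε hS
  have hind : ∀ n : ℕ, bS D n t * Real.exp (-(P * n)) * Real.exp (x * n) ≤ 1 := by
    intro n
    induction n using Nat.strong_induction_on with
    | _ n ih =>
      rcases Nat.eq_zero_or_pos n with rfl | hn
      · have h0 := (hSMUL D 0 0 t).2.1
        simp [h0]
      · rw [hREN D n t hn, Finset.sum_mul, Finset.sum_mul]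
        refine le_trans (Finset.sum_le_sum (g := fun k => a k * Real.exp (x * k)) ?_) (hx n)
        intro k hk
        rw [Finset.mem_Icc] at hk
        have h1 := ih (n - k) (by omega)
        have h2 : ((n - k : ℕ) : ℝ) = (n : ℝ) - k := by
          rw [Nat.cast_sub hk.2]
        have h3 : aS D k t * bS D (n - k) t * Real.exp (-(P * n)) * Real.exp (x * n) =
            (a k * Real.exp (x * k)) *
              (bS D (n - k) t * Real.exp (-(P * ((n - k : ℕ) : ℝ))) *
                Real.exp (x * ((n - k : ℕ) : ℝ))) := by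
          have h4 : Real.exp (-(P * n)) = Real.exp (-(P * k)) *
              Real.exp (-(P * ((n - k : ℕ) : ℝ))) := by
            rw [← Real.exp_add, h2]; congr 1; ring
          have h5 : Real.exp (x * n) = Real.exp (x * k) *
              Real.exp (x * ((n - k : ℕ) : ℝ)) := by
            rw [← Real.exp_add, h2]; congr 1; ring
          rw [h4, h5]
          simp only [ha]
          ring
        rw [h3]
        calc _ ≤ (a k * Real.exp (x * k)) * 1 :=
              mul_le_mul_of_nonneg_left h1 (mul_nonneg (ha0 k) (Real.exp_pos _).le)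
          _ = _ := mul_one _
  have hle : P ≤ P - x := by
    refine (hPSUP D t).2 (P - x) (fun n => ?_)
    have h1 := hind n
    have h2 : Real.exp (-(P * n)) * Real.exp (x * n) * Real.exp ((P - x) * n) = 1 := by
      rw [← Real.exp_add, ← Real.exp_add]
      rw [Real.exp_eq_one_iff]
      ring
    calc bS D n t = bS D n t * (Real.exp (-(P * n)) * Real.exp (x * n) *
          Real.exp ((P - x) * n)) := by rw [h2, mul_one]
      _ = (bS D n t * Real.exp (-(P * n)) * Real.exp (x * n)) * Real.exp ((P - x) * n) := by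
          ring
      _ ≤ 1 * Real.exp ((P - x) * n) :=
          mul_le_mul_of_nonneg_right h1 (Real.exp_pos _).le
      _ = _ := one_mul _
  linarith

end Pool.Agent.SBW
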