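import Pool.Agent.SBW.Targets

set_option autoImplicit false

/-!
# MP_b5172a_pr: MLE, the total mass of irreducible bridges is at most one
-/

open scoped Classical

noncomputable section

namespace Pool.Agent.SBW

namespace MLE_

/-- one step of the comparison -/
theorem step (al be : ℕ → ℝ) (hal : ∀ k, 0 ≤ al k) (hbe : ∀ n, 0 ≤ be n)
    (hren : ∀ n, 1 ≤ n → be n = ∑ k ∈ Finset.Icc 1 n, al k * be (n - k)) (K N : ℕ) :
    (∑ k ∈ Finset.Icc 1 K, al k) * ∑ n ∈ Finset.range (N + 1), be n ≤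
      ∑ n ∈ Finset.range (N + K + 1), be n := by
  have h1 : (∑ k ∈ Finset.Icc 1 K, al k) * ∑ n ∈ Finset.range (N + 1), be n =
      ∑ x ∈ (Finset.Icc 1 K ×ˢ Finset.range (N + 1)).image
        (fun x : ℕ × ℕ => (⟨x.2 + x.1, x.1⟩ : (_ : ℕ) × ℕ)), al x.2 * be (x.1 - x.2) := by
    rw [Finset.sum_image, Finset.sum_mul_sum, ← Finset.sum_product']
    · refine Finset.sum_congr rfl fun x _ => ?_
      show al x.1 * be x.2 = al x.1 * be (x.2 + x.1 - x.1)
      rw [Nat.add_sub_cancel]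
    · intro x _ y _ h
      have h2 : x.2 + x.1 = y.2 + y.1 := congrArg Sigma.fst h
      have h3 : x.1 = y.1 := eq_of_heq (Sigma.mk.inj h).2
      exact Prod.ext h3 (by omega)
  have h2 : ∑ m ∈ Finset.Icc 1 (N + K), be m =
      ∑ x ∈ (Finset.Icc 1 (N + K)).sigma (fun m => Finset.Icc 1 m), al x.2 * be (x.1 - x.2) := by
    rw [Finset.sum_sigma]
    exact Finset.sum_congr rfl fun m hm => hren m (Finset.mem_Icc.1 hm).1
  have h3 : ∑ m ∈ Finset.Icc 1 (N + K), be m ≤ ∑ n ∈ Finset.range (N + K + 1), be n := by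
    refine Finset.sum_le_sum_of_subset_of_nonneg (fun m hm => ?_) fun m _ _ => hbe m
    rw [Finset.mem_Icc] at hm
    rw [Finset.mem_range]
    omega
  refine le_trans ?_ h3
  rw [h1, h2]
  refine Finset.sum_le_sum_of_subset_of_nonneg (fun x hx => ?_)
    fun x _ _ => mul_nonneg (hal _) (hbe _)
  obtain ⟨y, hy, rfl⟩ := Finset.mem_image.1 hx
  rw [Finset.mem_product, Finset.mem_Icc, Finset.mem_range] at hy
  rw [Finset.mem_sigma, Finset.mem_Icc, Finset.mem_Icc]
  simp only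
  omega

/-- renewal sequences have mass at most one -/
theorem renewal (al be : ℕ → ℝ) (hal : ∀ k, 0 ≤ al k) (hbe : ∀ n, 0 ≤ be n)
    (hbe1 : ∀ n, be n ≤ 1) (h0 : be 0 = 1)
    (hren : ∀ n, 1 ≤ n → be n = ∑ k ∈ Finset.Icc 1 n, al k * be (n - k)) (K : ℕ) :
    ∑ k ∈ Finset.Icc 1 K, al k ≤ 1 := by
  by_contra hA
  push Not at hA
  set A := ∑ k ∈ Finset.Icc 1 K, al k with hAdef
  have hA0 : 0 ≤ A := by linarith
  have h1 : ∀ j : ℕ, A ^ j ≤ ∑ n ∈ Finset.range (j * K + 1), be n := by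
    intro j
    induction j with
    | zero => simp [h0]
    | succ j ih =>
      have h2 := step al be hal hbe hren K (j * K)
      rw [← hAdef] at h2
      rw [pow_succ, mul_comm, Nat.succ_mul]
      exact (mul_le_mul_of_nonneg_left ih hA0).trans h2
  have h2 : ∀ j : ℕ, A ^ j ≤ (j : ℝ) * K + 1 := by
    intro j
    refine (h1 j).trans ((Finset.sum_le_sum fun n _ => hbe1 n).trans ?_)
    rw [Finset.sum_const, Finset.card_range, nsmul_eq_mul, mul_one]
    push_cast
    exact le_rfl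
  have h3 := tendsto_pow_const_div_const_pow_of_one_lt 1 hA
  have h4 : (0 : ℝ) < 1 / (2 * ((K : ℝ) + 1)) := by positivity
  have h5 := (h3.eventually (gt_mem_nhds h4)).and (Filter.eventually_ge_atTop 1)
  obtain ⟨j, hj, hj1⟩ := h5.exists
  have hAj : (0 : ℝ) < A ^ j := pow_pos (by linarith) j
  rw [pow_one, div_lt_div_iff₀ hAj (by positivity), one_mul] at hj
  have h6 := h2 j
  have h7 : (1 : ℝ) ≤ j := by exact_mod_cast hj1
  have h8 : (0 : ℝ) ≤ K := Nat.cast_nonneg K
  nlinarith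

end MLE_

/-- MLE -/
theorem p_MLE : T_REN → T_PSUP → T_SMUL → T_MLE := by
  intro hREN hPSUP hSMUL D K t
  set P := PP D t with hP
  refine MLE_.renewal (fun k => aS D k t * Real.exp (-(P * k)))
    (fun n => bS D n t * Real.exp (-(P * n))) (fun k => ?_) (fun n => ?_) (fun n => ?_) ?_ ?_ K
  · exact mul_nonneg (Finset.sum_nonneg fun _ _ => (Real.exp_pos _).le) (Real.exp_pos _).le
  · exact mul_nonneg (Finset.sum_nonneg fun _ _ => (Real.exp_pos _).le) (Real.exp_pos _).le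
  · have h1 := (hPSUP D t).1 n
    rw [← hP] at h1
    calc bS D n t * Real.exp (-(P * n)) ≤ Real.exp (P * n) * Real.exp (-(P * n)) :=
          mul_le_mul_of_nonneg_right h1 (Real.exp_pos _).le
      _ = 1 := by rw [← Real.exp_add, add_neg_cancel, Real.exp_zero]
  · show bS D 0 t * Real.exp (-(P * ((0 : ℕ) : ℝ))) = 1
    rw [(hSMUL D 0 0 t).2.1, Nat.cast_zero, mul_zero, neg_zero, Real.exp_zero, mul_one]
  · intro n hn
    show bS D n t * Real.exp (-(P * n)) = ∑ k ∈ Finset.Icc 1 n,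
      aS D k t * Real.exp (-(P * k)) * (bS D (n - k) t * Real.exp (-(P * ((n - k : ℕ) : ℝ))))
    rw [hREN D n t hn, Finset.sum_mul]
    refine Finset.sum_congr rfl fun k hk => ?_
    rw [Nat.cast_sub (Finset.mem_Icc.1 hk).2]
    have h2 : -(P * (n : ℝ)) = -(P * k) + -(P * ((n : ℝ) - k)) := by ring
    rw [h2, Real.exp_add]
    ring

end Pool.Agent.SBW
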