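import Pool.Agent.SBW.Targets

set_option autoImplicit false

/-!
# MP_b5172a_pr, target MOM: first moments of the law of irreducible bridges
-/

open scoped Classical

noncomputable section

namespace Pool.Agent.SBW

namespace MOM_

variable {D : ℕ}

theorem pw_nonneg (t : ℝ) (w : Wk D) : 0 ≤ pw D t w := (Real.exp_pos _).le

theorem hx_bounds {w : Wk D} (h : Irr w) : 0 ≤ (hx w : ℝ) ∧ (hx w : ℝ) ≤ (w.length : ℝ) ∧
    (1 : ℝ) ≤ (w.length : ℝ) := by
  have h1 := (h.1.2 w.length h.2.1 le_rfl).1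
  have h2 : 0 ≤ hx w := h1.le
  have h3 := abs_hx_le w
  have h4 : hx w ≤ (w.length : ℤ) := (le_abs_self _).trans h3
  refine ⟨by exact_mod_cast h2, by exact_mod_cast h4, ?_⟩
  exact_mod_cast h.2.1

theorem sum_IrLe (K : ℕ) (f : Wk D → ℝ) :
    ∑ w ∈ IrLe D K, f w = ∑ m ∈ Finset.range (K + 1), ∑ w ∈ IrF D m, f w := by
  unfold IrLe
  rw [Finset.sum_biUnion]
  intro a _ b _ hab
  rw [Function.onFun, Finset.disjoint_left]
  intro w h1 h2
  exact hab ((mem_IrF.1 h1).1.symm.trans (mem_IrF.1 h2).1)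

theorem telescope (K : ℕ) :
    ∑ m ∈ Finset.range (K + 1), 1 / ((m : ℝ) * ((m : ℝ) + 1)) ≤ 1 - 1 / ((K : ℝ) + 1) := by
  induction K with
  | zero => simp
  | succ K ih =>
    rw [Finset.sum_range_succ]
    have h1 : (0 : ℝ) < (K : ℝ) + 1 := by positivity
    have h2 : (0 : ℝ) < (K : ℝ) + 1 + 1 := by positivity
    have h3 : 1 / (((K + 1 : ℕ) : ℝ) * (((K + 1 : ℕ) : ℝ) + 1)) =
        1 / ((K : ℝ) + 1) - 1 / ((K : ℝ) + 1 + 1) := by
      push_cast
      field_simp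
      ring
    rw [h3]
    push_cast
    linarith

/-- the tail estimate -/
theorem tail_term (t1 : ℝ) (m : ℕ) (h0 : 0 < t1) (h1 : t1 ≤ 1 / 100) (hm : 1 < t1 ^ 10 * (m : ℝ)) :
    (m : ℝ) * (8 * Real.exp (-(t1 ^ 8 * m))) ≤ t1 / 400 * (1 / ((m : ℝ) * ((m : ℝ) + 1))) := by
  set u : ℝ := t1 ^ 8 * m with hu
  have hm0 : (0 : ℝ) < m := by
    by_contra hcon
    push Not at hcon
    have : t1 ^ 10 * (m : ℝ) ≤ 0 := mul_nonpos_of_nonneg_of_nonpos (by positivity) hcon
    linarith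
  have hm1 : (1 : ℝ) ≤ m := by
    have : 0 < m := by exact_mod_cast hm0
    exact_mod_cast this
  have hu0 : 0 < u := by positivity
  -- u t1 ^ 2 > 1
  have hut : 1 < u * t1 ^ 2 := by
    have : u * t1 ^ 2 = t1 ^ 10 * m := by rw [hu]; ring
    rw [this]; exact hm
  have hu4 : (10 : ℝ) ^ 4 ≤ u := by
    have h2 : t1 ^ 2 ≤ (1 / 100) ^ 2 := pow_le_pow_left₀ h0.le h1 2
    have h3 : u * t1 ^ 2 ≤ u * (1 / 100) ^ 2 := mul_le_mul_of_nonneg_left h2 hu0.le
    nlinarith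
  -- m ≤ u ^ 5
  have hmu : (m : ℝ) ≤ u ^ 5 := by
    have h2 : u ^ 5 = m * (t1 ^ 10 * m) ^ 4 := by rw [hu]; ring
    rw [h2]
    have h3 : 1 ≤ (t1 ^ 10 * (m : ℝ)) ^ 4 := one_le_pow₀ hm.le
    nlinarith
  -- 1 ≤ u * t1
  have hut1 : 1 ≤ u * t1 := by
    have h2 : u * t1 ^ 2 ≤ u * t1 := by
      apply mul_le_mul_of_nonneg_left _ hu0.le
      nlinarith
    linarith
  have hexp : 6400 * u ^ 16 ≤ Real.exp u := by
    have h2 := Real.pow_div_factorial_le_exp u hu0.le 24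
    have h3 : 6400 * u ^ 16 ≤ u ^ 24 / (Nat.factorial 24 : ℝ) := by
      rw [le_div_iff₀ (by positivity)]
      have h4 : ((10 : ℝ) ^ 4) ^ 8 ≤ u ^ 8 := pow_le_pow_left₀ (by norm_num) hu4 8
      have h5 : (Nat.factorial 24 : ℝ) = 620448401733239439360000 := by
        norm_num [Nat.factorial]
      rw [h5]
      have h6 : 6400 * u ^ 16 * 620448401733239439360000 ≤ u ^ 16 * (((10 : ℝ) ^ 4) ^ 8) := by
        have h7 : 0 ≤ u ^ 16 := by positivity
        nlinarith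
      calc 6400 * u ^ 16 * 620448401733239439360000 ≤ u ^ 16 * (((10 : ℝ) ^ 4) ^ 8) := h6
        _ ≤ u ^ 16 * u ^ 8 := mul_le_mul_of_nonneg_left h4 (by positivity)
        _ = u ^ 24 := by ring
    exact h3.trans h2
  have hmain : 3200 * ((m : ℝ) ^ 2 * ((m : ℝ) + 1)) ≤ t1 * Real.exp u := by
    have h2 : (m : ℝ) ^ 2 * ((m : ℝ) + 1) ≤ (u ^ 5) ^ 2 * (2 * u ^ 5) := by
      apply mul_le_mul (pow_le_pow_left₀ hm0.le hmu 2) (by linarith) (by positivity) (by positivity)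
    have h3 : 3200 * ((u ^ 5) ^ 2 * (2 * u ^ 5)) ≤ (u * t1) * (3200 * ((u ^ 5) ^ 2 * (2 * u ^ 5))) := by
      have : 0 ≤ 3200 * ((u ^ 5) ^ 2 * (2 * u ^ 5)) := by positivity
      nlinarith
    have h4 : (u * t1) * (3200 * ((u ^ 5) ^ 2 * (2 * u ^ 5))) = t1 * (6400 * u ^ 16) := by ring
    have h5 : t1 * (6400 * u ^ 16) ≤ t1 * Real.exp u := mul_le_mul_of_nonneg_left hexp h0.le
    linarith
  rw [Real.exp_neg, mul_one_div, le_div_iff₀ (by positivity)]
  have hE : 0 < Real.exp u := Real.exp_pos u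
  have h6 : (m : ℝ) * (8 * (Real.exp u)⁻¹) * ((m : ℝ) * ((m : ℝ) + 1)) =
      (8 * ((m : ℝ) ^ 2 * ((m : ℝ) + 1))) / Real.exp u := by
    field_simp
  rw [h6, div_le_iff₀ hE]
  linarith

end MOM_

open MOM_ in
theorem p_MOM : T_MASS → T_TILT → T_NSL → T_VMON → T_MOM := by
  intro hMASS hTILT hNSL hVM D t0 t1 ε h0 h1 h2 h3 h4 hε
  set v : ℝ := vv D t0 with hv
  have ht1 : 0 < t1 := by linarith
  have hv0 : 0 < v := lt_of_lt_of_le ht1 h3
  have hvm := hVM D t0 h0
  obtain ⟨hP0, _, hv1, _⟩ := hvm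
  obtain ⟨hP2, _, _, hmon2⟩ := hVM D (2 * t0) (by linarith)
  obtain ⟨hP1, _, _, _⟩ := hVM D t1 ht1
  have hv2 : v ≤ vv D (2 * t0) := hmon2 t0 h0 (by linarith)
  set e : ℝ := min ε (min (1 / 2) (t0 * v / 400)) with he
  have he0 : 0 < e := lt_min hε (lt_min (by norm_num) (by positivity))
  have he1 : e ≤ ε := min_le_left _ _
  have he2 : e ≤ 1 / 2 := (min_le_right _ _).trans (min_le_left _ _)
  have he3 : e ≤ t0 * v / 400 := (min_le_right _ _).trans (min_le_right _ _)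
  obtain ⟨hM1, hM2⟩ := hMASS D t0 t1 h0 h1 h2 h3 h4
  obtain ⟨K, hK⟩ := hM2 e he0
  refine ⟨K, by linarith, hM1 K, ?_⟩
  have hirr : ∀ w ∈ IrLe D K, Irr w := fun w hw => (mem_IrLe.1 hw).2
  set L : ℝ := ∑ w ∈ IrLe D K, pw D (2 * t0) w * (w.length : ℝ) with hL
  set E : ℝ := ∑ w ∈ IrLe D K, pw D (2 * t0) w * (hx w : ℝ) with hE
  set M : ℝ := ∑ w ∈ (IrLe D K).filter (fun w => t1 ^ 10 * (w.length : ℝ) ≤ 1),
      pw D (2 * t0) w * (hx w : ℝ) with hMdef
  have hL1 : 1 / 2 ≤ L := by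
    have h5 : ∑ w ∈ IrLe D K, pw D (2 * t0) w ≤ L := by
      apply Finset.sum_le_sum
      intro w hw
      have h6 := hx_bounds (hirr w hw)
      have h7 := pw_nonneg (D := D) (2 * t0) w
      nlinarith [h6.2.2]
    linarith
  -- (i)
  have hi : v * L - v / 400 ≤ E := by
    have h5 := hTILT D K (2 * t0) t0 e hK
    rw [← hL, ← hE] at h5
    have h6 : t0 * v ≤ PP D (2 * t0) - PP D t0 := by
      rw [hP2, hP0]
      nlinarith
    have h7 : t0 * v * L ≤ (PP D (2 * t0) - PP D t0) * L :=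
      mul_le_mul_of_nonneg_right h6 (by linarith)
    have h8 : t0 * (v * L) ≤ t0 * (E + v / 400) := by nlinarith
    have h9 := le_of_mul_le_mul_left h8 h0
    linarith
  -- (ii)
  have hii : E ≤ 2 * v * L := by
    have h5 := hTILT D K (2 * t0) t1 e hK
    rw [← hL, ← hE] at h5
    have h6 : PP D t1 - PP D (2 * t0) ≤ v * (53 / 50 * (t1 - 2 * t0)) := by
      rw [hP1, hP2]
      have h7 : t1 * vv D t1 ≤ t1 * (21 / 20 * v) := mul_le_mul_of_nonneg_left h4 ht1.le
      have h8 : 2 * t0 * v ≤ 2 * t0 * vv D (2 * t0) := mul_le_mul_of_nonneg_left hv2 (by linarith)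
      have h9 : v * (21 / 20 * t1 - 2 * t0) ≤ v * (53 / 50 * (t1 - 2 * t0)) := by
        apply mul_le_mul_of_nonneg_left _ hv0.le
        linarith
      nlinarith
    have h7 : (PP D t1 - PP D (2 * t0)) * L ≤ v * (53 / 50 * (t1 - 2 * t0)) * L :=
      mul_le_mul_of_nonneg_right h6 (by linarith)
    have h8 : e ≤ (t1 - 2 * t0) * (v / 100) := by
      have : t0 * v / 400 ≤ (t1 - 2 * t0) * (v / 100) := by nlinarith
      linarith
    have h9 : (t1 - 2 * t0) * E ≤ (t1 - 2 * t0) * (53 / 50 * (v * L) + v / 100) := by nlinarith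
    have h10 := le_of_mul_le_mul_left h9 (by linarith)
    have h11 : v / 100 ≤ v * L / 50 := by nlinarith
    nlinarith
  -- the tail
  set R : ℝ := ∑ w ∈ IrLe D K, (if 19 / 20 * v * (w.length : ℝ) ≤ (hx w : ℝ) ∧
      1 < t1 ^ 10 * (w.length : ℝ) then pw D (2 * t0) w * (hx w : ℝ) else 0) with hR
  have hRle : R ≤ v / 400 := by
    rw [hR, sum_IrLe]
    have h5 : ∀ m ∈ Finset.range (K + 1), ∑ w ∈ IrF D m,
        (if 19 / 20 * v * (w.length : ℝ) ≤ (hx w : ℝ) ∧
          1 < t1 ^ 10 * (w.length : ℝ) then pw D (2 * t0) w * (hx w : ℝ) else 0) ≤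
        t1 / 400 * (1 / ((m : ℝ) * ((m : ℝ) + 1))) := by
      intro m _
      by_cases hm : 1 < t1 ^ 10 * (m : ℝ)
      · have h6 : ∑ w ∈ IrF D m,
            (if 19 / 20 * v * (w.length : ℝ) ≤ (hx w : ℝ) ∧
              1 < t1 ^ 10 * (w.length : ℝ) then pw D (2 * t0) w * (hx w : ℝ) else 0) ≤
            ∑ w ∈ (IrF D m).filter (fun w => 19 / 20 * v * m ≤ (hx w : ℝ)),
              (m : ℝ) * pw D (2 * t0) w := by
          rw [Finset.sum_filter]
          apply Finset.sum_le_sum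
          intro w hw
          have hw1 := (mem_IrF.1 hw).1
          have hw2 := hx_bounds (mem_IrF.1 hw).2
          rw [hw1] at hw2 ⊢
          have hp := pw_nonneg (D := D) (2 * t0) w
          by_cases hc : 19 / 20 * v * (m : ℝ) ≤ (hx w : ℝ)
          · rw [if_pos ⟨hc, hm⟩, if_pos hc]
            nlinarith [hw2.2.1]
          · rw [if_neg (fun h => hc h.1), if_neg hc]
        rw [← Finset.mul_sum] at h6
        have hm0 : (0 : ℝ) ≤ m := Nat.cast_nonneg m
        have h7 : 4 ≤ v * m := by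
          have h8 : t1 ^ 10 * (m : ℝ) ≤ t1 * m * (1 / 100) ^ 9 := by
            have h9 : t1 ^ 9 ≤ (1 / 100) ^ 9 := pow_le_pow_left₀ ht1.le h2 9
            have h10 : t1 ^ 10 * (m : ℝ) = t1 * m * t1 ^ 9 := by ring
            rw [h10]
            exact mul_le_mul_of_nonneg_left h9 (by positivity)
          have h9 : t1 * m ≤ v * m := mul_le_mul_of_nonneg_right h3 hm0
          nlinarith
        have h8 := hNSL D m t0 t1 h0 h1 h2 h3 h4 h7
        rw [← hv] at h8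
        have h9 : (m : ℝ) * ∑ w ∈ (IrF D m).filter (fun w => 19 / 20 * v * m ≤ (hx w : ℝ)),
            pw D (2 * t0) w ≤ (m : ℝ) * (8 * Real.exp (-(t1 ^ 8 * m))) :=
          mul_le_mul_of_nonneg_left h8 hm0
        exact h6.trans (h9.trans (tail_term t1 m ht1 h2 hm))
      · have h6 : ∑ w ∈ IrF D m,
            (if 19 / 20 * v * (w.length : ℝ) ≤ (hx w : ℝ) ∧
              1 < t1 ^ 10 * (w.length : ℝ) then pw D (2 * t0) w * (hx w : ℝ) else 0) = 0 := by
          apply Finset.sum_eq_zero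
          intro w hw
          have hw1 := (mem_IrF.1 hw).1
          rw [hw1, if_neg (fun h => hm h.2)]
        rw [h6]
        positivity
    refine (Finset.sum_le_sum h5).trans ?_
    rw [← Finset.mul_sum]
    have h6 := telescope K
    have h7 : (0 : ℝ) ≤ 1 / ((K : ℝ) + 1) := by positivity
    have h8 : t1 / 400 * ∑ m ∈ Finset.range (K + 1), 1 / ((m : ℝ) * ((m : ℝ) + 1)) ≤
        t1 / 400 * 1 := mul_le_mul_of_nonneg_left (by linarith) (by positivity)
    linarith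
  have hsplit : E ≤ 19 / 20 * v * L + M + R := by
    rw [hMdef, Finset.sum_filter, hL, hR, hE, Finset.mul_sum, ← Finset.sum_add_distrib,
      ← Finset.sum_add_distrib]
    apply Finset.sum_le_sum
    intro w hw
    have hw2 := hx_bounds (hirr w hw)
    have hp := pw_nonneg (D := D) (2 * t0) w
    have hph : 0 ≤ pw D (2 * t0) w * (hx w : ℝ) := mul_nonneg hp hw2.1
    have hpl : 0 ≤ 19 / 20 * v * (pw D (2 * t0) w * (w.length : ℝ)) := by positivity
    by_cases ha : t1 ^ 10 * (w.length : ℝ) ≤ 1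
    · rw [if_pos ha, if_neg (fun h => absurd h.2 (not_lt.2 ha))]
      linarith
    · rw [if_neg ha]
      push Not at ha
      by_cases hb : 19 / 20 * v * (w.length : ℝ) ≤ (hx w : ℝ)
      · rw [if_pos ⟨hb, ha⟩]
        linarith
      · rw [if_neg (fun h => hb h.1)]
        push Not at hb
        have : pw D (2 * t0) w * (hx w : ℝ) ≤ pw D (2 * t0) w * (19 / 20 * v * (w.length : ℝ)) :=
          mul_le_mul_of_nonneg_left hb.le hp
        linarith
  have hiii : v / 40 * L ≤ M := by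
    have h5 : v / 200 ≤ v * L / 100 := by nlinarith
    nlinarith
  have hMle : t1 ^ 10 * M ≤ 1 := by
    have h5 : t1 ^ 10 * M ≤ ∑ w ∈ IrLe D K, pw D (2 * t0) w := by
      rw [hMdef, Finset.mul_sum]
      refine (Finset.sum_le_sum ?_).trans
        (Finset.sum_le_sum_of_subset_of_nonneg (Finset.filter_subset _ _)
          (fun w _ _ => pw_nonneg (D := D) (2 * t0) w))
      intro w hw
      rw [Finset.mem_filter] at hw
      have hw2 := hx_bounds (hirr w hw.1)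
      have hp := pw_nonneg (D := D) (2 * t0) w
      have h6 : t1 ^ 10 * (hx w : ℝ) ≤ 1 :=
        (mul_le_mul_of_nonneg_left hw2.2.1 (by positivity)).trans hw.2
      calc t1 ^ 10 * (pw D (2 * t0) w * (hx w : ℝ)) = pw D (2 * t0) w * (t1 ^ 10 * (hx w : ℝ)) := by
            ring
        _ ≤ pw D (2 * t0) w * 1 := mul_le_mul_of_nonneg_left h6 hp
        _ = pw D (2 * t0) w := mul_one _
    exact h5.trans (hM1 K)
  refine ⟨hL1, ?_, hii, hiii⟩
  have hL0 : 0 ≤ L := by linarith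
  have h5 : t1 ^ 10 * (v / 40 * L) ≤ 1 :=
    (mul_le_mul_of_nonneg_left hiii (by positivity)).trans hMle
  have h6 : t1 ^ 11 * L ≤ 40 := by
    have h7 : t1 ^ 11 * L ≤ t1 ^ 10 * v * L := by
      apply mul_le_mul_of_nonneg_right _ hL0
      calc t1 ^ 11 = t1 ^ 10 * t1 := by ring
        _ ≤ t1 ^ 10 * v := mul_le_mul_of_nonneg_left h3 (by positivity)
    nlinarith
  calc t1 ^ 12 * L = t1 * (t1 ^ 11 * L) := by ring
    _ ≤ t1 * 40 := mul_le_mul_of_nonneg_left h6 ht1.le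
    _ ≤ 1 := by linarith

end Pool.Agent.SBW
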