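import Pool.Agent.SBW.Targets

set_option autoImplicit false

/-!
# MP_b5172a_pr: target MSD, the mean square displacement
-/

open scoped Classical

noncomputable section

namespace Pool.Agent.SBW

namespace MSD_

variable {D : ℕ}

/-- growth conditions hold for large arguments -/
theorem ev_cond (K : ℝ) : ∃ x₀ : ℝ, 2 ≤ x₀ ∧ ∀ x : ℝ, x₀ ≤ x →
    Real.log (x ^ 20 + 2) ≤ x ∧ 8 + K ≤ x ^ 2 := by
  refine ⟨1764 + |8 + K|, by linarith [abs_nonneg (8 + K)], ?_⟩
  intro x hx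
  have hx1 : (1764 : ℝ) ≤ x := by linarith [abs_nonneg (8 + K)]
  have hx0 : (0 : ℝ) < x := by linarith
  constructor
  · have h1 : x ^ 20 + 2 ≤ x ^ 21 := by
      have h2 : (1 : ℝ) ≤ x ^ 20 := one_le_pow₀ (by linarith)
      have h3 : x ^ 21 = x ^ 20 * x := by ring
      rw [h3]
      nlinarith
    have h4 : Real.log (x ^ 20 + 2) ≤ 21 * Real.log x := by
      have := Real.log_le_log (by positivity) h1
      rw [Real.log_pow] at this
      exact_mod_cast this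
    have h5 : Real.log x = 2 * Real.log (√x) := by
      rw [Real.log_sqrt hx0.le]; ring
    have h6 : Real.log (√x) ≤ √x - 1 := Real.log_le_sub_one_of_pos (Real.sqrt_pos.2 hx0)
    have h7 : √x * √x = x := Real.mul_self_sqrt hx0.le
    have h8 : (42 : ℝ) ≤ √x := by
      apply Real.le_sqrt_of_sq_le
      linarith
    nlinarith
  · have h1 : 8 + K ≤ x := by linarith [le_abs_self (8 + K)]
    nlinarith

/-- the numerical estimate in the tail bound -/
theorem tail_num (K x : ℝ) (n : ℕ) (hn : 1 ≤ n) (hx : x ^ 20 = n) (hx2 : 2 ≤ x)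
    (h1 : Real.log (x ^ 20 + 2) ≤ x) (h2 : 8 + K ≤ x ^ 2) (hK : 0 ≤ K) :
    ((n : ℝ) + 2) ^ (2 * Nat.sqrt (2 * n + 2) + 3) * Real.exp K * Real.exp (-x ^ 13) * n ≤ 1 := by
  have hn0 : (0 : ℝ) < n := by exact_mod_cast hn
  have hx0 : (0 : ℝ) < x := by linarith
  have hx1 : (1 : ℝ) ≤ x := by linarith
  have hs : (Nat.sqrt (2 * n + 2) : ℝ) ≤ 2 * x ^ 10 := by
    have h3 : Nat.sqrt (2 * n + 2) ^ 2 ≤ 2 * n + 2 := Nat.sqrt_le' _
    have h4 : ((Nat.sqrt (2 * n + 2) : ℕ) : ℝ) ^ 2 ≤ 2 * (n : ℝ) + 2 := by exact_mod_cast h3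
    have h5 : ((Nat.sqrt (2 * n + 2) : ℕ) : ℝ) ^ 2 ≤ (2 * x ^ 10) ^ 2 := by
      have h6 : (1 : ℝ) ≤ n := by exact_mod_cast hn
      have h7 : (2 * x ^ 10) ^ 2 = 4 * x ^ 20 := by ring
      rw [h7, hx]
      linarith
    exact (pow_le_pow_iff_left₀ (by positivity) (by positivity) (by norm_num)).1 h5
  have hl2 : Real.log ((n : ℝ) + 2) ≤ x := by rw [← hx]; exact h1
  have hl1 : Real.log (n : ℝ) ≤ x := (Real.log_le_log hn0 (by linarith)).trans hl2
  have hl0 : 0 ≤ Real.log ((n : ℝ) + 2) := Real.log_nonneg (by linarith)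
  have e1 : ((n : ℝ) + 2) ^ (2 * Nat.sqrt (2 * n + 2) + 3) =
      Real.exp (((2 * (Nat.sqrt (2 * n + 2) : ℝ) + 3)) * Real.log ((n : ℝ) + 2)) := by
    have h3 : ((2 * (Nat.sqrt (2 * n + 2) : ℝ) + 3)) =
        ((2 * Nat.sqrt (2 * n + 2) + 3 : ℕ) : ℝ) := by push_cast; ring
    rw [h3, Real.exp_nat_mul, Real.exp_log (by linarith)]
  have e2 : (n : ℝ) = Real.exp (Real.log n) := (Real.exp_log hn0).symm
  have key : (2 * (Nat.sqrt (2 * n + 2) : ℝ) + 3) * Real.log ((n : ℝ) + 2) + K + (-x ^ 13) +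
      Real.log n ≤ 0 := by
    have h3 : (2 * (Nat.sqrt (2 * n + 2) : ℝ) + 3) * Real.log ((n : ℝ) + 2) ≤
        (4 * x ^ 10 + 3) * x := by
      apply mul_le_mul _ hl2 hl0 (by positivity)
      linarith
    have h4 : x ≤ x ^ 11 := le_self_pow₀ hx1 (by norm_num)
    have h5 : (1 : ℝ) ≤ x ^ 11 := one_le_pow₀ hx1
    have h6 : (8 + K) * x ^ 11 ≤ x ^ 13 := by
      have := mul_le_mul_of_nonneg_right h2 (by positivity : (0 : ℝ) ≤ x ^ 11)
      calc _ ≤ x ^ 2 * x ^ 11 := this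
        _ = x ^ 13 := by ring
    have h7 : K ≤ K * x ^ 11 := le_mul_of_one_le_right hK h5
    have h8 : (4 * x ^ 10 + 3) * x = 4 * x ^ 11 + 3 * x := by ring
    rw [h8] at h3
    nlinarith
  calc ((n : ℝ) + 2) ^ (2 * Nat.sqrt (2 * n + 2) + 3) * Real.exp K * Real.exp (-x ^ 13) * n
      = Real.exp ((2 * (Nat.sqrt (2 * n + 2) : ℝ) + 3) * Real.log ((n : ℝ) + 2) + K + (-x ^ 13) +
        Real.log n) := by
        rw [Real.exp_add, Real.exp_add, Real.exp_add, ← e1, ← e2]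
    _ ≤ 1 := Real.exp_le_one_iff.2 key

/-- trivial bound -/
theorem pos_sq_le (n : ℕ) (w : Wk D) (j : Fin (D + 2)) :
    (pos w n j : ℝ) ^ 2 ≤ (n : ℝ) ^ 2 := by
  have h := abs_pos_le w n j
  have h2 : |(pos w n j : ℝ)| ≤ |(n : ℝ)| := by
    rw [Nat.abs_cast]
    exact_mod_cast h
  exact sq_le_sq.2 h2

/-- splitting of the second moment -/
theorem sum_sq_le (n : ℕ) (h : ℝ) (hh : 0 ≤ h) (j : Fin (D + 2)) :
    ∑ w ∈ SwF D n, (pos w n j : ℝ) ^ 2 ≤ h ^ 2 * ((SwF D n).card : ℝ) +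
      (n : ℝ) ^ 2 * (((SwF D n).filter (fun w => h ≤ |(pos w n j : ℝ)|)).card : ℝ) := by
  have h1 : ∀ w ∈ SwF D n, (pos w n j : ℝ) ^ 2 ≤
      h ^ 2 + (if h ≤ |(pos w n j : ℝ)| then (n : ℝ) ^ 2 else 0) := by
    intro w _
    by_cases hc : h ≤ |(pos w n j : ℝ)|
    · rw [if_pos hc]
      have := pos_sq_le n w j
      nlinarith [sq_nonneg h]
    · rw [if_neg hc, add_zero]
      rw [not_le] at hc
      apply sq_le_sq.2
      rw [abs_of_nonneg hh]
      exact hc.le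
  refine (Finset.sum_le_sum h1).trans (le_of_eq ?_)
  rw [Finset.sum_add_distrib, Finset.sum_const, ← Finset.sum_filter, Finset.sum_const,
    nsmul_eq_mul, nsmul_eq_mul]
  ring

end MSD_

open MSD_ in
/-- MSD -/
theorem p_MSD : T_TAIL → T_RATE → T_PMON → T_VMON → T_MSD := by
  intro hT hR hPM hVM D
  obtain ⟨c, hc, C₀, hC₀, hrate⟩ := hR D
  have hDpos : (1 : ℝ) ≤ 2 * ((D : ℝ) + 2) := by
    have : (0 : ℝ) ≤ D := Nat.cast_nonneg D
    linarith
  set K : ℝ := Real.log 2 + Real.log (2 * ((D : ℝ) + 2)) + 1 with hKdef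
  have hK0 : 0 ≤ K := by
    have h1 : 0 ≤ Real.log 2 := Real.log_nonneg (by norm_num)
    have h2 : 0 ≤ Real.log (2 * ((D : ℝ) + 2)) := Real.log_nonneg hDpos
    linarith
  obtain ⟨x₀, hx₀, hcond⟩ := ev_cond K
  have hx₀0 : (0 : ℝ) < x₀ := by linarith
  -- the threshold
  set L : ℝ := Real.log (x₀ ^ 20) with hL
  have hLpos : 0 < L := by
    rw [hL]
    apply Real.log_pos
    exact one_lt_pow₀ (by linarith) (by norm_num)
  set C : ℝ := ((D : ℝ) + 2) * (8 * (C₀ * 4 ^ c) + 3 * (5 * c) ^ c + L ^ c) with hC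
  have hD2 : (0 : ℝ) < (D : ℝ) + 2 := by linarith
  have hCpos : 0 < C := by positivity
  refine ⟨c, hc, C, hCpos, ?_⟩
  intro n hn
  have hn1 : 1 ≤ n := by omega
  have hn0 : (0 : ℝ) < n := by exact_mod_cast hn1
  have hn2 : (2 : ℝ) ≤ n := by exact_mod_cast hn
  have hlogn : 0 < Real.log n := Real.log_pos (by linarith)
  have hlogc : 0 < Real.log n ^ c := Real.rpow_pos_of_pos hlogn c
  have hcard : (0 : ℝ) ≤ ((SwF D n).card : ℝ) := Nat.cast_nonneg _
  rw [Finset.sum_comm]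
  have hjc : (∑ _j : Fin (D + 2), (1 : ℝ)) = (D : ℝ) + 2 := by
    simp
  by_cases hbig : x₀ ^ 20 ≤ (n : ℝ)
  · -- large n
    set x : ℝ := (n : ℝ) ^ (1 / 20 : ℝ) with hx
    have hx20 : x ^ 20 = (n : ℝ) := by
      rw [hx, ← Real.rpow_natCast, ← Real.rpow_mul hn0.le]
      norm_num
    have hx0 : 0 < x := Real.rpow_pos_of_pos hn0 _
    have hxx : x₀ ≤ x := by
      have : x₀ ^ 20 ≤ x ^ 20 := by rw [hx20]; exact hbig
      exact (pow_le_pow_iff_left₀ hx₀0.le hx0.le (by norm_num)).1 this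
    have hx2 : 2 ≤ x := hx₀.trans hxx
    have hx1 : 1 ≤ x := by linarith
    obtain ⟨hc1, hc2⟩ := hcond x hxx
    have hnum := tail_num K x n hn1 hx20 hx2 hc1 hc2 hK0
    set t : ℝ := (x ^ 5)⁻¹ with ht
    have ht0 : 0 < t := by positivity
    have hx5 : (2 : ℝ) ≤ x ^ 5 := hx2.trans (le_self_pow₀ hx1 (by norm_num))
    have ht2 : t ≤ 1 / 2 := by
      rw [ht, one_div]
      exact inv_anti₀ (by norm_num) hx5
    obtain ⟨hP1, hv0, hv1, -⟩ := hVM D t ht0
    obtain ⟨-, -, hP2, -⟩ := hPM D t ht0.le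
    have hvr := hrate t ht0 ht2
    set v : ℝ := vv D t with hv
    set h : ℝ := 2 * v * n + x ^ 18 with hh
    have hh0 : 0 ≤ h := by positivity
    -- tail
    have htail : ∀ j : Fin (D + 2),
        (((SwF D n).filter (fun w => h ≤ |(pos w n j : ℝ)|)).card : ℝ) ≤
          ((SwF D n).card : ℝ) / n := by
      intro j
      refine (hT D n h t j ht0).trans ?_
      rw [div_eq_inv_mul]
      apply mul_le_mul_of_nonneg_right _ hcard
      have e1 : t * v * n - t * h ≤ -x ^ 13 := by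
        have e2 : t * x ^ 18 = x ^ 13 := by
          rw [ht]
          field_simp
        have e3 : t * v * n - t * h = - (t * v * n) - t * x ^ 18 := by rw [hh]; ring
        rw [e3, e2]
        have : 0 ≤ t * v * n := by positivity
        linarith
      have e4 : 2 * Real.exp (PP D t) ≤ Real.exp K := by
        have e5 : (2 : ℝ) = Real.exp (Real.log 2) := (Real.exp_log (by norm_num)).symm
        calc 2 * Real.exp (PP D t) = Real.exp (Real.log 2 + PP D t) := by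
              rw [Real.exp_add, ← e5]
          _ ≤ Real.exp K := by
              apply Real.exp_le_exp.2
              rw [hKdef]
              linarith
      have e6 : ((n : ℝ))⁻¹ = 1 * ((n : ℝ))⁻¹ := by ring
      calc 2 * ((n : ℝ) + 2) ^ (2 * Nat.sqrt (2 * n + 2) + 3) * Real.exp (PP D t) *
            Real.exp (t * v * n - t * h)
          = ((n : ℝ) + 2) ^ (2 * Nat.sqrt (2 * n + 2) + 3) * (2 * Real.exp (PP D t)) *
            Real.exp (t * v * n - t * h) := by ring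
        _ ≤ ((n : ℝ) + 2) ^ (2 * Nat.sqrt (2 * n + 2) + 3) * Real.exp K *
            Real.exp (-x ^ 13) := by
            apply mul_le_mul _ (Real.exp_le_exp.2 e1) (Real.exp_pos _).le (by positivity)
            exact mul_le_mul_of_nonneg_left e4 (by positivity)
        _ = ((n : ℝ) + 2) ^ (2 * Nat.sqrt (2 * n + 2) + 3) * Real.exp K *
            Real.exp (-x ^ 13) * n * ((n : ℝ))⁻¹ := by
            field_simp
        _ ≤ 1 * ((n : ℝ))⁻¹ := mul_le_mul_of_nonneg_right hnum (by positivity)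
        _ = ((n : ℝ))⁻¹ := by ring
    -- bound for h^2 + n
    have hlogt : Real.log (1 / t) = Real.log n / 4 := by
      have e1 : 1 / t = x ^ 5 := by rw [ht]; field_simp
      rw [e1, Real.log_pow, ← hx20, Real.log_pow]
      push_cast
      ring
    have hv2 : v ≤ C₀ * 4 ^ c / Real.log n ^ c := by
      refine hvr.trans (le_of_eq ?_)
      rw [hlogt, Real.div_rpow hlogn.le (by norm_num)]
      field_simp
    have hlogx : Real.log n ^ c ≤ (5 * c) ^ c * x ^ 4 := by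
      have e1 : Real.log n ≤ (n : ℝ) ^ (1 / (5 * c)) / (1 / (5 * c)) :=
        Real.log_le_rpow_div hn0.le (by positivity)
      have e2 : (n : ℝ) ^ (1 / (5 * c)) / (1 / (5 * c)) = (5 * c) * (n : ℝ) ^ (1 / (5 * c)) := by
        field_simp
      rw [e2] at e1
      have e3 := Real.rpow_le_rpow hlogn.le e1 hc.le
      refine e3.trans (le_of_eq ?_)
      rw [Real.mul_rpow (by positivity) (by positivity), ← Real.rpow_mul hn0.le]
      congr 1
      have e4 : 1 / (5 * c) * c = (1 / 20 : ℝ) * (4 : ℕ) := by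
        push_cast
        field_simp
        norm_num
      rw [e4, Real.rpow_mul hn0.le, Real.rpow_natCast]
    have hx36 : x ^ 36 ≤ (5 * c) ^ c * ((n : ℝ) ^ 2 / Real.log n ^ c) := by
      rw [mul_div_assoc', le_div_iff₀ hlogc]
      have e1 : (n : ℝ) ^ 2 = x ^ 36 * x ^ 4 := by rw [← hx20]; ring
      rw [e1]
      calc x ^ 36 * Real.log n ^ c ≤ x ^ 36 * ((5 * c) ^ c * x ^ 4) :=
            mul_le_mul_of_nonneg_left hlogx (by positivity)
        _ = (5 * c) ^ c * (x ^ 36 * x ^ 4) := by ring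
    have hh2 : h ^ 2 + n ≤ (8 * (C₀ * 4 ^ c) + 3 * (5 * c) ^ c) *
        ((n : ℝ) ^ 2 / Real.log n ^ c) := by
      have e1 : h ^ 2 ≤ 8 * v * (n : ℝ) ^ 2 + 2 * x ^ 36 := by
        have e2 : h ^ 2 ≤ 2 * (2 * v * n) ^ 2 + 2 * (x ^ 18) ^ 2 := by
          rw [hh]
          nlinarith [sq_nonneg (2 * v * n - x ^ 18)]
        have e3 : v ^ 2 ≤ v := by nlinarith
        have e4 : v ^ 2 * (n : ℝ) ^ 2 ≤ v * (n : ℝ) ^ 2 :=
          mul_le_mul_of_nonneg_right e3 (by positivity)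
        have e5 : (x ^ 18) ^ 2 = x ^ 36 := by ring
        have e6 : 2 * (2 * v * n) ^ 2 = 8 * (v ^ 2 * (n : ℝ) ^ 2) := by ring
        rw [e5, e6] at e2
        nlinarith
      have e7 : (n : ℝ) ≤ x ^ 36 := by
        rw [← hx20]
        exact pow_le_pow_right₀ hx1 (by norm_num)
      have e8 : 8 * v * (n : ℝ) ^ 2 ≤ 8 * (C₀ * 4 ^ c) * ((n : ℝ) ^ 2 / Real.log n ^ c) := by
        have e9 := mul_le_mul_of_nonneg_right hv2 (by positivity : (0 : ℝ) ≤ 8 * (n : ℝ) ^ 2)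
        calc 8 * v * (n : ℝ) ^ 2 = v * (8 * (n : ℝ) ^ 2) := by ring
          _ ≤ C₀ * 4 ^ c / Real.log n ^ c * (8 * (n : ℝ) ^ 2) := e9
          _ = 8 * (C₀ * 4 ^ c) * ((n : ℝ) ^ 2 / Real.log n ^ c) := by ring
      calc h ^ 2 + n ≤ 8 * v * (n : ℝ) ^ 2 + 3 * x ^ 36 := by linarith
        _ ≤ 8 * (C₀ * 4 ^ c) * ((n : ℝ) ^ 2 / Real.log n ^ c) +
            3 * ((5 * c) ^ c * ((n : ℝ) ^ 2 / Real.log n ^ c)) := by linarith
        _ = _ := by ring
    -- assembly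
    have hj : ∀ j : Fin (D + 2), ∑ w ∈ SwF D n, (pos w n j : ℝ) ^ 2 ≤
        (h ^ 2 + n) * ((SwF D n).card : ℝ) := by
      intro j
      refine (sum_sq_le n h hh0 j).trans ?_
      have e1 := mul_le_mul_of_nonneg_left (htail j) (by positivity : (0 : ℝ) ≤ (n : ℝ) ^ 2)
      have e2 : (n : ℝ) ^ 2 * (((SwF D n).card : ℝ) / n) = n * ((SwF D n).card : ℝ) := by
        field_simp
      rw [e2] at e1
      nlinarith
    calc ∑ j, ∑ w ∈ SwF D n, (pos w n j : ℝ) ^ 2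
        ≤ ∑ _j : Fin (D + 2), (h ^ 2 + n) * ((SwF D n).card : ℝ) :=
          Finset.sum_le_sum (fun j _ => hj j)
      _ = ((D : ℝ) + 2) * ((h ^ 2 + n) * ((SwF D n).card : ℝ)) := by
          simp
      _ ≤ ((D : ℝ) + 2) * ((8 * (C₀ * 4 ^ c) + 3 * (5 * c) ^ c) *
            ((n : ℝ) ^ 2 / Real.log n ^ c) * ((SwF D n).card : ℝ)) := by
          apply mul_le_mul_of_nonneg_left _ hD2.le
          exact mul_le_mul_of_nonneg_right hh2 hcard
      _ ≤ C * (n : ℝ) ^ 2 / Real.log n ^ c * ((SwF D n).card : ℝ) := by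
          have e1 : 0 ≤ ((D : ℝ) + 2) * (L ^ c) * ((n : ℝ) ^ 2 / Real.log n ^ c *
            ((SwF D n).card : ℝ)) := by positivity
          have e2 : C * (n : ℝ) ^ 2 / Real.log n ^ c * ((SwF D n).card : ℝ) =
              ((D : ℝ) + 2) * ((8 * (C₀ * 4 ^ c) + 3 * (5 * c) ^ c) *
            ((n : ℝ) ^ 2 / Real.log n ^ c) * ((SwF D n).card : ℝ)) +
              ((D : ℝ) + 2) * (L ^ c) * ((n : ℝ) ^ 2 / Real.log n ^ c *
            ((SwF D n).card : ℝ)) := by rw [hC]; ring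
          rw [e2]
          linarith
  · -- small n
    rw [not_le] at hbig
    have hlog : Real.log n ^ c ≤ L ^ c := by
      apply Real.rpow_le_rpow hlogn.le _ hc.le
      exact Real.log_le_log hn0 hbig.le
    have hone : (1 : ℝ) ≤ L ^ c / Real.log n ^ c := by
      rw [le_div_iff₀ hlogc, one_mul]
      exact hlog
    have hj : ∀ j : Fin (D + 2), ∑ w ∈ SwF D n, (pos w n j : ℝ) ^ 2 ≤
        (n : ℝ) ^ 2 * ((SwF D n).card : ℝ) := by
      intro j
      refine (Finset.sum_le_sum (fun w _ => pos_sq_le n w j)).trans (le_of_eq ?_)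
      rw [Finset.sum_const, nsmul_eq_mul]
      ring
    calc ∑ j, ∑ w ∈ SwF D n, (pos w n j : ℝ) ^ 2
        ≤ ∑ _j : Fin (D + 2), (n : ℝ) ^ 2 * ((SwF D n).card : ℝ) :=
          Finset.sum_le_sum (fun j _ => hj j)
      _ = ((D : ℝ) + 2) * ((n : ℝ) ^ 2 * ((SwF D n).card : ℝ)) * 1 := by
          simp
      _ ≤ ((D : ℝ) + 2) * ((n : ℝ) ^ 2 * ((SwF D n).card : ℝ)) * (L ^ c / Real.log n ^ c) :=
          mul_le_mul_of_nonneg_left hone (by positivity)
      _ ≤ C * (n : ℝ) ^ 2 / Real.log n ^ c * ((SwF D n).card : ℝ) := by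
          have e1 : 0 ≤ ((D : ℝ) + 2) * (8 * (C₀ * 4 ^ c) + 3 * (5 * c) ^ c) *
            ((n : ℝ) ^ 2 / Real.log n ^ c * ((SwF D n).card : ℝ)) := by positivity
          have e2 : C * (n : ℝ) ^ 2 / Real.log n ^ c * ((SwF D n).card : ℝ) =
              ((D : ℝ) + 2) * (8 * (C₀ * 4 ^ c) + 3 * (5 * c) ^ c) *
            ((n : ℝ) ^ 2 / Real.log n ^ c * ((SwF D n).card : ℝ)) +
              ((D : ℝ) + 2) * ((n : ℝ) ^ 2 * ((SwF D n).card : ℝ)) *
                (L ^ c / Real.log n ^ c) := by rw [hC]; ring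
          rw [e2]
          linarith

end Pool.Agent.SBW
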