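import Pool.Agent.SBW.Targets

set_option autoImplicit false

/-!
# SBW: the maximum of four exchangeable symmetric segments (N96)
-/

open scoped Classical

noncomputable section

namespace Pool.Agent.SBW

/-- a symmetric quantity is below its midpoint with weight at least one half -/
private lemma N96_half {β : Type} (T : Finset β) (R : β → β) (H c r : β → ℝ)
    (hR : ∀ f ∈ T, R f ∈ T ∧ R (R f) = f ∧ r (R f) = r f ∧ c (R f) = r f - c f)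
    (hH : ∀ f ∈ T, 0 ≤ H f ∧ H (R f) = H f) :
    ∑ f ∈ T, H f ≤ 2 * ∑ f ∈ T, if c f ≤ r f / 2 then H f else 0 := by
  have h1 : ∑ f ∈ T, (if c f ≤ r f / 2 then H f else 0) =
      ∑ f ∈ T, (if r f / 2 ≤ c f then H f else 0) := by
    refine Finset.sum_nbij' (fun f => R f) (fun f => R f) (fun f hf => (hR f hf).1)
      (fun f hf => (hR f hf).1) (fun f hf => (hR f hf).2.1) (fun f hf => (hR f hf).2.1) ?_
    intro f hf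
    obtain ⟨_, _, h3, h4⟩ := hR f hf
    obtain ⟨_, h5⟩ := hH f hf
    by_cases h : c f ≤ r f / 2
    · rw [if_pos h, if_pos (by rw [h3, h4]; linarith), h5]
    · rw [if_neg h, if_neg (by rw [h3, h4]; intro h6; exact h (by linarith))]
  have h2 : ∑ f ∈ T, H f ≤ ∑ f ∈ T, (if c f ≤ r f / 2 then H f else 0) +
      ∑ f ∈ T, (if r f / 2 ≤ c f then H f else 0) := by
    rw [← Finset.sum_add_distrib]
    refine Finset.sum_le_sum (fun f hf => ?_)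
    have h0 := (hH f hf).1
    rcases le_total (c f) (r f / 2) with h | h
    · rw [if_pos h]; split_ifs <;> linarith
    · rw [if_pos h]; split_ifs <;> linarith
  linarith

/-- the same for the upper half -/
private lemma N96_half' {β : Type} (T : Finset β) (R : β → β) (H c r : β → ℝ)
    (hR : ∀ f ∈ T, R f ∈ T ∧ R (R f) = f ∧ r (R f) = r f ∧ c (R f) = r f - c f)
    (hH : ∀ f ∈ T, 0 ≤ H f ∧ H (R f) = H f) :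
    ∑ f ∈ T, H f ≤ 2 * ∑ f ∈ T, if r f / 2 ≤ c f then H f else 0 := by
  have h := N96_half T R H (fun f => r f - c f) r
    (fun f hf => ⟨(hR f hf).1, (hR f hf).2.1, (hR f hf).2.2.1, by
      show r (R f) - c (R f) = r f - (r f - c f)
      rw [(hR f hf).2.2.1, (hR f hf).2.2.2]⟩) hH
  refine h.trans (le_of_eq ?_)
  congr 1
  refine Finset.sum_congr rfl (fun f _ => ?_)
  by_cases h6 : r f / 2 ≤ c f
  · rw [if_pos h6, if_pos (by linarith)]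
  · rw [if_neg h6, if_neg (by intro h7; exact h6 (by linarith))]

/-- sum over four variables -/
private def N96_S {β : Type} (T : Finset β) (Φ : β → β → β → β → ℝ) : ℝ :=
  ∑ f₁ ∈ T, ∑ f₂ ∈ T, ∑ f₃ ∈ T, ∑ f₄ ∈ T, Φ f₁ f₂ f₃ f₄

private lemma N96_s12 {β : Type} (T : Finset β) (Φ : β → β → β → β → ℝ) :
    N96_S T (fun a b c d => Φ b a c d) = N96_S T Φ := by
  unfold N96_S
  rw [Finset.sum_comm]

private lemma N96_s23 {β : Type} (T : Finset β) (Φ : β → β → β → β → ℝ) :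
    N96_S T (fun a b c d => Φ a c b d) = N96_S T Φ := by
  unfold N96_S
  refine Finset.sum_congr rfl (fun f _ => ?_)
  rw [Finset.sum_comm]

private lemma N96_s34 {β : Type} (T : Finset β) (Φ : β → β → β → β → ℝ) :
    N96_S T (fun a b c d => Φ a b d c) = N96_S T Φ := by
  unfold N96_S
  refine Finset.sum_congr rfl (fun f _ => ?_)
  refine Finset.sum_congr rfl (fun g _ => ?_)
  rw [Finset.sum_comm]

/-- among four numbers some two are at least the other two -/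
private lemma N96_top (x y z w : ℝ) :
    (x ≤ y ∧ x ≤ z ∧ w ≤ y ∧ w ≤ z) ∨ (z ≤ x ∧ z ≤ y ∧ w ≤ x ∧ w ≤ y) ∨
    (y ≤ x ∧ y ≤ z ∧ w ≤ x ∧ w ≤ z) ∨ (y ≤ x ∧ y ≤ w ∧ z ≤ x ∧ z ≤ w) ∨
    (x ≤ y ∧ x ≤ w ∧ z ≤ y ∧ z ≤ w) ∨ (x ≤ z ∧ x ≤ w ∧ y ≤ z ∧ y ≤ w) := by
  rcases le_total x y with h1 | h1 <;> rcases le_total x z with h2 | h2 <;>
  rcases le_total x w with h3 | h3 <;> rcases le_total y z with h4 | h4 <;>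
  rcases le_total y w with h5 | h5 <;> rcases le_total z w with h6 | h6 <;>
  grind

theorem p_N96 : T_N96 := by
  intro β T W R r a b hT
  set Φ : β → β → β → β → ℝ := fun f₁ f₂ f₃ f₄ =>
    if r f₁ ≤ r f₂ ∧ r f₁ ≤ r f₃ ∧ r f₄ ≤ r f₂ ∧ r f₄ ≤ r f₃ then W f₁ * W f₂ * W f₃ * W f₄ else 0
    with hΦ
  have hW : ∀ f ∈ T, 0 ≤ W f := fun f hf => (hT f hf).1
  have hnn : ∀ f₁ ∈ T, ∀ f₂ ∈ T, ∀ f₃ ∈ T, ∀ f₄ ∈ T, 0 ≤ W f₁ * W f₂ * W f₃ * W f₄ :=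
    fun f₁ h1 f₂ h2 f₃ h3 f₄ h4 => mul_nonneg (mul_nonneg (mul_nonneg (hW _ h1) (hW _ h2))
      (hW _ h3)) (hW _ h4)
  have hΦn : ∀ f₁ ∈ T, ∀ f₂ ∈ T, ∀ f₃ ∈ T, ∀ f₄ ∈ T, 0 ≤ Φ f₁ f₂ f₃ f₄ := by
    intro f₁ h1 f₂ h2 f₃ h3 f₄ h4
    simp only [hΦ]
    split_ifs
    · exact hnn f₁ h1 f₂ h2 f₃ h3 f₄ h4
    · exact le_refl _
  -- step (i)
  have hi : (∑ f ∈ T, W f) ^ 4 ≤ 6 * N96_S T Φ := by
    have e1 : (∑ f ∈ T, W f) ^ 4 = N96_S T (fun f₁ f₂ f₃ f₄ => W f₁ * W f₂ * W f₃ * W f₄) := by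
      unfold N96_S
      have q4 : ∀ x y z : β, ∑ w ∈ T, W x * W y * W z * W w = W x * W y * W z * ∑ w ∈ T, W w :=
        fun x y z => by rw [Finset.mul_sum]
      have q3 : ∀ x y : β, ∑ z ∈ T, W x * W y * W z * ∑ w ∈ T, W w =
          W x * W y * ((∑ w ∈ T, W w) * ∑ w ∈ T, W w) :=
        fun x y => by rw [← Finset.sum_mul, ← Finset.mul_sum]; ring
      have q2 : ∀ x : β, ∑ y ∈ T, W x * W y * ((∑ w ∈ T, W w) * ∑ w ∈ T, W w) =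
          W x * ((∑ w ∈ T, W w) * ((∑ w ∈ T, W w) * ∑ w ∈ T, W w)) :=
        fun x => by rw [← Finset.sum_mul, ← Finset.mul_sum]; ring
      simp only [q4, q3, q2]
      rw [← Finset.sum_mul]
      ring
    have e2 : N96_S T (fun f₁ f₂ f₃ f₄ => W f₁ * W f₂ * W f₃ * W f₄) ≤
        N96_S T Φ + N96_S T (fun f₁ f₂ f₃ f₄ => Φ f₃ f₁ f₂ f₄) +
        N96_S T (fun f₁ f₂ f₃ f₄ => Φ f₂ f₁ f₃ f₄) + N96_S T (fun f₁ f₂ f₃ f₄ => Φ f₂ f₁ f₄ f₃) +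
        N96_S T (fun f₁ f₂ f₃ f₄ => Φ f₁ f₂ f₄ f₃) + N96_S T (fun f₁ f₂ f₃ f₄ => Φ f₁ f₃ f₄ f₂) := by
      unfold N96_S
      simp_rw [← Finset.sum_add_distrib]
      refine Finset.sum_le_sum (fun f₁ h1 => Finset.sum_le_sum (fun f₂ h2 =>
        Finset.sum_le_sum (fun f₃ h3 => Finset.sum_le_sum (fun f₄ h4 => ?_))))
      have n1 := hΦn f₁ h1 f₂ h2 f₃ h3 f₄ h4
      have n2 := hΦn f₃ h3 f₁ h1 f₂ h2 f₄ h4
      have n3 := hΦn f₂ h2 f₁ h1 f₃ h3 f₄ h4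
      have n4 := hΦn f₂ h2 f₁ h1 f₄ h4 f₃ h3
      have n5 := hΦn f₁ h1 f₂ h2 f₄ h4 f₃ h3
      have n6 := hΦn f₁ h1 f₃ h3 f₄ h4 f₂ h2
      rcases N96_top (r f₁) (r f₂) (r f₃) (r f₄) with h | h | h | h | h | h
      · have : Φ f₁ f₂ f₃ f₄ = W f₁ * W f₂ * W f₃ * W f₄ := if_pos h
        linarith
      · have : Φ f₃ f₁ f₂ f₄ = W f₃ * W f₁ * W f₂ * W f₄ := if_pos h
        linarith [mul_comm (W f₃ * W f₁) (W f₂), mul_assoc (W f₂) (W f₃) (W f₁),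
          show W f₃ * W f₁ * W f₂ * W f₄ = W f₁ * W f₂ * W f₃ * W f₄ by ring]
      · have : Φ f₂ f₁ f₃ f₄ = W f₂ * W f₁ * W f₃ * W f₄ := if_pos h
        linarith [show W f₂ * W f₁ * W f₃ * W f₄ = W f₁ * W f₂ * W f₃ * W f₄ by ring]
      · have : Φ f₂ f₁ f₄ f₃ = W f₂ * W f₁ * W f₄ * W f₃ := if_pos h
        linarith [show W f₂ * W f₁ * W f₄ * W f₃ = W f₁ * W f₂ * W f₃ * W f₄ by ring]
      · have : Φ f₁ f₂ f₄ f₃ = W f₁ * W f₂ * W f₄ * W f₃ := if_pos h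
        linarith [show W f₁ * W f₂ * W f₄ * W f₃ = W f₁ * W f₂ * W f₃ * W f₄ by ring]
      · have : Φ f₁ f₃ f₄ f₂ = W f₁ * W f₃ * W f₄ * W f₂ := if_pos h
        linarith [show W f₁ * W f₃ * W f₄ * W f₂ = W f₁ * W f₂ * W f₃ * W f₄ by ring]
    have c2 : N96_S T (fun f₁ f₂ f₃ f₄ => Φ f₃ f₁ f₂ f₄) = N96_S T Φ :=
      (N96_s23 T (fun a b c d => Φ b a c d)).trans (N96_s12 T Φ)
    have c3 : N96_S T (fun f₁ f₂ f₃ f₄ => Φ f₂ f₁ f₃ f₄) = N96_S T Φ := N96_s12 T Φ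
    have c4 : N96_S T (fun f₁ f₂ f₃ f₄ => Φ f₂ f₁ f₄ f₃) = N96_S T Φ :=
      (N96_s12 T (fun a b c d => Φ a b d c)).trans (N96_s34 T Φ)
    have c5 : N96_S T (fun f₁ f₂ f₃ f₄ => Φ f₁ f₂ f₄ f₃) = N96_S T Φ := N96_s34 T Φ
    have c6 : N96_S T (fun f₁ f₂ f₃ f₄ => Φ f₁ f₃ f₄ f₂) = N96_S T Φ :=
      (N96_s23 T (fun a b c d => Φ a b d c)).trans (N96_s34 T Φ)
    rw [e1]
    rw [c2, c3, c4, c5, c6] at e2
    linarith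
  -- step (ii)
  have hRa : ∀ f ∈ T, R f ∈ T ∧ R (R f) = f ∧ r (R f) = r f ∧ a (R f) = r f - a f :=
    fun f hf => by obtain ⟨_, h2, h3, _, h5, h6, _⟩ := hT f hf; exact ⟨h2, h3, h5, h6⟩
  have hRb : ∀ f ∈ T, R f ∈ T ∧ R (R f) = f ∧ r (R f) = r f ∧ b (R f) = r f - b f :=
    fun f hf => by obtain ⟨_, h2, h3, _, h5, _, h7⟩ := hT f hf; exact ⟨h2, h3, h5, h7⟩
  have hWR : ∀ f ∈ T, W (R f) = W f := fun f hf => (hT f hf).2.2.2.1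
  have hrR : ∀ f ∈ T, r (R f) = r f := fun f hf => (hT f hf).2.2.2.2.1
  have hii : N96_S T Φ ≤ 16 * ∑ f₁ ∈ T, ∑ f₂ ∈ T, ∑ f₃ ∈ T, ∑ f₄ ∈ T,
      if b f₁ ≤ a f₂ ∧ a f₄ ≤ b f₃ then W f₁ * W f₂ * W f₃ * W f₄ else 0 := by
    have k4 : ∀ f₁ ∈ T, ∀ f₂ ∈ T, ∀ f₃ ∈ T, ∑ f₄ ∈ T, Φ f₁ f₂ f₃ f₄ ≤
        2 * ∑ f₄ ∈ T, (if a f₄ ≤ r f₄ / 2 then Φ f₁ f₂ f₃ f₄ else 0) := by
      intro f₁ h1 f₂ h2 f₃ h3
      refine N96_half T R (fun f₄ => Φ f₁ f₂ f₃ f₄) a r hRa (fun f hf => ⟨hΦn _ h1 _ h2 _ h3 _ hf, ?_⟩)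
      simp only [hΦ, hWR f hf, hrR f hf]
    have k3 : ∀ f₁ ∈ T, ∀ f₂ ∈ T, ∑ f₃ ∈ T, ∑ f₄ ∈ T, Φ f₁ f₂ f₃ f₄ ≤
        2 * ∑ f₃ ∈ T, (if r f₃ / 2 ≤ b f₃ then ∑ f₄ ∈ T, Φ f₁ f₂ f₃ f₄ else 0) := by
      intro f₁ h1 f₂ h2
      refine N96_half' T R (fun f₃ => ∑ f₄ ∈ T, Φ f₁ f₂ f₃ f₄) b r hRb (fun f hf =>
        ⟨Finset.sum_nonneg (fun g hg => hΦn _ h1 _ h2 _ hf _ hg), ?_⟩)
      simp only [hΦ, hWR f hf, hrR f hf]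
    have k2 : ∀ f₁ ∈ T, ∑ f₂ ∈ T, ∑ f₃ ∈ T, ∑ f₄ ∈ T, Φ f₁ f₂ f₃ f₄ ≤
        2 * ∑ f₂ ∈ T, (if r f₂ / 2 ≤ a f₂ then ∑ f₃ ∈ T, ∑ f₄ ∈ T, Φ f₁ f₂ f₃ f₄ else 0) := by
      intro f₁ h1
      refine N96_half' T R (fun f₂ => ∑ f₃ ∈ T, ∑ f₄ ∈ T, Φ f₁ f₂ f₃ f₄) a r hRa (fun f hf =>
        ⟨Finset.sum_nonneg (fun g hg => Finset.sum_nonneg (fun g' hg' =>
          hΦn _ h1 _ hf _ hg _ hg')), ?_⟩)
      simp only [hΦ, hWR f hf, hrR f hf]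
    have k1 : ∑ f₁ ∈ T, ∑ f₂ ∈ T, ∑ f₃ ∈ T, ∑ f₄ ∈ T, Φ f₁ f₂ f₃ f₄ ≤
        2 * ∑ f₁ ∈ T, (if b f₁ ≤ r f₁ / 2 then
          ∑ f₂ ∈ T, ∑ f₃ ∈ T, ∑ f₄ ∈ T, Φ f₁ f₂ f₃ f₄ else 0) := by
      refine N96_half T R (fun f₁ => ∑ f₂ ∈ T, ∑ f₃ ∈ T, ∑ f₄ ∈ T, Φ f₁ f₂ f₃ f₄) b r hRb
        (fun f hf => ⟨Finset.sum_nonneg (fun g hg => Finset.sum_nonneg (fun g' hg' =>
          Finset.sum_nonneg (fun g'' hg'' => hΦn _ hf _ hg _ hg' _ hg''))), ?_⟩)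
      simp only [hΦ, hWR f hf, hrR f hf]
    -- combine
    have m4 : ∀ f₁ ∈ T, ∀ f₂ ∈ T, ∀ f₃ ∈ T, b f₁ ≤ r f₁ / 2 → r f₂ / 2 ≤ a f₂ → r f₃ / 2 ≤ b f₃ →
        ∑ f₄ ∈ T, Φ f₁ f₂ f₃ f₄ ≤ 2 * ∑ f₄ ∈ T,
          (if b f₁ ≤ a f₂ ∧ a f₄ ≤ b f₃ then W f₁ * W f₂ * W f₃ * W f₄ else 0) := by
      intro f₁ h1 f₂ h2 f₃ h3 g1 g2 g3
      refine (k4 f₁ h1 f₂ h2 f₃ h3).trans ?_
      refine mul_le_mul_of_nonneg_left (Finset.sum_le_sum (fun f₄ h4 => ?_)) (by norm_num)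
      have n := hnn f₁ h1 f₂ h2 f₃ h3 f₄ h4
      by_cases c : a f₄ ≤ r f₄ / 2
      · rw [if_pos c]
        by_cases c' : r f₁ ≤ r f₂ ∧ r f₁ ≤ r f₃ ∧ r f₄ ≤ r f₂ ∧ r f₄ ≤ r f₃
        · have e : Φ f₁ f₂ f₃ f₄ = W f₁ * W f₂ * W f₃ * W f₄ := if_pos c'
          rw [e, if_pos ⟨by linarith [c'.1], by linarith [c'.2.2.2]⟩]
        · have e : Φ f₁ f₂ f₃ f₄ = 0 := if_neg c'
          rw [e]
          split_ifs
          · exact n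
          · exact le_refl _
      · rw [if_neg c]
        split_ifs
        · exact n
        · exact le_refl _
    have tn : ∀ f₁ ∈ T, ∀ f₂ ∈ T, ∀ f₃ ∈ T, 0 ≤ ∑ f₄ ∈ T,
          (if b f₁ ≤ a f₂ ∧ a f₄ ≤ b f₃ then W f₁ * W f₂ * W f₃ * W f₄ else 0) := by
      intro f₁ h1 f₂ h2 f₃ h3
      refine Finset.sum_nonneg (fun f₄ h4 => ?_)
      split_ifs
      · exact hnn f₁ h1 f₂ h2 f₃ h3 f₄ h4
      · exact le_refl _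
    have m3 : ∀ f₁ ∈ T, ∀ f₂ ∈ T, b f₁ ≤ r f₁ / 2 → r f₂ / 2 ≤ a f₂ →
        ∑ f₃ ∈ T, ∑ f₄ ∈ T, Φ f₁ f₂ f₃ f₄ ≤ 4 * ∑ f₃ ∈ T, ∑ f₄ ∈ T,
          (if b f₁ ≤ a f₂ ∧ a f₄ ≤ b f₃ then W f₁ * W f₂ * W f₃ * W f₄ else 0) := by
      intro f₁ h1 f₂ h2 g1 g2
      refine (k3 f₁ h1 f₂ h2).trans ?_
      rw [show (4 : ℝ) = 2 * 2 by norm_num, mul_assoc]
      refine mul_le_mul_of_nonneg_left ?_ (by norm_num)
      rw [Finset.mul_sum]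
      refine Finset.sum_le_sum (fun f₃ h3 => ?_)
      by_cases c : r f₃ / 2 ≤ b f₃
      · rw [if_pos c]; exact m4 f₁ h1 f₂ h2 f₃ h3 g1 g2 c
      · rw [if_neg c]; exact mul_nonneg (by norm_num) (tn f₁ h1 f₂ h2 f₃ h3)
    have m2 : ∀ f₁ ∈ T, b f₁ ≤ r f₁ / 2 →
        ∑ f₂ ∈ T, ∑ f₃ ∈ T, ∑ f₄ ∈ T, Φ f₁ f₂ f₃ f₄ ≤ 8 * ∑ f₂ ∈ T, ∑ f₃ ∈ T, ∑ f₄ ∈ T,
          (if b f₁ ≤ a f₂ ∧ a f₄ ≤ b f₃ then W f₁ * W f₂ * W f₃ * W f₄ else 0) := by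
      intro f₁ h1 g1
      refine (k2 f₁ h1).trans ?_
      rw [show (8 : ℝ) = 2 * 4 by norm_num, mul_assoc]
      refine mul_le_mul_of_nonneg_left ?_ (by norm_num)
      rw [Finset.mul_sum]
      refine Finset.sum_le_sum (fun f₂ h2 => ?_)
      by_cases c : r f₂ / 2 ≤ a f₂
      · rw [if_pos c]; exact m3 f₁ h1 f₂ h2 g1 c
      · rw [if_neg c]
        exact mul_nonneg (by norm_num) (Finset.sum_nonneg (fun f₃ h3 => tn f₁ h1 f₂ h2 f₃ h3))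
    unfold N96_S
    refine k1.trans ?_
    rw [show (16 : ℝ) = 2 * 8 by norm_num, mul_assoc]
    refine mul_le_mul_of_nonneg_left ?_ (by norm_num)
    rw [Finset.mul_sum]
    refine Finset.sum_le_sum (fun f₁ h1 => ?_)
    by_cases c : b f₁ ≤ r f₁ / 2
    · rw [if_pos c]; exact m2 f₁ h1 c
    · rw [if_neg c]
      exact mul_nonneg (by norm_num) (Finset.sum_nonneg (fun f₂ h2 =>
        Finset.sum_nonneg (fun f₃ h3 => tn f₁ h1 f₂ h2 f₃ h3)))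
  linarith

end Pool.Agent.SBW
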