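import Pool.Agent.SBW.Targets

set_option autoImplicit false

/-!
# MP_b5172a_pr: NSL, decay for irreducible bridges which are not slow
-/

open scoped Classical

noncomputable section

namespace Pool.Agent.SBW

theorem p_NSL : T_DEEP → T_SHORT → T_NSL := by
  intro hD hS D m t0 t1 h0 h100 h1 hv hv1 h4
  have ht1 : 0 < t1 := by linarith
  set v : ℝ := vv D t0 with hvdef
  set P : ℝ := PP D (2 * t0) with hP
  have hd := hD D m t0 t1 h0 h100 h1 hv1
  have hs := hS D m t0 t1 h0 ht1 h1 h4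
  set A := (IrF D m).filter (fun w => 19 / 20 * v * m ≤ (hx w : ℝ) ∧
      1 / 8 * v * m ≤
        ∑ p ∈ (pairF w).filter (fun p => 1 ≤ t1 ^ 2 * (dep w p : ℝ)), (dep w p : ℝ)) with hA
  set B := (IrF D m).filter (fun w => 19 / 20 * v * m ≤ (hx w : ℝ) ∧
      ∑ p ∈ (pairF w).filter (fun p => 1 ≤ t1 ^ 2 * (dep w p : ℝ)), (dep w p : ℝ) <
        1 / 8 * v * m) with hB
  have hu : (IrF D m).filter (fun w => 19 / 20 * v * m ≤ (hx w : ℝ)) = A ∪ B := by
    ext w
    simp only [hA, hB, Finset.mem_union, Finset.mem_filter]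
    constructor
    · rintro ⟨h1, h2⟩
      rcases le_or_gt (1 / 8 * v * m)
        (∑ p ∈ (pairF w).filter (fun p => 1 ≤ t1 ^ 2 * (dep w p : ℝ)), (dep w p : ℝ)) with h | h
      · exact Or.inl ⟨h1, h2, h⟩
      · exact Or.inr ⟨h1, h2, h⟩
    · rintro (⟨h1, h2, _⟩ | ⟨h1, h2, _⟩)
      · exact ⟨h1, h2⟩
      · exact ⟨h1, h2⟩
  have hdis : Disjoint A B := by
    rw [Finset.disjoint_left]
    intro w hw hw'
    have h2 := (Finset.mem_filter.1 hw).2.2
    have h3 := (Finset.mem_filter.1 hw').2.2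
    linarith
  have hpw : ∀ w ∈ IrF D m, pw D (2 * t0) w =
      Real.exp (2 * t0 * (hx w : ℝ)) * Real.exp (-(P * m)) := by
    intro w hw
    have hl := (mem_IrF.1 hw).1
    unfold pw
    rw [← Real.exp_add, hl, hP]
    congr 1
  have hm0 : (0 : ℝ) ≤ m := Nat.cast_nonneg m
  rw [hu, Finset.sum_union hdis]
  have e1 : ∑ w ∈ A, pw D (2 * t0) w ≤ 4 * Real.exp (-(t1 ^ 8 * m)) := by
    have e2 : ∑ w ∈ A, pw D (2 * t0) w =
        (∑ w ∈ A, Real.exp (2 * t0 * (hx w : ℝ))) * Real.exp (-(P * m)) := by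
      rw [Finset.sum_mul]
      exact Finset.sum_congr rfl fun w hw => hpw w (Finset.mem_filter.1 hw).1
    rw [e2]
    calc _ ≤ (4 * Real.exp ((P - v * t1 / 100) * m)) * Real.exp (-(P * m)) :=
          mul_le_mul_of_nonneg_right hd (Real.exp_pos _).le
      _ = 4 * Real.exp (-(v * t1 / 100 * m)) := by
          rw [mul_assoc, ← Real.exp_add]
          congr 2
          ring
      _ ≤ _ := by
          apply mul_le_mul_of_nonneg_left _ (by norm_num)
          apply Real.exp_le_exp.2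
          apply neg_le_neg
          apply mul_le_mul_of_nonneg_right _ hm0
          have h6 : t1 ^ 6 ≤ (1 / 100) ^ 6 := pow_le_pow_left₀ ht1.le h1 6
          calc t1 ^ 8 = t1 ^ 6 * t1 ^ 2 := by ring
            _ ≤ (1 / 100) ^ 6 * t1 ^ 2 := mul_le_mul_of_nonneg_right h6 (by positivity)
            _ ≤ 1 / 100 * t1 ^ 2 := by
                apply mul_le_mul_of_nonneg_right _ (by positivity)
                norm_num
            _ ≤ v * t1 / 100 := by nlinarith
  have e3 : ∑ w ∈ B, pw D (2 * t0) w ≤ 4 * Real.exp (-(t1 ^ 8 * m)) := by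
    have e2 : ∑ w ∈ B, pw D (2 * t0) w =
        (∑ w ∈ B, Real.exp (2 * t0 * (hx w : ℝ))) * Real.exp (-(P * m)) := by
      rw [Finset.sum_mul]
      exact Finset.sum_congr rfl fun w hw => hpw w (Finset.mem_filter.1 hw).1
    rw [e2]
    calc _ ≤ (4 * Real.exp ((P - v * t1 ^ 6 / 36) * m)) * Real.exp (-(P * m)) :=
          mul_le_mul_of_nonneg_right hs (Real.exp_pos _).le
      _ = 4 * Real.exp (-(v * t1 ^ 6 / 36 * m)) := by
          rw [mul_assoc, ← Real.exp_add]
          congr 2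
          ring
      _ ≤ _ := by
          apply mul_le_mul_of_nonneg_left _ (by norm_num)
          apply Real.exp_le_exp.2
          apply neg_le_neg
          apply mul_le_mul_of_nonneg_right _ hm0
          have h7 : t1 * t1 ^ 6 ≤ v * t1 ^ 6 := mul_le_mul_of_nonneg_right hv (by positivity)
          have h8 : t1 ^ 8 ≤ 1 / 100 * t1 ^ 7 := by
            calc t1 ^ 8 = t1 * t1 ^ 7 := by ring
              _ ≤ _ := mul_le_mul_of_nonneg_right h1 (by positivity)
          have h9 : t1 * t1 ^ 6 = t1 ^ 7 := by ring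
          have h10 : 0 < t1 ^ 7 := by positivity
          linarith
  linarith

end Pool.Agent.SBW
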