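import Pool.Agent.SBW.Targets

set_option autoImplicit false

/-!
# MP_b5172a_pr: OUT, the total weight of the outputs
-/

open scoped Classical

noncomputable section

namespace Pool.Agent.SBW

theorem OUT_memWL (D n : ℕ) (w : Wk D) : w ∈ WL D n ↔ w.length = n := by
  unfold WL
  simp

theorem OUT_prod (D : ℕ) (t : ℝ) (l : List (Wk D)) :
    (l.map (pw D t)).prod =
      Real.exp (t * (((l.map hx).sum : ℤ) : ℝ) - PP D t * (((l.map List.length).sum : ℕ) : ℝ)) := by
  induction l with
  | nil => simp
  | cons w l ih =>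
    rw [List.map_cons, List.prod_cons, ih, List.map_cons, List.map_cons, List.sum_cons,
      List.sum_cons]
    unfold pw
    rw [← Real.exp_add]
    congr 1
    push_cast
    ring

theorem OUT_glue_inj {D : ℕ} (R S R' S' : Wk D) (a : ℕ) (h : a ≤ R.length) (h' : a ≤ R'.length)
    (hS : S.length = S'.length) (he : glue R a S = glue R' a S') : R = R' ∧ S = S' := by
  unfold glue at he
  have l1 : (R.take a).length = (R'.take a).length := by
    rw [List.length_take, List.length_take, min_eq_left h, min_eq_left h']
  have l2 : (R.take a ++ S.map swS).length = (R'.take a ++ S'.map swS).length := by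
    rw [List.length_append, List.length_append, l1, List.length_map, List.length_map, hS]
  have l3 : (R.take a ++ S.map swS ++ [((1 : Fin (D + 2)), true)]).length =
      (R'.take a ++ S'.map swS ++ [((1 : Fin (D + 2)), true)]).length := by
    rw [List.length_append, l2, ← List.length_append]
  obtain ⟨e1, e2⟩ := List.append_inj he l3
  obtain ⟨e3, _⟩ := List.append_inj e1 l2
  obtain ⟨e4, e5⟩ := List.append_inj e3 l1
  have e6 : R.drop a = R'.drop a := by
    have := congrArg (List.map (flipS 1)) e2
    rwa [map_flip_flip, map_flip_flip] at this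
  have e7 : S = S' := by
    have := congrArg (List.map swS) e5
    rwa [map_sw_sw, map_sw_sw] at this
  refine ⟨?_, e7⟩
  rw [← List.take_append_drop a R, ← List.take_append_drop a R', e4, e6]

theorem OUT_glue_len {D : ℕ} (R S : Wk D) (a : ℕ) (h : a ≤ R.length) :
    (glue R a S).length = R.length + S.length + 1 := by
  unfold glue
  simp only [List.length_append, List.length_take, List.length_map, List.length_drop,
    List.length_singleton, min_eq_left h]
  omega

theorem OUT_sumT (D Nm : ℕ) (t : ℝ) (hP : T_PSUP) :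
    ∑ w ∈ (Finset.range (Nm + 2)).biUnion (BrF D),
      Real.exp (t * (hx w : ℝ) - PP D t * (w.length : ℝ)) ≤ (Nm : ℝ) + 2 := by
  have h1 : ∀ n ∈ Finset.range (Nm + 2),
      ∑ w ∈ BrF D n, Real.exp (t * (hx w : ℝ) - PP D t * (w.length : ℝ)) ≤ 1 := by
    intro n _
    have h2 : ∑ w ∈ BrF D n, Real.exp (t * (hx w : ℝ) - PP D t * (w.length : ℝ)) =
        bS D n t * Real.exp (-(PP D t * n)) := by
      unfold bS
      rw [Finset.sum_mul]
      refine Finset.sum_congr rfl ?_
      intro w hw
      have h3 : w.length = n := (OUT_memWL D n w).1 (Finset.mem_filter.1 hw).1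
      rw [← Real.exp_add, h3]
      congr 1
    rw [h2]
    have h4 := (hP D t).1 n
    have h5 : 0 < Real.exp (-(PP D t * n)) := Real.exp_pos _
    calc bS D n t * Real.exp (-(PP D t * n)) ≤
        Real.exp (PP D t * n) * Real.exp (-(PP D t * n)) :=
          mul_le_mul_of_nonneg_right h4 h5.le
      _ = 1 := by rw [← Real.exp_add]; simp
  rw [Finset.sum_biUnion]
  · calc ∑ n ∈ Finset.range (Nm + 2), ∑ w ∈ BrF D n,
          Real.exp (t * (hx w : ℝ) - PP D t * (w.length : ℝ)) ≤
        ∑ n ∈ Finset.range (Nm + 2), (1 : ℝ) := Finset.sum_le_sum h1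
      _ = (Nm : ℝ) + 2 := by
        rw [Finset.sum_const, Finset.card_range]
        push_cast
        ring
  · intro i _ j _ hij
    rw [Function.onFun, Finset.disjoint_left]
    intro w hw hw'
    have h3 : w.length = i := (OUT_memWL D i w).1 (Finset.mem_filter.1 hw).1
    have h4 : w.length = j := (OUT_memWL D j w).1 (Finset.mem_filter.1 hw').1
    exact hij (h3.symm.trans h4)

theorem p_OUT : T_UF → T_BFL → T_UNIQ → T_PSUP → T_OUT := by
  intro hUF hBFL hUNIQ hP D r Nm t θ hm ht hθ0 hθ1 hr G a hG
  set F : List (Wk D) × List (Wk D) → Wk D := fun x => glue x.1.flatten (a x) x.2.flatten with hF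
  set T : Finset (Wk D) := (Finset.range (Nm + 2)).biUnion (BrF D) with hT
  have hmaps : ∀ x ∈ G, F x ∈ T := by
    intro x hx'
    obtain ⟨_, _, h3, h4, _, h6, _⟩ := hG x hx'
    have hl := OUT_glue_len x.1.flatten x.2.flatten (a x) h3
    rw [hT, Finset.mem_biUnion]
    refine ⟨(F x).length, ?_, ?_⟩
    · rw [Finset.mem_range]
      change (glue x.1.flatten (a x) x.2.flatten).length < Nm + 2
      omega
    · unfold BrF
      rw [Finset.mem_filter]
      exact ⟨(OUT_memWL D _ _).2 rfl, h4⟩
  have hweight : ∀ x ∈ G, (x.1.map (pw D t)).prod * (x.2.map (pw D t)).prod ≤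
      Real.exp (1 + PP D t) * Real.exp (t * (hx (F x) : ℝ) - PP D t * ((F x).length : ℝ)) := by
    intro x hx'
    obtain ⟨h1, h2, h3, h4, _, h6, h7⟩ := hG x hx'
    have hl := OUT_glue_len x.1.flatten x.2.flatten (a x) h3
    have b1 := hBFL D x.1 (fun w hw => (h1 w hw).1)
    have b2 := hBFL D x.2 (fun w hw => (h2 w hw).1)
    rw [OUT_prod, OUT_prod, ← b1.2.1, ← b1.2.2, ← b2.2.1, ← b2.2.2, ← Real.exp_add,
      ← Real.exp_add]
    have hnn : 0 ≤ (hx (F x) : ℝ) := by
      have hlen : 0 < (F x).length := by
        change 0 < (glue x.1.flatten (a x) x.2.flatten).length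
        omega
      have := h4.2 (F x).length hlen le_rfl
      have h8 : 0 < hx (F x) := this.1
      exact_mod_cast h8.le
    have hlR : ((F x).length : ℝ) = (x.1.flatten.length : ℝ) + x.2.flatten.length + 1 := by
      change ((glue x.1.flatten (a x) x.2.flatten).length : ℝ) = _
      rw [hl]
      push_cast
      ring
    apply Real.exp_le_exp.2
    rw [hlR]
    have := mul_nonneg ht hnn
    nlinarith
  have hfib : ∀ Γ ∈ T, (((G.filter (fun x => F x = Γ)).card : ℕ) : ℝ) ≤
      (8 * (r : ℝ) + 1) ^ (D + 2) * (8 * (r : ℝ) + 5) ^ (D + 2) := by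
    intro Γ hΓ
    by_cases hne : (G.filter (fun x => F x = Γ)).Nonempty
    · have hsaw : Saw Γ := by
        obtain ⟨x, hx'⟩ := hne
        rw [Finset.mem_filter] at hx'
        obtain ⟨_, _, _, h4, _⟩ := hG x hx'.1
        rw [← hx'.2]
        exact h4.1
      have hU := hUNIQ D r θ hm Γ hθ0 hθ1 hr hsaw
      have hc : (G.filter (fun x => F x = Γ)).card ≤
          (((Finset.range (Γ.length + 1)) ×ˢ (Finset.range (Γ.length + 1))).filter
            (fun p => Val r θ hm Γ p.1 p.2)).card := by
        refine Finset.card_le_card_of_injOn (fun x => (a x, a x + x.2.flatten.length)) ?_ ?_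
        · intro x hx'
          rw [Finset.mem_coe, Finset.mem_filter] at hx'
          obtain ⟨_, _, _, _, h5, _, _⟩ := hG x hx'.1
          have h5' : Val r θ hm Γ (a x) (a x + x.2.flatten.length) := by
            rw [← hx'.2]
            exact h5
          rw [Finset.mem_coe, Finset.mem_filter, Finset.mem_product, Finset.mem_range,
            Finset.mem_range]
          have e1 := h5'.lt
          have e2 := h5'.le
          refine ⟨⟨?_, ?_⟩, h5'⟩
          · change a x < Γ.length + 1
            omega
          · change a x + x.2.flatten.length < Γ.length + 1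
            omega
        · intro x hx' y hy' hxy
          rw [Finset.mem_coe, Finset.mem_filter] at hx' hy'
          have e1 : a x = a y := (Prod.mk.inj hxy).1
          have e2 : a x + x.2.flatten.length = a y + y.2.flatten.length := (Prod.mk.inj hxy).2
          have e3 : x.2.flatten.length = y.2.flatten.length := by omega
          obtain ⟨u1, u2, u3, _, _, _, _⟩ := hG x hx'.1
          obtain ⟨v1, v2, v3, _, _, _, _⟩ := hG y hy'.1
          have e4 : glue x.1.flatten (a x) x.2.flatten = glue y.1.flatten (a x) y.2.flatten := by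
            have : F x = F y := hx'.2.trans hy'.2.symm
            rw [e1]
            rw [e1] at u3
            change glue x.1.flatten (a x) x.2.flatten = glue y.1.flatten (a y) y.2.flatten at this
            rw [e1] at this
            exact this
          obtain ⟨e5, e6⟩ := OUT_glue_inj x.1.flatten x.2.flatten y.1.flatten y.2.flatten (a x) u3
            (by rw [e1]; exact v3) e3 e4
          exact Prod.ext (hUF D x.1 y.1 u1 v1 e5) (hUF D x.2 y.2 u2 v2 e6)
      have h9 : (((G.filter (fun x => F x = Γ)).card : ℕ) : ℝ) ≤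
          (((8 * r + 1) ^ (D + 2) * (8 * r + 5) ^ (D + 2) : ℕ) : ℝ) :=
        Nat.cast_le.2 (hc.trans hU)
      refine h9.trans (le_of_eq ?_)
      push_cast
      ring
    · rw [Finset.not_nonempty_iff_eq_empty] at hne
      rw [hne, Finset.card_empty]
      push_cast
      positivity
  set M : ℝ := (8 * (r : ℝ) + 1) ^ (D + 2) * (8 * (r : ℝ) + 5) ^ (D + 2) with hM
  calc ∑ x ∈ G, (x.1.map (pw D t)).prod * (x.2.map (pw D t)).prod ≤
      ∑ x ∈ G, Real.exp (1 + PP D t) *
        Real.exp (t * (hx (F x) : ℝ) - PP D t * ((F x).length : ℝ)) :=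
        Finset.sum_le_sum hweight
    _ = ∑ Γ ∈ T, ∑ x ∈ G.filter (fun x => F x = Γ), Real.exp (1 + PP D t) *
        Real.exp (t * (hx (F x) : ℝ) - PP D t * ((F x).length : ℝ)) :=
        (Finset.sum_fiberwise_of_maps_to hmaps _).symm
    _ = ∑ Γ ∈ T, ((G.filter (fun x => F x = Γ)).card : ℝ) * (Real.exp (1 + PP D t) *
        Real.exp (t * (hx Γ : ℝ) - PP D t * (Γ.length : ℝ))) := by
        refine Finset.sum_congr rfl ?_
        intro Γ _
        rw [← nsmul_eq_mul, ← Finset.sum_const]
        refine Finset.sum_congr rfl ?_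
        intro x hx'
        rw [(Finset.mem_filter.1 hx').2]
    _ ≤ ∑ Γ ∈ T, M * (Real.exp (1 + PP D t) *
        Real.exp (t * (hx Γ : ℝ) - PP D t * (Γ.length : ℝ))) := by
        refine Finset.sum_le_sum ?_
        intro Γ hΓ
        exact mul_le_mul_of_nonneg_right (hfib Γ hΓ) (by positivity)
    _ = Real.exp (1 + PP D t) * M *
        ∑ Γ ∈ T, Real.exp (t * (hx Γ : ℝ) - PP D t * (Γ.length : ℝ)) := by
        rw [Finset.mul_sum]
        refine Finset.sum_congr rfl ?_
        intro Γ _
        ring
    _ ≤ Real.exp (1 + PP D t) * M * ((Nm : ℝ) + 2) :=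
        mul_le_mul_of_nonneg_left (OUT_sumT D Nm t hP) (by positivity)

end Pool.Agent.SBW
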