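import Pool.Agent.SBW.Targets

set_option autoImplicit false

/-!
# MP_b5172a_pr: the backtrack pairs of an irreducible bridge cover all interior levels
-/

open scoped Classical

noncomputable section

namespace Pool.Agent.SBW

namespace PCOV_

/-- last argmax on an interval -/
theorem last_argmax (f : ℕ → ℤ) (a b : ℕ) (h : a ≤ b) :
    ∃ m, a ≤ m ∧ m ≤ b ∧ (∀ i, a ≤ i → i ≤ b → f i ≤ f m) ∧
      ∀ i, m < i → i ≤ b → f i < f m := by
  induction b, h using Nat.le_induction with
  | base =>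
    refine ⟨a, le_rfl, le_rfl, fun i h1 h2 => ?_, fun i h1 h2 => by omega⟩
    have : i = a := by omega
    rw [this]
  | succ b hab ih =>
    obtain ⟨m, m1, m2, m3, m4⟩ := ih
    rcases lt_or_ge (f (b + 1)) (f m) with h | h
    · refine ⟨m, m1, by omega, fun i h1 h2 => ?_, fun i h1 h2 => ?_⟩
      · rcases Nat.lt_or_ge b i with h3 | h3
        · have : i = b + 1 := by omega
          rw [this]; exact h.le
        · exact m3 i h1 h3
      · rcases Nat.lt_or_ge b i with h3 | h3
        · have : i = b + 1 := by omega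
          rw [this]; exact h
        · exact m4 i h1 h3
    · refine ⟨b + 1, by omega, le_rfl, fun i h1 h2 => ?_, fun i h1 h2 => by omega⟩
      rcases Nat.lt_or_ge b i with h3 | h3
      · have : i = b + 1 := by omega
        rw [this]
      · exact (m3 i h1 h3).trans h

/-- last argmin on an interval -/
theorem last_argmin (f : ℕ → ℤ) (a b : ℕ) (h : a ≤ b) :
    ∃ m, a ≤ m ∧ m ≤ b ∧ (∀ i, a ≤ i → i ≤ b → f m ≤ f i) ∧
      ∀ i, m < i → i ≤ b → f m < f i := by
  obtain ⟨m, m1, m2, m3, m4⟩ := last_argmax (fun i => - f i) a b h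
  refine ⟨m, m1, m2, fun i h1 h2 => ?_, fun i h1 h2 => ?_⟩
  · have := m3 i h1 h2
    omega
  · have := m4 i h1 h2
    omega

/-- last time where the value is at most `k` -/
theorem last_le (f : ℕ → ℤ) (n : ℕ) (k : ℤ) (h0 : f 0 ≤ k) (hn : k < f n)
    (hs : ∀ i, |f (i + 1) - f i| ≤ 1) :
    ∃ t, t < n ∧ f t = k ∧ ∀ i, t < i → i ≤ n → k < f i := by
  induction n with
  | zero => omega
  | succ n ih =>
    rcases lt_or_ge k (f n) with h | h
    · obtain ⟨t, t1, t2, t3⟩ := ih h
      refine ⟨t, by omega, t2, fun i h1 h2 => ?_⟩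
      rcases Nat.lt_or_ge n i with h3 | h3
      · have : i = n + 1 := by omega
        rw [this]; exact hn
      · exact t3 i h1 h3
    · refine ⟨n, by omega, ?_, fun i h1 h2 => ?_⟩
      · have := (abs_le.1 (hs n)).2
        omega
      · have : i = n + 1 := by omega
        rw [this]; exact hn

theorem level {D : ℕ} {w : Wk D} (hw : Irr w) (k : ℤ) (hk1 : 1 ≤ k) (hk2 : k ≤ hx w - 1) :
    ∃ p, Pair w p ∧ pos w p.2 0 ≤ k ∧ k < pos w p.1 0 := by
  have hH : hx w = pos w w.length 0 := rfl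
  obtain ⟨τ, τ1, τ2, τ3⟩ := last_le (fun i => pos w i 0) w.length k (by simp; omega)
    (by show k < pos w w.length 0; omega) (fun i => abs_pos_succ_sub w i 0)
  have hτ0 : 0 < τ := by
    rcases Nat.eq_zero_or_pos τ with h | h
    · rw [h, pos_zero] at τ2
      omega
    · exact h
  obtain ⟨σ, -, σ2, σ3, σ4⟩ := last_argmax (fun i => pos w i 0) 0 τ (Nat.zero_le _)
  have hσk : k < pos w σ 0 := by
    by_contra hcon
    push Not at hcon
    apply hw.2.2 τ hτ0 τ1
    refine ⟨τ1.le, fun i hi => ?_, fun i h1 h2 => ?_⟩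
    · have := σ3 i (Nat.zero_le _) hi
      omega
    · have := τ3 i h1 h2
      omega
  obtain ⟨ρ, ρ1, ρ2, ρ3, ρ4⟩ := last_argmin (fun i => pos w i 0) σ w.length (by omega)
  have hρk : pos w ρ 0 ≤ k := by
    have := ρ3 τ σ2 τ1.le
    omega
  have hρτ : ρ ≤ τ := by
    by_contra hcon
    push Not at hcon
    have := τ3 ρ hcon ρ2
    omega
  have hσρ : σ < ρ := by
    rcases Nat.lt_or_ge σ ρ with h | h
    · exact h
    · have : σ = ρ := by omega
      rw [this] at hσk
      omega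
  refine ⟨(σ, ρ), ⟨hσρ, ρ2, fun i hi => σ3 i (Nat.zero_le _) (by simp only at hi; omega),
    fun i h1 h2 => σ4 i h1 (by simp only at h2; omega), fun i h1 h2 => ρ3 i h1 h2,
    fun i h1 h2 => ρ4 i h1 h2⟩, hρk, hσk⟩

end PCOV_

theorem p_PCOV : T_PCOV := by
  intro D w hw
  have hsub : Finset.Icc 1 (hx w - 1) ⊆
      (pairF w).biUnion (fun p => Finset.Ico (pos w p.2 0) (pos w p.1 0)) := by
    intro k hk
    rw [Finset.mem_Icc] at hk
    obtain ⟨p, hp, h1, h2⟩ := PCOV_.level hw k hk.1 hk.2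
    rw [Finset.mem_biUnion]
    exact ⟨p, mem_pairF.2 hp, Finset.mem_Ico.2 ⟨h1, h2⟩⟩
  have hcard := (Finset.card_le_card hsub).trans Finset.card_biUnion_le
  rw [Int.card_Icc] at hcard
  have hdep : ∑ p ∈ pairF w, (Finset.Ico (pos w p.2 0) (pos w p.1 0)).card =
      ∑ p ∈ pairF w, dep w p := by
    refine Finset.sum_congr rfl fun p _ => ?_
    rw [Int.card_Ico]
    rfl
  rw [hdep] at hcard
  have hcast : (((hx w - 1 + 1 - 1).toNat : ℕ) : ℤ) ≤ ∑ p ∈ pairF w, (dep w p : ℤ) := by
    exact_mod_cast hcard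
  have := Int.self_le_toNat (hx w - 1 + 1 - 1)
  linarith

end Pool.Agent.SBW
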