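import Pool.Agent.SBW.Targets

set_option autoImplicit false

/-!
# SBW, PCVX: convexity of the pressure
-/

open scoped Classical

noncomputable section

namespace Pool.Agent.SBW

theorem p_PCVX : T_SMUL → T_PSUP → T_PCVX := by
  intro _ hP D s u lam h0 h1
  apply (hP D (lam * s + (1 - lam) * u)).2
  intro n
  have hs := (hP D s).1 n
  have hu := (hP D u).1 n
  have key : ∀ w : Wk D, Real.exp ((lam * s + (1 - lam) * u) * (hx w : ℝ)) ≤
      Real.exp ((lam * PP D s + (1 - lam) * PP D u) * n) *
        (lam * (Real.exp (s * (hx w : ℝ)) * Real.exp (-(PP D s * n))) +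
          (1 - lam) * (Real.exp (u * (hx w : ℝ)) * Real.exp (-(PP D u * n)))) := by
    intro w
    have hc := convexOn_exp.2 (Set.mem_univ (s * (hx w : ℝ) - PP D s * n))
      (Set.mem_univ (u * (hx w : ℝ) - PP D u * n)) h0 (by linarith : (0 : ℝ) ≤ 1 - lam)
      (by ring)
    simp only [smul_eq_mul] at hc
    rw [← Real.exp_add, ← Real.exp_add]
    have e1 : (lam * s + (1 - lam) * u) * (hx w : ℝ) =
        (lam * PP D s + (1 - lam) * PP D u) * n +
          (lam * (s * (hx w : ℝ) - PP D s * n) + (1 - lam) * (u * (hx w : ℝ) - PP D u * n)) := by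
      ring
    rw [e1, Real.exp_add]
    apply mul_le_mul_of_nonneg_left _ (Real.exp_pos _).le
    exact hc
  have hsum : bS D n (lam * s + (1 - lam) * u) ≤
      Real.exp ((lam * PP D s + (1 - lam) * PP D u) * n) *
        (lam * (bS D n s * Real.exp (-(PP D s * n))) +
          (1 - lam) * (bS D n u * Real.exp (-(PP D u * n)))) := by
    unfold bS
    calc _ ≤ ∑ w ∈ BrF D n, Real.exp ((lam * PP D s + (1 - lam) * PP D u) * n) *
        (lam * (Real.exp (s * (hx w : ℝ)) * Real.exp (-(PP D s * n))) +
          (1 - lam) * (Real.exp (u * (hx w : ℝ)) * Real.exp (-(PP D u * n)))) :=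
          Finset.sum_le_sum (fun w _ => key w)
      _ = _ := by
          rw [← Finset.mul_sum, Finset.sum_add_distrib, ← Finset.mul_sum, ← Finset.mul_sum,
            ← Finset.sum_mul, ← Finset.sum_mul]
  refine hsum.trans ?_
  have h2 : bS D n s * Real.exp (-(PP D s * n)) ≤ 1 := by
    calc _ ≤ Real.exp (PP D s * n) * Real.exp (-(PP D s * n)) :=
          mul_le_mul_of_nonneg_right hs (Real.exp_pos _).le
      _ = 1 := by rw [← Real.exp_add, add_neg_cancel, Real.exp_zero]
  have h3 : bS D n u * Real.exp (-(PP D u * n)) ≤ 1 := by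
    calc _ ≤ Real.exp (PP D u * n) * Real.exp (-(PP D u * n)) :=
          mul_le_mul_of_nonneg_right hu (Real.exp_pos _).le
      _ = 1 := by rw [← Real.exp_add, add_neg_cancel, Real.exp_zero]
  have h4 : lam * (bS D n s * Real.exp (-(PP D s * n))) +
      (1 - lam) * (bS D n u * Real.exp (-(PP D u * n))) ≤ 1 := by
    have h5 := mul_le_mul_of_nonneg_left h2 h0
    have h6 := mul_le_mul_of_nonneg_left h3 (by linarith : (0 : ℝ) ≤ 1 - lam)
    linarith
  calc _ ≤ Real.exp ((lam * PP D s + (1 - lam) * PP D u) * n) * 1 :=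
        mul_le_mul_of_nonneg_left h4 (Real.exp_pos _).le
    _ = _ := mul_one _

end Pool.Agent.SBW
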