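import Pool.Agent.SBW.Targets

set_option autoImplicit false

/-!
# PDIS: two backtrack pairs are disjoint
-/

open scoped Classical

noncomputable section

namespace Pool.Agent.SBW

namespace PDIS_

theorem aux {D : ℕ} {w : Wk D} {p q : ℕ × ℕ} (hp : Pair w p) (hq : Pair w q) (h1 : p.1 ≤ q.1)
    (h2 : q.1 ≤ p.2) : p = q := by
  obtain ⟨p1, p2, p3, p4, p5, p6⟩ := hp
  obtain ⟨q1, q2, q3, q4, q5, q6⟩ := hq
  have a1 := p3 q.1 h2
  have a2 := q3 p.1 (by omega)
  have e1 : p.1 = q.1 := by
    by_contra hne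
    have := p4 q.1 (by omega) h2
    omega
  have b1 := p5 q.2 (by omega) q2
  have b2 := q5 p.2 (by omega) p2
  have e2 : p.2 = q.2 := by
    by_contra hne
    rcases Nat.lt_or_gt_of_ne hne with h | h
    · have := p6 q.2 h q2
      omega
    · have := q6 p.2 h p2
      omega
  exact Prod.ext e1 e2

end PDIS_

theorem p_PDIS : T_PDIS := by
  intro D w p q hp hq hne
  by_contra hcon
  push Not at hcon
  obtain ⟨h1, h2⟩ := hcon
  rcases le_total p.1 q.1 with h | h
  · exact hne (PDIS_.aux hp hq h h1)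
  · exact hne (PDIS_.aux hq hp h h2).symm

end Pool.Agent.SBW
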