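import Pool.Agent.SBW.Targets

set_option autoImplicit false

/-!
# SBW, PMON: monotonicity of the pressure
-/

open scoped Classical

noncomputable section

namespace Pool.Agent.SBW

namespace PMON_

theorem hx_nonneg {D : ℕ} {w : Wk D} (h : Br w) : 0 ≤ hx w := by
  rcases Nat.eq_zero_or_pos w.length with h0 | h0
  · have : w = [] := List.length_eq_zero_iff.mp h0
    rw [this]
    simp
  · exact (h.2 w.length h0 le_rfl).1.le

end PMON_

open PMON_ in
theorem p_PMON : T_SMUL → T_PSUP → T_PMON := by
  intro hS hP D t ht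
  refine ⟨?_, ?_, ?_, ?_⟩
  · apply (hP D 0).2
    intro n
    refine le_trans ?_ ((hP D t).1 n)
    unfold bS
    apply Finset.sum_le_sum
    intro w hw
    rw [mem_BrF] at hw
    apply Real.exp_le_exp.mpr
    rw [zero_mul]
    exact mul_nonneg ht (by exact_mod_cast hx_nonneg hw.2)
  · apply (hP D t).2
    intro n
    have h1 : bS D n t ≤ Real.exp (t * n) * bS D n 0 := by
      unfold bS
      rw [Finset.mul_sum]
      apply Finset.sum_le_sum
      intro w hw
      rw [mem_BrF] at hw
      rw [zero_mul, Real.exp_zero, mul_one]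
      apply Real.exp_le_exp.mpr
      apply mul_le_mul_of_nonneg_left _ ht
      have h2 := abs_hx_le w
      rw [hw.1] at h2
      have h3 : hx w ≤ (n : ℤ) := (le_abs_self _).trans h2
      exact_mod_cast h3
    calc bS D n t ≤ Real.exp (t * n) * bS D n 0 := h1
      _ ≤ Real.exp (t * n) * Real.exp (PP D 0 * n) :=
          mul_le_mul_of_nonneg_left ((hP D 0).1 n) (Real.exp_pos _).le
      _ = Real.exp ((PP D 0 + t) * n) := by rw [← Real.exp_add]; congr 1; ring
  · apply (hP D t).2
    intro n
    have h1 := (hS D n n t).2.2.2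
    rwa [abs_of_nonneg ht] at h1
  · have h1 := (hP D 0).1 1
    have h2 : (1 : ℝ) ≤ bS D 1 0 := by
      have h3 : bS D 1 0 = ((BrF D 1).card : ℝ) := by
        unfold bS
        simp
      have h4 := (hS D 1 1 0).2.2.1
      rw [h3] at h4 ⊢
      have h5 : 0 < (BrF D 1).card := by exact_mod_cast h4
      exact_mod_cast h5
    have h3 := h2.trans h1
    rw [Nat.cast_one, mul_one] at h3
    by_contra hc
    push Not at hc
    have h4 : Real.exp (PP D 0) < 1 := by
      rw [← Real.exp_zero]
      exact Real.exp_lt_exp.mpr hc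
    linarith

end Pool.Agent.SBW
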