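import Mathlib
import Pool.Agent.SBW.Targets

set_option autoImplicit false

open scoped Classical

namespace Pool.Agent.SBW

theorem p_PSUP (h : T_SMUL) : T_PSUP := by
  intro D t
  have hb : ∀ n : ℕ, Real.log (bS D (n + 1) t) / ((n : ℝ) + 1)
      ≤ Real.log (2 * ((D : ℝ) + 2)) + |t| := by
    intro n
    obtain ⟨-, -, h3, h4⟩ := h D 0 (n + 1) t
    have hn : (0 : ℝ) < (n : ℝ) + 1 := by positivity
    rw [div_le_iff₀ hn]
    have h5 := Real.log_le_log h3 h4
    rw [Real.log_exp] at h5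
    push_cast at h5
    exact h5
  have hbdd : BddAbove (Set.range fun n : ℕ => Real.log (bS D (n + 1) t) / ((n : ℝ) + 1)) := by
    refine ⟨Real.log (2 * ((D : ℝ) + 2)) + |t|, ?_⟩
    rintro _ ⟨n, rfl⟩
    exact hb n
  refine ⟨fun n => ?_, fun c hc => ?_⟩
  · obtain ⟨-, h2, h3, -⟩ := h D 0 n t
    cases n with
    | zero => simp [h2]
    | succ n =>
      have h6 : Real.log (bS D (n + 1) t) / ((n : ℝ) + 1) ≤ PP D t :=
        le_ciSup hbdd n
      have hn : (0 : ℝ) < (n : ℝ) + 1 := by positivity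
      rw [div_le_iff₀ hn] at h6
      have h7 := Real.exp_le_exp.mpr h6
      rw [Real.exp_log h3] at h7
      push_cast
      exact h7
  · refine ciSup_le fun n => ?_
    have hn : (0 : ℝ) < (n : ℝ) + 1 := by positivity
    rw [div_le_iff₀ hn]
    obtain ⟨-, -, h3, -⟩ := h D 0 (n + 1) t
    have h8 := Real.log_le_log h3 (hc (n + 1))
    rw [Real.log_exp] at h8
    push_cast at h8
    exact h8

end Pool.Agent.SBW
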