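import Pool.Agent.SBW.Targets

set_option autoImplicit false

/-!
# MP_b5172a_pr: QGA, lateral displacements of a chain
-/

open scoped Classical

noncomputable section

namespace Pool.Agent.SBW

namespace QGA_

/-- geometric sum over the scales above `L` -/
theorem geo (L c : ℝ) (hL : 0 < L) (hc : 0 < c) (M : ℕ) :
    ∑ a ∈ (Finset.range M).filter (fun a => L ≤ c * 2 ^ a), ((1 : ℝ) / 2) ^ a ≤ 2 * c / L := by
  have hex : ∃ a : ℕ, L ≤ c * 2 ^ a := by
    obtain ⟨a, ha⟩ := pow_unbounded_of_one_lt (L / c) (one_lt_two : (1 : ℝ) < 2)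
    refine ⟨a, ?_⟩
    rw [div_lt_iff₀ hc] at ha
    linarith
  have h0 := Nat.find_spec hex
  set a0 := Nat.find hex with ha0
  have h1 : (Finset.range M).filter (fun a => L ≤ c * 2 ^ a) ⊆ Finset.Ico a0 M := by
    intro a ha
    rw [Finset.mem_filter, Finset.mem_range] at ha
    rw [Finset.mem_Ico]
    exact ⟨Nat.find_min' hex ha.2, ha.1⟩
  have h2 : ∑ a ∈ (Finset.range M).filter (fun a => L ≤ c * 2 ^ a), ((1 : ℝ) / 2) ^ a ≤
      ∑ a ∈ Finset.Ico a0 M, ((1 : ℝ) / 2) ^ a :=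
    Finset.sum_le_sum_of_subset_of_nonneg h1 (fun _ _ _ => by positivity)
  have h3 : ∑ a ∈ Finset.Ico a0 M, ((1 : ℝ) / 2) ^ a ≤ (1 / 2 : ℝ) ^ a0 / (1 - 1 / 2) :=
    geom_sum_Ico_le_of_lt_one (by norm_num) (by norm_num)
  have h4 : (1 / 2 : ℝ) ^ a0 / (1 - 1 / 2) ≤ 2 * c / L := by
    rw [le_div_iff₀ hL]
    have h5 : (1 / 2 : ℝ) ^ a0 / (1 - 1 / 2) * L ≤ (1 / 2 : ℝ) ^ a0 / (1 - 1 / 2) * (c * 2 ^ a0) :=
      mul_le_mul_of_nonneg_left h0 (by positivity)
    have h6 : (1 / 2 : ℝ) ^ a0 * 2 ^ a0 = 1 := by rw [← mul_pow]; norm_num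
    calc _ ≤ _ := h5
      _ = 2 * c * ((1 / 2 : ℝ) ^ a0 * 2 ^ a0) := by ring
      _ = 2 * c := by rw [h6, mul_one]
  linarith

/-- a scale for `k` -/
theorem scale (N k n : ℕ) (hN : 1 ≤ N) (hk : k ≤ n) :
    ∃ a ∈ Finset.range (n + 1), 2 ^ a * N ≤ max k N ∧ k ≤ 2 * (2 ^ a * N) := by
  rcases Nat.lt_or_ge k N with h | h
  · exact ⟨0, by simp, by simp, by omega⟩
  · have hpos : k / N ≠ 0 := by
      have := Nat.div_pos h hN
      omega
    refine ⟨Nat.log 2 (k / N), ?_, ?_, ?_⟩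
    · rw [Finset.mem_range]
      have h1 : Nat.log 2 (k / N) ≤ k / N := Nat.log_le_self 2 _
      have h2 : k / N ≤ k := Nat.div_le_self k N
      omega
    · have h1 : 2 ^ Nat.log 2 (k / N) ≤ k / N := Nat.pow_log_le_self 2 hpos
      have h2 : 2 ^ Nat.log 2 (k / N) * N ≤ k :=
        (Nat.mul_le_mul_right N h1).trans (Nat.div_mul_le_self k N)
      exact h2.trans (le_max_left _ _)
    · have h1 : k / N < 2 ^ (Nat.log 2 (k / N) + 1) := Nat.lt_pow_succ_log_self (by norm_num) _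
      have h2 : k < 2 ^ (Nat.log 2 (k / N) + 1) * N := (Nat.div_lt_iff_lt_mul (by omega)).1 h1
      rw [pow_succ] at h2
      nlinarith

/-- weight of one scale -/
theorem one_scale (hKOL : T_KOL) (α ι : Type) [Fintype ι] (Ω : Finset α) (p L X : α → ℝ)
    (Y : ι → α → ℝ) (P : Par) (n : ℕ) (q : Fin n → α → ℝ) (hP : ParOK (Fintype.card ι) P)
    (hL : LawOK Ω p L X Y P) (hQ : QOK Ω p L X Y P n q) (j : ι) (K : ℕ) (hK : P.N ≤ K) :
    ∑ f ∈ (Fintype.piFinset (fun _ : Fin n => Ω)).filter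
      (fun f => ∃ k ≤ n, P.θ2 * P.h * K ≤
        |psm (fun i => (fun (i : Fin n) (x : α) => if (i : ℕ) < 2 * K then Y j x else 0) i (f i)) k|),
      ∏ i, q i (f i) ≤
    (4 / (P.θ2 ^ 2 * P.h ^ 2)) *
      ((∑ x ∈ Ω.filter (fun x => L x ≤ 2 * P.θ1 * P.h * K), p x * L x ^ 2) / K) := by
  have hN1 : 1 ≤ P.N := hP.N1
  have hK0 : (0 : ℝ) < K := by
    have : 0 < K := by omega
    exact_mod_cast this
  have hh := hP.h0
  have ht2 := hP.t2
  have ht1 := hP.t1
  set Z : Fin n → α → ℝ := fun (i : Fin n) (x : α) => if (i : ℕ) < 2 * K then Y j x else 0 with hZ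
  have h1 := hKOL α Ω n q Z (P.θ2 * P.h * K) (by positivity) hQ.q0 hQ.q1 (by
    intro i
    by_cases hi : (i : ℕ) < 2 * K
    · simp only [hZ, hi, if_true]
      exact hQ.q4 i j
    · simp only [hZ, hi, if_false, mul_zero, Finset.sum_const_zero])
  refine h1.trans ?_
  set M2 : ℝ := ∑ x ∈ Ω.filter (fun x => L x ≤ 2 * P.θ1 * P.h * K), p x * L x ^ 2 with hM2
  have hM20 : 0 ≤ M2 := Finset.sum_nonneg fun x hx =>
    mul_nonneg (hL.p0 x (Finset.mem_filter.1 hx).1) (sq_nonneg _)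
  -- second moments
  have h2 : ∀ i : Fin n, ∑ x ∈ Ω, q i x * Z i x ^ 2 ≤ if (i : ℕ) < 2 * K then 2 * M2 else 0 := by
    intro i
    by_cases hi : (i : ℕ) < 2 * K
    · simp only [hZ, hi, if_true]
      rw [hM2, Finset.mul_sum, Finset.sum_filter]
      apply Finset.sum_le_sum
      intro x hx
      have hYL := hL.YL j x hx
      have hsq : Y j x ^ 2 ≤ L x ^ 2 := by
        rw [← sq_abs (Y j x)]
        exact pow_le_pow_left₀ (abs_nonneg _) hYL 2
      by_cases hx0 : q i x = 0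
      · rw [hx0, zero_mul]
        split_ifs
        · have := hL.p0 x hx
          positivity
        · exact le_rfl
      · have h3 := hQ.q3 i x hx hx0
        have h4 : max ((i : ℝ) + 1) (P.N : ℝ) ≤ 2 * K := by
          apply max_le
          · have : (i : ℕ) + 1 ≤ 2 * K := hi
            exact_mod_cast this
          · have : P.N ≤ 2 * K := by omega
            exact_mod_cast this
        have h5 : L x ≤ 2 * P.θ1 * P.h * K := by
          calc L x ≤ P.θ1 * P.h * max ((i : ℝ) + 1) (P.N : ℝ) := h3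
            _ ≤ P.θ1 * P.h * (2 * K) := mul_le_mul_of_nonneg_left h4 (by positivity)
            _ = _ := by ring
        rw [if_pos h5]
        calc q i x * Y j x ^ 2 ≤ (2 * p x) * L x ^ 2 :=
              mul_le_mul (hQ.q2 i x hx) hsq (sq_nonneg _) (by
                have := hL.p0 x hx
                positivity)
          _ = _ := by ring
    · simp only [hZ, hi, if_false]
      simp
  have h3 : ∑ i : Fin n, ∑ x ∈ Ω, q i x * Z i x ^ 2 ≤ 4 * K * M2 := by
    calc _ ≤ ∑ i : Fin n, (if (i : ℕ) < 2 * K then 2 * M2 else 0) :=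
          Finset.sum_le_sum fun i _ => h2 i
      _ = ((Finset.univ : Finset (Fin n)).filter (fun i : Fin n => (i : ℕ) < 2 * K)).card * (2 * M2) := by
          rw [← Finset.sum_filter, Finset.sum_const, nsmul_eq_mul]
      _ ≤ (2 * K : ℕ) * (2 * M2) := by
          apply mul_le_mul_of_nonneg_right _ (by positivity)
          have : ((Finset.univ : Finset (Fin n)).filter (fun i : Fin n => (i : ℕ) < 2 * K)).card ≤
              (Finset.range (2 * K)).card := by
            apply Finset.card_le_card_of_injOn (fun i : Fin n => (i : ℕ))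
            · intro i hi
              simpa using hi
            · intro a _ b _ hab
              exact Fin.ext hab
          rw [Finset.card_range] at this
          exact_mod_cast this
      _ = 4 * K * M2 := by push_cast; ring
  rw [div_mul_div_comm, div_le_div_iff₀ (by positivity) (by positivity)]
  calc _ ≤ (4 * K * M2) * (P.θ2 ^ 2 * P.h ^ 2 * K) :=
        mul_le_mul_of_nonneg_right h3 (by positivity)
    _ = _ := by ring

end QGA_

open QGA_ in
theorem p_QGA : T_KOL → T_QGA := by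
  intro hKOL α ι _ Ω p L X Y P n q hP hL hQ
  have hN1 : 1 ≤ P.N := hP.N1
  have hN0 : (0 : ℝ) < P.N := by
    have : 0 < P.N := by omega
    exact_mod_cast this
  have hh := hP.h0
  have ht2 := hP.t2
  have ht1 := hP.t1
  set W : (Fin n → α) → ℝ := fun f => ∏ i, q i (f i) with hW
  set Ev : ι → ℕ → Finset (Fin n → α) := fun j a =>
    (Fintype.piFinset (fun _ : Fin n => Ω)).filter
      (fun f => ∃ k ≤ n, P.θ2 * P.h * ((2 ^ a * P.N : ℕ) : ℝ) ≤
        |psm (fun i => (fun (i : Fin n) (x : α) =>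
          if (i : ℕ) < 2 * (2 ^ a * P.N) then Y j x else 0) i (f i)) k|) with hEv
  have hsub : (Fintype.piFinset (fun _ : Fin n => Ω)).filter (fun f => ∃ j, ∃ k ≤ n,
      P.θ2 * P.h * max (k : ℝ) (P.N : ℝ) < |psm (fun i => Y j (f i)) k|) ⊆
      (Finset.univ : Finset ι).biUnion (fun j => (Finset.range (n + 1)).biUnion (fun a => Ev j a)) := by
    intro f hf
    rw [Finset.mem_filter] at hf
    obtain ⟨hf1, j, k, hk, hlt⟩ := hf
    obtain ⟨a, ha, ha1, ha2⟩ := scale P.N k n hN1 hk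
    rw [Finset.mem_biUnion]
    refine ⟨j, Finset.mem_univ _, ?_⟩
    rw [Finset.mem_biUnion]
    refine ⟨a, ha, ?_⟩
    rw [hEv, Finset.mem_filter]
    refine ⟨hf1, k, hk, ?_⟩
    have h1 : psm (fun i => (fun (i : Fin n) (x : α) =>
          if (i : ℕ) < 2 * (2 ^ a * P.N) then Y j x else 0) i (f i)) k =
        psm (fun i => Y j (f i)) k := by
      unfold psm
      apply Finset.sum_congr rfl
      intro i _
      by_cases hi : (i : ℕ) < k
      · rw [if_pos hi, if_pos hi]
        exact if_pos (by omega)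
      · rw [if_neg hi, if_neg hi]
    rw [h1]
    have h2 : ((2 ^ a * P.N : ℕ) : ℝ) ≤ max (k : ℝ) (P.N : ℝ) := by
      rw [← Nat.cast_max]
      exact_mod_cast ha1
    exact (mul_le_mul_of_nonneg_left h2 (by positivity)).trans hlt.le
  have hW0 : ∀ f ∈ Fintype.piFinset (fun _ : Fin n => Ω), 0 ≤ W f := by
    intro f hf
    rw [Fintype.mem_piFinset] at hf
    exact Finset.prod_nonneg fun i _ => hQ.q0 i (f i) (hf i)
  have hEvsub : ∀ j a, Ev j a ⊆ Fintype.piFinset (fun _ : Fin n => Ω) := fun j a =>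
    Finset.filter_subset _ _
  have hbi : ∀ (s : Finset ℕ) (j : ι), ∀ f ∈ s.biUnion (fun a => Ev j a), 0 ≤ W f := by
    intro s j f hf
    rw [Finset.mem_biUnion] at hf
    obtain ⟨a, _, ha⟩ := hf
    exact hW0 f (hEvsub j a ha)
  have hU1 : ∀ (s : Finset ℕ) (j : ι), ∑ f ∈ s.biUnion (fun a => Ev j a), W f ≤
      ∑ a ∈ s, ∑ f ∈ Ev j a, W f := by
    intro s j
    induction s using Finset.induction_on with
    | empty => simp
    | insert a s ha ih =>
      rw [Finset.biUnion_insert, Finset.sum_insert ha]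
      have h1 := Finset.sum_union_inter (s₁ := Ev j a) (s₂ := s.biUnion (fun a => Ev j a)) (f := W)
      have h2 : 0 ≤ ∑ f ∈ Ev j a ∩ s.biUnion (fun a => Ev j a), W f :=
        Finset.sum_nonneg fun f hf => hW0 f (hEvsub j a (Finset.mem_inter.1 hf).1)
      linarith
  have hU2 : ∀ t : Finset ι, ∑ f ∈ t.biUnion (fun j => (Finset.range (n + 1)).biUnion
      (fun a => Ev j a)), W f ≤ ∑ j ∈ t, ∑ a ∈ Finset.range (n + 1), ∑ f ∈ Ev j a, W f := by
    intro t
    induction t using Finset.induction_on with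
    | empty => simp
    | insert j t hj ih =>
      rw [Finset.biUnion_insert, Finset.sum_insert hj]
      have h1 := Finset.sum_union_inter (s₁ := (Finset.range (n + 1)).biUnion (fun a => Ev j a))
        (s₂ := t.biUnion (fun j => (Finset.range (n + 1)).biUnion (fun a => Ev j a))) (f := W)
      have h2 : 0 ≤ ∑ f ∈ (Finset.range (n + 1)).biUnion (fun a => Ev j a) ∩
          t.biUnion (fun j => (Finset.range (n + 1)).biUnion (fun a => Ev j a)), W f :=
        Finset.sum_nonneg fun f hf => hbi _ j f (Finset.mem_inter.1 hf).1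
      have h3 := hU1 (Finset.range (n + 1)) j
      linarith
  have hsum1 : ∑ f ∈ (Fintype.piFinset (fun _ : Fin n => Ω)).filter (fun f => ∃ j, ∃ k ≤ n,
      P.θ2 * P.h * max (k : ℝ) (P.N : ℝ) < |psm (fun i => Y j (f i)) k|), W f ≤
      ∑ j : ι, ∑ a ∈ Finset.range (n + 1), ∑ f ∈ Ev j a, W f := by
    refine (Finset.sum_le_sum_of_subset_of_nonneg hsub ?_).trans (hU2 Finset.univ)
    intro f hf _
    rw [Finset.mem_biUnion] at hf
    obtain ⟨j, _, hj⟩ := hf
    exact hbi _ j f hj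
  refine hsum1.trans ?_
  -- one coordinate
  have hj : ∀ j : ι, ∑ a ∈ Finset.range (n + 1), ∑ f ∈ Ev j a, W f ≤
      16 * P.θ1 * P.A / P.θ2 ^ 2 := by
    intro j
    have h1 : ∀ a ∈ Finset.range (n + 1), ∑ f ∈ Ev j a, W f ≤
        (4 / (P.θ2 ^ 2 * P.h ^ 2)) * ∑ x ∈ Ω,
          (if L x ≤ 2 * P.θ1 * P.h * P.N * 2 ^ a then p x * L x ^ 2 / P.N * (1 / 2 : ℝ) ^ a
            else 0) := by
      intro a _
      have h2 := one_scale hKOL α ι Ω p L X Y P n q hP hL hQ j (2 ^ a * P.N)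
        (Nat.le_mul_of_pos_left _ (by positivity))
      refine h2.trans (le_of_eq ?_)
      congr 1
      rw [← Finset.sum_filter]
      have h3 : Ω.filter (fun x => L x ≤ 2 * P.θ1 * P.h * ((2 ^ a * P.N : ℕ) : ℝ)) =
          Ω.filter (fun x => L x ≤ 2 * P.θ1 * P.h * P.N * 2 ^ a) := by
        apply Finset.filter_congr
        intro x _
        push_cast
        rw [show 2 * P.θ1 * P.h * (2 ^ a * (P.N : ℝ)) = 2 * P.θ1 * P.h * P.N * 2 ^ a by ring]
      rw [h3, Finset.sum_div]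
      apply Finset.sum_congr rfl
      intro x _
      push_cast
      rw [one_div, inv_pow]
      field_simp
    calc ∑ a ∈ Finset.range (n + 1), ∑ f ∈ Ev j a, W f
        ≤ ∑ a ∈ Finset.range (n + 1), (4 / (P.θ2 ^ 2 * P.h ^ 2)) * ∑ x ∈ Ω,
          (if L x ≤ 2 * P.θ1 * P.h * P.N * 2 ^ a then p x * L x ^ 2 / P.N * (1 / 2 : ℝ) ^ a
            else 0) := Finset.sum_le_sum h1
      _ = (4 / (P.θ2 ^ 2 * P.h ^ 2)) * ∑ x ∈ Ω, ∑ a ∈ Finset.range (n + 1),
          (if L x ≤ 2 * P.θ1 * P.h * P.N * 2 ^ a then p x * L x ^ 2 / P.N * (1 / 2 : ℝ) ^ a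
            else 0) := by rw [← Finset.mul_sum, Finset.sum_comm]
      _ ≤ (4 / (P.θ2 ^ 2 * P.h ^ 2)) * ∑ x ∈ Ω, 4 * P.θ1 * P.h * (p x * L x) := by
          apply mul_le_mul_of_nonneg_left _ (by positivity)
          apply Finset.sum_le_sum
          intro x hx
          have hLx : 0 < L x := lt_of_lt_of_le one_pos (hL.L1 x hx)
          have hg := geo (L x) (2 * P.θ1 * P.h * P.N) hLx (by positivity) (n + 1)
          have hp0 := hL.p0 x hx
          rw [← Finset.sum_filter, ← Finset.mul_sum]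
          calc p x * L x ^ 2 / P.N * ∑ a ∈ (Finset.range (n + 1)).filter
                (fun a => L x ≤ 2 * P.θ1 * P.h * P.N * 2 ^ a), (1 / 2 : ℝ) ^ a
              ≤ p x * L x ^ 2 / P.N * (2 * (2 * P.θ1 * P.h * P.N) / L x) :=
                mul_le_mul_of_nonneg_left hg (by positivity)
            _ = 4 * P.θ1 * P.h * (p x * L x) := by
                field_simp
                ring
      _ = (4 / (P.θ2 ^ 2 * P.h ^ 2)) * (4 * P.θ1 * P.h * ∑ x ∈ Ω, p x * L x) := by
          rw [← Finset.mul_sum]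
      _ ≤ (4 / (P.θ2 ^ 2 * P.h ^ 2)) * (4 * P.θ1 * P.h * (P.A * P.h)) := by
          apply mul_le_mul_of_nonneg_left _ (by positivity)
          exact mul_le_mul_of_nonneg_left hL.EL (by positivity)
      _ = 16 * P.θ1 * P.A / P.θ2 ^ 2 := by
          field_simp
          ring
  calc ∑ j : ι, ∑ a ∈ Finset.range (n + 1), ∑ f ∈ Ev j a, W f
      ≤ ∑ _j : ι, 16 * P.θ1 * P.A / P.θ2 ^ 2 := Finset.sum_le_sum fun j _ => hj j
    _ = Fintype.card ι * (16 * P.θ1 * P.A / P.θ2 ^ 2) := by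
        rw [Finset.sum_const, Finset.card_univ, nsmul_eq_mul]
    _ ≤ 1 / 5000 := by
        have hk4 := hP.k4
        rw [mul_div_assoc', div_le_div_iff₀ (by positivity) (by norm_num)]
        have hA := hP.A1
        have h0 : 0 ≤ (Fintype.card ι : ℝ) * P.θ1 * P.A := by positivity
        nlinarith

end Pool.Agent.SBW
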