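import Mathlib
import Pool.Agent.SBW.Targets

set_option autoImplicit false

/-!
QGB: heights of a chain.
-/

open scoped Classical

noncomputable section

namespace Pool.Agent.SBW

namespace QGB_

/-- truncated height -/
def Xt {α : Type} (L X : α → ℝ) (x : ℝ) (a : α) : ℝ := if L a ≤ x then X a else 0

/-- mean of the truncated height -/
def ee {α : Type} (Ω : Finset α) (L X : α → ℝ) (x : ℝ) {n : ℕ} (q : Fin n → α → ℝ) (i : Fin n) :
    ℝ := ∑ a ∈ Ω, q i a * Xt L X x a

theorem psm_le_psm {n : ℕ} (g g' : Fin n → ℝ) (K k : ℕ) (hK : K ≤ k)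
    (h0 : ∀ i, 0 ≤ g i) (h1 : ∀ i, g i ≤ g' i) : psm g K ≤ psm g' k := by
  unfold psm
  refine Finset.sum_le_sum fun i _ => ?_
  by_cases h : (i : ℕ) < K
  · rw [if_pos h, if_pos (lt_of_lt_of_le h hK)]
    exact h1 i
  · rw [if_neg h]
    split_ifs
    · exact (h0 i).trans (h1 i)
    · exact le_rfl

theorem scale {n : ℕ} {α : Type} (hKOL : T_KOL) (Ω : Finset α) (L X : α → ℝ) (x h : ℝ)
    (q : Fin n → α → ℝ) (hh : 0 < h) (hx : 0 ≤ x)
    (q0 : ∀ i, ∀ a ∈ Ω, 0 ≤ q i a) (q1 : ∀ i, ∑ a ∈ Ω, q i a = 1)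
    (X0 : ∀ a ∈ Ω, 0 ≤ X a) (XL : ∀ a ∈ Ω, X a ≤ L a)
    (he : ∀ i, h ≤ ee Ω L X x q i) (K : ℕ) (hK : 0 < K) (hKn : K ≤ n) :
    ∑ f ∈ (Fintype.piFinset (fun _ : Fin n => Ω)).filter (fun f =>
      psm (fun i => Xt L X x (f i)) K ≤ K * h / 2), ∏ i, q i (f i) ≤ 4 * x / (K * h) := by
  have hX0 : ∀ a ∈ Ω, 0 ≤ Xt L X x a := by
    intro a ha
    unfold Xt
    split_ifs
    · exact X0 a ha
    · exact le_rfl
  have hXx : ∀ a ∈ Ω, Xt L X x a ≤ x := by
    intro a ha
    unfold Xt
    split_ifs with h1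
    · exact (XL a ha).trans h1
    · exact hx
  set Z : Fin n → α → ℝ := fun i a => if (i : ℕ) < K then Xt L X x a - ee Ω L X x q i else 0 with hZ
  set M : ℝ := ∑ i : Fin n, if (i : ℕ) < K then ee Ω L X x q i else 0 with hM
  have hcard : ((Finset.univ : Finset (Fin n)).filter (fun i : Fin n => (i : ℕ) < K)).card = K := by
    have h1 : ((Finset.univ : Finset (Fin n)).filter (fun i : Fin n => (i : ℕ) < K)) =
        (Finset.univ : Finset (Fin K)).map (Fin.castLEEmb hKn) := by
      ext i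
      simp only [Finset.mem_filter, Finset.mem_univ, true_and, Finset.mem_map]
      constructor
      · intro hi
        exact ⟨⟨i, hi⟩, rfl⟩
      · rintro ⟨j, rfl⟩
        exact j.2
    rw [h1, Finset.card_map, Finset.card_univ, Fintype.card_fin]
  have hMK : K * h ≤ M := by
    rw [hM, ← Finset.sum_filter]
    calc (K : ℝ) * h = ∑ i ∈ (Finset.univ : Finset (Fin n)).filter
          (fun i : Fin n => (i : ℕ) < K), h := by
            rw [Finset.sum_const, hcard, nsmul_eq_mul]
      _ ≤ _ := Finset.sum_le_sum fun i _ => he i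
  have hKR : (0 : ℝ) < K := by exact_mod_cast hK
  have hM0 : 0 < M := lt_of_lt_of_le (mul_pos hKR hh) hMK
  have hk := hKOL α Ω n q Z (M / 2) (by linarith) q0 q1 (by
    intro i
    by_cases h1 : (i : ℕ) < K
    · simp only [hZ, if_pos h1]
      have h2 : ∀ a ∈ Ω, q i a * (Xt L X x a - ee Ω L X x q i) =
          q i a * Xt L X x a - ee Ω L X x q i * q i a := by intro a _; ring
      rw [Finset.sum_congr rfl h2, Finset.sum_sub_distrib, ← Finset.mul_sum, q1 i]
      unfold ee
      ring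
    · simp only [hZ, if_neg h1, mul_zero, Finset.sum_const_zero])
  have hV : ∑ i, ∑ a ∈ Ω, q i a * Z i a ^ 2 ≤ x * M := by
    rw [hM, Finset.mul_sum]
    refine Finset.sum_le_sum fun i _ => ?_
    by_cases h1 : (i : ℕ) < K
    · simp only [hZ, if_pos h1]
      have h2 : ∀ a ∈ Ω, q i a * (Xt L X x a - ee Ω L X x q i) ^ 2 =
          q i a * Xt L X x a ^ 2 - 2 * ee Ω L X x q i * (q i a * Xt L X x a) +
            ee Ω L X x q i ^ 2 * q i a := by intro a _; ring
      rw [Finset.sum_congr rfl h2, Finset.sum_add_distrib, Finset.sum_sub_distrib,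
        ← Finset.mul_sum, ← Finset.mul_sum, q1 i]
      have h3 : ∑ a ∈ Ω, q i a * Xt L X x a ^ 2 ≤ x * ee Ω L X x q i := by
        unfold ee
        rw [Finset.mul_sum]
        refine Finset.sum_le_sum fun a ha => ?_
        have h4 := hX0 a ha
        have h5 := hXx a ha
        have h6 := q0 i a ha
        calc q i a * Xt L X x a ^ 2 = (q i a * Xt L X x a) * Xt L X x a := by ring
          _ ≤ (q i a * Xt L X x a) * x := mul_le_mul_of_nonneg_left h5 (mul_nonneg h6 h4)
          _ = x * (q i a * Xt L X x a) := by ring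
      have h7 : ∑ a ∈ Ω, q i a * Xt L X x a = ee Ω L X x q i := rfl
      rw [h7]
      nlinarith [sq_nonneg (ee Ω L X x q i)]
    · simp only [hZ, if_neg h1]
      simp
  refine le_trans (Finset.sum_le_sum_of_subset_of_nonneg ?_ ?_) (hk.trans ?_)
  · intro f hf
    rw [Finset.mem_filter] at hf ⊢
    refine ⟨hf.1, K, hKn, ?_⟩
    have h1 : psm (fun i => Z i (f i)) K = psm (fun i => Xt L X x (f i)) K - M := by
      unfold psm
      rw [hM, ← Finset.sum_sub_distrib]
      refine Finset.sum_congr rfl fun i _ => ?_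
      by_cases h2 : (i : ℕ) < K
      · simp only [hZ, if_pos h2]
      · simp only [if_neg h2, sub_zero]
    have h3 := neg_abs_le (psm (fun i => Z i (f i)) K)
    linarith [hf.2]
  · intro f hf _
    rw [Finset.mem_filter, Fintype.mem_piFinset] at hf
    exact Finset.prod_nonneg fun i _ => q0 i _ (hf.1 i)
  · calc (∑ i, ∑ a ∈ Ω, q i a * Z i a ^ 2) / (M / 2) ^ 2 ≤ x * M / (M / 2) ^ 2 := by gcongr
      _ = 4 * x / M := by field_simp; ring
      _ ≤ 4 * x / (K * h) := by
        apply div_le_div_of_nonneg_left _ (mul_pos hKR hh) hMK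
        positivity

end QGB_

open QGB_ in
/-- QGB -/
theorem p_QGB (hKOL : T_KOL) : T_QGB := by
  intro α ι _ Ω p L X Y P n q hP hL hQ
  have hh := hP.h0
  have hx : 0 ≤ P.x := zero_le_one.trans hP.x1
  have hN : 0 < P.N := hP.N1
  have he : ∀ i, P.h ≤ ee Ω L X P.x q i := by
    intro i
    have h1 := hQ.q5 i
    rw [Finset.sum_filter] at h1
    refine h1.trans (le_of_eq ?_)
    unfold ee Xt
    refine Finset.sum_congr rfl fun a _ => ?_
    split_ifs <;> simp
  set w : (Fin n → α) → ℝ := fun f => ∏ i, q i (f i) with hw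
  set S := Fintype.piFinset (fun _ : Fin n => Ω) with hS
  have hw0 : ∀ f ∈ S, 0 ≤ w f := by
    intro f hf
    rw [hS, Fintype.mem_piFinset] at hf
    exact Finset.prod_nonneg fun i _ => hQ.q0 i _ (hf i)
  set T := (Finset.range (n + 1)).filter (fun a => 2 ^ a * P.N ≤ n) with hT
  have key : ∀ f ∈ S, (if (∃ k ≤ n, P.N ≤ k ∧ psm (fun i => X (f i)) k < P.h / 4 * k)
      then w f else 0) ≤ ∑ a ∈ T, (if psm (fun i => Xt L X P.x (f i)) (2 ^ a * P.N) ≤
        ((2 ^ a * P.N : ℕ) : ℝ) * P.h / 2 then w f else 0) := by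
    intro f hf
    have hnn : ∀ a ∈ T, 0 ≤ (if psm (fun i => Xt L X P.x (f i)) (2 ^ a * P.N) ≤
        ((2 ^ a * P.N : ℕ) : ℝ) * P.h / 2 then w f else 0) := by
      intro a _
      split_ifs
      · exact hw0 f hf
      · exact le_rfl
    split_ifs with hbad
    · obtain ⟨k, hkn, hNk, hlt⟩ := hbad
      have hdiv : k / P.N ≠ 0 := by
        have := Nat.div_pos hNk hN
        omega
      set a := Nat.log 2 (k / P.N) with ha
      have h1 : 2 ^ a ≤ k / P.N := Nat.pow_log_le_self 2 hdiv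
      have h2 : k / P.N < 2 ^ (a + 1) := Nat.lt_pow_succ_log_self (by norm_num) _
      have h3 : 2 ^ a * P.N ≤ k := (Nat.le_div_iff_mul_le hN).mp h1
      have h4 : k < 2 ^ (a + 1) * P.N := (Nat.div_lt_iff_lt_mul hN).mp h2
      have haT : a ∈ T := by
        rw [hT, Finset.mem_filter, Finset.mem_range]
        refine ⟨?_, h3.trans hkn⟩
        have h5 : a < 2 ^ a := Nat.lt_two_pow_self
        have h6 : 2 ^ a ≤ 2 ^ a * P.N := Nat.le_mul_of_pos_right _ hN
        omega
      refine le_trans ?_ (Finset.single_le_sum hnn haT)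
      rw [if_pos]
      by_contra hcon
      rw [not_le] at hcon
      have h7 : psm (fun i => Xt L X P.x (f i)) (2 ^ a * P.N) ≤ psm (fun i => X (f i)) k := by
        rw [hS, Fintype.mem_piFinset] at hf
        refine psm_le_psm _ _ _ _ h3 ?_ ?_
        · intro i
          unfold Xt
          split_ifs
          · exact hL.X0 _ (hf i)
          · exact le_rfl
        · intro i
          simp only [Xt]
          split_ifs
          · exact le_rfl
          · exact hL.X0 _ (hf i)
      have h8 : (k : ℝ) ≤ 2 * ((2 ^ a * P.N : ℕ) : ℝ) := by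
        have h9 : k ≤ 2 * (2 ^ a * P.N) := by
          rw [pow_succ] at h4
          nlinarith
        exact_mod_cast h9
      nlinarith
    · exact Finset.sum_nonneg hnn
  rw [Finset.sum_filter]
  calc ∑ f ∈ S, (if (∃ k ≤ n, P.N ≤ k ∧ psm (fun i => X (f i)) k < P.h / 4 * k)
      then w f else 0)
      ≤ ∑ f ∈ S, ∑ a ∈ T, (if psm (fun i => Xt L X P.x (f i)) (2 ^ a * P.N) ≤
        ((2 ^ a * P.N : ℕ) : ℝ) * P.h / 2 then w f else 0) := Finset.sum_le_sum key
    _ = ∑ a ∈ T, ∑ f ∈ S, (if psm (fun i => Xt L X P.x (f i)) (2 ^ a * P.N) ≤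
        ((2 ^ a * P.N : ℕ) : ℝ) * P.h / 2 then w f else 0) := Finset.sum_comm
    _ ≤ ∑ a ∈ T, 4 * P.x / (P.N * P.h) * (1 / 2) ^ a := by
        refine Finset.sum_le_sum fun a haT => ?_
        rw [hT, Finset.mem_filter] at haT
        rw [← Finset.sum_filter]
        have hKpos : 0 < 2 ^ a * P.N := Nat.mul_pos (by positivity) hN
        refine (scale hKOL Ω L X P.x P.h q hh hx hQ.q0 hQ.q1 hL.X0 hL.XL he (2 ^ a * P.N)
          hKpos haT.2).trans (le_of_eq ?_)
        have hNR : (0 : ℝ) < P.N := by exact_mod_cast hN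
        push_cast
        rw [div_pow, one_pow]
        field_simp
    _ ≤ ∑ a ∈ Finset.range (n + 1), 4 * P.x / (P.N * P.h) * (1 / 2) ^ a := by
        refine Finset.sum_le_sum_of_subset_of_nonneg (Finset.filter_subset _ _) ?_
        intro a _ _
        positivity
    _ = 4 * P.x / (P.N * P.h) * ∑ a ∈ Finset.range (n + 1), (1 / 2 : ℝ) ^ a := by
        rw [Finset.mul_sum]
    _ ≤ 4 * P.x / (P.N * P.h) * 2 := by
        refine mul_le_mul_of_nonneg_left (sum_geometric_two_le _) ?_
        positivity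
    _ ≤ 1 / 10000 := by
        have hNR : (0 : ℝ) < P.N := by exact_mod_cast hN
        have hk := hP.k1
        have hNh : 0 < (P.N : ℝ) * P.h := mul_pos hNR hh
        rw [div_mul_eq_mul_div, div_le_div_iff₀ hNh (by norm_num)]
        linarith

end Pool.Agent.SBW
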