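import Pool.Agent.SBW.Targets

set_option autoImplicit false

/-!
Project SBW, piece QGC: total length and height of a chain (Markov's inequality).
-/

open scoped Classical

noncomputable section

namespace Pool.Agent.SBW

namespace QGC_

lemma marg {α : Type} (Ω : Finset α) (n : ℕ) (q : Fin n → α → ℝ)
    (q1 : ∀ i, ∑ a ∈ Ω, q i a = 1) (g : α → ℝ) (i : Fin n) :
    ∑ f ∈ Fintype.piFinset (fun _ : Fin n => Ω), (∏ j, q j (f j)) * g (f i) =
      ∑ a ∈ Ω, q i a * g a := by
  have h1 : ∀ f : Fin n → α, (∏ j, q j (f j)) * g (f i) =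
      ∏ j, (if j = i then q j (f j) * g (f j) else q j (f j)) := by
    intro f
    have e : ∀ j, (if j = i then q j (f j) * g (f j) else q j (f j)) =
        q j (f j) * (if j = i then g (f j) else 1) := by
      intro j
      split_ifs <;> ring
    rw [Finset.prod_congr rfl (fun j _ => e j), Finset.prod_mul_distrib,
      Finset.prod_ite_eq' Finset.univ i (fun j => g (f j))]
    simp
  rw [Finset.sum_congr rfl (fun f _ => h1 f)]
  have h2 := Finset.prod_univ_sum (fun _ : Fin n => Ω)
    (fun (j : Fin n) (a : α) => if j = i then q j a * g a else q j a)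
  rw [← h2, Finset.prod_eq_single i]
  · simp
  · intro j _ hj
    simp only [hj, if_false]
    exact q1 j
  · intro h
    exact absurd (Finset.mem_univ i) h

lemma psm_eq {n : ℕ} (g : Fin n → ℝ) : psm g n = ∑ i, g i := by
  unfold psm
  apply Finset.sum_congr rfl
  intro i _
  rw [if_pos i.2]

lemma markov {α : Type} (Ω : Finset α) (n : ℕ) (p : α → ℝ) (q : Fin n → α → ℝ)
    (q0 : ∀ i, ∀ a ∈ Ω, 0 ≤ q i a) (q1 : ∀ i, ∑ a ∈ Ω, q i a = 1)
    (q2 : ∀ i, ∀ a ∈ Ω, q i a ≤ 2 * p a) (g : α → ℝ) (g0 : ∀ a ∈ Ω, 0 ≤ g a) (M : ℝ)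
    (hM : 0 < M) (hg : ∑ a ∈ Ω, p a * g a ≤ M) (c : ℝ) (hc : 0 < c) :
    ∑ f ∈ (Fintype.piFinset (fun _ : Fin n => Ω)).filter (fun f =>
      c * M * n < psm (fun i => g (f i)) n), ∏ i, q i (f i) ≤ 2 / c := by
  rcases Nat.eq_zero_or_pos n with hn | hn
  · subst hn
    have h0 : (Fintype.piFinset (fun _ : Fin 0 => Ω)).filter (fun f =>
      c * M * ((0 : ℕ) : ℝ) < psm (fun i => g (f i)) 0) = ∅ := by
      apply Finset.filter_eq_empty_iff.mpr
      intro f _
      simp [psm]
    rw [h0, Finset.sum_empty]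
    positivity
  · have hnR : (0 : ℝ) < n := by exact_mod_cast hn
    have hpos : 0 < c * M * n := by positivity
    have hq0 : ∀ f ∈ Fintype.piFinset (fun _ : Fin n => Ω), 0 ≤ ∏ i, q i (f i) := by
      intro f hf
      exact Finset.prod_nonneg (fun i _ => q0 i _ (Fintype.mem_piFinset.mp hf i))
    have hS : ∑ f ∈ Fintype.piFinset (fun _ : Fin n => Ω),
        (∏ i, q i (f i)) * (∑ i, g (f i)) ≤ n * (2 * M) := by
      simp only [Finset.mul_sum]
      rw [Finset.sum_comm]
      calc ∑ i : Fin n, ∑ f ∈ Fintype.piFinset (fun _ : Fin n => Ω),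
            (∏ j, q j (f j)) * g (f i)
          = ∑ i : Fin n, ∑ a ∈ Ω, q i a * g a :=
            Finset.sum_congr rfl (fun i _ => marg Ω n q q1 g i)
        _ ≤ ∑ i : Fin n, 2 * M := by
            apply Finset.sum_le_sum
            intro i _
            calc ∑ a ∈ Ω, q i a * g a ≤ ∑ a ∈ Ω, 2 * (p a * g a) := by
                  apply Finset.sum_le_sum
                  intro a ha
                  have := mul_le_mul_of_nonneg_right (q2 i a ha) (g0 a ha)
                  linarith
              _ = 2 * ∑ a ∈ Ω, p a * g a := by rw [Finset.mul_sum]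
              _ ≤ 2 * M := by linarith
        _ = n * (2 * M) := by simp
    have hL : (c * M * n) * ∑ f ∈ (Fintype.piFinset (fun _ : Fin n => Ω)).filter (fun f =>
        c * M * n < psm (fun i => g (f i)) n), ∏ i, q i (f i) ≤
        ∑ f ∈ Fintype.piFinset (fun _ : Fin n => Ω), (∏ i, q i (f i)) * (∑ i, g (f i)) := by
      rw [Finset.mul_sum]
      calc _ ≤ ∑ f ∈ (Fintype.piFinset (fun _ : Fin n => Ω)).filter (fun f =>
            c * M * n < psm (fun i => g (f i)) n), (∏ i, q i (f i)) * (∑ i, g (f i)) := by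
            apply Finset.sum_le_sum
            intro f hf
            rw [Finset.mem_filter, psm_eq] at hf
            rw [mul_comm]
            exact mul_le_mul_of_nonneg_left hf.2.le (hq0 f hf.1)
        _ ≤ _ := by
            apply Finset.sum_le_sum_of_subset_of_nonneg (Finset.filter_subset _ _)
            intro f hf _
            exact mul_nonneg (hq0 f hf)
              (Finset.sum_nonneg (fun i _ => g0 _ (Fintype.mem_piFinset.mp hf i)))
    have h3 := hL.trans hS
    rw [le_div_iff₀ hc]
    have h4 : (M * n) * ((∑ f ∈ (Fintype.piFinset (fun _ : Fin n => Ω)).filter (fun f =>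
        c * M * n < psm (fun i => g (f i)) n), ∏ i, q i (f i)) * c) ≤ (M * n) * 2 := by
      nlinarith [h3]
    exact le_of_mul_le_mul_left h4 (by positivity)

end QGC_

open QGC_ in
theorem p_QGC : T_QGC := by
  intro α ι _ Ω p L X Y P n q c hP hL hQ hc
  have hA : 0 < P.A := lt_of_lt_of_le one_pos hP.A1
  have hB : 0 < P.B := lt_of_lt_of_le one_pos hP.B1
  constructor
  · have h := markov Ω n p q hQ.q0 hQ.q1 hQ.q2 L (fun a ha => zero_le_one.trans (hL.L1 a ha))
      (P.A * P.h) (mul_pos hA hP.h0) hL.EL c hc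
    simpa only [mul_assoc] using h
  · have h := markov Ω n p q hQ.q0 hQ.q1 hQ.q2 X hL.X0
      (P.B * P.h) (mul_pos hB hP.h0) hL.EX c hc
    simpa only [mul_assoc] using h

end Pool.Agent.SBW
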