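import Pool.Agent.SBW.Targets

set_option autoImplicit false

/-!
# MP_b5172a_pr: decay of the velocity (target RATE)
-/

open scoped Classical

noncomputable section

namespace Pool.Agent.SBW

theorem p_RATE : T_CONTR → T_VMON → T_RATE := by
  intro hC hV D
  obtain ⟨A₀, hA, C₀, hC₀, τ, hτ, hτ2, h⟩ := hC D
  have hA' : (2 : ℝ) ≤ A₀ := by exact_mod_cast hA
  have hA0 : (0 : ℝ) < A₀ := by linarith
  have hlogA : 0 < Real.log A₀ := Real.log_pos (by linarith)
  have hlog2 : 0 < Real.log (21 / 20) := Real.log_pos (by norm_num)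
  set c : ℝ := min (1 / 2) (Real.log (21 / 20) / Real.log A₀) with hc
  have hc0 : 0 < c := lt_min (by norm_num) (div_pos hlog2 hlogA)
  have hc1 : c ≤ 1 / 2 := min_le_left _ _
  have hAc : (A₀ : ℝ) ^ c ≤ 21 / 20 := by
    have h1 : (A₀ : ℝ) ^ c ≤ (A₀ : ℝ) ^ (Real.log (21 / 20) / Real.log A₀) :=
      Real.rpow_le_rpow_of_exponent_le (by linarith) (min_le_right _ _)
    refine h1.trans (le_of_eq ?_)
    rw [Real.rpow_def_of_pos hA0, mul_div_cancel₀ _ hlogA.ne', Real.exp_log (by norm_num)]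
  set ss : ℝ := Real.log (1 / τ) with hss
  have hss0 : 0 < ss := Real.log_pos (by rw [lt_div_iff₀ hτ]; linarith)
  have hτe : Real.exp (-ss) = τ := by
    rw [hss, one_div, Real.log_inv, neg_neg, Real.exp_log hτ]
  set C : ℝ := max ((A₀ * ss) ^ c) (C₀ * (A₀ : ℝ) ^ c * ss ^ (c - 1 / 2)) with hCd
  have hC0 : 0 < C := lt_max_of_lt_left (Real.rpow_pos_of_pos (mul_pos hA0 hss0) c)
  -- small `s`
  have hsmall : ∀ s : ℝ, 0 < s → s ≤ A₀ * ss → vv D (Real.exp (-s)) ≤ C / s ^ c := by
    intro s hs hs2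
    have h1 := (hV D (Real.exp (-s)) (Real.exp_pos _)).2.2.1
    refine h1.trans ?_
    rw [le_div_iff₀ (Real.rpow_pos_of_pos hs c), one_mul]
    exact (Real.rpow_le_rpow hs.le hs2 hc0.le).trans (le_max_left _ _)
  have key : ∀ n : ℕ, ∀ s : ℝ, 0 < s → s ≤ (A₀ : ℝ) ^ n * (A₀ * ss) →
      vv D (Real.exp (-s)) ≤ C / s ^ c := by
    intro n
    induction n with
    | zero =>
      intro s hs hs2
      rw [pow_zero, one_mul] at hs2
      exact hsmall s hs hs2
    | succ n ih =>
      intro s hs hs2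
      rcases le_or_gt s (A₀ * ss) with h1 | h1
      · exact hsmall s hs h1
      · set s' : ℝ := s / A₀ with hs'
        have hss' : s = A₀ * s' := by rw [hs', mul_div_cancel₀ _ hA0.ne']
        have hs'0 : ss < s' := by rw [hs', lt_div_iff₀ hA0]; linarith
        have hs'pos : 0 < s' := hss0.trans hs'0
        have hs'2 : s' ≤ (A₀ : ℝ) ^ n * (A₀ * ss) := by
          rw [hs', div_le_iff₀ hA0]
          calc s ≤ (A₀ : ℝ) ^ (n + 1) * (A₀ * ss) := hs2
            _ = (A₀ : ℝ) ^ n * (A₀ * ss) * A₀ := by ring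
        have hih := ih s' hs'pos hs'2
        have hspow : s ^ c = (A₀ : ℝ) ^ c * s' ^ c := by
          rw [hss', Real.mul_rpow hA0.le hs'pos.le]
        have hsc : 0 < s ^ c := Real.rpow_pos_of_pos hs c
        have hs'c : 0 < s' ^ c := Real.rpow_pos_of_pos hs'pos c
        have hAcp : 0 < (A₀ : ℝ) ^ c := Real.rpow_pos_of_pos hA0 c
        by_contra hcon
        rw [not_le] at hcon
        have ht1 : Real.exp (-s') ≤ τ := by
          rw [← hτe]
          exact Real.exp_le_exp.2 (by linarith)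
        have hlog : Real.log (1 / Real.exp (-s')) = s' := by
          rw [one_div, Real.log_inv, Real.log_exp, neg_neg]
        have hpw : Real.exp (-s') ^ A₀ = Real.exp (-s) := by
          rw [← Real.exp_nat_mul, hss']
          congr 1
          ring
        have h2 := h (Real.exp (-s')) (Real.exp_pos _) ht1
        rw [hlog, hpw] at h2
        have h3 : C₀ / √s' ≤ C / s ^ c := by
          rw [div_le_div_iff₀ (Real.sqrt_pos.2 hs'pos) hsc]
          have h4 : s' ^ c = s' ^ (c - 1 / 2) * √s' := by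
            rw [Real.sqrt_eq_rpow, ← Real.rpow_add hs'pos]
            congr 1
            ring
          have h5 : s' ^ (c - 1 / 2) ≤ ss ^ (c - 1 / 2) :=
            Real.rpow_le_rpow_of_nonpos hss0 hs'0.le (by linarith)
          calc C₀ * s ^ c = C₀ * (A₀ : ℝ) ^ c * s' ^ (c - 1 / 2) * √s' := by
                rw [hspow, h4]; ring
            _ ≤ C₀ * (A₀ : ℝ) ^ c * ss ^ (c - 1 / 2) * √s' := by
                refine mul_le_mul_of_nonneg_right ?_ (Real.sqrt_nonneg _)
                exact mul_le_mul_of_nonneg_left h5 (mul_pos hC₀ hAcp).le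
            _ ≤ C * √s' := mul_le_mul_of_nonneg_right (le_max_right _ _) (Real.sqrt_nonneg _)
        have h6 := h2 (h3.trans hcon.le)
        have h7 : C / s' ^ c ≤ 21 / 20 * (C / s ^ c) := by
          have h8 : C / s' ^ c = (A₀ : ℝ) ^ c * (C / s ^ c) := by
            rw [hspow]
            field_simp
          rw [h8]
          exact mul_le_mul_of_nonneg_right hAc (div_pos hC0 hsc).le
        linarith
  refine ⟨c, hc0, C, hC0, fun t ht ht2 => ?_⟩
  have hs0 : 0 < Real.log (1 / t) := Real.log_pos (by rw [lt_div_iff₀ ht]; linarith)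
  have hte : Real.exp (-Real.log (1 / t)) = t := by
    rw [one_div, Real.log_inv, neg_neg, Real.exp_log ht]
  obtain ⟨n, hn⟩ : ∃ n : ℕ, Real.log (1 / t) / (A₀ * ss) < (A₀ : ℝ) ^ n :=
    pow_unbounded_of_one_lt _ (by linarith)
  rw [div_lt_iff₀ (mul_pos hA0 hss0)] at hn
  have h1 := key n (Real.log (1 / t)) hs0 hn.le
  rwa [hte] at h1

end Pool.Agent.SBW
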