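import Pool.Agent.SBW.Targets

set_option autoImplicit false

/-!
# MP_b5172a_pr: the long walk is good around a time of the block (RCOND)
-/

open scoped Classical

noncomputable section

namespace Pool.Agent.SBW

namespace RCOND_

/-! ### the abstract core -/

/-- the conditions, in terms of the two coordinate functions -/
theorem core {x y : ℕ → ℝ} {s0 s1 s2 s3 s4 n : ℕ} {r ρ0 ρ1 Q tc θ rb rc Hx : ℝ}
    (h01 : s0 ≤ s1) (h12 : s1 ≤ s2) (h23 : s2 ≤ s3) (h34 : s3 ≤ s4) (h4n : s4 ≤ n)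
    (x0 : ∀ i ≤ s0, 0 ≤ x i ∧ x i ≤ x s0)
    (x1 : ∀ i, s0 ≤ i → i ≤ s1 → x s0 ≤ x i ∧ x i ≤ x s1)
    (x2 : ∀ i, s1 ≤ i → i ≤ s2 → x s1 ≤ x i ∧ x i ≤ x s2)
    (x3 : ∀ i, s2 ≤ i → i ≤ s3 → x s2 ≤ x i ∧ x i ≤ x s3)
    (x4 : ∀ i, s3 ≤ i → i ≤ s4 → x s3 ≤ x i ∧ x i ≤ x s4)
    (x5 : ∀ i, s4 ≤ i → i ≤ n → x s4 ≤ x i ∧ x i ≤ x n)
    (g0 : ρ0 ≤ x s1 - x s0) (g3 : ρ0 ≤ x s4 - x s3) (g1 : x s4 - x s0 ≤ ρ1)
    (q0 : Q ≤ x s0) (q1 : Q ≤ x n - x s4) (hx : x n ≤ Hx)
    (l0 : ∀ i, s0 ≤ i → i ≤ s4 → |y i - y s0| ≤ rb)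
    (l1 : ∀ i ≤ s0, |y i - y s0| ≤ rc + tc * (x s0 - x i))
    (l2 : ∀ i, s4 ≤ i → i ≤ n → |y i - y s4| ≤ rc + tc * (x i - x s4))
    (ht : 0 ≤ tc) (htθ : tc ≤ θ) (hr1 : rb ≤ r) (hr2 : rc + 2 * rb ≤ 2 * r) (hb : 0 ≤ rb)
    {a : ℕ} (ha1 : s1 ≤ a) (ha2 : a ≤ s3) (ha3 : ∀ i, s0 ≤ i → i ≤ s4 → y i ≤ y a) :
    (∀ i < a, (y i ≤ y a ∧ |x i - x a| ≤ ρ1 ∧ |y i - y a| ≤ 2 * r) ∨
      (ρ0 ≤ x a - x i ∧ |y i - y a| ≤ 2 * r + θ * (x a - x i))) ∧
    (∀ i, a < i → i ≤ n → (y i ≤ y a ∧ |x i - x a| ≤ ρ1 ∧ |y i - y a| ≤ 2 * r) ∨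
      (ρ0 ≤ x i - x a ∧ |y i - y a| ≤ 2 * r + θ * (x i - x a))) ∧
    Q ≤ x a ∧ Q ≤ x n - x a ∧
    (∀ i ≤ n, ∀ i' ≤ n, y i - y i' ≤ 4 * r + 2 * tc * Hx) := by
  -- heights in the block
  have hs01 := (x1 s1 h01 le_rfl).1
  have hs12 := (x2 s2 h12 le_rfl).1
  have hs23 := (x3 s3 h23 le_rfl).1
  have hs34 := (x4 s4 h34 le_rfl).1
  have hs4n := (x5 n h4n le_rfl).1
  have hxb : ∀ i, s0 ≤ i → i ≤ s4 → x s0 ≤ x i ∧ x i ≤ x s4 := by
    intro i hi1 hi2
    rcases le_total i s1 with h | h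
    · have := x1 i hi1 h; constructor <;> linarith
    · rcases le_total i s2 with h' | h'
      · have := x2 i h h'; constructor <;> linarith
      · rcases le_total i s3 with h'' | h''
        · have := x3 i h' h''; constructor <;> linarith
        · have := x4 i h'' hi2; constructor <;> linarith
  have hxa1 : x s1 ≤ x a := by
    rcases le_total a s2 with h | h
    · exact (x2 a ha1 h).1
    · have := x3 a h ha2; linarith
  have hxa3 : x a ≤ x s3 := by
    rcases le_total a s2 with h | h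
    · have := x2 a ha1 h; linarith
    · exact (x3 a h ha2).2
  have ha0 : s0 ≤ a := h01.trans ha1
  have ha4 : a ≤ s4 := ha2.trans h34
  have lya := l0 a ha0 ha4
  have near : ∀ i, s0 ≤ i → i ≤ s4 → y i ≤ y a ∧ |x i - x a| ≤ ρ1 ∧ |y i - y a| ≤ 2 * r := by
    intro i hi1 hi2
    refine ⟨ha3 i hi1 hi2, ?_, ?_⟩
    · have h1 := hxb i hi1 hi2
      have h2 := hxb a ha0 ha4
      rw [abs_le]
      constructor <;> linarith
    · have h1 := l0 i hi1 hi2
      rw [abs_le] at h1 lya ⊢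
      constructor <;> linarith
  have past : ∀ i ≤ s0, ρ0 ≤ x a - x i ∧ |y i - y a| ≤ 2 * r + tc * (x a - x i) := by
    intro i hi
    have h1 := x0 i hi
    have h2 := l1 i hi
    refine ⟨by linarith, ?_⟩
    have h3 : tc * (x s0 - x i) ≤ tc * (x a - x i) :=
      mul_le_mul_of_nonneg_left (by linarith) ht
    rw [abs_le] at h2 lya ⊢
    constructor <;> linarith
  have ly4 := l0 s4 (h01.trans (h12.trans (h23.trans h34))) le_rfl
  have fut : ∀ i, s4 ≤ i → i ≤ n → ρ0 ≤ x i - x a ∧ |y i - y a| ≤ 2 * r + tc * (x i - x a) := by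
    intro i hi1 hi2
    have h1 := x5 i hi1 hi2
    have h2 := l2 i hi1 hi2
    refine ⟨by linarith, ?_⟩
    have h3 : tc * (x i - x s4) ≤ tc * (x i - x a) :=
      mul_le_mul_of_nonneg_left (by linarith) ht
    rw [abs_le] at h2 lya ly4 ⊢
    constructor <;> linarith
  refine ⟨?_, ?_, ?_, ?_, ?_⟩
  · intro i hi
    rcases le_total s0 i with h | h
    · exact Or.inl (near i h (hi.le.trans ha4))
    · refine Or.inr ⟨(past i h).1, (past i h).2.trans ?_⟩
      have h1 := x0 i h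
      have : tc * (x a - x i) ≤ θ * (x a - x i) :=
        mul_le_mul_of_nonneg_right htθ (by linarith)
      linarith
  · intro i hi1 hi2
    rcases le_total i s4 with h | h
    · exact Or.inl (near i (ha0.trans hi1.le) h)
    · refine Or.inr ⟨(fut i h hi2).1, (fut i h hi2).2.trans ?_⟩
      have h1 := x5 i h hi2
      have : tc * (x i - x a) ≤ θ * (x i - x a) :=
        mul_le_mul_of_nonneg_right htθ (by linarith)
      linarith
  · linarith
  · linarith
  · have key : ∀ i ≤ n, |y i - y a| ≤ 2 * r + tc * Hx := by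
      intro i hi
      have hx0 : 0 ≤ x a := by
        have := x0 s0 le_rfl
        linarith
      have hHx : 0 ≤ Hx := by linarith
      rcases le_total i s0 with h | h
      · have h1 := (past i h).2
        have h2 := x0 i h
        have h3 : tc * (x a - x i) ≤ tc * Hx := mul_le_mul_of_nonneg_left (by linarith) ht
        linarith
      · rcases le_total i s4 with h' | h'
        · have h1 := (near i h h').2.2
          have h2 : 0 ≤ tc * Hx := mul_nonneg ht hHx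
          linarith
        · have h1 := (fut i h' hi).2
          have h2 := x5 i h' hi
          have h3 : tc * (x i - x a) ≤ tc * Hx := mul_le_mul_of_nonneg_left (by linarith) ht
          linarith
    intro i hi i' hi'
    have h1 := key i hi
    have h2 := key i' hi'
    rw [abs_le] at h1 h2
    linarith

/-! ### partial sums -/

theorem psm_succ {n : ℕ} (g : Fin n → ℝ) {i : ℕ} (h : i < n) :
    psm g (i + 1) = psm g i + g ⟨i, h⟩ := by
  unfold psm
  have h1 : g ⟨i, h⟩ = ∑ j : Fin n, if j = ⟨i, h⟩ then g j else 0 := by simp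
  rw [h1, ← Finset.sum_add_distrib]
  refine Finset.sum_congr rfl fun j _ => ?_
  by_cases h2 : (j : ℕ) < i
  · have h3 : j ≠ ⟨i, h⟩ := fun h3 => by rw [h3] at h2; exact lt_irrefl _ h2
    simp [h2, h3, Nat.lt_succ_of_lt h2]
  · by_cases h3 : j = ⟨i, h⟩
    · subst h3; simp
    · have h4 : ¬ (j : ℕ) < i + 1 := by
        intro h5
        apply h3
        apply Fin.ext
        simp only
        omega
      simp [h2, h3, h4]

theorem psm_zero {n : ℕ} (g : Fin n → ℝ) : psm g 0 = 0 := by simp [psm]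

theorem psm_full {n : ℕ} (g : Fin n → ℝ) : psm g n = ∑ i, g i := by
  unfold psm
  exact Finset.sum_congr rfl fun i _ => by simp

theorem take_sum {α : Type} {n : ℕ} (f : Fin n → α) (F : α → ℤ) {i : ℕ} (hi : i ≤ n) :
    ((((List.ofFn f).take i).map F).sum : ℝ) = psm (fun i => (F (f i) : ℝ)) i := by
  induction i with
  | zero => simp [psm_zero]
  | succ i ih =>
    have h : i < n := hi
    rw [psm_succ _ h, ← ih h.le]
    have h1 : i < (List.ofFn f).length := by simpa using h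
    rw [List.take_succ_eq_append_getElem h1]
    simp

theorem full_sum {α : Type} {n : ℕ} (f : Fin n → α) (F : α → ℤ) :
    ((((List.ofFn f)).map F).sum : ℝ) = psm (fun i => (F (f i) : ℝ)) n := by
  have := take_sum f F le_rfl
  rwa [List.take_of_length_le (by simp)] at this

variable {D : ℕ}

/-! ### positions in a concatenation of three walks -/

theorem pos_mid (A B C : Wk D) {k : ℕ} (hk : k ≤ B.length) (j : Fin (D + 2)) :
    pos (A ++ B ++ C) (A.length + k) j = pos A A.length j + pos B k j := by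
  rw [pos_append_left _ _ (by simp; exact hk), pos_append_right]

theorem le_mxY (w : Wk D) {k : ℕ} (hk : k ≤ w.length) : pos w k 1 ≤ mxY w :=
  Finset.le_sup' (fun k => pos w k 1) (Finset.mem_range.2 (Nat.lt_succ_of_le hk))

theorem exists_mxY (w : Wk D) : ∃ k ≤ w.length, mxY w = pos w k 1 := by
  obtain ⟨k, hk, h⟩ := Finset.exists_mem_eq_sup' (s := Finset.range (w.length + 1)) (by simp)
    (fun k => pos w k 1)
  exact ⟨k, Nat.lt_succ_iff.1 (Finset.mem_range.1 hk), h⟩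

/-- heights of a bridge -/
theorem br_height {w : Wk D} (h : Br w) {k : ℕ} (hk : k ≤ w.length) :
    0 ≤ pos w k 0 ∧ pos w k 0 ≤ hx w := by
  rcases Nat.eq_zero_or_pos k with h0 | h0
  · subst h0
    rw [pos_zero]
    refine ⟨le_rfl, ?_⟩
    rcases Nat.eq_zero_or_pos w.length with h1 | h1
    · have : w = [] := List.length_eq_zero_iff.1 h1
      subst this
      simp
    · have := (h.2 w.length h1 le_rfl).1
      exact this.le
  · exact ⟨(h.2 k h0 hk).1.le, (h.2 k h0 hk).2⟩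

/-- height and length of a chain -/
theorem chain_hx {n : ℕ} (f : Fin n → Wk D) :
    (hx (List.ofFn f).flatten : ℝ) = psm (fun i => Xw (f i)) n := by
  rw [hx_flatten_eq]
  exact full_sum f hx

theorem chain_len {n : ℕ} (f : Fin n → Wk D) :
    ((List.ofFn f).flatten.length : ℝ) = psm (fun i => Lw (f i)) n := by
  rw [length_flatten_eq, psm_full, List.map_ofFn, List.sum_ofFn]
  push_cast
  rfl

theorem rev_hx {n : ℕ} (f : Fin n → Wk D) :
    (hx (List.ofFn f).reverse.flatten : ℝ) = psm (fun i => Xw (f i)) n := by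
  rw [← chain_hx, hx_flatten_eq, hx_flatten_eq, List.map_reverse, List.sum_reverse]

theorem rev_len {n : ℕ} (f : Fin n → Wk D) :
    ((List.ofFn f).reverse.flatten.length : ℝ) = psm (fun i => Lw (f i)) n := by
  rw [← chain_len, length_flatten_eq, length_flatten_eq, List.map_reverse, List.sum_reverse]

theorem one_ne : (1 : Fin (D + 2)) ≠ 0 := by
  intro h
  have := congrArg Fin.val h
  simp at this

/-- lateral displacement inside a good block segment -/
theorem seg_lat {P : Par} (h0 : 0 < P.h) (t1 : 0 < P.θ1) (g : Fin P.N → Wk D)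
    (hg : BGood Lw Xw Yw P g) {k : ℕ} (hk : k ≤ (List.ofFn g).flatten.length) :
    |(pos (List.ofFn g).flatten k 1 : ℝ)| ≤ (P.θ1 + P.θ2) * P.h * P.N := by
  have e1 : 0 ≤ P.θ1 * P.h * P.N := by positivity
  rcases Nat.lt_or_ge k (List.ofFn g).flatten.length with h | h
  · obtain ⟨i, hi, k', hk', -, hp⟩ := pos_flatten (List.ofFn g) k h
    have hi' : i < P.N := by simpa using hi
    rw [hp 1]
    have h1 := hg.b2 ⟨1, one_ne⟩ i hi'.le
    have h2 := take_sum g (fun w => pos w w.length 1) hi'.le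
    have h3 : |(pos ((List.ofFn g)[i]) k' 1 : ℝ)| ≤ P.θ1 * P.h * P.N := by
      have h4 := hg.b1 ⟨i, hi'⟩
      have h5 : (List.ofFn g)[i] = g ⟨i, hi'⟩ := by simp
      rw [h5] at hk' ⊢
      have h6 := abs_pos_le (g ⟨i, hi'⟩) k' 1
      have h7 : |(pos (g ⟨i, hi'⟩) k' 1 : ℝ)| ≤ (k' : ℝ) := by exact_mod_cast h6
      have h8 : (k' : ℝ) ≤ ((g ⟨i, hi'⟩).length : ℝ) := by exact_mod_cast hk'.le
      exact h7.trans (h8.trans h4)
    rw [Int.cast_add, h2]
    calc _ ≤ |psm (fun i => ((fun w => pos w w.length 1) (g i) : ℝ)) i| +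
          |(pos ((List.ofFn g)[i]) k' 1 : ℝ)| := abs_add_le _ _
      _ ≤ P.θ2 * P.h * P.N + P.θ1 * P.h * P.N := add_le_add h1 h3
      _ = _ := by ring
  · have hk1 : k = (List.ofFn g).flatten.length := le_antisymm hk h
    rw [hk1, pos_end_flatten]
    have h1 := hg.b2 ⟨1, one_ne⟩ P.N le_rfl
    have h2 := full_sum g (fun w => pos w w.length 1)
    rw [h2]
    have h3 : |psm (fun i => ((fun w => pos w w.length 1) (g i) : ℝ)) P.N| ≤
      P.θ2 * P.h * P.N := h1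
    calc _ ≤ P.θ2 * P.h * P.N := h3
      _ ≤ _ := by
        have : (P.θ1 + P.θ2) * P.h * P.N = P.θ1 * P.h * P.N + P.θ2 * P.h * P.N := by ring
        linarith

/-- lateral displacement at the end of a good block segment -/
theorem seg_end {P : Par} (g : Fin P.N → Wk D) (hg : BGood Lw Xw Yw P g) :
    |(pos (List.ofFn g).flatten (List.ofFn g).flatten.length 1 : ℝ)| ≤ P.θ2 * P.h * P.N := by
  rw [pos_end_flatten, full_sum g (fun w => pos w w.length 1)]
  exact hg.b2 ⟨1, one_ne⟩ P.N le_rfl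

/-! ### the main statement -/

/-- the six parts -/
theorem main {R1 G1 G2 G3 G4 R2 : Wk D} {θ r rb rs rc tc ρ0 ρ4 ρ1 Q Hx ex : ℝ} {rn : ℕ}
    (hrn : r = rn)
    (bR : Br (R1 ++ (G1 ++ G2 ++ G3 ++ G4) ++ R2))
    (bR1 : Br R1) (bG1 : Br G1) (bG2 : Br G2) (bG3 : Br G3) (bG4 : Br G4) (bR2 : Br R2)
    (hG1 : ρ0 ≤ hx G1 ∧ (hx G1 : ℝ) ≤ ρ4) (hG2 : ρ0 ≤ hx G2 ∧ (hx G2 : ℝ) ≤ ρ4)
    (hG3 : ρ0 ≤ hx G3 ∧ (hx G3 : ℝ) ≤ ρ4) (hG4 : ρ0 ≤ hx G4 ∧ (hx G4 : ℝ) ≤ ρ4)
    (h4 : 4 * ρ4 ≤ ρ1) (hQ1 : Q ≤ hx R1) (hQ2 : Q ≤ hx R2)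
    (hH : (hx (R1 ++ (G1 ++ G2 ++ G3 ++ G4) ++ R2) : ℝ) ≤ Hx)
    (lG1 : ∀ k ≤ G1.length, |(pos G1 k 1 : ℝ)| ≤ rs)
    (lG2 : ∀ k ≤ G2.length, |(pos G2 k 1 : ℝ)| ≤ rs)
    (lG3 : ∀ k ≤ G3.length, |(pos G3 k 1 : ℝ)| ≤ rs)
    (lG4 : ∀ k ≤ G4.length, |(pos G4 k 1 : ℝ)| ≤ rs)
    (hrb : 4 * rs ≤ rb) (hrs : 0 ≤ rs)
    (l1 : ∀ k ≤ R1.length, |(pos R1 k 1 : ℝ) - pos R1 R1.length 1| ≤
      rc + tc * ((hx R1 : ℝ) - pos R1 k 0))
    (l2 : ∀ k ≤ R2.length, |(pos R2 k 1 : ℝ)| ≤ rc + tc * (pos R2 k 0 : ℝ))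
    (ht : 0 ≤ tc) (htθ : tc ≤ θ) (hr1 : rb ≤ r) (hr2 : rc + 2 * rb ≤ 2 * r)
    (hex : 4 * r + 2 * tc * Hx ≤ ex)
    (hm1 : mxY G1 - pos G1 G1.length 1 ≤ mxY G2) (hm2 : mxY G4 ≤ mxY G3 - pos G3 G3.length 1) :
    ∃ a : ℕ, RC rn θ ρ0 ρ1 Q ex (R1 ++ (G1 ++ G2 ++ G3 ++ G4) ++ R2) a := by
  set R : Wk D := R1 ++ (G1 ++ G2 ++ G3 ++ G4) ++ R2 with hR
  set s0 := R1.length with hs0
  set s1 := s0 + G1.length with hs1
  set s2 := s1 + G2.length with hs2
  set s3 := s2 + G3.length with hs3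
  set s4 := s3 + G4.length with hs4
  have hn : R.length = s4 + R2.length := by
    rw [hR]
    simp only [List.length_append]
    omega
  -- positions
  have p0 : ∀ k ≤ s0, ∀ j, pos R k j = pos R1 k j := by
    intro k hk j
    rw [hR, List.append_assoc, pos_append_left _ _ hk]
  have p1 : ∀ k ≤ G1.length, ∀ j, pos R (s0 + k) j = pos R s0 j + pos G1 k j := by
    intro k hk j
    have e : R = R1 ++ G1 ++ (G2 ++ G3 ++ G4 ++ R2) := by rw [hR]; simp [List.append_assoc]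
    rw [p0 s0 le_rfl, e, pos_mid _ _ _ hk]
  have p2 : ∀ k ≤ G2.length, ∀ j, pos R (s1 + k) j = pos R s1 j + pos G2 k j := by
    intro k hk j
    have e : R = (R1 ++ G1) ++ G2 ++ (G3 ++ G4 ++ R2) := by rw [hR]; simp [List.append_assoc]
    have e1 : s1 = (R1 ++ G1).length := by rw [hs1, List.length_append]
    have e2 : pos R s1 j = pos (R1 ++ G1) (R1 ++ G1).length j := by
      rw [e, e1, List.append_assoc, pos_append_left _ _ le_rfl]
    rw [e2, e, e1, pos_mid _ _ _ hk]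
  have p3 : ∀ k ≤ G3.length, ∀ j, pos R (s2 + k) j = pos R s2 j + pos G3 k j := by
    intro k hk j
    have e : R = (R1 ++ G1 ++ G2) ++ G3 ++ (G4 ++ R2) := by rw [hR]; simp [List.append_assoc]
    have e1 : s2 = (R1 ++ G1 ++ G2).length := by
      rw [hs2, hs1, List.length_append, List.length_append]
    have e2 : pos R s2 j = pos (R1 ++ G1 ++ G2) (R1 ++ G1 ++ G2).length j := by
      rw [e, e1, List.append_assoc, pos_append_left _ _ le_rfl]
    rw [e2, e, e1, pos_mid _ _ _ hk]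
  have p4 : ∀ k ≤ G4.length, ∀ j, pos R (s3 + k) j = pos R s3 j + pos G4 k j := by
    intro k hk j
    have e : R = (R1 ++ G1 ++ G2 ++ G3) ++ G4 ++ R2 := by rw [hR]; simp [List.append_assoc]
    have e1 : s3 = (R1 ++ G1 ++ G2 ++ G3).length := by
      rw [hs3, hs2, hs1, List.length_append, List.length_append, List.length_append]
    have e2 : pos R s3 j = pos (R1 ++ G1 ++ G2 ++ G3) (R1 ++ G1 ++ G2 ++ G3).length j := by
      rw [e, e1, List.append_assoc, pos_append_left _ _ le_rfl]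
    rw [e2, e, e1, pos_mid _ _ _ hk]
  have p5 : ∀ k ≤ R2.length, ∀ j, pos R (s4 + k) j = pos R s4 j + pos R2 k j := by
    intro k hk j
    have e1 : s4 = (R1 ++ (G1 ++ G2 ++ G3 ++ G4)).length := by
      simp only [List.length_append]
      omega
    have e2 : pos R s4 j = pos (R1 ++ (G1 ++ G2 ++ G3 ++ G4))
        (R1 ++ (G1 ++ G2 ++ G3 ++ G4)).length j := by
      rw [hR, e1, pos_append_left _ _ le_rfl]
    rw [e2, hR, e1, pos_append_right]
  have q1 := p1 _ le_rfl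
  have q2 := p2 _ le_rfl
  have q3 := p3 _ le_rfl
  have q4 := p4 _ le_rfl
  have q5 := p5 _ le_rfl
  rw [← hs1] at q1
  rw [← hs2] at q2
  rw [← hs3] at q3
  rw [← hs4] at q4
  rw [← hn] at q5
  -- height intervals
  have seg : ∀ (G : Wk D) (s s' : ℕ), Br G → s' = s + G.length →
      (∀ k ≤ G.length, ∀ j, pos R (s + k) j = pos R s j + pos G k j) →
      ∀ i, s ≤ i → i ≤ s' → (pos R s 0 : ℝ) ≤ pos R i 0 ∧ (pos R i 0 : ℝ) ≤ pos R s' 0 := by
    intro G s s' hG hs' hp i hi1 hi2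
    obtain ⟨k, rfl⟩ := Nat.exists_eq_add_of_le hi1
    have hk : k ≤ G.length := by omega
    have h1 := br_height hG hk
    have h2 := hp k hk 0
    have h3 := hp _ le_rfl 0
    rw [← hs'] at h3
    unfold hx at h1
    constructor
    · have : pos R s 0 ≤ pos R (s + k) 0 := by rw [h2]; linarith [h1.1]
      exact_mod_cast this
    · have : pos R (s + k) 0 ≤ pos R s' 0 := by rw [h2, h3]; linarith [h1.2]
      exact_mod_cast this
  -- lateral
  have lat : ∀ (G : Wk D) (s s' : ℕ), s' = s + G.length →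
      (∀ k ≤ G.length, ∀ j, pos R (s + k) j = pos R s j + pos G k j) →
      (∀ k ≤ G.length, |(pos G k 1 : ℝ)| ≤ rs) →
      ∀ i, s ≤ i → i ≤ s' → |(pos R i 1 : ℝ) - pos R s 1| ≤ rs := by
    intro G s s' hs' hp hl i hi1 hi2
    obtain ⟨k, rfl⟩ := Nat.exists_eq_add_of_le hi1
    have hk : k ≤ G.length := by omega
    rw [hp k hk 1, Int.cast_add, add_sub_cancel_left]
    exact hl k hk
  have lt1 := lat G1 s0 s1 hs1 p1 lG1
  have lt2 := lat G2 s1 s2 hs2 p2 lG2
  have lt3 := lat G3 s2 s3 hs3 p3 lG3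
  have lt4 := lat G4 s3 s4 hs4 p4 lG4
  have z1 := lt1 s1 (by omega) le_rfl
  have z2 := lt2 s2 (by omega) le_rfl
  have z3 := lt3 s3 (by omega) le_rfl
  -- the maximum
  obtain ⟨a, ha, hamax⟩ := Finset.exists_max_image (Finset.Icc s1 s3) (fun i => pos R i 1)
    ⟨s1, Finset.mem_Icc.2 ⟨le_rfl, by omega⟩⟩
  rw [Finset.mem_Icc] at ha
  have hmax : ∀ i, s0 ≤ i → i ≤ s4 → pos R i 1 ≤ pos R a 1 := by
    intro i hi1 hi2
    rcases le_total i s1 with h | h
    · obtain ⟨k, rfl⟩ := Nat.exists_eq_add_of_le hi1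
      have hk : k ≤ G1.length := by omega
      obtain ⟨k', hk', e⟩ := exists_mxY G2
      have h1 := hamax (s1 + k') (Finset.mem_Icc.2 ⟨by omega, by omega⟩)
      rw [p2 k' hk', q1 1, ← e] at h1
      rw [p1 k hk]
      have h2 := le_mxY G1 hk
      linarith
    · rcases le_total i s3 with h' | h'
      · exact hamax i (Finset.mem_Icc.2 ⟨h, h'⟩)
      · obtain ⟨k, rfl⟩ := Nat.exists_eq_add_of_le h'
        have hk : k ≤ G4.length := by omega
        obtain ⟨k', hk', e⟩ := exists_mxY G3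
        have h1 := hamax (s2 + k') (Finset.mem_Icc.2 ⟨by omega, by omega⟩)
        rw [p3 k' hk', ← e] at h1
        rw [p4 k hk, q3 1]
        have h2 := le_mxY G4 hk
        linarith
  have hxR : pos R R.length 0 = hx R := rfl
  have c := core (x := fun i => (pos R i 0 : ℝ)) (y := fun i => (pos R i 1 : ℝ))
    (s0 := s0) (s1 := s1) (s2 := s2) (s3 := s3) (s4 := s4) (n := R.length)
    (r := r) (ρ0 := ρ0) (ρ1 := ρ1) (Q := Q) (tc := tc) (θ := θ) (rb := rb) (rc := rc) (Hx := Hx)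
    (by omega) (by omega) (by omega) (by omega) (by omega)
    (by
      intro i hi
      have h1 := br_height bR1 hi
      rw [p0 i hi, p0 s0 le_rfl]
      unfold hx at h1
      exact ⟨by exact_mod_cast h1.1, by exact_mod_cast h1.2⟩)
    (seg G1 s0 s1 bG1 hs1 p1) (seg G2 s1 s2 bG2 hs2 p2) (seg G3 s2 s3 bG3 hs3 p3)
    (seg G4 s3 s4 bG4 hs4 p4) (seg R2 s4 R.length bR2 hn p5)
    (by
      rw [q1 0]
      have := hG1.1
      unfold hx at this
      push_cast
      linarith)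
    (by
      rw [q4 0]
      have := hG4.1
      unfold hx at this
      push_cast
      linarith)
    (by
      rw [q4 0, q3 0, q2 0, q1 0]
      have e1 := hG1.2
      have e2 := hG2.2
      have e3 := hG3.2
      have e4 := hG4.2
      unfold hx at e1 e2 e3 e4
      push_cast
      linarith)
    (by
      rw [p0 s0 le_rfl]
      exact hQ1)
    (by
      rw [q5 0]
      unfold hx at hQ2
      push_cast
      linarith)
    (by rw [hxR]; exact hH)
    (by
      intro i hi1 hi2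
      rcases le_total i s1 with h | h
      · exact (lt1 i hi1 h).trans (by linarith)
      · rcases le_total i s2 with h' | h'
        · have e := lt2 i h h'
          rw [abs_le] at e z1 ⊢
          constructor <;> linarith
        · rcases le_total i s3 with h'' | h''
          · have e := lt3 i h' h''
            rw [abs_le] at e z1 z2 ⊢
            constructor <;> linarith
          · have e := lt4 i h'' hi2
            rw [abs_le] at e z1 z2 z3 ⊢
            constructor <;> linarith)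
    (by
      intro i hi
      have := l1 i hi
      rw [p0 i hi, p0 i hi, p0 s0 le_rfl, p0 s0 le_rfl]
      exact this)
    (by
      intro i hi1 hi2
      obtain ⟨k, rfl⟩ := Nat.exists_eq_add_of_le hi1
      have hk : k ≤ R2.length := by omega
      have := l2 k hk
      rw [p5 k hk, p5 k hk, Int.cast_add, Int.cast_add, add_sub_cancel_left,
        add_sub_cancel_left]
      exact this)
    ht htθ hr1 hr2 (by linarith) ha.1 ha.2
    (by
      intro i hi1 hi2
      exact_mod_cast hmax i hi1 hi2)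
  obtain ⟨c1, c2, c3, c4, c5⟩ := c
  rw [hxR] at c4
  refine ⟨a, ⟨bR, by omega, ?_, ?_, c3, c4, ?_⟩⟩
  · intro i hi
    rcases c1 i hi with h | h
    · refine Or.inl ⟨by exact_mod_cast h.1, h.2.1, ?_⟩
      rw [← hrn]
      exact h.2.2
    · rw [← hrn]
      exact Or.inr h
  · intro i hi hi2
    rcases c2 i hi hi2 with h | h
    · refine Or.inl ⟨by exact_mod_cast h.1, h.2.1, ?_⟩
      rw [← hrn]
      exact h.2.2
    · rw [← hrn]
      exact Or.inr h
  · intro i hi i' hi'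
    exact (c5 i hi i' hi').trans hex

end RCOND_

open RCOND_ in
theorem p_RCOND (h_BFL : T_BFL) (h_CONEF : T_CONEF) (h_CONEB : T_CONEB) : T_RCOND := by
  intro D P n₁ n₂ r θ f₁ g₁ g₂ g₃ g₄ f₂ h0 t1 t2 hB hN hn1 hn2 if₁ ig₁ ig₂ ig₃ ig₄ if₂ G₁ G₂
    B₁ B₂ B₃ B₄ m₁ m₂ hr hθ
  have hNr : (1 : ℝ) ≤ P.N := by exact_mod_cast hN
  have hn1r : (P.N : ℝ) ≤ n₁ := by exact_mod_cast hn1
  have hn2r : (n₁ : ℝ) ≤ n₂ := by exact_mod_cast hn2
  -- the pieces
  set R1 : Wk D := (List.ofFn f₁).reverse.flatten with hR1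
  set H1 : Wk D := (List.ofFn g₁).flatten with hH1
  set H2 : Wk D := (List.ofFn g₂).flatten with hH2
  set H3 : Wk D := (List.ofFn g₃).flatten with hH3
  set H4 : Wk D := (List.ofFn g₄).flatten with hH4
  set R2 : Wk D := (List.ofFn f₂).flatten with hR2
  have hfl : (Rl f₁ g₁ g₂ g₃ g₄ f₂).flatten = R1 ++ (H1 ++ H2 ++ H3 ++ H4) ++ R2 := by
    unfold Rl
    simp only [List.flatten_append]
    rfl
  have brl : ∀ {n : ℕ} (f : Fin n → Wk D), (∀ i, Irr (f i)) → Br (List.ofFn f).flatten := by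
    intro n f hf
    refine (h_BFL D (List.ofFn f) ?_).1
    intro w hw
    obtain ⟨i, rfl⟩ := (List.mem_ofFn' f w).1 hw
    exact (hf i).1
  have bR1 : Br R1 := by
    refine (h_BFL D (List.ofFn f₁).reverse ?_).1
    intro w hw
    obtain ⟨i, rfl⟩ := (List.mem_ofFn' f₁ w).1 (List.mem_reverse.1 hw)
    exact (if₁ i).1
  have bH1 := brl g₁ ig₁
  have bH2 := brl g₂ ig₂
  have bH3 := brl g₃ ig₃
  have bH4 := brl g₄ ig₄
  have bR2 := brl f₂ if₂
  have bR : Br (R1 ++ (H1 ++ H2 ++ H3 ++ H4) ++ R2) := by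
    have h1 := (h_BFL D [R1, H1, H2, H3, H4, R2] (by
      intro w hw
      simp only [List.mem_cons, List.not_mem_nil, or_false] at hw
      rcases hw with rfl | rfl | rfl | rfl | rfl | rfl
      exacts [bR1, bH1, bH2, bH3, bH4, bR2])).1
    have h2 : ([R1, H1, H2, H3, H4, R2] : List (Wk D)).flatten =
        R1 ++ (H1 ++ H2 ++ H3 ++ H4) ++ R2 := by
      simp [List.append_assoc]
    rwa [h2] at h1
  -- heights and lengths
  have eR1 := rev_hx f₁
  have eR2 := chain_hx f₂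
  have hb : ∀ g : Fin P.N → Wk D, BGood Lw Xw Yw P g →
      P.h / 4 * P.N ≤ (hx (List.ofFn g).flatten : ℝ) ∧
      (hx (List.ofFn g).flatten : ℝ) ≤ 4000 * P.B * P.h * P.N := by
    intro g hg
    rw [chain_hx]
    exact ⟨hg.b3, hg.b5⟩
  have hl : ∀ g : Fin P.N → Wk D, BGood Lw Xw Yw P g →
      ((List.ofFn g).flatten.length : ℝ) ≤ 4000 * P.A * P.h * P.N := by
    intro g hg
    rw [chain_len]
    exact hg.b4
  have k1 := hb g₁ B₁
  have k2 := hb g₂ B₂
  have k3 := hb g₃ B₃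
  have k4 := hb g₄ B₄
  have j1 := hl g₁ B₁
  have j2 := hl g₂ B₂
  have j3 := hl g₃ B₃
  have j4 := hl g₄ B₄
  have hHx : (hx (R1 ++ (H1 ++ H2 ++ H3 ++ H4) ++ R2) : ℝ) ≤
      64 * P.B * P.h * (n₁ + n₂) + 16000 * P.B * P.h * P.N := by
    simp only [hx_append]
    push_cast
    have e1 := G₁.g5
    have e2 := G₂.g5
    rw [← rev_hx] at e1
    rw [← chain_hx] at e2
    have : 64 * P.B * P.h * ((n₁ : ℝ) + n₂) + 16000 * P.B * P.h * P.N =
      64 * P.B * P.h * n₁ + 64 * P.B * P.h * n₂ + 4 * (4000 * P.B * P.h * P.N) := by ring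
    rw [this]
    linarith [k1.2, k2.2, k3.2, k4.2]
  have hLx : ((R1 ++ (H1 ++ H2 ++ H3 ++ H4) ++ R2).length : ℝ) ≤
      64 * P.A * P.h * (n₁ + n₂) + 16000 * P.A * P.h * P.N := by
    simp only [List.length_append]
    push_cast
    have e1 := G₁.g4
    have e2 := G₂.g4
    rw [← rev_len] at e1
    rw [← chain_len] at e2
    have : 64 * P.A * P.h * ((n₁ : ℝ) + n₂) + 16000 * P.A * P.h * P.N =
      64 * P.A * P.h * n₁ + 64 * P.A * P.h * n₂ + 4 * (4000 * P.A * P.h * P.N) := by ring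
    rw [this]
    linarith [j1, j2, j3, j4]
  rw [hfl]
  refine ⟨?_, hHx, hLx⟩
  have tp : 0 < P.θ1 + P.θ2 := by linarith
  have thN : 0 ≤ (P.θ1 + P.θ2) * P.h * P.N := by positivity
  have th : 0 ≤ (P.θ1 + P.θ2) * P.h := by positivity
  have hrr : 8 * ((P.θ1 + P.θ2) * P.h * P.N) + 8 * ((P.θ1 + P.θ2) * P.h) ≤ r := by
    have : 8 * (P.θ1 + P.θ2) * P.h * (P.N + 1) =
      8 * ((P.θ1 + P.θ2) * P.h * P.N) + 8 * ((P.θ1 + P.θ2) * P.h) := by ring
    linarith
  refine main (r := (r : ℝ)) (rb := 4 * ((P.θ1 + P.θ2) * P.h * P.N))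
    (rs := (P.θ1 + P.θ2) * P.h * P.N) (rc := (P.θ1 + P.θ2) * P.h * (P.N + 1))
    (tc := 4 * (P.θ1 + P.θ2)) (ρ4 := 4000 * P.B * P.h * P.N)
    (Hx := 64 * P.B * P.h * (n₁ + n₂) + 16000 * P.B * P.h * P.N)
    rfl bR bR1 bH1 bH2 bH3 bH4 bR2 k1 k2 k3 k4 (by linarith) ?_ ?_ hHx
    (fun k hk => seg_lat h0 t1 g₁ B₁ hk) (fun k hk => seg_lat h0 t1 g₂ B₂ hk)
    (fun k hk => seg_lat h0 t1 g₃ B₃ hk) (fun k hk => seg_lat h0 t1 g₄ B₄ hk)
    le_rfl thN ?_ ?_ (by linarith) hθ ?_ ?_ ?_ ?_ ?_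
  · have h1 := G₁.g3 n₁ le_rfl hn1
    rw [eR1]
    exact h1
  · have h1 := G₂.g3 n₂ le_rfl (hn1.trans hn2)
    rw [eR2]
    have h2 : P.h / 4 * n₁ ≤ P.h / 4 * n₂ := mul_le_mul_of_nonneg_left hn2r (by linarith)
    exact h2.trans h1
  · intro k hk
    exact h_CONEB D P n₁ f₁ h0 t1 t2 (fun i => (if₁ i).1) G₁ k hk 1 one_ne
  · intro k hk
    exact h_CONEF D P n₂ f₂ h0 t1 t2 (fun i => (if₂ i).1) G₂ k hk 1 one_ne
  · linarith
  · have : (P.θ1 + P.θ2) * P.h * (P.N + 1) = (P.θ1 + P.θ2) * P.h * P.N + (P.θ1 + P.θ2) * P.h := by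
      ring
    rw [this]
    linarith
  · have : 2 * (4 * (P.θ1 + P.θ2)) * (64 * P.B * P.h * (n₁ + n₂) + 16000 * P.B * P.h * P.N) =
      8 * (P.θ1 + P.θ2) * (64 * P.B * P.h * (n₁ + n₂) + 16000 * P.B * P.h * P.N) := by ring
    linarith
  · have := m₁
    unfold bbB aaB at this
    exact_mod_cast this
  · have := m₂
    unfold bbB aaB at this
    exact_mod_cast this

end Pool.Agent.SBW
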