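import Pool.Agent.SBW.Targets

set_option autoImplicit false

/-!
# MP_b5172a_pr: REN, the renewal equation
-/

open scoped Classical

noncomputable section

namespace Pool.Agent.SBW

namespace REN_

variable {D : ℕ}

theorem cut_restrict {u v : Wk D} {k : ℕ} (hk : k ≤ u.length) (h : Cut (u ++ v) k) :
    Cut u k := by
  refine ⟨hk, fun i hi => ?_, fun i hi hi' => ?_⟩
  · have := h.2.1 i hi
    rwa [pos_append_left _ _ (by omega), pos_append_left _ _ hk] at this
  · have := h.2.2 i hi (by rw [List.length_append]; omega)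
    rwa [pos_append_left _ _ hi', pos_append_left _ _ hk] at this

theorem irr_len_le {u v : Wk D} {k : ℕ} (hu : Irr u) (hk : 0 < k) (h : Cut (u ++ v) k) :
    u.length ≤ k := by
  by_contra hlt
  push Not at hlt
  exact hu.2.2 k hk hlt (cut_restrict hlt.le h)

theorem cut_end {w : Wk D} (h : Br w) : Cut w w.length := by
  refine ⟨le_rfl, fun i hi => ?_, fun i hi hi' => by omega⟩
  rcases Nat.eq_zero_or_pos i with h0 | h0
  · subst h0
    rcases Nat.eq_zero_or_pos w.length with h1 | h1
    · rw [h1]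
    · have := h.2 _ h1 le_rfl
      rw [pos_zero]
      exact this.1.le
  · exact (h.2 i h0 hi).2

/-- decomposition of a nonempty bridge at its first cut time -/
theorem exists_dec (hC : T_BCUT) {w : Wk D} (h : Br w) (hn : 1 ≤ w.length) :
    ∃ k, 1 ≤ k ∧ k ≤ w.length ∧ Irr (w.take k) ∧ Br (w.drop k) := by
  have hex : ∃ k, 0 < k ∧ Cut w k := ⟨w.length, hn, cut_end h⟩
  obtain ⟨h1, h2⟩ := Nat.find_spec hex
  set k := Nat.find hex with hk
  obtain ⟨h3, h4⟩ := hC D w k h h2
  refine ⟨k, h1, h2.1, ⟨h3, ?_, ?_⟩, h4⟩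
  · rw [List.length_take]
    have := h2.1
    omega
  · intro j hj hj' hcut
    rw [List.length_take] at hj'
    have hjk : j < k := by omega
    apply Nat.find_min hex hjk
    refine ⟨hj, by have := h2.1; omega, fun i hi => ?_, fun i hi hi' => ?_⟩
    · have := hcut.2.1 i hi
      rwa [pos_take_of_le _ (by omega), pos_take_of_le _ (by omega)] at this
    · rcases Nat.lt_or_ge k i with hki | hki
      · have h5 := h2.2.2 i hki hi'
        have h6 := h2.2.1 j hjk.le
        omega
      · have := hcut.2.2 i hi (by rw [List.length_take]; omega)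
        rwa [pos_take_of_le _ (by omega), pos_take_of_le _ (by omega)] at this

end REN_

open REN_

theorem p_REN (hA : T_BAPP) (hC : T_BCUT) : T_REN := by
  intro D n t hn
  unfold bS aS
  simp_rw [Finset.sum_mul_sum, ← Finset.sum_product']
  rw [Finset.sum_sigma']
  symm
  refine Finset.sum_nbij (fun q => q.2.1 ++ q.2.2) ?_ ?_ ?_ ?_
  · rintro ⟨k, u, v⟩ hq
    simp only [Finset.mem_sigma, Finset.mem_Icc, Finset.mem_product, mem_IrF, mem_BrF] at hq ⊢
    obtain ⟨⟨h1, h2⟩, ⟨h3, h4⟩, h5, h6⟩ := hq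
    refine ⟨?_, (hA D u v h4.1 h6).1⟩
    rw [List.length_append]
    omega
  · rintro ⟨k, u, v⟩ hq ⟨k', u', v'⟩ hq' he
    simp only [Finset.coe_sigma, Set.mem_sigma_iff, Finset.coe_product, Set.mem_prod,
      Finset.mem_coe, Finset.mem_Icc, mem_IrF, mem_BrF] at hq hq' he
    obtain ⟨⟨h1, h2⟩, ⟨h3, h4⟩, h5, h6⟩ := hq
    obtain ⟨⟨h1', h2'⟩, ⟨h3', h4'⟩, h5', h6'⟩ := hq'
    have hc := (hA D u v h4.1 h6).2
    have hc' := (hA D u' v' h4'.1 h6').2
    have ha : u'.length ≤ u.length := by
      refine irr_len_le (v := v') h4' h4.2.1 ?_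
      rw [← he]
      exact hc
    have hb : u.length ≤ u'.length := by
      refine irr_len_le (v := v) h4 h4'.2.1 ?_
      rw [he]
      exact hc'
    have hlen : u.length = u'.length := le_antisymm hb ha
    obtain ⟨e1, e2⟩ := List.append_inj he hlen
    subst e1 e2
    have hk : k = k' := by rw [← h3, ← h3']
    subst hk
    rfl
  · intro w hw
    rw [Finset.mem_coe, mem_BrF] at hw
    obtain ⟨k, h1, h2, h3, h4⟩ := exists_dec hC hw.2 (by omega)
    refine ⟨⟨k, (w.take k, w.drop k)⟩, ?_, List.take_append_drop k w⟩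
    simp only [Finset.coe_sigma, Set.mem_sigma_iff, Finset.coe_product, Set.mem_prod,
      Finset.mem_coe, Finset.mem_Icc, mem_IrF, mem_BrF]
    refine ⟨⟨h1, by omega⟩, ⟨?_, h3⟩, ?_, h4⟩
    · rw [List.length_take]; omega
    · rw [List.length_drop]; omega
  · rintro ⟨k, u, v⟩ hq
    simp only
    rw [hx_append, ← Real.exp_add]
    congr 1
    push_cast
    ring

end Pool.Agent.SBW
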