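import Pool.Agent.SBW.Targets

set_option autoImplicit false

/-!
# MP_b5172a_pr: the stick stays in a cone seen from both ends (SCONE)
-/

open scoped Classical

noncomputable section

namespace Pool.Agent.SBW

namespace SCONE_

theorem psm_full {n : ℕ} (g : Fin n → ℝ) : psm g n = ∑ i, g i := by
  unfold psm
  apply Finset.sum_congr rfl
  intro i _
  rw [if_pos i.2]

theorem hx_ofFn {D n : ℕ} (f : Fin n → Wk D) :
    ((hx (List.ofFn f).flatten : ℤ) : ℝ) = psm (fun i => Xw (f i)) n := by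
  rw [psm_full, hx_flatten_eq, List.map_ofFn, List.sum_ofFn]
  simp [Xw]

theorem hx_rev {D n : ℕ} (f : Fin n → Wk D) :
    ((hx (List.ofFn f).reverse.flatten : ℤ) : ℝ) = psm (fun i => Xw (f i)) n := by
  rw [← hx_ofFn, hx_flatten_eq, hx_flatten_eq, List.map_reverse, List.sum_reverse]

theorem len_ofFn {D n : ℕ} (f : Fin n → Wk D) :
    (((List.ofFn f).flatten.length : ℕ) : ℝ) = psm (fun i => Lw (f i)) n := by
  rw [psm_full, length_flatten_eq, List.map_ofFn, List.sum_ofFn]
  simp [Lw]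

theorem len_rev {D n : ℕ} (f : Fin n → Wk D) :
    (((List.ofFn f).reverse.flatten.length : ℕ) : ℝ) = psm (fun i => Lw (f i)) n := by
  rw [← len_ofFn, length_flatten_eq, length_flatten_eq, List.map_reverse, List.sum_reverse]

theorem br_pos_nonneg {D : ℕ} {w : Wk D} (h : Br w) {k : ℕ} (hk : k ≤ w.length) :
    0 ≤ pos w k 0 := by
  rcases Nat.eq_zero_or_pos k with h0 | h0
  · subst h0; simp
  · exact (h.2 k h0 hk).1.le

theorem br_hx_nonneg {D : ℕ} {w : Wk D} (h : Br w) : 0 ≤ hx w := br_pos_nonneg h le_rfl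

theorem br_pos_le {D : ℕ} {w : Wk D} (h : Br w) {k : ℕ} (hk : k ≤ w.length) :
    pos w k 0 ≤ hx w := by
  rcases Nat.eq_zero_or_pos k with h0 | h0
  · subst h0; simpa using br_hx_nonneg h
  · exact (h.2 k h0 hk).2

end SCONE_

open SCONE_

theorem p_SCONE : T_BFL → T_CONEF → T_CONEB → T_SCONE := by
  intro hBFL hF hB D P J r θ s₁ s₂ hh h1 h2 hB1 hN1 hNJ hi1 hi2 g1 g2 hr hθ
  have hbr1 : ∀ i, Br (s₁ i) := fun i => (hi1 i).1
  have hbr2 : ∀ i, Br (s₂ i) := fun i => (hi2 i).1
  have hfl : (Sl s₁ s₂).flatten = (List.ofFn s₁).flatten ++ (List.ofFn s₂).reverse.flatten := by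
    simp [Sl]
  have hb1 : Br (List.ofFn s₁).flatten := (hBFL D (List.ofFn s₁) (by
    intro w hw
    rw [List.mem_ofFn] at hw
    obtain ⟨i, rfl⟩ := hw
    exact hbr1 i)).1
  have hb2 : Br (List.ofFn s₂).reverse.flatten := (hBFL D (List.ofFn s₂).reverse (by
    intro w hw
    rw [List.mem_reverse, List.mem_ofFn] at hw
    obtain ⟨i, rfl⟩ := hw
    exact hbr2 i)).1
  have hb : Br (Sl s₁ s₂).flatten := (hBFL D (Sl s₁ s₂) (by
    intro w hw
    rw [Sl, List.mem_append, List.mem_reverse, List.mem_ofFn, List.mem_ofFn] at hw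
    rcases hw with ⟨i, rfl⟩ | ⟨i, rfl⟩
    · exact hbr1 i
    · exact hbr2 i)).1
  have cF := hF D P J s₁ hh h1 h2 hbr1 g1
  have cB := hB D P J s₂ hh h1 h2 hbr2 g2
  have e1 := hx_ofFn s₁
  have e2 := hx_rev s₂
  have l1 := len_ofFn s₁
  have l2 := len_rev s₂
  have a1 := g1.g3 J le_rfl hNJ
  have a2 := g2.g3 J le_rfl hNJ
  have a3 := g1.g5
  have a4 := g2.g5
  have a5 := g1.g4
  have a6 := g2.g4
  rw [hfl] at hb ⊢
  set S1 := (List.ofFn s₁).flatten with hS1
  set S2 := (List.ofFn s₂).reverse.flatten with hS2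
  rw [← e1] at a1 a3
  rw [← e2] at a2 a4
  rw [← l1] at a5
  rw [← l2] at a6
  have hsum : ((hx (S1 ++ S2) : ℤ) : ℝ) = (hx S1 : ℝ) + hx S2 := by
    rw [hx_append]; push_cast; ring
  have hJ : (0 : ℝ) ≤ P.h / 4 * J := by positivity
  -- comparisons of the two heights
  have c12 : (hx S2 : ℝ) ≤ 256 * P.B * hx S1 := by
    calc (hx S2 : ℝ) ≤ 64 * P.B * P.h * J := a4
      _ = 256 * P.B * (P.h / 4 * J) := by ring
      _ ≤ 256 * P.B * hx S1 := by
          apply mul_le_mul_of_nonneg_left a1; linarith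
  have c21 : (hx S1 : ℝ) ≤ 256 * P.B * hx S2 := by
    calc (hx S1 : ℝ) ≤ 64 * P.B * P.h * J := a3
      _ = 256 * P.B * (P.h / 4 * J) := by ring
      _ ≤ 256 * P.B * hx S2 := by
          apply mul_le_mul_of_nonneg_left a2; linarith
  set rc := (P.θ1 + P.θ2) * P.h * (P.N + 1) with hrc
  set tc := 4 * (P.θ1 + P.θ2) with htc
  have hrc0 : 0 ≤ rc := by rw [hrc]; positivity
  have htc0 : 0 ≤ tc := by rw [htc]; positivity
  have hr3 : 3 * rc ≤ r := by
    calc 3 * rc = 3 * (P.θ1 + P.θ2) * P.h * (P.N + 1) := by rw [hrc]; ring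
      _ ≤ r := hr
  have hθ0 : 0 ≤ θ := le_trans (mul_nonneg htc0 (by linarith)) hθ
  have htθ : tc ≤ θ := by
    refine le_trans ?_ hθ
    have : tc * 1 ≤ tc * (1 + 512 * P.B) := mul_le_mul_of_nonneg_left (by linarith) htc0
    linarith
  have hH1 : (0 : ℝ) ≤ hx S1 := by exact_mod_cast br_hx_nonneg hb1
  have hH2 : (0 : ℝ) ≤ hx S2 := by exact_mod_cast br_hx_nonneg hb2
  have mj : ∀ j : Fin (D + 2), j ≠ 0 → |(pos S1 S1.length j : ℝ)| ≤ rc + tc * hx S1 := by
    intro j hj
    exact cF S1.length le_rfl j hj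
  have mEj : ∀ j : Fin (D + 2), j ≠ 0 → |(pos S2 S2.length j : ℝ)| ≤ rc + tc * hx S2 := by
    intro j hj
    have := cB 0 (Nat.zero_le _) j hj
    simp only [pos_zero, Int.cast_zero, zero_sub, abs_neg, sub_zero] at this
    exact this
  have big1 : 3 * rc + tc * hx S1 + tc * (2 * hx S2) ≤ r + θ * hx S1 := by
    have q1 : tc * (2 * hx S2) ≤ tc * (512 * P.B * hx S1) := by
      apply mul_le_mul_of_nonneg_left _ htc0; linarith
    have q2 : tc * (1 + 512 * P.B) * hx S1 ≤ θ * hx S1 := mul_le_mul_of_nonneg_right hθ hH1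
    nlinarith
  have big2 : 3 * rc + tc * hx S2 + tc * (2 * hx S1) ≤ r + θ * hx S2 := by
    have q1 : tc * (2 * hx S1) ≤ tc * (512 * P.B * hx S2) := by
      apply mul_le_mul_of_nonneg_left _ htc0; linarith
    have q2 : tc * (1 + 512 * P.B) * hx S2 ≤ θ * hx S2 := mul_le_mul_of_nonneg_right hθ hH2
    nlinarith
  refine ⟨⟨hb, ?_, ?_⟩, ?_, ?_, ?_⟩
  · intro i hi j hj
    rcases Nat.le_total i S1.length with hle | hge
    · rw [pos_append_left _ _ hle, pos_append_left _ _ hle]
      have q := cF i hle j hj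
      have q0 : (0 : ℝ) ≤ pos S1 i 0 := by exact_mod_cast br_pos_nonneg hb1 hle
      have q1 : tc * (pos S1 i 0 : ℝ) ≤ θ * pos S1 i 0 := mul_le_mul_of_nonneg_right htθ q0
      linarith
    · obtain ⟨k, rfl⟩ := Nat.exists_eq_add_of_le hge
      have hk : k ≤ S2.length := by rw [List.length_append] at hi; omega
      rw [pos_append_right, pos_append_right]
      have q0 : (0 : ℝ) ≤ pos S2 k 0 := by exact_mod_cast br_pos_nonneg hb2 hk
      have q := cB k hk j hj
      have m1 := mj j hj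
      have m2 := mEj j hj
      have hh1 : pos S1 S1.length 0 = hx S1 := rfl
      rw [hh1]
      push_cast
      have t1 : |(pos S1 S1.length j : ℝ) + pos S2 k j| ≤
          |(pos S1 S1.length j : ℝ)| + |(pos S2 k j : ℝ) - pos S2 S2.length j| +
            |(pos S2 S2.length j : ℝ)| := by
        have : (pos S1 S1.length j : ℝ) + pos S2 k j = pos S1 S1.length j +
          ((pos S2 k j : ℝ) - pos S2 S2.length j) + pos S2 S2.length j := by ring
        rw [this]
        exact (abs_add_le _ _).trans (add_le_add_left (abs_add_le _ _) _)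
      have q3 : tc * ((hx S2 : ℝ) - pos S2 k 0) ≤ tc * hx S2 :=
        mul_le_mul_of_nonneg_left (by linarith) htc0
      have q4 : θ * (hx S1 : ℝ) ≤ θ * (hx S1 + pos S2 k 0) :=
        mul_le_mul_of_nonneg_left (by linarith) hθ0
      linarith
  · intro i hi j hj
    have hend : pos (S1 ++ S2) (S1 ++ S2).length j = pos S1 S1.length j + pos S2 S2.length j :=
      pos_end_append S1 S2 j
    rw [hend, hsum]
    rcases Nat.le_total i S1.length with hle | hge
    · rw [pos_append_left _ _ hle, pos_append_left _ _ hle]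
      have q := cF i hle j hj
      have q0 : (0 : ℝ) ≤ pos S1 i 0 := by exact_mod_cast br_pos_nonneg hb1 hle
      have q0' : (pos S1 i 0 : ℝ) ≤ hx S1 := by exact_mod_cast br_pos_le hb1 hle
      have m1 := mj j hj
      have m2 := mEj j hj
      push_cast
      have t1 : |(pos S1 i j : ℝ) - (pos S1 S1.length j + pos S2 S2.length j)| ≤
          |(pos S1 i j : ℝ)| + |(pos S1 S1.length j : ℝ)| + |(pos S2 S2.length j : ℝ)| := by
        have : (pos S1 i j : ℝ) - (pos S1 S1.length j + pos S2 S2.length j) = pos S1 i j +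
          (-(pos S1 S1.length j : ℝ)) + (-(pos S2 S2.length j : ℝ)) := by ring
        rw [this]
        refine (abs_add_le _ _).trans ?_
        rw [abs_neg]
        refine add_le_add_left ((abs_add_le _ _).trans ?_) _
        rw [abs_neg]
      have q3 : tc * (pos S1 i 0 : ℝ) ≤ tc * hx S1 := mul_le_mul_of_nonneg_left q0' htc0
      have q4 : θ * (hx S2 : ℝ) ≤ θ * (hx S1 + hx S2 - pos S1 i 0) :=
        mul_le_mul_of_nonneg_left (by linarith) hθ0
      linarith
    · obtain ⟨k, rfl⟩ := Nat.exists_eq_add_of_le hge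
      have hk : k ≤ S2.length := by rw [List.length_append] at hi; omega
      rw [pos_append_right, pos_append_right]
      have q0 : (pos S2 k 0 : ℝ) ≤ hx S2 := by exact_mod_cast br_pos_le hb2 hk
      have q := cB k hk j hj
      have hh1 : pos S1 S1.length 0 = hx S1 := rfl
      rw [hh1]
      push_cast
      have t1 : (pos S1 S1.length j : ℝ) + pos S2 k j - (pos S1 S1.length j + pos S2 S2.length j) =
        (pos S2 k j : ℝ) - pos S2 S2.length j := by ring
      have t2 : (hx S1 : ℝ) + hx S2 - (hx S1 + pos S2 k 0) = hx S2 - pos S2 k 0 := by ring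
      rw [t1, t2]
      have q1 : tc * ((hx S2 : ℝ) - pos S2 k 0) ≤ θ * ((hx S2 : ℝ) - pos S2 k 0) :=
        mul_le_mul_of_nonneg_right htθ (by linarith)
      linarith
  · rw [hsum]; linarith
  · rw [hsum]
    have : 128 * P.B * P.h * J = 64 * P.B * P.h * J + 64 * P.B * P.h * J := by ring
    rw [this]; linarith
  · rw [List.length_append]
    push_cast
    have : 128 * P.A * P.h * J = 64 * P.A * P.h * J + 64 * P.A * P.h * J := by ring
    rw [this]; linarith

end Pool.Agent.SBW
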