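import Pool.Agent.SBW.Targets

set_option autoImplicit false

/-!
# MP_b5172a_pr: SHORT, irreducible bridges with many short backtracks
-/

open scoped Classical

noncomputable section

namespace Pool.Agent.SBW

namespace SHORT_

/-- few indices below a threshold -/
theorem sum_few (s c : ℝ) (hs : 0 < s) (hc : 0 ≤ c) (N : ℕ) :
    ∑ k ∈ Finset.Icc 1 N, (if s * (k : ℝ) < 1 then c else 0) ≤ c * N ∧
    ∑ k ∈ Finset.Icc 1 N, (if s * (k : ℝ) < 1 then c else 0) ≤ c / s := by
  induction N with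
  | zero => simp; positivity
  | succ N ih =>
    rw [Finset.sum_Icc_succ_top (by omega)]
    by_cases h : s * ((N + 1 : ℕ) : ℝ) < 1
    · simp only [h, if_true]
      have h1 : ∑ k ∈ Finset.Icc 1 N, (if s * (k : ℝ) < 1 then c else 0) + c ≤
          c * ((N + 1 : ℕ) : ℝ) := by
        push_cast
        linarith [ih.1]
      refine ⟨h1, h1.trans ?_⟩
      rw [le_div_iff₀ hs]
      nlinarith
    · simp only [h, if_false, add_zero]
      refine ⟨?_, ih.2⟩
      push_cast
      linarith [ih.1]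

theorem exp_half_le (x : ℝ) (h0 : 0 ≤ x) (h1 : x ≤ 1) : Real.exp (x / 2) ≤ 1 + x := by
  have h2 : 1 - x / 2 ≤ Real.exp (-(x / 2)) := by
    have := Real.add_one_le_exp (-(x / 2))
    linarith
  have h3 : Real.exp (x / 2) * Real.exp (-(x / 2)) = 1 := by
    rw [← Real.exp_add]; simp
  have h4 : 0 < Real.exp (x / 2) := Real.exp_pos _
  have h5 : Real.exp (x / 2) * (1 - x / 2) ≤ 1 := by nlinarith
  nlinarith

end SHORT_

open SHORT_ in
theorem p_SHORT : T_UL → T_PCOV → T_PSUP → T_VMON → T_SHORT := by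
  intro hUL hPCOV hPSUP hVMON D m t0 t1 ht0 ht1 ht1' hm
  obtain ⟨-, hv0, hv1, -⟩ := hVMON D t0 ht0
  set v := vv D t0 with hv
  have ht2 : 0 < t1 ^ 2 := by positivity
  have ht4 : 0 < t1 ^ 4 := by positivity
  have hle1 : t1 ≤ 1 := by linarith
  have ht2' : t1 ^ 2 ≤ 1 := pow_le_one₀ ht1.le hle1
  have ht4' : t1 ^ 4 ≤ 1 := pow_le_one₀ ht1.le hle1
  let z : ℕ → ℝ := fun k => if t1 ^ 2 * (k : ℝ) < 1 then t1 ^ 4 / 9 else 0
  have hz0 : ∀ k, 0 ≤ z k := by
    intro k
    simp only [z]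
    split_ifs <;> positivity
  have hzs : ∀ N : ℕ, ∑ k ∈ Finset.Icc 1 N, z k * (1 + t1 ^ 2 / 3) ^ (3 * k) ≤ t1 ^ 2 / 3 := by
    intro N
    have h1 : ∑ k ∈ Finset.Icc 1 N, z k * (1 + t1 ^ 2 / 3) ^ (3 * k) ≤
        ∑ k ∈ Finset.Icc 1 N, (if t1 ^ 2 * (k : ℝ) < 1 then t1 ^ 4 / 3 else 0) := by
      apply Finset.sum_le_sum
      intro k _
      simp only [z]
      by_cases h : t1 ^ 2 * (k : ℝ) < 1
      · simp only [h, if_true]
        have h2 : (1 + t1 ^ 2 / 3) ^ (3 * k) ≤ 3 := by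
          have h3 : 1 + t1 ^ 2 / 3 ≤ Real.exp (t1 ^ 2 / 3) := by
            have := Real.add_one_le_exp (t1 ^ 2 / 3)
            linarith
          have h4 : (1 + t1 ^ 2 / 3) ^ (3 * k) ≤ Real.exp (t1 ^ 2 / 3) ^ (3 * k) :=
            pow_le_pow_left₀ (by positivity) h3 _
          have h5 : Real.exp (t1 ^ 2 / 3) ^ (3 * k) = Real.exp (t1 ^ 2 * k) := by
            rw [← Real.exp_nat_mul]
            congr 1
            push_cast
            ring
          have h6 : Real.exp (t1 ^ 2 * k) ≤ Real.exp 1 := Real.exp_le_exp.mpr h.le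
          have h7 := Real.exp_one_lt_d9
          linarith
        nlinarith
      · simp only [h, if_false, zero_mul, le_refl]
    refine h1.trans ((sum_few (t1 ^ 2) (t1 ^ 4 / 3) ht2 (by positivity) N).2.trans ?_)
    rw [div_le_iff₀ ht2]
    nlinarith
  have hmain := hUL D m (2 * t0) (t1 ^ 2 / 3) z (by positivity) hz0 hzs
  -- lower bound of the product
  have hprod : ∀ w ∈ (IrF D m).filter (fun w => 19 / 20 * v * m ≤ (hx w : ℝ) ∧
      ∑ p ∈ (pairF w).filter (fun p => 1 ≤ t1 ^ 2 * (dep w p : ℝ)), (dep w p : ℝ) <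
        1 / 8 * v * m), Real.exp (v * t1 ^ 6 / 36 * m) ≤
      ∏ p ∈ pairF w, (1 + z (dep w p) * Real.exp (2 * (2 * t0) * (dep w p : ℝ))) := by
    intro w hw
    rw [Finset.mem_filter] at hw
    obtain ⟨hwI, hw1, hw2⟩ := hw
    have hI : Irr w := (mem_IrF.mp hwI).2
    have hc := hPCOV D w hI
    have hc' : (hx w : ℝ) ≤ 1 + ∑ p ∈ pairF w, (dep w p : ℝ) := by exact_mod_cast hc
    rw [← Finset.sum_filter_add_sum_filter_not (pairF w)
      (fun p => 1 ≤ t1 ^ 2 * (dep w p : ℝ))] at hc'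
    set Sh := (pairF w).filter (fun p => ¬ 1 ≤ t1 ^ 2 * (dep w p : ℝ)) with hSh
    have hS1 : t1 ^ 2 * ∑ p ∈ Sh, (dep w p : ℝ) ≤ Sh.card := by
      rw [Finset.mul_sum]
      have : ∑ p ∈ Sh, t1 ^ 2 * (dep w p : ℝ) ≤ ∑ p ∈ Sh, (1 : ℝ) := by
        apply Finset.sum_le_sum
        intro p hp
        rw [hSh, Finset.mem_filter] at hp
        linarith [not_le.mp hp.2]
      simpa using this
    have hS2 : v * m / 2 ≤ ∑ p ∈ Sh, (dep w p : ℝ) := by linarith
    have hS3 : t1 ^ 2 * (v * m / 2) ≤ Sh.card :=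
      (mul_le_mul_of_nonneg_left hS2 ht2.le).trans hS1
    have hp1 : (1 + t1 ^ 4 / 9) ^ Sh.card ≤
        ∏ p ∈ pairF w, (1 + z (dep w p) * Real.exp (2 * (2 * t0) * (dep w p : ℝ))) := by
      calc (1 + t1 ^ 4 / 9) ^ Sh.card = ∏ p ∈ Sh, (1 + t1 ^ 4 / 9) := by
            rw [Finset.prod_const]
        _ ≤ ∏ p ∈ Sh, (1 + z (dep w p) * Real.exp (2 * (2 * t0) * (dep w p : ℝ))) := by
            apply Finset.prod_le_prod
            · intro p _; positivity
            · intro p hp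
              rw [hSh, Finset.mem_filter] at hp
              have h1 : t1 ^ 2 * (dep w p : ℝ) < 1 := not_le.mp hp.2
              have h2 : z (dep w p) = t1 ^ 4 / 9 := by simp only [z, h1, if_true]
              rw [h2]
              have h3 : (1 : ℝ) ≤ Real.exp (2 * (2 * t0) * (dep w p : ℝ)) := by
                apply Real.one_le_exp
                positivity
              have h4 : 0 ≤ t1 ^ 4 / 9 := by positivity
              nlinarith
        _ ≤ ∏ p ∈ pairF w, (1 + z (dep w p) * Real.exp (2 * (2 * t0) * (dep w p : ℝ))) := by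
            apply Finset.prod_le_prod_of_subset_of_one_le
            · exact Finset.filter_subset _ _
            · intro p _
              have := hz0 (dep w p)
              have h5 := Real.exp_pos (2 * (2 * t0) * (dep w p : ℝ))
              positivity
            · intro p _ _
              have := hz0 (dep w p)
              have h5 := Real.exp_pos (2 * (2 * t0) * (dep w p : ℝ))
              have h6 : 0 ≤ z (dep w p) * Real.exp (2 * (2 * t0) * (dep w p : ℝ)) :=
                mul_nonneg this h5.le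
              linarith
    refine le_trans ?_ hp1
    have h7 : Real.exp (t1 ^ 4 / 9 / 2) ≤ 1 + t1 ^ 4 / 9 :=
      exp_half_le _ (by positivity) (by linarith)
    calc Real.exp (v * t1 ^ 6 / 36 * m) ≤ Real.exp (Sh.card * (t1 ^ 4 / 9 / 2)) := by
          apply Real.exp_le_exp.mpr
          have h8 : v * t1 ^ 6 / 36 * m = (t1 ^ 2 * (v * m / 2)) * (t1 ^ 4 / 9 / 2) := by ring
          rw [h8]
          exact mul_le_mul_of_nonneg_right hS3 (by positivity)
      _ = Real.exp (t1 ^ 4 / 9 / 2) ^ Sh.card := by rw [Real.exp_nat_mul]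
      _ ≤ (1 + t1 ^ 4 / 9) ^ Sh.card := pow_le_pow_left₀ (Real.exp_pos _).le h7 _
  set F := (IrF D m).filter (fun w => 19 / 20 * v * m ≤ (hx w : ℝ) ∧
      ∑ p ∈ (pairF w).filter (fun p => 1 ≤ t1 ^ 2 * (dep w p : ℝ)), (dep w p : ℝ) <
        1 / 8 * v * m) with hF
  have hA : (∑ w ∈ F, Real.exp (2 * t0 * (hx w : ℝ))) * Real.exp (v * t1 ^ 6 / 36 * m) ≤
      (1 + t1 ^ 2 / 3) ^ 2 * bS D m (2 * t0) := by
    refine le_trans ?_ hmain
    rw [Finset.sum_mul]
    calc ∑ w ∈ F, Real.exp (2 * t0 * (hx w : ℝ)) * Real.exp (v * t1 ^ 6 / 36 * m) ≤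
        ∑ w ∈ F, Real.exp (2 * t0 * (hx w : ℝ)) *
          ∏ p ∈ pairF w, (1 + z (dep w p) * Real.exp (2 * (2 * t0) * (dep w p : ℝ))) := by
          apply Finset.sum_le_sum
          intro w hw
          exact mul_le_mul_of_nonneg_left (hprod w hw) (Real.exp_pos _).le
      _ ≤ _ := by
          apply Finset.sum_le_sum_of_subset_of_nonneg
          · exact Finset.filter_subset _ _
          · intro w _ _
            apply mul_nonneg (Real.exp_pos _).le
            apply Finset.prod_nonneg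
            intro p _
            have := hz0 (dep w p)
            have h5 := Real.exp_pos (2 * (2 * t0) * (dep w p : ℝ))
            positivity
  have hB : bS D m (2 * t0) ≤ Real.exp (PP D (2 * t0) * m) := (hPSUP D (2 * t0)).1 m
  have hC : (1 + t1 ^ 2 / 3) ^ 2 ≤ 4 := by nlinarith
  have hD : (∑ w ∈ F, Real.exp (2 * t0 * (hx w : ℝ))) * Real.exp (v * t1 ^ 6 / 36 * m) ≤
      4 * Real.exp (PP D (2 * t0) * m) := by
    refine hA.trans ?_
    have h9 := Real.exp_pos (PP D (2 * t0) * m)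
    calc (1 + t1 ^ 2 / 3) ^ 2 * bS D m (2 * t0) ≤
        (1 + t1 ^ 2 / 3) ^ 2 * Real.exp (PP D (2 * t0) * m) :=
          mul_le_mul_of_nonneg_left hB (by positivity)
      _ ≤ _ := mul_le_mul_of_nonneg_right hC h9.le
  have hE : Real.exp ((PP D (2 * t0) - v * t1 ^ 6 / 36) * m) =
      Real.exp (PP D (2 * t0) * m) / Real.exp (v * t1 ^ 6 / 36 * m) := by
    rw [← Real.exp_sub]
    congr 1
    ring
  rw [hE, ← mul_div_assoc, le_div_iff₀ (Real.exp_pos _)]
  exact hD

end Pool.Agent.SBW
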