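import Pool.Agent.SBW.Targets

set_option autoImplicit false

/-!
SBW-SLOW: slow irreducible bridges.
-/

open scoped Classical

noncomputable section

namespace Pool.Agent.SBW

theorem SLOW_.irF_sub {D m : ℕ} : IrF D m ⊆ BrF D m := by
  intro w hw
  unfold IrF at hw
  unfold BrF
  rw [Finset.mem_filter] at hw ⊢
  exact ⟨hw.1, hw.2.1⟩

theorem p_SLOW : T_PSUP → T_VMON → T_SLOW := by
  intro h1 h2 D m t0 ζ ht0 hζ
  obtain ⟨e1, -, -, -⟩ := h2 D t0 ht0
  obtain ⟨e2, -, -, e3⟩ := h2 D (2 * t0) (by linarith)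
  have e4 := e3 t0 ht0 (by linarith)
  have e5 : PP D 0 + 2 * t0 * vv D t0 ≤ PP D (2 * t0) := by
    rw [e2]
    have : 2 * t0 * vv D t0 ≤ 2 * t0 * vv D (2 * t0) :=
      mul_le_mul_of_nonneg_left e4 (by linarith)
    linarith
  have hb := (h1 D t0).1 m
  calc ∑ w ∈ (IrF D m).filter (fun w => (hx w : ℝ) < (1 - ζ) * vv D t0 * m),
      Real.exp (2 * t0 * (hx w : ℝ))
      ≤ ∑ w ∈ (IrF D m).filter (fun w => (hx w : ℝ) < (1 - ζ) * vv D t0 * m),
        Real.exp (t0 * ((1 - ζ) * vv D t0 * m)) * Real.exp (t0 * (hx w : ℝ)) := by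
        refine Finset.sum_le_sum fun w hw => ?_
        have hw2 := (Finset.mem_filter.1 hw).2
        rw [← Real.exp_add]
        refine Real.exp_le_exp.2 ?_
        have h3 := mul_le_mul_of_nonneg_left hw2.le ht0.le
        linarith
    _ = Real.exp (t0 * ((1 - ζ) * vv D t0 * m)) *
        ∑ w ∈ (IrF D m).filter (fun w => (hx w : ℝ) < (1 - ζ) * vv D t0 * m),
          Real.exp (t0 * (hx w : ℝ)) := by rw [Finset.mul_sum]
    _ ≤ Real.exp (t0 * ((1 - ζ) * vv D t0 * m)) * bS D m t0 := by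
        refine mul_le_mul_of_nonneg_left ?_ (Real.exp_pos _).le
        unfold bS
        refine Finset.sum_le_sum_of_subset_of_nonneg
          ((Finset.filter_subset _ _).trans SLOW_.irF_sub) fun w _ _ => (Real.exp_pos _).le
    _ ≤ Real.exp (t0 * ((1 - ζ) * vv D t0 * m)) * Real.exp (PP D t0 * m) :=
        mul_le_mul_of_nonneg_left hb (Real.exp_pos _).le
    _ ≤ Real.exp ((PP D (2 * t0) - ζ * vv D t0 * t0) * m) := by
        rw [← Real.exp_add]
        refine Real.exp_le_exp.2 ?_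
        have hm : (0 : ℝ) ≤ m := Nat.cast_nonneg m
        have h4 := mul_le_mul_of_nonneg_right e5 hm
        rw [e1]
        nlinarith [h4]

end Pool.Agent.SBW
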