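import Pool.Agent.SBW.Targets

set_option autoImplicit false

/-!
# MP_b5172a_pr: SMUL, supermultiplicativity and trivial bounds
-/

open scoped Classical

noncomputable section

namespace Pool.Agent.SBW

namespace SMUL_

theorem pos_repl (D n k : ℕ) (hk : k ≤ n) :
    pos (List.replicate n ((0, true) : St D)) k 0 = (k : ℤ) := by
  simp only [pos, List.take_replicate, List.map_replicate, List.sum_replicate]
  rw [min_eq_left hk]
  simp [stv, sg]

theorem br_repl (D n : ℕ) : Br (List.replicate n ((0, true) : St D)) := by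
  have hl : (List.replicate n ((0, true) : St D)).length = n := List.length_replicate
  refine ⟨?_, ?_⟩
  · intro i hi k hk h
    rw [hl] at hi hk
    have := h 0
    rw [pos_repl D n i hi, pos_repl D n k hk] at this
    exact_mod_cast this
  · intro k h0 hk
    rw [hl] at hk
    unfold hx
    rw [hl, pos_repl D n k hk, pos_repl D n n le_rfl]
    exact ⟨by exact_mod_cast h0, by exact_mod_cast hk⟩

theorem br_nil (D : ℕ) : Br ([] : Wk D) := by
  have := br_repl D 0
  simpa using this

theorem pos_bS (D n : ℕ) (t : ℝ) : 0 < bS D n t := by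
  unfold bS
  apply Finset.sum_pos (fun w _ => Real.exp_pos _)
  exact ⟨List.replicate n ((0, true) : St D), mem_BrF.2 ⟨List.length_replicate, br_repl D n⟩⟩

theorem bS_zero (D : ℕ) (t : ℝ) : bS D 0 t = 1 := by
  have h : BrF D 0 = {([] : Wk D)} := by
    ext w
    rw [mem_BrF, Finset.mem_singleton]
    constructor
    · exact fun h => List.length_eq_zero_iff.1 h.1
    · rintro rfl
      exact ⟨rfl, br_nil D⟩
  unfold bS
  rw [h]
  simp

theorem mul_le (hB : T_BAPP) (D m n : ℕ) (t : ℝ) : bS D m t * bS D n t ≤ bS D (m + n) t := by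
  unfold bS
  rw [Finset.sum_mul_sum, ← Finset.sum_product']
  have hinj : Set.InjOn (fun p : Wk D × Wk D => p.1 ++ p.2)
      ((BrF D m ×ˢ BrF D n : Finset (Wk D × Wk D)) : Set (Wk D × Wk D)) := by
    rintro ⟨u, v⟩ h1 ⟨u', v'⟩ h2 he
    simp only [Finset.coe_product, Set.mem_prod, Finset.mem_coe, mem_BrF] at h1 h2
    have hl : u.length = u'.length := by rw [h1.1.1, h2.1.1]
    obtain ⟨a, b⟩ := List.append_inj he hl
    simp only at a b
    rw [a, b]
  calc ∑ x ∈ BrF D m ×ˢ BrF D n, Real.exp (t * (hx x.1 : ℝ)) * Real.exp (t * (hx x.2 : ℝ))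
      = ∑ x ∈ BrF D m ×ˢ BrF D n, Real.exp (t * (hx (x.1 ++ x.2) : ℝ)) := by
        refine Finset.sum_congr rfl fun x _ => ?_
        rw [← Real.exp_add, hx_append]
        push_cast
        ring_nf
    _ = ∑ w ∈ (BrF D m ×ˢ BrF D n).image (fun p : Wk D × Wk D => p.1 ++ p.2),
          Real.exp (t * (hx w : ℝ)) := by
        rw [Finset.sum_image hinj]
    _ ≤ ∑ w ∈ BrF D (m + n), Real.exp (t * (hx w : ℝ)) := by
        apply Finset.sum_le_sum_of_subset_of_nonneg
        · intro w hw
          obtain ⟨⟨u, v⟩, h1, rfl⟩ := Finset.mem_image.1 hw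
          rw [Finset.mem_product, mem_BrF, mem_BrF] at h1
          rw [mem_BrF]
          refine ⟨?_, (hB D u v h1.1.2 h1.2.2).1⟩
          simp only [List.length_append, h1.1.1, h1.2.1]
        · exact fun w _ _ => (Real.exp_pos _).le

theorem bS_le (D n : ℕ) (t : ℝ) :
    bS D n t ≤ Real.exp ((Real.log (2 * ((D : ℝ) + 2)) + |t|) * n) := by
  have h1 : ∀ w ∈ BrF D n, Real.exp (t * (hx w : ℝ)) ≤ Real.exp (|t| * n) := by
    intro w hw
    apply Real.exp_le_exp.2
    have h2 : |(hx w : ℝ)| ≤ (n : ℝ) := by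
      have := abs_hx_le w
      rw [(mem_BrF.1 hw).1] at this
      exact_mod_cast this
    calc t * (hx w : ℝ) ≤ |t * (hx w : ℝ)| := le_abs_self _
      _ = |t| * |(hx w : ℝ)| := abs_mul _ _
      _ ≤ |t| * n := mul_le_mul_of_nonneg_left h2 (abs_nonneg _)
  have h3 : ((BrF D n).card : ℝ) ≤ (2 * ((D : ℝ) + 2)) ^ n := by
    have h4 : (BrF D n).card ≤ (2 * (D + 2)) ^ n := by
      rw [← card_WL]
      exact Finset.card_le_card (Finset.filter_subset _ _)
    exact_mod_cast h4
  have hpos : (0 : ℝ) < 2 * ((D : ℝ) + 2) := by positivity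
  calc bS D n t ≤ ∑ _w ∈ BrF D n, Real.exp (|t| * n) := Finset.sum_le_sum h1
    _ = (BrF D n).card * Real.exp (|t| * n) := by rw [Finset.sum_const, nsmul_eq_mul]
    _ ≤ (2 * ((D : ℝ) + 2)) ^ n * Real.exp (|t| * n) :=
        mul_le_mul_of_nonneg_right h3 (Real.exp_pos _).le
    _ = Real.exp ((Real.log (2 * ((D : ℝ) + 2)) + |t|) * n) := by
        rw [add_mul, Real.exp_add, mul_comm (Real.log _) (n : ℝ), Real.exp_nat_mul,
          Real.exp_log hpos]

end SMUL_

/-- SMUL -/
theorem p_SMUL : T_BAPP → T_SMUL := by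
  intro hB D m n t
  exact ⟨SMUL_.mul_le hB D m n t, SMUL_.bS_zero D t, SMUL_.pos_bS D n t, SMUL_.bS_le D n t⟩

end Pool.Agent.SBW
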