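import Pool.Agent.SBW.Targets

set_option autoImplicit false

/-!
# MP_b5172a_pr: lateral displacements have mean zero
-/

open scoped Classical

noncomputable section

namespace Pool.Agent.SBW

theorem p_SYM : T_IFL → T_SYM := by
  intro h D K t T j hj
  set S := (IrLe D K).filter (fun w => (w.length : ℝ) ≤ T) with hS
  have hmem : ∀ w ∈ S, w.map (flipS j) ∈ S := by
    intro w hw
    rw [hS, Finset.mem_filter, mem_IrLe] at hw ⊢
    obtain ⟨⟨h1, h2⟩, h3⟩ := hw
    refine ⟨⟨?_, (h D j w hj h2).1⟩, ?_⟩
    · rw [List.length_map]; exact h1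
    · rw [List.length_map]; exact h3
  have hneg : ∀ w ∈ S, pw D t (w.map (flipS j)) *
      (pos (w.map (flipS j)) (w.map (flipS j)).length j : ℝ) =
      - (pw D t w * (pos w w.length j : ℝ)) := by
    intro w hw
    rw [hS, Finset.mem_filter, mem_IrLe] at hw
    have h2 := (h D j w hj hw.1.2).2
    have h3 : pos (w.map (flipS j)) (w.map (flipS j)).length j = - pos w w.length j := by
      rw [List.length_map, pos_map_flip]
      simp
    rw [h3]
    unfold pw
    rw [h2, List.length_map]
    push_cast
    ring
  have hsum : ∑ w ∈ S, pw D t w * (pos w w.length j : ℝ) =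
      ∑ w ∈ S, pw D t (w.map (flipS j)) *
        (pos (w.map (flipS j)) (w.map (flipS j)).length j : ℝ) := by
    refine Finset.sum_nbij' (fun w => w.map (flipS j)) (fun w => w.map (flipS j)) hmem hmem
      (fun w _ => map_flip_flip j w) (fun w _ => map_flip_flip j w) fun w _ => ?_
    simp only [map_flip_flip]
  rw [Finset.sum_congr rfl hneg, Finset.sum_neg_distrib] at hsum
  linarith

end Pool.Agent.SBW
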