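import Pool.Agent.SBW.Targets

set_option autoImplicit false

/-!
# MP_b5172a_pr: the axes are equivalent for self-avoiding walks
-/

open scoped Classical

noncomputable section

namespace Pool.Agent.SBW

namespace SYMC_

variable {D : ℕ}

/-- exchange of the coordinates `0` and `j`, with a sign -/
def gs (j : Fin (D + 2)) (e : Bool) (s : St D) : St D :=
  (Equiv.swap 0 j s.1, if e = true then s.2 else !s.2)

theorem gs_inj (j : Fin (D + 2)) (e : Bool) : Function.Injective (gs j e) := by
  rintro ⟨a, b⟩ ⟨a', b'⟩ h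
  have h1 : Equiv.swap 0 j a = Equiv.swap 0 j a' := congrArg Prod.fst h
  have h2 : (if e = true then b else !b) = (if e = true then b' else !b') := congrArg Prod.snd h
  refine Prod.ext ((Equiv.swap 0 j).injective h1) ?_
  cases e
  · simpa using h2
  · simpa using h2

theorem stv_gs (j i : Fin (D + 2)) (e : Bool) (s : St D) :
    stv (gs j e s) i = sg e * stv s (Equiv.swap 0 j i) := by
  obtain ⟨a, b⟩ := s
  unfold gs stv
  have h1 : (Equiv.swap 0 j a = i) ↔ (a = Equiv.swap 0 j i) := by
    rw [Equiv.swap_apply_eq_iff]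
  simp only [h1]
  by_cases h : a = Equiv.swap 0 j i
  · rw [if_pos h, if_pos h]
    cases e <;> cases b <;> simp [sg]
  · rw [if_neg h, if_neg h, mul_zero]

theorem pos_gs (j i : Fin (D + 2)) (e : Bool) (w : Wk D) (k : ℕ) :
    pos (w.map (gs j e)) k i = sg e * pos w k (Equiv.swap 0 j i) := by
  induction w generalizing k with
  | nil => simp
  | cons s w ih =>
    cases k with
    | zero => simp
    | succ k => rw [List.map_cons, pos_cons_succ, pos_cons_succ, ih, stv_gs, mul_add]

theorem saw_gs (j : Fin (D + 2)) (e : Bool) {w : Wk D} (hw : Saw w) :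
    Saw (w.map (gs j e)) := by
  intro a ha b hb hab
  rw [List.length_map] at ha hb
  apply hw a ha b hb
  intro i
  have h := hab (Equiv.swap 0 j i)
  rw [pos_gs, pos_gs, Equiv.swap_apply_self] at h
  have he : sg e ≠ 0 := by cases e <;> simp [sg]
  exact mul_left_cancel₀ he h

theorem card_le (D n : ℕ) (h : ℝ) (j : Fin (D + 2)) (e : Bool) :
    ((SwF D n).filter (fun w => h ≤ ((sg e * pos w n j : ℤ) : ℝ))).card ≤
      ((SwF D n).filter (fun w => h ≤ (hx w : ℝ))).card := by
  apply Finset.card_le_card_of_injOn (fun w => w.map (gs j e))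
  · intro w hw
    rw [Finset.mem_coe, Finset.mem_filter, mem_SwF] at hw ⊢
    obtain ⟨⟨h1, h2⟩, h3⟩ := hw
    refine ⟨⟨by rw [List.length_map, h1], saw_gs j e h2⟩, ?_⟩
    have h4 : hx (w.map (gs j e)) = sg e * pos w n j := by
      unfold hx
      rw [List.length_map, pos_gs, Equiv.swap_apply_left, h1]
    rw [h4]
    exact h3
  · intro w _ w' _ hww
    exact List.map_injective_iff.2 (gs_inj j e) hww

end SYMC_

open SYMC_ in
theorem p_SYMC : T_SYMC := by
  intro D n h j
  have h1 := card_le D n h j true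
  have h2 := card_le D n h j false
  have h3 : (SwF D n).filter (fun w => h ≤ |(pos w n j : ℝ)|) ⊆
      (SwF D n).filter (fun w => h ≤ ((sg true * pos w n j : ℤ) : ℝ)) ∪
      (SwF D n).filter (fun w => h ≤ ((sg false * pos w n j : ℤ) : ℝ)) := by
    intro w hw
    rw [Finset.mem_filter] at hw
    rw [Finset.mem_union, Finset.mem_filter, Finset.mem_filter]
    have e1 : ((sg true * pos w n j : ℤ) : ℝ) = (pos w n j : ℝ) := by simp [sg]
    have e2 : ((sg false * pos w n j : ℤ) : ℝ) = -(pos w n j : ℝ) := by simp [sg]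
    rw [e1, e2]
    rcases abs_choice (pos w n j : ℝ) with h4 | h4
    · left
      exact ⟨hw.1, by rw [← h4]; exact hw.2⟩
    · right
      exact ⟨hw.1, by rw [← h4]; exact hw.2⟩
  calc _ ≤ _ := Finset.card_le_card h3
    _ ≤ _ := Finset.card_union_le _ _
    _ ≤ _ := by omega

end Pool.Agent.SBW
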