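import Mathlib
import Pool.Agent.SBW.Targets

set_option autoImplicit false

/-!
TAIL: upper bound for the tail of one coordinate.
-/

open scoped Classical

noncomputable section

namespace Pool.Agent.SBW

namespace TAIL_

theorem card_le (D n : ℕ) (h t : ℝ) (ht : 0 < t) :
    (((SwF D n).filter (fun w => h ≤ (hx w : ℝ))).card : ℝ) ≤ Real.exp (-(t * h)) * cS D n t := by
  unfold cS
  rw [Finset.mul_sum, Finset.card_eq_sum_ones, Nat.cast_sum]
  calc ∑ w ∈ (SwF D n).filter (fun w => h ≤ (hx w : ℝ)), (((1 : ℕ) : ℝ))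
      ≤ ∑ w ∈ (SwF D n).filter (fun w => h ≤ (hx w : ℝ)),
          Real.exp (-(t * h)) * Real.exp (t * (hx w : ℝ)) := by
        refine Finset.sum_le_sum fun w hw => ?_
        rw [Finset.mem_filter] at hw
        rw [← Real.exp_add, Nat.cast_one]
        refine Real.one_le_exp ?_
        have := mul_le_mul_of_nonneg_left hw.2 ht.le
        linarith
    _ ≤ ∑ w ∈ SwF D n, Real.exp (-(t * h)) * Real.exp (t * (hx w : ℝ)) := by
        refine Finset.sum_le_sum_of_subset_of_nonneg (Finset.filter_subset _ _) ?_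
        intro w _ _
        positivity

theorem cS_zero (D n : ℕ) : cS D n 0 = ((SwF D n).card : ℝ) := by
  unfold cS
  simp

end TAIL_

open TAIL_ in
/-- TAIL -/
theorem p_TAIL (h1 : T_SYMC) (h2 : T_HW) (h3 : T_CN) (h4 : T_VMON) : T_TAIL := by
  intro D n h t j ht
  have e1 : (((SwF D n).filter (fun w => h ≤ |(pos w n j : ℝ)|)).card : ℝ) ≤
      2 * (((SwF D n).filter (fun w => h ≤ (hx w : ℝ))).card : ℝ) := by
    exact_mod_cast h1 D n h j
  have e2 := card_le D n h t ht
  have e3 := h2 D n t ht.le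
  have e4 := h3 D n
  rw [cS_zero] at e4
  obtain ⟨e5, -, -, -⟩ := h4 D t ht
  set A : ℝ := ((n : ℝ) + 2) ^ (2 * Nat.sqrt (2 * n + 2) + 3) with hA
  have hA0 : 0 ≤ A := by positivity
  have e6 : Real.exp (PP D t * ((n : ℝ) + 1)) =
      Real.exp (PP D t) * Real.exp (t * vv D t * n) * Real.exp (PP D 0 * n) := by
    rw [← Real.exp_add, ← Real.exp_add]
    congr 1
    have : PP D t * (n : ℝ) = (PP D 0 + t * vv D t) * n := by rw [← e5]
    linarith
  have e7 : Real.exp (t * vv D t * n - t * h) =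
      Real.exp (t * vv D t * n) * Real.exp (-(t * h)) := by
    rw [← Real.exp_add]
    congr 1
  calc (((SwF D n).filter (fun w => h ≤ |(pos w n j : ℝ)|)).card : ℝ)
      ≤ 2 * (Real.exp (-(t * h)) * cS D n t) := by linarith
    _ ≤ 2 * (Real.exp (-(t * h)) * (A * Real.exp (PP D t * ((n : ℝ) + 1)))) := by gcongr
    _ = 2 * (Real.exp (-(t * h)) * (A * (Real.exp (PP D t) * Real.exp (t * vv D t * n) *
          Real.exp (PP D 0 * n)))) := by rw [e6]
    _ ≤ 2 * (Real.exp (-(t * h)) * (A * (Real.exp (PP D t) * Real.exp (t * vv D t * n) *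
          ((SwF D n).card : ℝ)))) := by gcongr
    _ = 2 * A * Real.exp (PP D t) * Real.exp (t * vv D t * n - t * h) *
          ((SwF D n).card : ℝ) := by
        rw [e7]; ring

end Pool.Agent.SBW
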