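import Pool.Agent.SBW.Targets

set_option autoImplicit false

/-!
# TILT: first order comparison of two tilts
-/

open scoped Classical

noncomputable section

namespace Pool.Agent.SBW

namespace TILT_

theorem sum_IrLe {D K : ℕ} (f : Wk D → ℝ) :
    ∑ w ∈ IrLe D K, f w = ∑ k ∈ Finset.Icc 1 K, ∑ w ∈ IrF D k, f w := by
  unfold IrLe
  rw [Finset.sum_biUnion]
  · rw [Finset.sum_range_succ']
    have h0 : IrF D 0 = ∅ := by
      rw [Finset.eq_empty_iff_forall_notMem]
      intro w hw
      rw [mem_IrF] at hw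
      have := hw.2.2.1
      omega
    rw [h0, Finset.sum_empty, add_zero, Finset.range_eq_Ico,
      Finset.sum_Ico_add' (fun k => ∑ w ∈ IrF D k, f w) 0 K 1]
    rfl
  · intro a _ b _ hab
    rw [Function.onFun, Finset.disjoint_left]
    intro w hw hw'
    rw [mem_IrF] at hw hw'
    exact hab (hw.1.symm.trans hw'.1)

theorem mass_le (h : T_MLE) (D K : ℕ) (t : ℝ) : ∑ w ∈ IrLe D K, pw D t w ≤ 1 := by
  rw [sum_IrLe]
  refine le_trans (le_of_eq ?_) (h D K t)
  refine Finset.sum_congr rfl fun k _ => ?_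
  unfold aS
  rw [Finset.sum_mul]
  refine Finset.sum_congr rfl fun w hw => ?_
  rw [mem_IrF] at hw
  unfold pw
  rw [← Real.exp_add, hw.1]
  ring_nf

theorem tilt (D : ℕ) (t t' : ℝ) (w : Wk D) :
    pw D t w + (t' - t) * (pw D t w * (hx w : ℝ)) -
      (PP D t' - PP D t) * (pw D t w * (w.length : ℝ)) ≤ pw D t' w := by
  have h1 : pw D t' w = pw D t w *
      Real.exp ((t' - t) * (hx w : ℝ) - (PP D t' - PP D t) * (w.length : ℝ)) := by
    unfold pw
    rw [← Real.exp_add]
    ring_nf
  have h2 := Real.add_one_le_exp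
    ((t' - t) * (hx w : ℝ) - (PP D t' - PP D t) * (w.length : ℝ))
  have h3 : 0 ≤ pw D t w := (Real.exp_pos _).le
  rw [h1]
  have h4 := mul_le_mul_of_nonneg_left h2 h3
  refine le_trans (le_of_eq ?_) h4
  ring

end TILT_

open TILT_ in
theorem p_TILT (h : T_MLE) : T_TILT := by
  intro D K t t' ε hε
  have h1 := mass_le h D K t'
  have h2 := Finset.sum_le_sum fun w (_ : w ∈ IrLe D K) => tilt D t t' w
  rw [Finset.sum_sub_distrib, Finset.sum_add_distrib, ← Finset.mul_sum, ← Finset.mul_sum] at h2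
  linarith

end Pool.Agent.SBW
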