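import Pool.Agent.SBW.Targets

set_option autoImplicit false

/-!
# MP_b5172a_pr: unique factorization into irreducible bridges
-/

open scoped Classical

noncomputable section

namespace Pool.Agent.SBW

namespace UF_

variable {D : ℕ}

theorem br_nil : Br ([] : Wk D) := by
  refine ⟨?_, ?_⟩
  · intro i hi k hk _
    simp only [List.length_nil, Nat.le_zero] at hi hk
    rw [hi, hk]
  · intro k h1 h2
    simp only [List.length_nil, Nat.le_zero] at h2
    omega

theorem br_flatten (h : T_BAPP) (l : List (Wk D)) (hl : ∀ w ∈ l, Br w) : Br l.flatten := by
  induction l with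
  | nil => exact br_nil
  | cons w l ih =>
    rw [List.flatten_cons]
    exact (h D w l.flatten (hl w (by simp)) (ih fun x hx => hl x (by simp [hx]))).1

theorem not_lt (h : T_BAPP) {u v r r' : Wk D} (hu : Irr u) (hv : Irr v) (hr : Br r)
    (he : u ++ r = v ++ r') : ¬ u.length < v.length := by
  intro hlt
  have hc := (h D u r hu.1 hr).2
  rw [he] at hc
  refine hv.2.2 u.length hu.2.1 hlt ⟨hlt.le, ?_, ?_⟩
  · intro i hi
    have := hc.2.1 i hi
    rw [pos_append_left _ _ (by omega), pos_append_left _ _ hlt.le] at this
    exact this
  · intro i h1 h2
    have := hc.2.2 i h1 (by rw [List.length_append]; omega)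
    rw [pos_append_left _ _ hlt.le, pos_append_left _ _ h2] at this
    exact this

end UF_

theorem p_UF (h : T_BAPP) : T_UF := by
  intro D l₁
  induction l₁ with
  | nil =>
    intro l₂ _ h2 he
    cases l₂ with
    | nil => rfl
    | cons v l =>
      exfalso
      have h3 := (h2 v (by simp)).2.1
      rw [List.flatten_cons, List.flatten_nil] at he
      have h4 := congrArg List.length he
      rw [List.length_append, List.length_nil] at h4
      omega
  | cons u l ih =>
    intro l₂ h1 h2 he
    cases l₂ with
    | nil =>
      exfalso
      have h3 := (h1 u (by simp)).2.1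
      rw [List.flatten_cons, List.flatten_nil] at he
      have h4 := congrArg List.length he
      rw [List.length_append, List.length_nil] at h4
      omega
    | cons v l' =>
      rw [List.flatten_cons, List.flatten_cons] at he
      have hu := h1 u (by simp)
      have hv := h2 v (by simp)
      have hr : Br l.flatten := UF_.br_flatten h l fun w hw => (h1 w (by simp [hw])).1
      have hr' : Br l'.flatten := UF_.br_flatten h l' fun w hw => (h2 w (by simp [hw])).1
      have hlen : u.length = v.length := by
        have a1 := UF_.not_lt h hu hv hr he
        have a2 := UF_.not_lt h hv hu hr' he.symm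
        omega
      obtain ⟨e1, e2⟩ := List.append_inj he hlen
      rw [e1, ih l' (fun w hw => h1 w (by simp [hw])) (fun w hw => h2 w (by simp [hw])) e2]

end Pool.Agent.SBW
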