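import Pool.Agent.SBW.Targets

set_option autoImplicit false

/-!
# MP_b5172a_pr, UL: the unfolding inequality
-/

open scoped Classical

noncomputable section

namespace Pool.Agent.SBW

namespace UL_

/-- difference of heights in the unfolded walk -/
def dd {D : ℕ} (w : Wk D) (p : ℕ × ℕ) : ℕ := (pos w p.2 0 - pos w p.1 0).toNat

/-- the sets of pairs which occur for an unfolded walk -/
def V {D : ℕ} (m : ℕ) (w : Wk D) : Finset (Finset (ℕ × ℕ)) :=
  ((Finset.range (m + 1)) ×ˢ (Finset.range (m + 1))).powerset.filter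
    (fun S => flipAt w (cov S) ∈ IrF D m ∧ S ⊆ pairF (flipAt w (cov S)))

end UL_

open UL_ in
/-- UL. -/
theorem p_UL : T_PDIS → T_UNF → T_CUTC → T_ULS → T_UL := by
  intro hPDIS hUNF hCUTC hULS D m t y z hy hz hzy
  have hdd : ∀ (w : Wk D) (S : Finset (ℕ × ℕ)), Br w → S ⊆ pairF w → ∀ p ∈ S,
      dd (flipAt w (cov S)) p = dep w p := by
    intro w S hw hS p hp
    have := ((hUNF D w S hw hS).2.2 p hp).2.2.2.2
    unfold dd
    rw [this]
    simp
  -- the weights
  set F : (_ : Wk D) × Finset (ℕ × ℕ) → ℝ := fun x =>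
    Real.exp (t * (hx x.1 : ℝ)) *
      ∏ p ∈ x.2, (z (dep x.1 p) * Real.exp (2 * t * (dep x.1 p : ℝ))) with hF
  set G : (_ : Wk D) × Finset (ℕ × ℕ) → ℝ := fun x =>
    Real.exp (t * (hx x.1 : ℝ)) * ∏ p ∈ x.2, z (dd x.1 p) with hG
  set A : Finset ((_ : Wk D) × Finset (ℕ × ℕ)) :=
    (IrF D m).sigma (fun w => (pairF w).powerset) with hA
  set B : Finset ((_ : Wk D) × Finset (ℕ × ℕ)) := (BrF D m).sigma (fun w => V m w) with hB
  set e : (_ : Wk D) × Finset (ℕ × ℕ) → (_ : Wk D) × Finset (ℕ × ℕ) :=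
    fun x => ⟨flipAt x.1 (cov x.2), x.2⟩ with he
  have hG0 : ∀ x, 0 ≤ G x := by
    intro x
    simp only [hG]
    exact mul_nonneg (Real.exp_pos _).le (Finset.prod_nonneg fun p _ => hz _)
  have h1 : ∑ w ∈ IrF D m, Real.exp (t * (hx w : ℝ)) *
      ∏ p ∈ pairF w, (1 + z (dep w p) * Real.exp (2 * t * (dep w p : ℝ))) = ∑ x ∈ A, F x := by
    rw [hA, Finset.sum_sigma]
    refine Finset.sum_congr rfl fun w _ => ?_
    rw [Finset.prod_one_add, Finset.mul_sum]
  have h2 : ∀ x ∈ A, F x = G (e x) := by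
    rintro ⟨w, S⟩ hx'
    rw [hA, Finset.mem_sigma] at hx'
    obtain ⟨hw, hS⟩ := hx'
    have hBr : Br w := (mem_IrF.1 hw).2.1
    have hS' : S ⊆ pairF w := Finset.mem_powerset.1 hS
    have hh := (hUNF D w S hBr hS').2.1
    simp only [hF, hG, he]
    rw [Finset.prod_mul_distrib]
    have e1 : ∏ p ∈ S, z (dd (flipAt w (cov S)) p) = ∏ p ∈ S, z (dep w p) :=
      Finset.prod_congr rfl fun p hp => by rw [hdd w S hBr hS' p hp]
    rw [e1, ← Real.exp_sum, hh]
    have e2 : Real.exp (t * (((hx w + 2 * ∑ p ∈ S, (dep w p : ℤ) : ℤ)) : ℝ)) =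
        Real.exp (t * (hx w : ℝ)) * Real.exp (∑ p ∈ S, 2 * t * (dep w p : ℝ)) := by
      rw [← Real.exp_add]
      congr 1
      push_cast
      rw [← Finset.mul_sum]
      ring
    rw [e2]
    ring
  have h3 : Set.InjOn e A := by
    rintro ⟨w, S⟩ _ ⟨w', S'⟩ _ h
    simp only [he, Sigma.mk.injEq, heq_eq_eq] at h
    obtain ⟨h5, rfl⟩ := h
    have : w = w' := by
      rw [← flipAt_flipAt w (cov S), h5, flipAt_flipAt]
    subst this
    rfl
  have h4 : A.image e ⊆ B := by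
    intro x hx'
    obtain ⟨⟨w, S⟩, hwS, rfl⟩ := Finset.mem_image.1 hx'
    rw [hA, Finset.mem_sigma] at hwS
    obtain ⟨hw, hS⟩ := hwS
    have hw' := mem_IrF.1 hw
    have hBr : Br w := hw'.2.1
    have hS' : S ⊆ pairF w := Finset.mem_powerset.1 hS
    rw [hB, Finset.mem_sigma]
    refine ⟨mem_BrF.2 ⟨?_, (hUNF D w S hBr hS').1⟩, ?_⟩
    · simp only [he, length_flipAt]
      exact hw'.1
    · simp only [he, V, Finset.mem_filter, Finset.mem_powerset, flipAt_flipAt]
      refine ⟨?_, hw, hS'⟩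
      refine hS'.trans ?_
      have := Finset.filter_subset (Pair w)
        ((Finset.range (w.length + 1)) ×ˢ (Finset.range (w.length + 1)))
      rw [hw'.1] at this
      unfold pairF
      rw [hw'.1]
      exact this
  have h5 : ∀ w ∈ BrF D m, ∑ S ∈ V m w, ∏ p ∈ S, z (dd w p) ≤ (1 + y) ^ 2 := by
    intro w _
    refine hULS D w y z (V m w) hy hz hzy ?_
    intro S hS
    simp only [V, Finset.mem_filter, Finset.mem_powerset] at hS
    obtain ⟨_, hI, hP⟩ := hS
    have hI' := (mem_IrF.1 hI).2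
    have hBr := hI'.1
    have hU := hUNF D (flipAt w (cov S)) S hBr hP
    have hC := hCUTC D (flipAt w (cov S)) S hI' hP
    have hD := hdd (flipAt w (cov S)) S hBr hP
    simp only [flipAt_flipAt] at hU hC hD
    refine ⟨fun p hp => ⟨(hU.2.2 p hp).1, (hU.2.2 p hp).2.2.1, (hU.2.2 p hp).2.2.2.1⟩, ?_, ?_⟩
    · intro p hp q hq hpq
      by_contra hne
      have hp1 := (hU.2.2 p hp).1
      have hq1 := (hU.2.2 q hq).1
      rcases hPDIS D (flipAt w (cov S)) p q (mem_pairF.1 (hP hp)) (mem_pairF.1 (hP hq)) hne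
        with h | h <;> omega
    · have : ∑ p ∈ S, (pos w p.2 0 - pos w p.1 0).toNat =
          ∑ p ∈ S, dep (flipAt w (cov S)) p :=
        Finset.sum_congr rfl fun p hp => hD p hp
      rw [this]
      exact hC
  calc ∑ w ∈ IrF D m, Real.exp (t * (hx w : ℝ)) *
      ∏ p ∈ pairF w, (1 + z (dep w p) * Real.exp (2 * t * (dep w p : ℝ)))
      = ∑ x ∈ A, F x := h1
    _ = ∑ x ∈ A, G (e x) := Finset.sum_congr rfl h2
    _ = ∑ x ∈ A.image e, G x := by rw [Finset.sum_image h3]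
    _ ≤ ∑ x ∈ B, G x := Finset.sum_le_sum_of_subset_of_nonneg h4 fun x _ _ => hG0 x
    _ = ∑ w ∈ BrF D m, Real.exp (t * (hx w : ℝ)) * ∑ S ∈ V m w, ∏ p ∈ S, z (dd w p) := by
        rw [hB, Finset.sum_sigma]
        refine Finset.sum_congr rfl fun w _ => ?_
        rw [Finset.mul_sum]
    _ ≤ ∑ w ∈ BrF D m, Real.exp (t * (hx w : ℝ)) * (1 + y) ^ 2 :=
        Finset.sum_le_sum fun w hw => mul_le_mul_of_nonneg_left (h5 w hw) (Real.exp_pos _).le
    _ = (1 + y) ^ 2 * bS D m t := by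
        rw [← Finset.sum_mul, mul_comm]
        rfl

end Pool.Agent.SBW
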