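import Pool.Agent.SBW.Targets

set_option autoImplicit false

/-! ULS: sum over the sets of pairs of cut times. -/

open scoped Classical

noncomputable section

namespace Pool.Agent.SBW

namespace ULS_

/-- sum over partial functions -/
theorem key (Q : Finset (ℕ × ℕ)) (g : ℕ × ℕ → ℝ) (hg : ∀ p, 0 ≤ g p) (T : Finset ℕ) :
    ∀ V : Finset (Finset (ℕ × ℕ)),
    (∀ S ∈ V, (∀ p ∈ S, p ∈ Q ∧ p.1 ∈ T) ∧ (∀ p ∈ S, ∀ q ∈ S, p.1 = q.1 → p = q)) →
    ∑ S ∈ V, ∏ p ∈ S, g p ≤ ∏ c ∈ T, (1 + ∑ p ∈ Q.filter (fun p => p.1 = c), g p) := by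
  induction T using Finset.induction_on with
  | empty =>
    intro V hV
    have h1 : V ⊆ {∅} := by
      intro S hS
      rw [Finset.mem_singleton]
      apply Finset.eq_empty_of_forall_notMem
      intro p hp
      have := ((hV S hS).1 p hp).2
      simp at this
    calc ∑ S ∈ V, ∏ p ∈ S, g p ≤ ∑ S ∈ ({∅} : Finset (Finset (ℕ × ℕ))), ∏ p ∈ S, g p :=
          Finset.sum_le_sum_of_subset_of_nonneg h1 (fun S _ _ => Finset.prod_nonneg (fun p _ => hg p))
      _ = 1 := by simp
      _ ≤ _ := by simp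
  | insert c T hc ih =>
    intro V hV
    set P := ∏ c ∈ T, (1 + ∑ p ∈ Q.filter (fun p => p.1 = c), g p) with hP
    rw [Finset.prod_insert hc, ← hP]
    set V0 := V.filter (fun S => ∀ p ∈ S, p.1 ≠ c) with hV0
    have h0 : ∑ S ∈ V0, ∏ p ∈ S, g p ≤ P := by
      apply ih
      intro S hS
      rw [hV0, Finset.mem_filter] at hS
      obtain ⟨h1, h2⟩ := hV S hS.1
      refine ⟨fun p hp => ⟨(h1 p hp).1, ?_⟩, h2⟩
      have h3 := (h1 p hp).2
      rw [Finset.mem_insert] at h3
      rcases h3 with h3 | h3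
      · exact absurd h3 (hS.2 p hp)
      · exact h3
    have h1 : ∀ q ∈ Q.filter (fun p => p.1 = c),
        ∑ S ∈ V.filter (fun S => q ∈ S), ∏ p ∈ S, g p ≤ g q * P := by
      intro q hq
      rw [Finset.mem_filter] at hq
      have e1 : ∑ S ∈ V.filter (fun S => q ∈ S), ∏ p ∈ S, g p =
          g q * ∑ S ∈ V.filter (fun S => q ∈ S), ∏ p ∈ S.erase q, g p := by
        rw [Finset.mul_sum]
        apply Finset.sum_congr rfl
        intro S hS
        rw [Finset.mem_filter] at hS
        exact (Finset.mul_prod_erase S g hS.2).symm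
      rw [e1]
      apply mul_le_mul_of_nonneg_left _ (hg q)
      have e2 : ∑ S ∈ V.filter (fun S => q ∈ S), ∏ p ∈ S.erase q, g p =
          ∑ S ∈ (V.filter (fun S => q ∈ S)).image (fun S => S.erase q), ∏ p ∈ S, g p := by
        rw [Finset.sum_image]
        intro S hS S' hS' hSS
        rw [Finset.mem_coe, Finset.mem_filter] at hS hS'
        have h5 : insert q (S.erase q) = insert q (S'.erase q) := by
          simp only at hSS
          rw [hSS]
        rwa [Finset.insert_erase hS.2, Finset.insert_erase hS'.2] at h5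
      rw [e2]
      apply ih
      intro S hS
      rw [Finset.mem_image] at hS
      obtain ⟨S', hS', rfl⟩ := hS
      rw [Finset.mem_filter] at hS'
      obtain ⟨h1, h2⟩ := hV S' hS'.1
      refine ⟨fun p hp => ?_, fun p hp p' hp' => h2 p (Finset.mem_of_mem_erase hp) p'
        (Finset.mem_of_mem_erase hp')⟩
      have hp1 := Finset.mem_of_mem_erase hp
      refine ⟨(h1 p hp1).1, ?_⟩
      have h3 := (h1 p hp1).2
      rw [Finset.mem_insert] at h3
      rcases h3 with h3 | h3
      · exfalso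
        apply Finset.ne_of_mem_erase hp
        exact h2 p hp1 q hS'.2 (h3.trans hq.2.symm)
      · exact h3
    have hsub : V ⊆ V0 ∪ (Q.filter (fun p => p.1 = c)).biUnion (fun q => V.filter (fun S => q ∈ S)) := by
      intro S hS
      rw [Finset.mem_union]
      by_cases h : ∀ p ∈ S, p.1 ≠ c
      · left
        rw [hV0, Finset.mem_filter]
        exact ⟨hS, h⟩
      · right
        push Not at h
        obtain ⟨p, hp, hpc⟩ := h
        rw [Finset.mem_biUnion]
        refine ⟨p, ?_, ?_⟩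
        · rw [Finset.mem_filter]
          exact ⟨((hV S hS).1 p hp).1, hpc⟩
        · rw [Finset.mem_filter]
          exact ⟨hS, hp⟩
    have hnn : ∀ S : Finset (ℕ × ℕ), 0 ≤ ∏ p ∈ S, g p := fun S =>
      Finset.prod_nonneg (fun p _ => hg p)
    calc ∑ S ∈ V, ∏ p ∈ S, g p
        ≤ ∑ S ∈ V0 ∪ (Q.filter (fun p => p.1 = c)).biUnion (fun q => V.filter (fun S => q ∈ S)),
          ∏ p ∈ S, g p := Finset.sum_le_sum_of_subset_of_nonneg hsub (fun S _ _ => hnn S)
      _ ≤ ∑ S ∈ V0, ∏ p ∈ S, g p + ∑ S ∈ (Q.filter (fun p => p.1 = c)).biUnion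
            (fun q => V.filter (fun S => q ∈ S)), ∏ p ∈ S, g p := by
          have := Finset.sum_union_inter (f := fun S : Finset (ℕ × ℕ) => ∏ p ∈ S, g p)
            (s₁ := V0) (s₂ := (Q.filter (fun p => p.1 = c)).biUnion
            (fun q => V.filter (fun S => q ∈ S)))
          rw [← this]
          have h7 : 0 ≤ ∑ S ∈ V0 ∩ (Q.filter (fun p => p.1 = c)).biUnion
            (fun q => V.filter (fun S => q ∈ S)), ∏ p ∈ S, g p :=
            Finset.sum_nonneg (fun S _ => hnn S)
          linarith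
      _ ≤ P + ∑ q ∈ Q.filter (fun p => p.1 = c), ∑ S ∈ V.filter (fun S => q ∈ S),
            ∏ p ∈ S, g p := by
          refine add_le_add h0 (le_of_eq ?_)
          apply Finset.sum_biUnion
          intro q hq q' hq' hne
          rw [Finset.mem_coe, Finset.mem_filter] at hq hq'
          rw [Function.onFun, Finset.disjoint_left]
          intro S hS hS'
          rw [Finset.mem_filter] at hS hS'
          exact hne ((hV S hS.1).2 q hS.2 q' hS'.2 (hq.2.trans hq'.2.symm))
      _ ≤ P + ∑ q ∈ Q.filter (fun p => p.1 = c), g q * P := by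
          gcongr with q hq
          exact h1 q hq
      _ = (1 + ∑ p ∈ Q.filter (fun p => p.1 = c), g p) * P := by
          rw [← Finset.sum_mul]
          ring

/-- cut times are increasing in height -/
theorem cut_lt {D : ℕ} {w : Wk D} {a b : ℕ} (ha : Cut w a) (hb : Cut w b) (hab : a < b) :
    pos w a 0 < pos w b 0 := ha.2.2 b hab hb.1

end ULS_

open ULS_ in
theorem p_ULS : T_ULS := by
  intro D w y z V hy hz hsum hV
  set d : ℕ × ℕ → ℕ := fun p => (pos w p.2 0 - pos w p.1 0).toNat with hd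
  set g : ℕ × ℕ → ℝ := fun p => z (d p) * (1 + y) ^ (3 * d p) with hgd
  have h1y : (1 : ℝ) ≤ 1 + y := by linarith
  have hg : ∀ p, 0 ≤ g p := fun p => mul_nonneg (hz _) (by positivity)
  set Q := ((cutF w) ×ˢ (cutF w)).filter (fun p => p.1 < p.2) with hQ
  set r := (cutF w).card with hr
  have hmem : ∀ k, k ∈ cutF w ↔ Cut w k := by
    intro k
    rw [cutF, Finset.mem_filter, Finset.mem_range]
    constructor
    · exact fun h => h.2
    · exact fun h => ⟨Nat.lt_succ_of_le h.1, h⟩
  have hk := key Q g hg (cutF w) V (by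
    intro S hS
    obtain ⟨h1, h2, h3⟩ := hV S hS
    refine ⟨fun p hp => ?_, h2⟩
    obtain ⟨a1, a2, a3⟩ := h1 p hp
    refine ⟨?_, (hmem _).2 a2⟩
    rw [hQ, Finset.mem_filter, Finset.mem_product]
    exact ⟨⟨(hmem _).2 a2, (hmem _).2 a3⟩, a1⟩)
  -- each factor
  have hfac : ∀ c ∈ cutF w, ∑ p ∈ Q.filter (fun p => p.1 = c), g p ≤ y := by
    intro c hc
    have hinj : Set.InjOn d (Q.filter (fun p => p.1 = c) : Finset (ℕ × ℕ)) := by
      intro p hp q hq hpq
      rw [Finset.mem_coe, Finset.mem_filter, hQ, Finset.mem_filter, Finset.mem_product] at hp hq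
      obtain ⟨⟨⟨p1, p2⟩, p3⟩, p4⟩ := hp
      obtain ⟨⟨⟨q1, q2⟩, q3⟩, q4⟩ := hq
      rw [hmem] at p1 p2 q1 q2
      have e1 := cut_lt p1 p2 p3
      have e2 := cut_lt q1 q2 q3
      simp only [hd] at hpq
      have e3 : pos w p.2 0 - pos w p.1 0 = pos w q.2 0 - pos w q.1 0 := by omega
      rw [p4, q4] at e3
      have e4 : pos w p.2 0 = pos w q.2 0 := by linarith
      have e5 : p.2 = q.2 := by
        rcases lt_trichotomy p.2 q.2 with h | h | h
        · have := cut_lt p2 q2 h
          omega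
        · exact h
        · have := cut_lt q2 p2 h
          omega
      exact Prod.ext (p4.trans q4.symm) e5
    have himg : ∑ p ∈ Q.filter (fun p => p.1 = c), g p =
        ∑ k ∈ (Q.filter (fun p => p.1 = c)).image d, z k * (1 + y) ^ (3 * k) := by
      rw [Finset.sum_image hinj]
    rw [himg]
    set N := ((Q.filter (fun p => p.1 = c)).image d).sup id with hN
    refine le_trans ?_ (hsum N)
    apply Finset.sum_le_sum_of_subset_of_nonneg
    · intro k hk
      rw [Finset.mem_Icc]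
      refine ⟨?_, Finset.le_sup (f := id) hk⟩
      rw [Finset.mem_image] at hk
      obtain ⟨p, hp, rfl⟩ := hk
      rw [Finset.mem_filter, hQ, Finset.mem_filter, Finset.mem_product] at hp
      obtain ⟨⟨⟨p1, p2⟩, p3⟩, p4⟩ := hp
      rw [hmem] at p1 p2
      have e1 := cut_lt p1 p2 p3
      simp only [hd]
      omega
    · intro k _ _
      exact mul_nonneg (hz _) (by positivity)
  have hprod : ∏ c ∈ cutF w, (1 + ∑ p ∈ Q.filter (fun p => p.1 = c), g p) ≤ (1 + y) ^ r := by
    rw [hr, ← Finset.prod_const]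
    apply Finset.prod_le_prod
    · intro c _
      have : 0 ≤ ∑ p ∈ Q.filter (fun p => p.1 = c), g p := Finset.sum_nonneg (fun p _ => hg p)
      linarith
    · intro c hc
      have := hfac c hc
      linarith
  have hterm : ∀ S ∈ V, (1 + y) ^ r * ∏ p ∈ S, z (d p) ≤ (1 + y) ^ 2 * ∏ p ∈ S, g p := by
    intro S hS
    obtain ⟨h1, h2, h3⟩ := hV S hS
    have e1 : ∏ p ∈ S, g p = (∏ p ∈ S, z (d p)) * (1 + y) ^ (3 * ∑ p ∈ S, d p) := by
      rw [hgd, Finset.prod_mul_distrib, Finset.mul_sum, Finset.prod_pow_eq_pow_sum]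
    rw [e1]
    have e2 : (1 + y) ^ r ≤ (1 + y) ^ 2 * (1 + y) ^ (3 * ∑ p ∈ S, d p) := by
      rw [← pow_add]
      exact pow_le_pow_right₀ h1y h3
    have e3 : 0 ≤ ∏ p ∈ S, z (d p) := Finset.prod_nonneg (fun p _ => hz _)
    nlinarith [mul_le_mul_of_nonneg_right e2 e3]
  have hpos : (0 : ℝ) < (1 + y) ^ r := by positivity
  have hall : (1 + y) ^ r * ∑ S ∈ V, ∏ p ∈ S, z (d p) ≤ (1 + y) ^ r * (1 + y) ^ 2 := by
    rw [Finset.mul_sum]
    calc ∑ S ∈ V, (1 + y) ^ r * ∏ p ∈ S, z (d p)
        ≤ ∑ S ∈ V, (1 + y) ^ 2 * ∏ p ∈ S, g p := Finset.sum_le_sum hterm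
      _ = (1 + y) ^ 2 * ∑ S ∈ V, ∏ p ∈ S, g p := by rw [Finset.mul_sum]
      _ ≤ (1 + y) ^ 2 * (1 + y) ^ r := by
          apply mul_le_mul_of_nonneg_left (hk.trans hprod) (by positivity)
      _ = _ := by ring
  exact le_of_mul_le_mul_left hall hpos

end Pool.Agent.SBW
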