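import Pool.Agent.SBW.Targets

set_option autoImplicit false

/-!
# MP_b5172a_pr, target UNF: the unfolded walk is a bridge
-/

open scoped Classical

noncomputable section

namespace Pool.Agent.SBW

namespace UNF_

variable {D : ℕ}

theorem gsh_of_le_left (w : Wk D) (p : ℕ × ℕ) {k : ℕ} (h : k ≤ p.1) : gsh w p k = 0 := by
  simp [gsh, h]

theorem gsh_mid (w : Wk D) (p : ℕ × ℕ) {k : ℕ} (h1 : p.1 ≤ k) (h2 : k ≤ p.2) :
    gsh w p k = pos w p.1 0 - pos w k 0 := by
  unfold gsh
  by_cases h : k ≤ p.1
  · have : k = p.1 := le_antisymm h h1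
    subst this
    simp
  · simp [h, h2]

theorem gsh_right (w : Wk D) (p : ℕ × ℕ) {k : ℕ} (h0 : p.1 < p.2) (h1 : p.2 ≤ k) :
    gsh w p k = pos w p.1 0 - pos w p.2 0 := by
  unfold gsh
  have h : ¬ k ≤ p.1 := by omega
  by_cases h2 : k ≤ p.2
  · have : k = p.2 := le_antisymm h2 h1
    subst this
    simp [h]
  · simp [h, h2]

theorem D_pos (w : Wk D) (p : ℕ × ℕ) (hp : Pair w p) : 0 < pos w p.1 0 - pos w p.2 0 := by
  have := hp.2.2.2.1 p.2 hp.1 le_rfl
  linarith

theorem gsh_nonneg (w : Wk D) (p : ℕ × ℕ) (hp : Pair w p) (k : ℕ) : 0 ≤ gsh w p k := by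
  rcases Nat.lt_or_ge k p.1 with h | h
  · rw [gsh_of_le_left w p h.le]
  · rcases Nat.lt_or_ge k p.2 with h2 | h2
    · rw [gsh_mid w p h h2.le]
      have := hp.2.2.1 k h2.le
      linarith
    · rw [gsh_right w p hp.1 h2]
      exact (D_pos w p hp).le

theorem gsh_le (w : Wk D) (p : ℕ × ℕ) (hp : Pair w p) {k : ℕ} (hk : k ≤ w.length) :
    gsh w p k ≤ pos w p.1 0 - pos w p.2 0 := by
  rcases Nat.lt_or_ge k p.1 with h | h
  · rw [gsh_of_le_left w p h.le]
    exact (D_pos w p hp).le
  · rcases Nat.lt_or_ge k p.2 with h2 | h2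
    · rw [gsh_mid w p h h2.le]
      have := hp.2.2.2.2.1 k h hk
      linarith
    · rw [gsh_right w p hp.1 h2]

end UNF_

open UNF_ in
theorem p_UNF : T_PDIS → T_UNFP → T_UNF := by
  intro hPD hUP D w S hbr hS
  have hSp : ∀ p ∈ S, Pair w p := fun p hp => mem_pairF.1 (hS hp)
  have hdis : ∀ p ∈ S, ∀ q ∈ S, q ≠ p → q.2 < p.1 ∨ p.2 < q.1 := by
    intro p hp q hq hne
    exact hPD D w q p (hSp q hq) (hSp p hp) hne
  set w' := flipAt w (cov S) with hw'
  have hlen : w'.length = w.length := length_flipAt w (cov S)
  have hX : ∀ k ≤ w.length, pos w' k 0 = pos w k 0 + 2 * ∑ p ∈ S, gsh w p k := hUP D w S hS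
  -- inside a pair
  have hL1 : ∀ p ∈ S, ∀ i, p.1 ≤ i → i ≤ p.2 →
      pos w' i 0 = pos w' p.1 0 + (pos w p.1 0 - pos w i 0) := by
    intro p hp i h1 h2
    have hpp := hSp p hp
    have hl := hpp.2.1
    rw [hX i (by omega), hX p.1 (by omega)]
    have h3 : ∑ q ∈ S, gsh w q i - ∑ q ∈ S, gsh w q p.1 = gsh w p i := by
      rw [← Finset.sum_sub_distrib, Finset.sum_eq_single p]
      · rw [gsh_of_le_left w p (le_refl p.1)]; ring
      · intro q hq hne
        rcases hdis p hp q hq hne with h | h
        · rw [gsh_right w q (hSp q hq).1 (by omega), gsh_right w q (hSp q hq).1 (by omega)]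
          ring
        · rw [gsh_of_le_left w q (by omega), gsh_of_le_left w q (by omega)]
          ring
      · intro h; exact absurd hp h
    rw [gsh_mid w p h1 h2] at h3
    linarith
  have hend : ∀ p ∈ S, pos w' p.2 0 - pos w' p.1 0 = pos w p.1 0 - pos w p.2 0 := by
    intro p hp
    have := hL1 p hp p.2 (hSp p hp).1.le le_rfl
    linarith
  -- cut at p.1
  have hc1 : ∀ p ∈ S, Cut w' p.1 := by
    intro p hp
    have hpp := hSp p hp
    have hl := hpp.2.1
    have hl1 := hpp.1
    refine ⟨by omega, ?_, ?_⟩
    · intro i hi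
      rw [hX i (by omega), hX p.1 (by omega)]
      have h1 : ∑ q ∈ S, gsh w q i ≤ ∑ q ∈ S, gsh w q p.1 := by
        apply Finset.sum_le_sum
        intro q hq
        by_cases hne : q = p
        · subst hne
          rw [gsh_of_le_left w q hi, gsh_of_le_left w q le_rfl]
        · rcases hdis p hp q hq hne with h | h
          · rw [gsh_right w q (hSp q hq).1 (le_of_lt h)]
            exact gsh_le w q (hSp q hq) (by omega)
          · rw [gsh_of_le_left w q (by omega), gsh_of_le_left w q (by omega)]
      have h2 := hpp.2.2.1 i (by omega)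
      linarith
    · intro i hi hil
      rw [hlen] at hil
      rw [hX i hil, hX p.1 (by omega)]
      have h1 : gsh w p i ≤ ∑ q ∈ S, gsh w q i - ∑ q ∈ S, gsh w q p.1 := by
        rw [← Finset.sum_sub_distrib]
        have h2 : gsh w p i = gsh w p i - gsh w p p.1 := by
          rw [gsh_of_le_left w p (le_refl p.1)]; ring
        rw [h2]
        apply Finset.single_le_sum (f := fun q => gsh w q i - gsh w q p.1) _ hp
        intro q hq
        by_cases hne : q = p
        · subst hne
          rw [gsh_of_le_left w q (le_refl q.1)]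
          simpa using gsh_nonneg w q (hSp q hq) i
        · rcases hdis p hp q hq hne with h | h
          · rw [gsh_right w q (hSp q hq).1 (by omega), gsh_right w q (hSp q hq).1 (by omega)]
            simp
          · rw [gsh_of_le_left w q (k := p.1) (by omega)]
            simpa using gsh_nonneg w q (hSp q hq) i
      rcases Nat.lt_or_ge p.2 i with h3 | h3
      · rw [gsh_right w p hpp.1 (by omega)] at h1
        have h4 := hpp.2.2.2.2.2 i h3 hil
        have h5 := D_pos w p hpp
        linarith
      · rw [gsh_mid w p (by omega) h3] at h1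
        have h4 := hpp.2.2.2.1 i hi h3
        linarith
  -- cut at p.2
  have hc2 : ∀ p ∈ S, Cut w' p.2 := by
    intro p hp
    have hpp := hSp p hp
    have hl := hpp.2.1
    have hl1 := hpp.1
    refine ⟨by omega, ?_, ?_⟩
    · intro i hi
      rcases Nat.lt_or_ge p.1 i with h3 | h3
      · rw [hL1 p hp i (by omega) hi, hL1 p hp p.2 (by omega) le_rfl]
        have := hpp.2.2.2.2.1 i (by omega) (by omega)
        linarith
      · have h4 := (hc1 p hp).2.1 i h3
        have h5 := hend p hp
        have h6 := D_pos w p hpp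
        linarith
    · intro i hi hil
      rw [hlen] at hil
      rw [hX i hil, hX p.2 (by omega)]
      have h1 : ∑ q ∈ S, gsh w q p.2 ≤ ∑ q ∈ S, gsh w q i := by
        apply Finset.sum_le_sum
        intro q hq
        by_cases hne : q = p
        · subst hne
          rw [gsh_right w q (hSp q hq).1 (le_refl _), gsh_right w q (hSp q hq).1 (by omega)]
        · rcases hdis p hp q hq hne with h | h
          · rw [gsh_right w q (hSp q hq).1 (by omega), gsh_right w q (hSp q hq).1 (by omega)]
          · rw [gsh_of_le_left w q (k := p.2) (by omega)]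
            exact gsh_nonneg w q (hSp q hq) i
      have h2 := hpp.2.2.2.2.2 i hi hil
      linarith
  have hhx : hx w' = hx w + 2 * ∑ p ∈ S, (dep w p : ℤ) := by
    unfold hx
    rw [hlen, hX _ le_rfl]
    congr 2
    apply Finset.sum_congr rfl
    intro p hp
    rw [gsh_right w p (hSp p hp).1 (hSp p hp).2.1]
    unfold dep
    rw [Int.toNat_of_nonneg (D_pos w p (hSp p hp)).le]
  refine ⟨⟨?_, ?_⟩, hhx, ?_⟩
  · -- self-avoiding
    have key : ∀ i k, i < k → k ≤ w.length → ¬ ∀ j, pos w' i j = pos w' k j := by
      intro i k hik hk hpos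
      have h0 := hpos 0
      have hno : ∀ p ∈ S, (p.1 < i ∨ k ≤ p.1) ∧ (p.2 < i ∨ k ≤ p.2) := by
        intro p hp
        constructor
        · by_contra hcon
          push Not at hcon
          have h1 := (hc1 p hp).2.1 i hcon.1
          have h2 := (hc1 p hp).2.2 k hcon.2 (by omega)
          linarith
        · by_contra hcon
          push Not at hcon
          have h1 := (hc2 p hp).2.1 i hcon.1
          have h2 := (hc2 p hp).2.2 k hcon.2 (by omega)
          linarith
      have hXik : pos w i 0 = pos w k 0 := by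
        by_cases hex : ∃ p ∈ S, p.1 < i ∧ k ≤ p.2
        · obtain ⟨p, hp, h1, h2⟩ := hex
          rw [hL1 p hp i (by omega) (by omega), hL1 p hp k (by omega) h2] at h0
          linarith
        · push Not at hex
          have hsum : ∑ q ∈ S, gsh w q i = ∑ q ∈ S, gsh w q k := by
            apply Finset.sum_congr rfl
            intro q hq
            have h1 := hno q hq
            have h2 := hex q hq
            have h3 := (hSp q hq).1
            rcases h1.1 with h4 | h4
            · have h5 := h2 h4
              rcases h1.2 with h6 | h6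
              · rw [gsh_right w q h3 (by omega), gsh_right w q h3 (by omega)]
              · omega
            · rw [gsh_of_le_left w q (by omega), gsh_of_le_left w q (by omega)]
          rw [hX i (by omega), hX k hk, hsum] at h0
          linarith
      have hall : ∀ j, pos w i j = pos w k j := by
        intro j
        by_cases hj : j = 0
        · subst hj; exact hXik
        · have h1 := hpos j
          rw [hw', pos_flipAt_other w _ i hj, pos_flipAt_other w _ k hj] at h1
          exact h1
      have := hbr.1 i (by omega) k hk hall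
      omega
    intro i hi k hk hpos
    rw [hlen] at hi hk
    by_contra hne
    rcases Nat.lt_or_gt_of_ne hne with h | h
    · exact key i k h hk hpos
    · exact key k i h hi (fun j => (hpos j).symm)
  · intro k hk hkl
    rw [hlen] at hkl
    have hb := hbr.2 k hk hkl
    constructor
    · rw [hX k hkl]
      have : 0 ≤ ∑ p ∈ S, gsh w p k := Finset.sum_nonneg fun p hp => gsh_nonneg w p (hSp p hp) k
      linarith [hb.1]
    · unfold hx at hb ⊢
      rw [hlen, hX k hkl, hX _ le_rfl]
      have : ∑ p ∈ S, gsh w p k ≤ ∑ p ∈ S, gsh w p w.length := by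
        apply Finset.sum_le_sum
        intro p hp
        rw [gsh_right w p (hSp p hp).1 (hSp p hp).2.1]
        exact gsh_le w p (hSp p hp) hkl
      linarith [hb.2]
  · intro p hp
    have h1 := D_pos w p (hSp p hp)
    refine ⟨(hSp p hp).1, ?_, hc1 p hp, hc2 p hp, ?_⟩
    · unfold dep
      omega
    · rw [hend p hp]
      unfold dep
      rw [Int.toNat_of_nonneg h1.le]

end Pool.Agent.SBW
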