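import Pool.Agent.SBW.Targets

set_option autoImplicit false

/-!
# MP_b5172a_pr: UNIQ, few valid pairs of corners
-/

open scoped Classical

noncomputable section

namespace Pool.Agent.SBW

namespace UNIQ_

variable {D : ℕ}

/-- the two first corners are close -/
theorem near_first {r : ℕ} {θ hm : ℝ} {Γ : Wk D} {a a' p p' : ℕ} (h0 : 0 ≤ θ) (h1 : θ ≤ 1 / 4)
    (ha : Val r θ hm Γ a a') (hp : Val r θ hm Γ p p') (hap : a ≤ p) (j : Fin (D + 2)) :
    |pos Γ p j - pos Γ a j| ≤ 4 * (r : ℤ) := by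
  have hr : (0 : ℝ) ≤ r := Nat.cast_nonneg r
  rcases Nat.eq_or_lt_of_le hap with he | hlt
  · subst he
    simp
  have hle : p ≤ a' := by
    by_contra hcon
    have h2 := hp.pext a' (by omega) a (by omega)
    have h3 := ha.hh
    linarith
  have e1 := ha.st0 p hap hle
  have e1' : (pos Γ a 1 : ℝ) ≤ pos Γ p 1 := by exact_mod_cast e1.1
  have e2 := hp.past a hlt
  have e3 : (pos Γ p 1 : ℝ) - pos Γ a 1 ≤
      2 * r + θ * max 0 ((pos Γ p 0 : ℝ) - pos Γ a 0) := by
    have := neg_abs_le ((pos Γ a 1 : ℝ) - pos Γ p 1)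
    linarith
  have e4 := ha.st1 p hap hle
  have e5 := e4 0 (by simp)
  set u1 : ℝ := (pos Γ p 1 : ℝ) - pos Γ a 1 with hu1
  have hu0 : 0 ≤ u1 := by linarith
  have e6 : max 0 ((pos Γ p 0 : ℝ) - pos Γ a 0) ≤ r + θ * u1 := by
    apply max_le
    · positivity
    · exact (le_abs_self _).trans e5
  have e7 : θ * u1 ≤ 1 / 4 * u1 := mul_le_mul_of_nonneg_right h1 hu0
  have e8 : θ * max 0 ((pos Γ p 0 : ℝ) - pos Γ a 0) ≤ 1 / 4 * (r + 1 / 4 * u1) := by
    calc θ * max 0 ((pos Γ p 0 : ℝ) - pos Γ a 0) ≤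
        1 / 4 * max 0 ((pos Γ p 0 : ℝ) - pos Γ a 0) :=
          mul_le_mul_of_nonneg_right h1 (le_max_left _ _)
      _ ≤ 1 / 4 * (r + 1 / 4 * u1) := by linarith
  have e9 : u1 ≤ 4 * r := by linarith
  have key : |(pos Γ p j : ℝ) - pos Γ a j| ≤ 4 * r := by
    by_cases hj : j = 1
    · subst hj
      rw [abs_of_nonneg (by linarith)]
      exact e9
    · refine (e4 j hj).trans ?_
      linarith
  exact_mod_cast key

/-- the two last corners are close -/
theorem near_last {r : ℕ} {θ hm : ℝ} {Γ : Wk D} {a a' p p' : ℕ} (h0 : 0 ≤ θ) (h1 : θ ≤ 1 / 4)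
    (ha : Val r θ hm Γ a a') (hp : Val r θ hm Γ p p') (hap : p' ≤ a') (j : Fin (D + 2)) :
    |pos Γ p' j - pos Γ a' j| ≤ 4 * (r : ℤ) + 2 := by
  have hr : (0 : ℝ) ≤ r := Nat.cast_nonneg r
  rcases Nat.eq_or_lt_of_le hap with he | hlt
  · subst he
    simp only [sub_self, abs_zero]
    positivity
  have hle : a ≤ p' := by
    by_contra hcon
    have hl := ha.le
    have hl' := ha.lt
    have h2 := hp.fext a' a (by omega) (by omega) (by omega) (by omega)
    have h3 := ha.hh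
    linarith
  have e1 := ha.st0 p' hle hap
  have e1' : (pos Γ p' 1 : ℝ) ≤ pos Γ a' 1 := by exact_mod_cast e1.2
  have e2 := hp.fut a' hlt ha.le
  have e3 : (pos Γ a' 1 : ℝ) - pos Γ p' 1 ≤
      2 * r + 1 + θ * max 0 ((pos Γ a' 0 : ℝ) - pos Γ p' 0) := (le_abs_self _).trans e2
  have e4 := ha.st2 p' hle hap
  have e5 := e4 0 (by simp)
  set u1 : ℝ := (pos Γ a' 1 : ℝ) - pos Γ p' 1 with hu1
  have hu0 : 0 ≤ u1 := by linarith
  have e6 : max 0 ((pos Γ a' 0 : ℝ) - pos Γ p' 0) ≤ r + θ * u1 := by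
    apply max_le
    · positivity
    · have := neg_abs_le ((pos Γ p' 0 : ℝ) - pos Γ a' 0)
      linarith
  have e7 : θ * u1 ≤ 1 / 4 * u1 := mul_le_mul_of_nonneg_right h1 hu0
  have e8 : θ * max 0 ((pos Γ a' 0 : ℝ) - pos Γ p' 0) ≤ 1 / 4 * (r + 1 / 4 * u1) := by
    calc θ * max 0 ((pos Γ a' 0 : ℝ) - pos Γ p' 0) ≤
        1 / 4 * max 0 ((pos Γ a' 0 : ℝ) - pos Γ p' 0) :=
          mul_le_mul_of_nonneg_right h1 (le_max_left _ _)
      _ ≤ 1 / 4 * (r + 1 / 4 * u1) := by linarith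
  have e9 : u1 ≤ 4 * r + 2 := by linarith
  have key : |(pos Γ p' j : ℝ) - pos Γ a' j| ≤ 4 * r + 2 := by
    by_cases hj : j = 1
    · subst hj
      rw [abs_sub_comm, abs_of_nonneg (by linarith)]
      exact e9
    · refine (e4 j hj).trans ?_
      linarith
  exact_mod_cast key

end UNIQ_

open UNIQ_ in
theorem p_UNIQ : T_UNIQ := by
  intro D r θ hm Γ h0 h1 hr hS
  set V := (((Finset.range (Γ.length + 1)) ×ˢ (Finset.range (Γ.length + 1))).filter
    (fun p => Val r θ hm Γ p.1 p.2)) with hV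
  rcases V.eq_empty_or_nonempty with he | hne
  · rw [he]; simp
  have hval : ∀ p ∈ V, Val r θ hm Γ p.1 p.2 := fun p hp => (Finset.mem_filter.mp hp).2
  obtain ⟨z0, hz0, hmin⟩ := V.exists_min_image (fun p => p.1) hne
  obtain ⟨z1, hz1, hmax⟩ := V.exists_max_image (fun p => p.2) hne
  let f : ℕ × ℕ → (Fin (D + 2) → ℤ) × (Fin (D + 2) → ℤ) := fun p =>
    (fun j => pos Γ p.1 j - pos Γ z0.1 j, fun j => pos Γ p.2 j - pos Γ z1.2 j)
  have hc := Finset.card_le_card_of_injOn f (s := V)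
    (t := (Fintype.piFinset fun _ => Finset.Icc (-(4 * (r : ℤ))) (4 * r)) ×ˢ
      (Fintype.piFinset fun _ => Finset.Icc (-(4 * (r : ℤ) + 2)) (4 * r + 2))) ?_ ?_
  · refine hc.trans (le_of_eq ?_)
    rw [Finset.card_product, Fintype.card_piFinset, Fintype.card_piFinset]
    simp only [Int.card_Icc, Finset.prod_const, Finset.card_univ, Fintype.card_fin]
    congr 2 <;> omega
  · intro p hp
    have hp' : p ∈ V := hp
    have b1 := fun j => near_first h0 h1 (hval z0 hz0) (hval p hp') (hmin p hp') j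
    have b2 := fun j => near_last h0 h1 (hval z1 hz1) (hval p hp') (hmax p hp') j
    simp only [Finset.coe_product, Set.mem_prod, Finset.mem_coe, Fintype.mem_piFinset,
      Finset.mem_Icc, f]
    exact ⟨fun j => abs_le.mp (b1 j), fun j => abs_le.mp (b2 j)⟩
  · intro p hp q hq hpq
    have hp' : p ∈ V := hp
    have hq' : q ∈ V := hq
    have vp := hval p hp'
    have vq := hval q hq'
    simp only [f, Prod.mk.injEq] at hpq
    obtain ⟨e1, e2⟩ := hpq
    have l1 := vp.le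
    have l2 := vp.lt
    have l3 := vq.le
    have l4 := vq.lt
    apply Prod.ext
    · apply hS _ (by omega) _ (by omega)
      intro j
      have := congrFun e1 j
      linarith
    · apply hS _ (by omega) _ (by omega)
      intro j
      have := congrFun e2 j
      linarith

end Pool.Agent.SBW
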