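import Pool.Agent.SBW.Targets

set_option autoImplicit false

/-!
# SBW, VMON: monotonicity of the velocity
-/

open scoped Classical

noncomputable section

namespace Pool.Agent.SBW

theorem p_VMON : T_PCVX → T_PMON → T_VMON := by
  intro hC hM D t ht
  obtain ⟨h1, h2, _, _⟩ := hM D t ht.le
  have hv : vv D t = (PP D t - PP D 0) / t := rfl
  refine ⟨?_, ?_, ?_, ?_⟩
  · rw [hv, mul_div_cancel₀ _ ht.ne']
    ring
  · rw [hv]
    exact div_nonneg (by linarith) ht.le
  · rw [hv, div_le_one ht]
    linarith
  · intro s hs hst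
    have hvs : vv D s = (PP D s - PP D 0) / s := rfl
    have hc := hC D t 0 (s / t) (div_nonneg hs.le ht.le) ((div_le_one ht).mpr hst)
    have e1 : s / t * t + (1 - s / t) * 0 = s := by
      rw [mul_zero, add_zero, div_mul_cancel₀ _ ht.ne']
    rw [e1] at hc
    rw [hv, hvs, div_le_div_iff₀ hs ht]
    have e2 : s / t * PP D t + (1 - s / t) * PP D 0 = PP D 0 + (s / t) * (PP D t - PP D 0) := by
      ring
    rw [e2] at hc
    have h3 : (PP D s - PP D 0) * t ≤ (s / t) * (PP D t - PP D 0) * t :=
      mul_le_mul_of_nonneg_right (by linarith) ht.le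
    have e3 : (s / t) * (PP D t - PP D 0) * t = (PP D t - PP D 0) * s := by
      field_simp
    rw [e3] at h3
    exact h3

end Pool.Agent.SBW
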