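import Pool.Agent.SBW.BAPP
import Pool.Agent.SBW.BCUT
import Pool.Agent.SBW.UF
import Pool.Agent.SBW.BFL
import Pool.Agent.SBW.REN
import Pool.Agent.SBW.SMUL
import Pool.Agent.SBW.PSUP
import Pool.Agent.SBW.PCVX
import Pool.Agent.SBW.PMON
import Pool.Agent.SBW.VMON
import Pool.Agent.SBW.CN
import Pool.Agent.SBW.HSD
import Pool.Agent.SBW.HSB
import Pool.Agent.SBW.HW
import Pool.Agent.SBW.PDIS
import Pool.Agent.SBW.PCOV
import Pool.Agent.SBW.UNFP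
import Pool.Agent.SBW.UNF
import Pool.Agent.SBW.CUTC
import Pool.Agent.SBW.ULS
import Pool.Agent.SBW.UL
import Pool.Agent.SBW.SLOW
import Pool.Agent.SBW.DEEP
import Pool.Agent.SBW.SHORT
import Pool.Agent.SBW.MLE
import Pool.Agent.SBW.MGE
import Pool.Agent.SBW.NSL
import Pool.Agent.SBW.MASS
import Pool.Agent.SBW.TILT
import Pool.Agent.SBW.MOM
import Pool.Agent.SBW.IFL
import Pool.Agent.SBW.SYM
import Pool.Agent.SBW.KOL
import Pool.Agent.SBW.QEX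
import Pool.Agent.SBW.QGA
import Pool.Agent.SBW.QGB
import Pool.Agent.SBW.QGC
import Pool.Agent.SBW.GOOD
import Pool.Agent.SBW.N96
import Pool.Agent.SBW.BLK
import Pool.Agent.SBW.UNIQ
import Pool.Agent.SBW.GLUE
import Pool.Agent.SBW.CONEF
import Pool.Agent.SBW.CONEB
import Pool.Agent.SBW.SCONE
import Pool.Agent.SBW.MAXR
import Pool.Agent.SBW.RCOND
import Pool.Agent.SBW.OUT
import Pool.Agent.SBW.INP
import Pool.Agent.SBW.COUNT
import Pool.Agent.SBW.CONTR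
import Pool.Agent.SBW.RATE
import Pool.Agent.SBW.SYMC
import Pool.Agent.SBW.TAIL
import Pool.Agent.SBW.MSD
import Pool.Agent.SBW.CONV

set_option autoImplicit false

/-!
# MP_b5172a_pr: assembly
-/

noncomputable section

namespace Pool.Agent.SBW

theorem f_BFL : T_BFL := p_BFL p_BAPP
theorem f_UF : T_UF := p_UF p_BAPP
theorem f_REN : T_REN := p_REN p_BAPP p_BCUT
theorem f_SMUL : T_SMUL := p_SMUL p_BAPP
theorem f_PSUP : T_PSUP := p_PSUP f_SMUL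
theorem f_PCVX : T_PCVX := p_PCVX f_SMUL f_PSUP
theorem f_PMON : T_PMON := p_PMON f_SMUL f_PSUP
theorem f_VMON : T_VMON := p_VMON f_PCVX f_PMON
theorem f_CN : T_CN := p_CN f_SMUL f_PSUP
theorem f_HSB : T_HSB := p_HSB p_HSD f_SMUL f_PSUP
theorem f_HW : T_HW := p_HW f_HSB f_PMON
theorem f_UNFP : T_UNFP := p_UNFP p_PDIS
theorem f_UNF : T_UNF := p_UNF p_PDIS f_UNFP
theorem f_CUTC : T_CUTC := p_CUTC p_PDIS f_UNFP f_UNF
theorem f_UL : T_UL := p_UL p_PDIS f_UNF f_CUTC p_ULS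
theorem f_SLOW : T_SLOW := p_SLOW f_PSUP f_VMON
theorem f_DEEP : T_DEEP := p_DEEP f_UL f_PSUP f_VMON
theorem f_SHORT : T_SHORT := p_SHORT f_UL p_PCOV f_PSUP f_VMON
theorem f_MLE : T_MLE := p_MLE f_REN f_PSUP f_SMUL
theorem f_MGE : T_MGE := p_MGE f_REN f_PSUP f_SMUL f_MLE
theorem f_NSL : T_NSL := p_NSL f_DEEP f_SHORT
theorem f_MASS : T_MASS := p_MASS f_SLOW f_NSL f_MLE f_MGE f_VMON
theorem f_TILT : T_TILT := p_TILT f_MLE
theorem f_MOM : T_MOM := p_MOM f_MASS f_TILT f_NSL f_VMON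
theorem f_SYM : T_SYM := p_SYM p_IFL
theorem f_QGA : T_QGA := p_QGA p_KOL
theorem f_QGB : T_QGB := p_QGB p_KOL
theorem f_GOOD : T_GOOD := p_GOOD p_QEX f_QGA f_QGB p_QGC
theorem f_BLK : T_BLK := p_BLK p_QEX f_QGA f_QGB p_QGC p_N96
theorem f_SCONE : T_SCONE := p_SCONE f_BFL p_CONEF p_CONEB
theorem f_RCOND : T_RCOND := p_RCOND f_BFL p_CONEF p_CONEB
theorem f_OUT : T_OUT := p_OUT f_UF f_BFL p_UNIQ f_PSUP
theorem f_INP : T_INP := p_INP f_GOOD f_BLK p_IFL p_MAXR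
theorem f_COUNT : T_COUNT := p_COUNT f_INP f_RCOND f_SCONE p_GLUE f_OUT f_BFL
theorem f_CONTR : T_CONTR := p_CONTR f_COUNT f_MOM f_SYM f_VMON f_PMON
theorem f_RATE : T_RATE := p_RATE f_CONTR f_VMON
theorem f_TAIL : T_TAIL := p_TAIL p_SYMC f_HW f_CN f_VMON
theorem f_MSD : T_MSD := p_MSD f_TAIL f_RATE f_PMON f_VMON

end Pool.Agent.SBW
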