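import Pool.Agent.SBW.Targets

set_option autoImplicit false

/-!
# MP_b5172a_pr: BAPP, concatenation of bridges
-/

open scoped Classical

noncomputable section

namespace Pool.Agent.SBW

namespace BAPP_

variable {D : ℕ}

theorem bd {u : Wk D} (hu : Br u) {k : ℕ} (hk : k ≤ u.length) :
    0 ≤ pos u k 0 ∧ pos u k 0 ≤ hx u := by
  have h0 : 0 ≤ hx u := by
    rcases Nat.eq_zero_or_pos u.length with h | h
    · have h1 : u = [] := List.length_eq_zero_iff.1 h
      rw [h1, hx_nil]
    · exact (hu.2 u.length h le_rfl).1.le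
  rcases Nat.eq_zero_or_pos k with h | h
  · subst h
    rw [pos_zero]
    exact ⟨le_rfl, h0⟩
  · exact ⟨(hu.2 k h hk).1.le, (hu.2 k h hk).2⟩

theorem posR (u v : Wk D) {k : ℕ} (hk : u.length ≤ k) (j : Fin (D + 2)) :
    pos (u ++ v) k j = pos u u.length j + pos v (k - u.length) j := by
  have h := pos_append_right u v (k - u.length) j
  rwa [Nat.add_sub_cancel' hk] at h

/-- the heights after the junction -/
theorem after {u v : Wk D} (hv : Br v) {k : ℕ} (hk : u.length < k)
    (hk' : k ≤ (u ++ v).length) : hx u < pos (u ++ v) k 0 ∧ pos (u ++ v) k 0 ≤ hx u + hx v := by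
  rw [List.length_append] at hk'
  rw [posR u v hk.le]
  have h := hv.2 (k - u.length) (by omega) (by omega)
  unfold hx at h ⊢
  constructor <;> linarith [h.1, h.2]

theorem saw {u v : Wk D} (hu : Br u) (hv : Br v) : Saw (u ++ v) := by
  have key : ∀ i k, i ≤ u.length → u.length < k → k ≤ (u ++ v).length →
      ¬ ∀ j, pos (u ++ v) i j = pos (u ++ v) k j := by
    intro i k hi hk hk' h
    have h1 := (after hv hk hk').1
    rw [← h 0, pos_append_left u v hi] at h1
    exact absurd (bd hu hi).2 (not_le.2 h1)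
  intro i hi k hk h
  rcases Nat.lt_or_ge u.length i with h1 | h1 <;> rcases Nat.lt_or_ge u.length k with h2 | h2
  · rw [List.length_append] at hi hk
    have h3 := hv.1 (i - u.length) (by omega) (k - u.length) (by omega) fun j => by
      have h4 := h j
      rw [posR u v h1.le, posR u v h2.le] at h4
      exact add_left_cancel h4
    omega
  · exact absurd (fun j => (h j).symm) (key k i h2 h1 hi)
  · exact absurd h (key i k h1 h2 hk)
  · refine hu.1 i h1 k h2 fun j => ?_
    have h4 := h j
    rwa [pos_append_left u v h1, pos_append_left u v h2] at h4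

end BAPP_

/-- BAPP -/
theorem p_BAPP : T_BAPP := by
  intro D u v hu hv
  have hv0 : 0 ≤ hx v := (BAPP_.bd hv (Nat.zero_le _)).1.trans (BAPP_.bd hv (Nat.zero_le _)).2
  have hu0 : 0 ≤ hx u := (BAPP_.bd hu (Nat.zero_le _)).1.trans (BAPP_.bd hu (Nat.zero_le _)).2
  refine ⟨⟨BAPP_.saw hu hv, fun k hk hk' => ?_⟩, ?_, fun i hi => ?_, fun i hi hi' => ?_⟩
  · rw [hx_append]
    rcases Nat.lt_or_ge u.length k with h | h
    · have h1 := BAPP_.after hv h hk'
      exact ⟨lt_of_le_of_lt hu0 h1.1, h1.2⟩
    · rw [pos_append_left u v h]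
      have h1 := hu.2 k hk h
      exact ⟨h1.1, h1.2.trans (le_add_of_nonneg_right hv0)⟩
  · rw [List.length_append]
    exact Nat.le_add_right _ _
  · rw [pos_append_left u v hi, pos_append_left u v le_rfl]
    exact (BAPP_.bd hu hi).2
  · rw [pos_append_left u v le_rfl]
    exact (BAPP_.after hv hi hi').1

end Pool.Agent.SBW
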