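import Pool.Agent.SBW.Defs

set_option autoImplicit false

/-!
# MP_b5172a_pr: basic facts on walks as lists of steps
-/

open scoped Classical

noncomputable section

namespace Pool.Agent.SBW

variable {D : ℕ}

@[simp] theorem pos_zero (w : Wk D) (j : Fin (D + 2)) : pos w 0 j = 0 := by simp [pos]

@[simp] theorem pos_nil (k : ℕ) (j : Fin (D + 2)) : pos ([] : Wk D) k j = 0 := by simp [pos]

@[simp] theorem hx_nil : hx ([] : Wk D) = 0 := by simp [hx]

theorem pos_cons_succ (s : St D) (w : Wk D) (k : ℕ) (j : Fin (D + 2)) :
    pos (s :: w) (k + 1) j = stv s j + pos w k j := by simp [pos]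

theorem pos_add (w : Wk D) (k i : ℕ) (j : Fin (D + 2)) :
    pos w (k + i) j = pos w k j + pos (w.drop k) i j := by
  simp only [pos]
  rw [List.take_add]
  simp

theorem pos_append_left (u v : Wk D) {k : ℕ} (h : k ≤ u.length) (j : Fin (D + 2)) :
    pos (u ++ v) k j = pos u k j := by
  simp only [pos]
  rw [List.take_append_of_le_length h]

theorem pos_append_right (u v : Wk D) (k : ℕ) (j : Fin (D + 2)) :
    pos (u ++ v) (u.length + k) j = pos u u.length j + pos v k j := by
  rw [pos_add]
  simp [pos_append_left u v le_rfl]

theorem pos_of_length_le (w : Wk D) {k : ℕ} (h : w.length ≤ k) (j : Fin (D + 2)) :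
    pos w k j = pos w w.length j := by
  simp only [pos]
  rw [List.take_of_length_le h, List.take_length]

theorem pos_take (w : Wk D) (n k : ℕ) (j : Fin (D + 2)) :
    pos (w.take n) k j = pos w (min k n) j := by
  simp only [pos]
  rw [List.take_take]

theorem pos_take_of_le (w : Wk D) {n k : ℕ} (h : k ≤ n) (j : Fin (D + 2)) :
    pos (w.take n) k j = pos w k j := by
  rw [pos_take, min_eq_left h]

theorem pos_drop (w : Wk D) (n k : ℕ) (j : Fin (D + 2)) :
    pos (w.drop n) k j = pos w (n + k) j - pos w n j := by
  rw [pos_add]; ring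

theorem pos_succ (w : Wk D) {k : ℕ} (h : k < w.length) (j : Fin (D + 2)) :
    pos w (k + 1) j = pos w k j + stv w[k] j := by
  simp only [pos]
  rw [List.take_succ_eq_append_getElem h, List.map_append, List.sum_append]
  simp only [List.map_cons, List.map_nil, List.sum_cons, List.sum_nil, add_zero]

theorem stv_flipS (c j : Fin (D + 2)) (s : St D) :
    stv (flipS c s) j = if j = c then - stv s j else stv s j := by
  obtain ⟨a, b⟩ := s
  unfold flipS stv sg
  by_cases h : a = c
  · subst h
    by_cases h2 : a = j
    · subst h2; cases b <;> simp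
    · have : ¬ j = a := fun h => h2 h.symm
      simp [h2, this]
  · by_cases h2 : a = j
    · subst h2; simp [h]
    · simp [h, h2]

theorem stv_swS (j : Fin (D + 2)) (s : St D) : stv (swS s) j = stv s (Equiv.swap 0 1 j) := by
  obtain ⟨a, b⟩ := s
  unfold swS stv
  have : (Equiv.swap (0 : Fin (D + 2)) 1 a = j) ↔ (a = Equiv.swap 0 1 j) := by
    rw [Equiv.swap_apply_eq_iff]
  simp only [this]

theorem stv_negS (j : Fin (D + 2)) (s : St D) : stv (negS s) j = - stv s j := by
  obtain ⟨a, b⟩ := s
  unfold negS stv sg
  by_cases h : a = j <;> cases b <;> simp [h]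

@[simp] theorem flipS_flipS (c : Fin (D + 2)) (s : St D) : flipS c (flipS c s) = s := by
  obtain ⟨a, b⟩ := s
  unfold flipS
  by_cases h : a = c <;> simp [h]

@[simp] theorem swS_swS (s : St D) : swS (swS s) = s := by
  obtain ⟨a, b⟩ := s
  unfold swS
  simp

@[simp] theorem negS_negS (s : St D) : negS (negS s) = s := by
  obtain ⟨a, b⟩ := s
  unfold negS
  simp

theorem map_flip_flip (c : Fin (D + 2)) (w : Wk D) : (w.map (flipS c)).map (flipS c) = w := by
  rw [List.map_map]
  conv_rhs => rw [← List.map_id w]
  apply List.map_congr_left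
  intro s _
  simp

theorem map_sw_sw (w : Wk D) : (w.map swS).map swS = w := by
  rw [List.map_map]
  conv_rhs => rw [← List.map_id w]
  apply List.map_congr_left
  intro s _
  simp

theorem revW_revW (w : Wk D) : revW (revW w) = w := by
  unfold revW
  rw [← List.map_reverse, List.reverse_reverse, List.map_map]
  conv_rhs => rw [← List.map_id w]
  apply List.map_congr_left
  intro s _
  simp

@[simp] theorem length_revW (w : Wk D) : (revW w).length = w.length := by simp [revW]

theorem pos_map_flip (c j : Fin (D + 2)) (w : Wk D) (k : ℕ) :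
    pos (w.map (flipS c)) k j = if j = c then - pos w k j else pos w k j := by
  induction w generalizing k with
  | nil => simp
  | cons s w ih =>
    cases k with
    | zero => simp
    | succ k =>
      rw [List.map_cons, pos_cons_succ, pos_cons_succ, ih, stv_flipS]
      by_cases h : j = c
      · simp [h]; ring
      · simp [h]

theorem pos_map_sw (j : Fin (D + 2)) (w : Wk D) (k : ℕ) :
    pos (w.map swS) k j = pos w k (Equiv.swap 0 1 j) := by
  induction w generalizing k with
  | nil => simp
  | cons s w ih =>
    cases k with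
    | zero => simp
    | succ k => rw [List.map_cons, pos_cons_succ, pos_cons_succ, ih, stv_swS]

/-- positions of the reversed walk -/
theorem pos_revW (w : Wk D) {k : ℕ} (h : k ≤ w.length) (j : Fin (D + 2)) :
    pos (revW w) k j = pos w (w.length - k) j - pos w w.length j := by
  induction w generalizing k with
  | nil => simp at h; subst h; simp [revW]
  | cons s w ih =>
    have hr : revW (s :: w) = revW w ++ [negS s] := by simp [revW]
    rw [hr]
    have hl : (s :: w).length = w.length + 1 := rfl
    rw [hl] at h ⊢
    rcases Nat.lt_or_ge w.length k with hk | hk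
    · have hk' : k = w.length + 1 := by omega
      subst hk'
      have h1 := pos_append_right (revW w) [negS s] 1 j
      rw [length_revW] at h1
      rw [h1]
      have h2 := ih (k := w.length) le_rfl
      rw [h2]
      have h3 : pos ([negS s] : Wk D) 1 j = - stv s j := by
        have := pos_cons_succ (negS s) ([] : Wk D) 0 j
        simp only [zero_add] at this
        rw [this, stv_negS]; simp
      rw [h3, pos_cons_succ]
      simp
    · rw [pos_append_left _ _ (by simpa using hk), ih hk]
      have h1 : w.length + 1 - k = (w.length - k) + 1 := by omega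
      rw [h1, pos_cons_succ, pos_cons_succ]
      ring

theorem abs_stv_le (s : St D) (j : Fin (D + 2)) : |stv s j| ≤ 1 := by
  obtain ⟨a, b⟩ := s
  unfold stv sg
  by_cases h : a = j <;> cases b <;> simp [h]

theorem abs_pos_succ_sub (w : Wk D) (k : ℕ) (j : Fin (D + 2)) :
    |pos w (k + 1) j - pos w k j| ≤ 1 := by
  rcases Nat.lt_or_ge k w.length with h | h
  · rw [pos_succ w h]
    have := abs_stv_le w[k] j
    simpa using this
  · rw [pos_of_length_le w (by omega : w.length ≤ k + 1), pos_of_length_le w h]
    simp

theorem abs_pos_sub_le (w : Wk D) (k i : ℕ) (j : Fin (D + 2)) :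
    |pos w (k + i) j - pos w k j| ≤ (i : ℤ) := by
  induction i with
  | zero => simp
  | succ i ih =>
    have h1 := abs_pos_succ_sub w (k + i) j
    have h2 : pos w (k + (i + 1)) j - pos w k j =
        (pos w (k + i + 1) j - pos w (k + i) j) + (pos w (k + i) j - pos w k j) := by
      rw [← add_assoc]; ring
    rw [h2]
    calc _ ≤ |pos w (k + i + 1) j - pos w (k + i) j| + |pos w (k + i) j - pos w k j| :=
          abs_add_le _ _
      _ ≤ 1 + (i : ℤ) := by linarith
      _ = ((i + 1 : ℕ) : ℤ) := by push_cast; ring

theorem abs_pos_le (w : Wk D) (k : ℕ) (j : Fin (D + 2)) : |pos w k j| ≤ (k : ℤ) := by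
  have := abs_pos_sub_le w 0 k j
  simpa using this

theorem abs_pos_le_length (w : Wk D) (k : ℕ) (j : Fin (D + 2)) :
    |pos w k j| ≤ (w.length : ℤ) := by
  rcases Nat.le_total k w.length with h | h
  · exact (abs_pos_le w k j).trans (by exact_mod_cast h)
  · rw [pos_of_length_le w h]
    exact abs_pos_le w _ j

theorem abs_hx_le (w : Wk D) : |hx w| ≤ (w.length : ℤ) := abs_pos_le w _ 0

theorem hx_append (u v : Wk D) : hx (u ++ v) = hx u + hx v := by
  unfold hx
  rw [List.length_append, pos_append_right]

theorem pos_end_append (u v : Wk D) (j : Fin (D + 2)) :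
    pos (u ++ v) (u ++ v).length j = pos u u.length j + pos v v.length j := by
  rw [List.length_append, pos_append_right]

theorem mem_WL {n : ℕ} {w : Wk D} : w ∈ WL D n ↔ w.length = n := by
  simp [WL]

theorem mem_BrF {n : ℕ} {w : Wk D} : w ∈ BrF D n ↔ w.length = n ∧ Br w := by
  simp [BrF, mem_WL]
theorem mem_HsF {n : ℕ} {w : Wk D} : w ∈ HsF D n ↔ w.length = n ∧ Hs w := by
  simp [HsF, mem_WL]
theorem mem_IrF {n : ℕ} {w : Wk D} : w ∈ IrF D n ↔ w.length = n ∧ Irr w := by
  simp [IrF, mem_WL]
theorem mem_SwF {n : ℕ} {w : Wk D} : w ∈ SwF D n ↔ w.length = n ∧ Saw w := by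
  simp [SwF, mem_WL]
theorem mem_IrLe {K : ℕ} {w : Wk D} : w ∈ IrLe D K ↔ w.length ≤ K ∧ Irr w := by
  simp only [IrLe, Finset.mem_biUnion, Finset.mem_range, mem_IrF]
  constructor
  · rintro ⟨n, hn, rfl, h⟩
    exact ⟨by omega, h⟩
  · rintro ⟨h1, h2⟩
    exact ⟨w.length, by omega, rfl, h2⟩

theorem mem_cutF {w : Wk D} {k : ℕ} : k ∈ cutF w ↔ Cut w k := by
  simp only [cutF, Finset.mem_filter, Finset.mem_range]
  constructor
  · exact fun h => h.2
  · exact fun h => ⟨by have := h.1; omega, h⟩

theorem mem_pairF {w : Wk D} {p : ℕ × ℕ} : p ∈ pairF w ↔ Pair w p := by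
  simp only [pairF, Finset.mem_filter, Finset.mem_product, Finset.mem_range]
  constructor
  · exact fun h => h.2
  · intro h
    have h1 := h.1
    have h2 := h.2.1
    exact ⟨⟨by omega, by omega⟩, h⟩

theorem card_WL (n : ℕ) : (WL D n).card = (2 * (D + 2)) ^ n := by
  have h : (WL D n) = (Finset.univ : Finset (Fin n → St D)).map
      ⟨List.ofFn, List.ofFn_injective⟩ := by
    ext w
    simp only [mem_WL, Finset.mem_map, Finset.mem_univ, Function.Embedding.coeFn_mk, true_and]
    constructor
    · rintro rfl
      exact ⟨w.get, List.ofFn_get w⟩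
    · rintro ⟨f, rfl⟩
      simp
  rw [h, Finset.card_map, Finset.card_univ, Fintype.card_fun, Fintype.card_fin]
  congr 1
  simp [St]
  ring

@[simp] theorem length_flipAt (w : Wk D) (U : Set ℕ) : (flipAt w U).length = w.length := by
  simp [flipAt]

theorem getElem_flipAt (w : Wk D) (U : Set ℕ) {i : ℕ} (h : i < (flipAt w U).length) :
    (flipAt w U)[i] = if i ∈ U then flipS 0 (w[i]'(by simpa using h)) else
      w[i]'(by simpa using h) := by
  simp [flipAt]

theorem flipAt_flipAt (w : Wk D) (U : Set ℕ) : flipAt (flipAt w U) U = w := by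
  apply List.ext_getElem (by simp)
  intro i h1 h2
  rw [getElem_flipAt, getElem_flipAt]
  by_cases h : i ∈ U <;> simp [h]

theorem pos_flipAt_succ (w : Wk D) (U : Set ℕ) {k : ℕ} (h : k < w.length) (j : Fin (D + 2)) :
    pos (flipAt w U) (k + 1) j - pos (flipAt w U) k j =
      if k ∈ U ∧ j = 0 then - (pos w (k + 1) j - pos w k j) else pos w (k + 1) j - pos w k j := by
  have h' : k < (flipAt w U).length := by simpa using h
  rw [pos_succ _ h', pos_succ _ h, getElem_flipAt]
  by_cases h1 : k ∈ U
  · simp only [h1, if_true, true_and, stv_flipS]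
    by_cases h2 : j = 0
    · simp [h2]
    · simp [h2]
  · simp [h1]

theorem pos_flipAt_other (w : Wk D) (U : Set ℕ) (k : ℕ) {j : Fin (D + 2)} (hj : j ≠ 0) :
    pos (flipAt w U) k j = pos w k j := by
  induction k with
  | zero => simp
  | succ k ih =>
    rcases Nat.lt_or_ge k w.length with h | h
    · have := pos_flipAt_succ w U h j
      simp only [hj, and_false, if_false] at this
      linarith
    · rw [pos_of_length_le _ (by simp; omega), pos_of_length_le w (by omega)]
      rw [pos_of_length_le (flipAt w U) (k := k) (by simpa using h),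
        pos_of_length_le w h] at ih
      exact ih

/-- end point of a concatenation -/
theorem pos_end_flatten (l : List (Wk D)) (j : Fin (D + 2)) :
    pos l.flatten l.flatten.length j = (l.map (fun w => pos w w.length j)).sum := by
  induction l with
  | nil => simp
  | cons w l ih =>
    rw [List.flatten_cons, pos_end_append, ih]
    simp

theorem length_flatten_eq (l : List (Wk D)) :
    l.flatten.length = (l.map List.length).sum := List.length_flatten

theorem hx_flatten_eq (l : List (Wk D)) : hx l.flatten = (l.map hx).sum :=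
  pos_end_flatten l 0

/-- position inside a concatenation: the time `k` lies in the piece number `i`, at time `k'` of
this piece, or `k` is the end -/
theorem pos_flatten (l : List (Wk D)) (k : ℕ) (hk : k < l.flatten.length) :
    ∃ i, ∃ h : i < l.length, ∃ k', k' < (l[i]).length ∧
      k = ((l.take i).map List.length).sum + k' ∧
      ∀ j, pos l.flatten k j = ((l.take i).map (fun w => pos w w.length j)).sum +
        pos (l[i]) k' j := by
  induction l generalizing k with
  | nil => simp at hk
  | cons w l ih =>
    rcases Nat.lt_or_ge k w.length with h | h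
    · refine ⟨0, by simp, k, by simpa using h, by simp, ?_⟩
      intro j
      rw [List.flatten_cons, pos_append_left _ _ h.le]
      simp
    · obtain ⟨k₁, rfl⟩ := Nat.exists_eq_add_of_le h
      have h1 : k₁ < l.flatten.length := by
        rw [List.flatten_cons, List.length_append] at hk
        omega
      obtain ⟨i, hi, k', hk', he, hp⟩ := ih k₁ h1
      refine ⟨i + 1, by simpa using hi, k', by simpa using hk', ?_, ?_⟩
      · simp only [List.take_succ_cons, List.map_cons, List.sum_cons]
        omega
      · intro j
        rw [List.flatten_cons, pos_append_right, hp j]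
        simp only [List.take_succ_cons, List.map_cons, List.sum_cons, List.getElem_cons_succ]
        ring

end Pool.Agent.SBW
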