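import Pool.Agent.SBW.Targets

set_option autoImplicit false

/-!
# MP_b5172a_pr: CONTR, the velocity drops between polynomially related scales
-/

open scoped Classical

noncomputable section

namespace Pool.Agent.SBW

namespace CONTR_

/-- the parameter `θ1` -/
def th1 (D : ℕ) (v : ℝ) : ℝ := v / (4 * 10 ^ 30 * ((D : ℝ) + 1))

/-- the parameter `h` -/
def hh (v l : ℝ) : ℝ := v / 40 * l

/-- the block size -/
def NN (D : ℕ) (u v l : ℝ) : ℕ :=
  ⌈10 ^ 5 * u ^ 10 / hh v l + u ^ 10 / (th1 D v * hh v l) + 16 * (40 / v) / th1 D v⌉₊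

/-- the parameters -/
def par (D : ℕ) (u v l t0 : ℝ) : Par where
  h := hh v l
  A := 40 / v
  B := 80
  ε := t0 ^ 2
  x := u ^ 10
  θ1 := th1 D v
  θ2 := 1 / 10 ^ 12
  N := NN D u v l

/-- the number `J₀` -/
def JJ (v l t0 : ℝ) : ℕ := ⌊1 / (4 * 10 ^ 9 * t0 * hh v l)⌋₊

/-- the number `r` -/
def rr (D : ℕ) (u v l : ℝ) : ℕ :=
  ⌈8 * (th1 D v + 1 / 10 ^ 12) * hh v l * ((NN D u v l : ℝ) + 1)⌉₊

/-- the number `Nm` -/
def Nm (D : ℕ) (u v l t0 : ℝ) : ℕ :=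
  ⌈64 * (40 / v) * hh v l * (3 * (10 ^ 5 * (JJ v l t0 : ℝ))) +
    16000 * (40 / v) * hh v l * (NN D u v l : ℝ) +
      128 * (40 / v) * hh v l * (2 * (JJ v l t0 : ℝ))⌉₊

/-- hypotheses on the reals -/
structure Hyp (D : ℕ) (u v l t0 : ℝ) : Prop where
  hu : 10 ^ 40 * ((D : ℝ) + 2) ≤ u
  ht0 : t0 * u ^ (52 * (D + 2) + 30) = 1
  v0 : 0 < v
  v1 : v ≤ 1
  v2 : 3 * 10 ^ 33 * ((D : ℝ) + 1) ≤ v ^ 2 * Real.log u
  v3 : 1 ≤ v * u
  l1 : 1 / 2 ≤ l
  l2 : l ≤ u ^ 12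

variable {D : ℕ} {u v l t0 : ℝ}

theorem Hyp.u1 (H : Hyp D u v l t0) : 10 ^ 40 ≤ u := by
  have := H.hu
  have hD : (0 : ℝ) ≤ D := Nat.cast_nonneg D
  nlinarith

theorem Hyp.hpos (H : Hyp D u v l t0) : 0 < hh v l := by
  have h1 := H.v0
  have h2 := H.l1
  unfold hh
  positivity

theorem Hyp.th1pos (H : Hyp D u v l t0) : 0 < th1 D v := by
  have h1 := H.v0
  unfold th1
  positivity

theorem Hyp.th1le (H : Hyp D u v l t0) : th1 D v ≤ 1 / 10 ^ 12 := by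
  have h1 := H.v1
  have h0 := H.v0
  have hD : (0 : ℝ) ≤ D := Nat.cast_nonneg D
  unfold th1
  rw [div_le_div_iff₀ (by positivity) (by positivity)]
  nlinarith

/-- `80 * h * u ≥ 1` -/
theorem Hyp.hlow (H : Hyp D u v l t0) : 1 ≤ 80 * hh v l * u := by
  have h1 := H.v3
  have h0 := H.v0
  have h2 := H.l1
  have h3 := H.u1
  unfold hh
  have : v * u * (1 / 2) ≤ v * u * l := by
    apply mul_le_mul_of_nonneg_left h2
    nlinarith
  nlinarith

theorem Hyp.hle (H : Hyp D u v l t0) : hh v l ≤ l / 40 := by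
  have h1 := H.v1
  have h2 := H.l1
  unfold hh
  nlinarith

theorem Hyp.huN (H : Hyp D u v l t0) :
    10 ^ 5 * u ^ 10 / hh v l + u ^ 10 / (th1 D v * hh v l) + 16 * (40 / v) / th1 D v ≤
      4 * 10 ^ 33 * ((D : ℝ) + 1) * u ^ 12 := by
  have h1 := H.v3
  have h0 := H.v0
  have hl := H.hlow
  have hp := H.hpos
  have hu := H.u1
  have hup : 0 < u := by linarith [show (0:ℝ) < 10 ^ 40 by norm_num]
  have hu1 : 1 ≤ u := by linarith [show (1:ℝ) ≤ 10 ^ 40 by norm_num]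
  have hD : (0 : ℝ) ≤ D := Nat.cast_nonneg D
  have hi : 1 / hh v l ≤ 80 * u := by
    rw [div_le_iff₀ hp]; linarith
  have hvi : 1 / v ≤ u := by
    rw [div_le_iff₀ h0]; linarith
  have hti : 1 / th1 D v ≤ 4 * 10 ^ 30 * ((D : ℝ) + 1) * u := by
    unfold th1
    rw [one_div_div]
    rw [div_le_iff₀ h0]
    have : 4 * 10 ^ 30 * ((D : ℝ) + 1) * 1 ≤ 4 * 10 ^ 30 * ((D : ℝ) + 1) * (v * u) :=
      mul_le_mul_of_nonneg_left h1 (by positivity)
    linarith
  have e1 : 10 ^ 5 * u ^ 10 / hh v l ≤ 10 ^ 5 * u ^ 10 * (80 * u) := by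
    rw [div_eq_mul_one_div]
    exact mul_le_mul_of_nonneg_left hi (by positivity)
  have htp := H.th1pos
  have e2 : u ^ 10 / (th1 D v * hh v l) ≤
      u ^ 10 * ((4 * 10 ^ 30 * ((D : ℝ) + 1) * u) * (80 * u)) := by
    have hsp : 1 / (th1 D v * hh v l) = (1 / th1 D v) * (1 / hh v l) := by
      rw [one_div_mul_one_div]
    rw [div_eq_mul_one_div, hsp]
    apply mul_le_mul_of_nonneg_left _ (by positivity)
    exact mul_le_mul hti hi (by positivity) (by positivity)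
  have e3 : 16 * (40 / v) / th1 D v ≤ 640 * u * (4 * 10 ^ 30 * ((D : ℝ) + 1) * u) := by
    rw [div_eq_mul_one_div]
    have : 16 * (40 / v) = 640 * (1 / v) := by ring
    rw [this]
    exact mul_le_mul (mul_le_mul_of_nonneg_left hvi (by norm_num)) hti (by positivity)
      (by positivity)
  have e4 : 10 ^ 5 * u ^ 10 * (80 * u) ≤ 10 ^ 33 * ((D : ℝ) + 1) * u ^ 12 := by
    have h1 : u ^ 11 ≤ u ^ 12 := pow_le_pow_right₀ hu1 (by norm_num)
    have h2 : 0 ≤ u ^ 12 := by positivity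
    have h3 : 10 ^ 5 * u ^ 10 * (80 * u) = 8 * 10 ^ 6 * u ^ 11 := by ring
    rw [h3]
    nlinarith [mul_nonneg hD h2]
  have e5 : 640 * u * (4 * 10 ^ 30 * ((D : ℝ) + 1) * u) ≤ 10 ^ 33 * ((D : ℝ) + 1) * u ^ 12 := by
    have h1 : u ^ 3 ≤ u ^ 12 := pow_le_pow_right₀ hu1 (by norm_num)
    have h4 : u ^ 2 * 10 ^ 40 ≤ u ^ 3 := by
      have : u ^ 3 = u ^ 2 * u := by ring
      rw [this]
      exact mul_le_mul_of_nonneg_left hu (by positivity)
    have h3 : 640 * u * (4 * 10 ^ 30 * ((D : ℝ) + 1) * u) =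
      2560 * 10 ^ 30 * ((D : ℝ) + 1) * u ^ 2 := by ring
    rw [h3]
    have h5 : 10 ^ 33 * ((D : ℝ) + 1) * u ^ 12 ≥ 10 ^ 33 * ((D : ℝ) + 1) * (u ^ 2 * 10 ^ 40) :=
      mul_le_mul_of_nonneg_left (by linarith) (by positivity)
    have h6 : 0 ≤ ((D : ℝ) + 1) * u ^ 2 := by positivity
    nlinarith
  have e6 : u ^ 10 * ((4 * 10 ^ 30 * ((D : ℝ) + 1) * u) * (80 * u)) =
      32 * 10 ^ 31 * ((D : ℝ) + 1) * u ^ 12 := by ring
  have h6 : 0 ≤ ((D : ℝ) + 1) * u ^ 12 := by positivity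
  nlinarith

theorem Hyp.Nle (H : Hyp D u v l t0) : (NN D u v l : ℝ) ≤ u ^ 13 := by
  have h1 := H.huN
  have hp := H.hpos
  have htp := H.th1pos
  have h0 := H.v0
  have hu := H.hu
  have hu1 := H.u1
  have hup : 0 < u := by linarith [show (0:ℝ) < 10 ^ 40 by norm_num]
  have hD : (0 : ℝ) ≤ D := Nat.cast_nonneg D
  have h2 : (NN D u v l : ℝ) < (10 ^ 5 * u ^ 10 / hh v l + u ^ 10 / (th1 D v * hh v l) +
      16 * (40 / v) / th1 D v) + 1 := Nat.ceil_lt_add_one (by positivity)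
  have h3 : u ^ 13 = u * u ^ 12 := by ring
  have h4 : (10 ^ 40 * ((D : ℝ) + 2)) * u ^ 12 ≤ u * u ^ 12 :=
    mul_le_mul_of_nonneg_right hu (by positivity)
  have h5 : (1 : ℝ) ≤ u ^ 12 := one_le_pow₀ (by linarith [show (1:ℝ) ≤ 10 ^ 40 by norm_num])
  have h6 : 0 ≤ (D : ℝ) * u ^ 12 := by positivity
  rw [h3]
  nlinarith

theorem Hyp.k1 (H : Hyp D u v l t0) : 10 ^ 5 * u ^ 10 ≤ (NN D u v l : ℝ) * hh v l := by
  have hp := H.hpos
  have htp := H.th1pos
  have h0 := H.v0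
  have hu1 := H.u1
  have hup : 0 < u := by linarith [show (0:ℝ) < 10 ^ 40 by norm_num]
  have h1 : 10 ^ 5 * u ^ 10 / hh v l + u ^ 10 / (th1 D v * hh v l) + 16 * (40 / v) / th1 D v ≤
      (NN D u v l : ℝ) := Nat.le_ceil _
  have h2 : 10 ^ 5 * u ^ 10 / hh v l ≤ (NN D u v l : ℝ) := by
    have : 0 ≤ u ^ 10 / (th1 D v * hh v l) := by positivity
    have : 0 ≤ 16 * (40 / v) / th1 D v := by positivity
    linarith
  rwa [div_le_iff₀ hp] at h2

theorem Hyp.k2 (H : Hyp D u v l t0) : u ^ 10 ≤ th1 D v * hh v l * (NN D u v l : ℝ) := by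
  have hp := H.hpos
  have htp := H.th1pos
  have h0 := H.v0
  have hu1 := H.u1
  have hup : 0 < u := by linarith [show (0:ℝ) < 10 ^ 40 by norm_num]
  have h1 : 10 ^ 5 * u ^ 10 / hh v l + u ^ 10 / (th1 D v * hh v l) + 16 * (40 / v) / th1 D v ≤
      (NN D u v l : ℝ) := Nat.le_ceil _
  have h2 : u ^ 10 / (th1 D v * hh v l) ≤ (NN D u v l : ℝ) := by
    have : 0 ≤ 10 ^ 5 * u ^ 10 / hh v l := by positivity
    have : 0 ≤ 16 * (40 / v) / th1 D v := by positivity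
    linarith
  rw [div_le_iff₀ (by positivity)] at h2
  linarith

theorem Hyp.k3 (H : Hyp D u v l t0) : 16 * (40 / v) ≤ th1 D v * (NN D u v l : ℝ) := by
  have hp := H.hpos
  have htp := H.th1pos
  have h0 := H.v0
  have hu1 := H.u1
  have hup : 0 < u := by linarith [show (0:ℝ) < 10 ^ 40 by norm_num]
  have h1 : 10 ^ 5 * u ^ 10 / hh v l + u ^ 10 / (th1 D v * hh v l) + 16 * (40 / v) / th1 D v ≤
      (NN D u v l : ℝ) := Nat.le_ceil _
  have h2 : 16 * (40 / v) / th1 D v ≤ (NN D u v l : ℝ) := by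
    have : 0 ≤ 10 ^ 5 * u ^ 10 / hh v l := by positivity
    have : 0 ≤ u ^ 10 / (th1 D v * hh v l) := by positivity
    linarith
  rw [div_le_iff₀ (by positivity)] at h2
  linarith

theorem Hyp.t0pos (H : Hyp D u v l t0) : 0 < t0 := by
  have h := H.ht0
  have hu1 := H.u1
  have hup : 0 < u := by linarith [show (0:ℝ) < 10 ^ 40 by norm_num]
  have h2 : 0 < u ^ (52 * (D + 2) + 30) := by positivity
  by_contra hc
  push Not at hc
  nlinarith

theorem Hyp.t0le (H : Hyp D u v l t0) (k : ℕ) (hk : k ≤ 52 * (D + 2) + 30) :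
    t0 * u ^ k ≤ 1 := by
  have h := H.ht0
  have hu1 := H.u1
  have hu : 1 ≤ u := by linarith [show (1:ℝ) ≤ 10 ^ 40 by norm_num]
  rw [← h]
  exact mul_le_mul_of_nonneg_left (pow_le_pow_right₀ hu hk) H.t0pos.le

theorem Hyp.parOK (H : Hyp D u v l t0) : ParOK (D + 1) (par D u v l t0) := by
  have hp := H.hpos
  have htp := H.th1pos
  have h0 := H.v0
  have hv1 := H.v1
  have hu1 := H.u1
  have hu : 1 ≤ u := by linarith [show (1:ℝ) ≤ 10 ^ 40 by norm_num]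
  have ht0 := H.t0pos
  refine ⟨hp, ?_, by norm_num [par], by simp only [par]; positivity, ?_, ?_, htp,
    by norm_num [par], ?_, H.k1, H.k2, H.k3, ?_⟩
  · simp only [par]
    rw [le_div_iff₀ h0]; linarith
  · simp only [par]
    have h1 := H.t0le 1 (by omega)
    rw [pow_one] at h1
    have h2 : t0 * 10 ^ 40 ≤ t0 * u := mul_le_mul_of_nonneg_left hu1 ht0.le
    have h3 : t0 ≤ 1 / 10 := by linarith
    nlinarith
  · simp only [par]
    exact one_le_pow₀ hu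
  · simp only [par, NN]
    rw [Nat.one_le_ceil_iff]
    positivity
  · simp only [par]
    unfold th1
    push_cast
    have hD : (0 : ℝ) ≤ D := Nat.cast_nonneg D
    have : 10 ^ 5 * ((D : ℝ) + 1) * (v / (4 * 10 ^ 30 * ((D : ℝ) + 1))) * (40 / v) =
        1 / 10 ^ 24 := by
      field_simp
      norm_num
    rw [this]
    norm_num

theorem Hyp.hN (H : Hyp D u v l t0) : 10 ^ 5 * u ^ 10 ≤ hh v l * (NN D u v l : ℝ) := by
  have := H.k1; linarith

theorem Hyp.N1 (H : Hyp D u v l t0) : (1 : ℝ) ≤ (NN D u v l : ℝ) := by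
  have h1 := H.parOK.N1
  simp only [par] at h1
  exact_mod_cast h1

theorem Hyp.hN1 (H : Hyp D u v l t0) : 10 ^ 5 ≤ hh v l * (NN D u v l : ℝ) := by
  have h1 := H.hN
  have hu1 := H.u1
  have hu : 1 ≤ u := by linarith [show (1:ℝ) ≤ 10 ^ 40 by norm_num]
  have h2 : (1 : ℝ) ≤ u ^ 10 := one_le_pow₀ hu
  linarith

theorem Hyp.rle (H : Hyp D u v l t0) :
    (rr D u v l : ℝ) ≤ 4 / 10 ^ 11 * (hh v l * (NN D u v l : ℝ)) + 1 := by
  have hp := H.hpos
  have htp := H.th1pos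
  have htl := H.th1le
  have hN := H.N1
  have h1 : (rr D u v l : ℝ) < 8 * (th1 D v + 1 / 10 ^ 12) * hh v l * ((NN D u v l : ℝ) + 1) + 1 :=
    Nat.ceil_lt_add_one (by positivity)
  have h2 : 8 * (th1 D v + 1 / 10 ^ 12) * hh v l * ((NN D u v l : ℝ) + 1) ≤
      (16 / 10 ^ 12) * hh v l * (2 * (NN D u v l : ℝ)) := by
    apply mul_le_mul _ (by linarith) (by positivity) (by positivity)
    apply mul_le_mul_of_nonneg_right _ hp.le
    linarith
  have h3 : 0 ≤ hh v l * (NN D u v l : ℝ) := by positivity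
  nlinarith

theorem Hyp.Jge (H : Hyp D u v l t0) : u ^ (52 * (D + 2) + 17) ≤ (JJ v l t0 : ℝ) := by
  have hp := H.hpos
  have hle := H.hle
  have hl2 := H.l2
  have ht := H.ht0
  have ht0 := H.t0pos
  have hu1 := H.u1
  have hup : 0 < u := by linarith [show (0:ℝ) < 10 ^ 40 by norm_num]
  have hu : 1 ≤ u := by linarith [show (1:ℝ) ≤ 10 ^ 40 by norm_num]
  have h1 : 1 / (4 * 10 ^ 9 * t0 * hh v l) - 1 < (JJ v l t0 : ℝ) := Nat.sub_one_lt_floor _
  have hh1 : hh v l ≤ u ^ 12 := by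
    have : (0 : ℝ) ≤ u ^ 12 := by positivity
    linarith
  have h2 : 4 * 10 ^ 9 * t0 * hh v l ≤ 4 * 10 ^ 9 * t0 * u ^ 12 :=
    mul_le_mul_of_nonneg_left hh1 (by positivity)
  have h3 : 1 / (4 * 10 ^ 9 * t0 * u ^ 12) ≤ 1 / (4 * 10 ^ 9 * t0 * hh v l) :=
    one_div_le_one_div_of_le (by positivity) h2
  have h4 : 2 * u ^ (52 * (D + 2) + 17) ≤ 1 / (4 * 10 ^ 9 * t0 * u ^ 12) := by
    rw [le_div_iff₀ (by positivity)]
    have e : 2 * u ^ (52 * (D + 2) + 17) * (4 * 10 ^ 9 * t0 * u ^ 12) =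
        8 * 10 ^ 9 * (t0 * u ^ (52 * (D + 2) + 29)) := by
      rw [show 52 * (D + 2) + 29 = (52 * (D + 2) + 17) + 12 by omega, pow_add]
      ring
    rw [e]
    have e2 : t0 * u ^ (52 * (D + 2) + 29) * u = 1 := by
      rw [← ht]; ring
    have e3 : 0 < t0 * u ^ (52 * (D + 2) + 29) := by positivity
    nlinarith
  have h5 : (1 : ℝ) ≤ u ^ (52 * (D + 2) + 17) := one_le_pow₀ hu
  linarith

theorem Hyp.Jle (H : Hyp D u v l t0) : (JJ v l t0 : ℝ) * (4 * 10 ^ 9 * t0 * hh v l) ≤ 1 := by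
  have hp := H.hpos
  have ht0 := H.t0pos
  have h1 : (JJ v l t0 : ℝ) ≤ 1 / (4 * 10 ^ 9 * t0 * hh v l) :=
    Nat.floor_le (by positivity)
  rwa [le_div_iff₀ (by positivity)] at h1

theorem Hyp.NJ (H : Hyp D u v l t0) : 10 ^ 8 * (NN D u v l : ℝ) ≤ (JJ v l t0 : ℝ) := by
  have h1 := H.Nle
  have h2 := H.Jge
  have hu1 := H.u1
  have hu : 1 ≤ u := by linarith [show (1:ℝ) ≤ 10 ^ 40 by norm_num]
  have h3 : u ^ 14 ≤ u ^ (52 * (D + 2) + 17) := pow_le_pow_right₀ hu (by omega)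
  have h4 : u ^ 14 = u * u ^ 13 := by ring
  have h5 : 10 ^ 8 * u ^ 13 ≤ u * u ^ 13 := mul_le_mul_of_nonneg_right
    (by linarith [show (10:ℝ) ^ 8 ≤ 10 ^ 40 by norm_num]) (by positivity)
  linarith

theorem Hyp.numOK (H : Hyp D u v l t0) :
    NumOK (par D u v l t0) (JJ v l t0) (rr D u v l) (Nm D u v l t0) (2 * t0) (1 / 4) := by
  have hp := H.hpos
  have htp := H.th1pos
  have htl := H.th1le
  have ht0 := H.t0pos
  have hr := H.rle
  have hN1 := H.hN1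
  have hNJ := H.NJ
  have hJl := H.Jle
  have hv := H.v0
  set h := hh v l with hdef
  set N := (NN D u v l : ℝ) with Ndef
  set J := (JJ v l t0 : ℝ) with Jdef
  set r := (rr D u v l : ℝ) with rdef
  have hNJ' : 10 ^ 8 * (h * N) ≤ h * J := by
    have := mul_le_mul_of_nonneg_left hNJ hp.le
    linarith
  have hJ0 : 0 ≤ h * J := by positivity
  refine ⟨rfl, by positivity, ?_, ?_, ?_, ?_, by norm_num, ?_, ?_, ?_, ?_, ?_, ?_⟩
  · simp only [rr]
    rw [Nat.one_le_ceil_iff]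
    positivity
  · have : (NN D u v l : ℝ) ≤ (JJ v l t0 : ℝ) := by
      have h0 : (0 : ℝ) ≤ N := by positivity
      linarith
    exact_mod_cast this
  · exact Nat.le_ceil _
  · simp only [par]
    linarith
  · simp only [par]
    linarith
  · simp only [par]
    linarith
  · simp only [par]
    have : h / 4 * (10 ^ 5 * J) = 25000 * (h * J) := by ring
    have h2 : 2 * (1 / 4) * (128 * 80 * h * (2 * J)) = 10240 * (h * J) := by ring
    have h3 : 16000 * 80 * h * N = 1280000 * (h * N) := by ring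
    linarith
  · simp only [par]
    have h1 : 64 * 80 * h * (3 * (10 ^ 5 * J)) + 16000 * 80 * h * N =
        1536000000 * (h * J) + 1280000 * (h * N) := by ring
    rw [h1]
    have h2 : 8 * (th1 D v + 1 / 10 ^ 12) * (1536000000 * (h * J) + 1280000 * (h * N)) ≤
        (16 / 10 ^ 12) * (1536000000 * (h * J) + 1280000 * (h * N)) := by
      apply mul_le_mul_of_nonneg_right _ (by nlinarith)
      linarith
    have h3 : h / 4 * J = (h * J) / 4 := by ring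
    linarith
  · simp only [par]
    have h1 : 64 * 80 * h * (3 * (10 ^ 5 * J)) + 16000 * 80 * h * N + 128 * 80 * h * (2 * J) =
        1536020480 * (h * J) + 1280000 * (h * N) := by ring
    have h1' : 64 * 80 * h * (3 * (10 ^ 5 * J)) + 16000 * 80 * h * N + 128 * 80 * h * (2 * J) ≤
        1600000000 * (h * J) := by rw [h1]; linarith
    have h2 : 2 * t0 * (64 * 80 * h * (3 * (10 ^ 5 * J)) + 16000 * 80 * h * N +
        128 * 80 * h * (2 * J)) ≤ 2 * t0 * (1600000000 * (h * J)) :=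
      mul_le_mul_of_nonneg_left h1' (by positivity)
    have h3 : 2 * t0 * (1600000000 * (h * J)) = (4 / 5) * (J * (4 * 10 ^ 9 * t0 * h)) := by ring
    linarith
  · exact Nat.le_ceil _

/-- the final numerical contradiction -/
theorem Hyp.final (H : Hyp D u v l t0) (PP0 : ℝ)
    (hPP : PP0 ≤ Real.log (2 * ((D : ℝ) + 2)) + 2 * t0)
    (hc : (JJ v l t0 : ℝ) * (10 ^ 5 * (JJ v l t0 : ℝ)) * (1 / 3200 *
      Real.exp (-(16 * (par D u v l t0).A / (par D u v l t0).θ1) -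
      2 * (par D u v l t0).ε * (3 * (10 ^ 5 * (JJ v l t0 : ℝ)) + 4 * (par D u v l t0).N +
        4 * (JJ v l t0 : ℝ)))) ≤
    Real.exp (1 + PP0) * ((8 * (rr D u v l : ℝ) + 1) ^ (D + 2) *
      (8 * (rr D u v l : ℝ) + 5) ^ (D + 2)) * ((Nm D u v l t0 : ℝ) + 2)) : False := by
  have hp := H.hpos
  have htp := H.th1pos
  have ht0 := H.t0pos
  have hr := H.rle
  have hN1 := H.hN1
  have hNJ := H.NJ
  have hJl := H.Jle
  have hJg := H.Jge
  have hNle := H.Nle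
  have hv := H.v0
  have hu1 := H.u1
  have hup : 0 < u := by linarith [show (0:ℝ) < 10 ^ 40 by norm_num]
  have hu : 1 ≤ u := by linarith [show (1:ℝ) ≤ 10 ^ 40 by norm_num]
  have hD : (0 : ℝ) ≤ D := Nat.cast_nonneg D
  have hl1 := H.l1
  have hl2 := H.l2
  have hle := H.hle
  have hlow := H.hlow
  have hHu := H.hu
  simp only [par] at hc
  -- the exponent
  have hexp : -(16 * (40 / v) / th1 D v) - 2 * t0 ^ 2 * (3 * (10 ^ 5 * (JJ v l t0 : ℝ)) +
      4 * (NN D u v l : ℝ) + 4 * (JJ v l t0 : ℝ)) ≥ - Real.log u - 1 := by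
    have h1 : 16 * (40 / v) / th1 D v ≤ Real.log u := by
      unfold th1
      have h2 := H.v2
      have e : 16 * (40 / v) / (v / (4 * 10 ^ 30 * ((D : ℝ) + 1))) =
          2560 * 10 ^ 30 * ((D : ℝ) + 1) / v ^ 2 := by
        field_simp
        ring
      rw [e, div_le_iff₀ (by positivity)]
      nlinarith
    have h2 : 2 * t0 ^ 2 * (3 * (10 ^ 5 * (JJ v l t0 : ℝ)) +
      4 * (NN D u v l : ℝ) + 4 * (JJ v l t0 : ℝ)) ≤ 1 := by
      have h3 : 3 * (10 ^ 5 * (JJ v l t0 : ℝ)) + 4 * (NN D u v l : ℝ) + 4 * (JJ v l t0 : ℝ) ≤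
        4 * 10 ^ 5 * (JJ v l t0 : ℝ) := by
        have : (0 : ℝ) ≤ (NN D u v l : ℝ) := by positivity
        linarith
      have h4 : 2 * t0 ^ 2 * (3 * (10 ^ 5 * (JJ v l t0 : ℝ)) +
        4 * (NN D u v l : ℝ) + 4 * (JJ v l t0 : ℝ)) ≤
        2 * t0 ^ 2 * (4 * 10 ^ 5 * (JJ v l t0 : ℝ)) :=
        mul_le_mul_of_nonneg_left h3 (by positivity)
      have h5 : 2 * t0 ^ 2 * (4 * 10 ^ 5 * (JJ v l t0 : ℝ)) ≤
          2 * t0 ^ 2 * (4 * 10 ^ 5 * (JJ v l t0 : ℝ)) * (80 * hh v l * u) := by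
        apply le_mul_of_one_le_right (by positivity) hlow
      have h6 : 2 * t0 ^ 2 * (4 * 10 ^ 5 * (JJ v l t0 : ℝ)) * (80 * hh v l * u) =
          (16 / 1000) * (t0 * u ^ 1) * ((JJ v l t0 : ℝ) * (4 * 10 ^ 9 * t0 * hh v l)) := by ring
      have h7 := H.t0le 1 (by omega)
      have h8 : (t0 * u ^ 1) * ((JJ v l t0 : ℝ) * (4 * 10 ^ 9 * t0 * hh v l)) ≤ 1 * 1 :=
        mul_le_mul h7 hJl (by positivity) (by norm_num)
      nlinarith
    linarith
  have hexp2 : 1 / (3 * u) ≤ Real.exp (-(16 * (40 / v) / th1 D v) - 2 * t0 ^ 2 *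
      (3 * (10 ^ 5 * (JJ v l t0 : ℝ)) + 4 * (NN D u v l : ℝ) + 4 * (JJ v l t0 : ℝ))) := by
    refine le_trans ?_ (Real.exp_le_exp.mpr hexp)
    rw [Real.exp_sub, Real.exp_neg, Real.exp_log hup]
    rw [← one_div, div_div]
    apply one_div_le_one_div_of_le (by positivity)
    have := Real.exp_one_lt_d9
    nlinarith
  -- right side
  have hP : Real.exp (1 + PP0) ≤ 16 * ((D : ℝ) + 2) := by
    have h1 : 1 + PP0 ≤ Real.log (2 * ((D : ℝ) + 2)) + 2 := by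
      have h7 := H.t0le 1 (by omega)
      have : t0 ≤ t0 * u ^ 1 := le_mul_of_one_le_right ht0.le (by linarith [pow_one u])
      have h8 : t0 * 10 ^ 40 ≤ t0 * u ^ 1 := by
        rw [pow_one]; exact mul_le_mul_of_nonneg_left hu1 ht0.le
      linarith
    refine (Real.exp_le_exp.mpr h1).trans ?_
    rw [Real.exp_add, Real.exp_log (by positivity)]
    have h2 : Real.exp 2 ≤ 8 := by
      have := Real.exp_one_lt_d9
      have h3 : Real.exp 2 = Real.exp 1 * Real.exp 1 := by rw [← Real.exp_add]; norm_num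
      have h4 := Real.exp_pos 1
      rw [h3]
      nlinarith
    nlinarith
  have hr25 : (rr D u v l : ℝ) ≤ u ^ 25 := by
    have h1 : hh v l * (NN D u v l : ℝ) ≤ u ^ 12 * u ^ 13 := by
      apply mul_le_mul _ hNle (by positivity) (by positivity)
      have : (0 : ℝ) ≤ u ^ 12 := by positivity
      linarith
    have h2 : u ^ 12 * u ^ 13 = u ^ 25 := by ring
    have h3 : (10 : ℝ) ^ 40 ≤ u ^ 25 := by
      calc (10 : ℝ) ^ 40 ≤ u ^ 1 := by rw [pow_one]; exact hu1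
        _ ≤ u ^ 25 := pow_le_pow_right₀ hu (by norm_num)
    linarith
  have hM : (8 * (rr D u v l : ℝ) + 1) ^ (D + 2) * (8 * (rr D u v l : ℝ) + 5) ^ (D + 2) ≤
      u ^ (52 * (D + 2)) := by
    have h0 : (0 : ℝ) ≤ (rr D u v l : ℝ) := by positivity
    have h1 : (1 : ℝ) ≤ u ^ 25 := one_le_pow₀ hu
    have h2 : (8 * (rr D u v l : ℝ) + 1) ≤ u ^ 26 := by
      have : u ^ 26 = u * u ^ 25 := by ring
      nlinarith
    have h3 : (8 * (rr D u v l : ℝ) + 5) ≤ u ^ 26 := by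
      have : u ^ 26 = u * u ^ 25 := by ring
      nlinarith
    calc (8 * (rr D u v l : ℝ) + 1) ^ (D + 2) * (8 * (rr D u v l : ℝ) + 5) ^ (D + 2)
        ≤ (u ^ 26) ^ (D + 2) * (u ^ 26) ^ (D + 2) :=
          mul_le_mul (pow_le_pow_left₀ (by positivity) h2 _)
            (pow_le_pow_left₀ (by positivity) h3 _) (by positivity) (by positivity)
      _ = u ^ (52 * (D + 2)) := by
          rw [← pow_mul, ← pow_add]
          congr 1
          ring
  have hNm : (Nm D u v l t0 : ℝ) + 2 ≤ 3 * 10 ^ 7 * u ^ 12 * (JJ v l t0 : ℝ) := by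
    have h1 : (Nm D u v l t0 : ℝ) < (64 * (40 / v) * hh v l * (3 * (10 ^ 5 * (JJ v l t0 : ℝ))) +
      16000 * (40 / v) * hh v l * (NN D u v l : ℝ) +
      128 * (40 / v) * hh v l * (2 * (JJ v l t0 : ℝ))) + 1 := Nat.ceil_lt_add_one (by positivity)
    have h2 : (40 / v) * hh v l = l := by
      unfold hh
      field_simp
    have h3 : (64 * (40 / v) * hh v l * (3 * (10 ^ 5 * (JJ v l t0 : ℝ))) +
      16000 * (40 / v) * hh v l * (NN D u v l : ℝ) +
      128 * (40 / v) * hh v l * (2 * (JJ v l t0 : ℝ))) =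
      ((40 / v) * hh v l) * (19200256 * (JJ v l t0 : ℝ) + 16000 * (NN D u v l : ℝ)) := by ring
    rw [h3, h2] at h1
    have h4 : 19200256 * (JJ v l t0 : ℝ) + 16000 * (NN D u v l : ℝ) ≤
      2 * 10 ^ 7 * (JJ v l t0 : ℝ) := by
      have : (0 : ℝ) ≤ (JJ v l t0 : ℝ) := by positivity
      linarith
    have h5 : l * (19200256 * (JJ v l t0 : ℝ) + 16000 * (NN D u v l : ℝ)) ≤
        u ^ 12 * (2 * 10 ^ 7 * (JJ v l t0 : ℝ)) :=
      mul_le_mul hl2 h4 (by positivity) (by positivity)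
    have h6 : (1 : ℝ) ≤ u ^ 12 * (JJ v l t0 : ℝ) := by
      have h7 : (1 : ℝ) ≤ u ^ (52 * (D + 2) + 17) := one_le_pow₀ hu
      have h8 : (1 : ℝ) ≤ u ^ 12 := one_le_pow₀ hu
      nlinarith
    nlinarith
  have hJpos : 0 < (JJ v l t0 : ℝ) := by
    have h7 : (1 : ℝ) ≤ u ^ (52 * (D + 2) + 17) := one_le_pow₀ hu
    linarith
  -- combine
  have hL : (JJ v l t0 : ℝ) * (10 ^ 5 * (JJ v l t0 : ℝ)) * (1 / 3200 * (1 / (3 * u))) ≤
      16 * ((D : ℝ) + 2) * u ^ (52 * (D + 2)) * (3 * 10 ^ 7 * u ^ 12 * (JJ v l t0 : ℝ)) := by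
    calc (JJ v l t0 : ℝ) * (10 ^ 5 * (JJ v l t0 : ℝ)) * (1 / 3200 * (1 / (3 * u)))
        ≤ (JJ v l t0 : ℝ) * (10 ^ 5 * (JJ v l t0 : ℝ)) * (1 / 3200 *
          Real.exp (-(16 * (40 / v) / th1 D v) - 2 * t0 ^ 2 *
            (3 * (10 ^ 5 * (JJ v l t0 : ℝ)) + 4 * (NN D u v l : ℝ) + 4 * (JJ v l t0 : ℝ)))) := by
          apply mul_le_mul_of_nonneg_left _ (by positivity)
          apply mul_le_mul_of_nonneg_left hexp2 (by norm_num)
      _ ≤ _ := hc
      _ ≤ 16 * ((D : ℝ) + 2) * u ^ (52 * (D + 2)) * (3 * 10 ^ 7 * u ^ 12 * (JJ v l t0 : ℝ)) := by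
          apply mul_le_mul _ hNm (by positivity) (by positivity)
          apply mul_le_mul hP hM (by positivity) (by positivity)
  have hL2 : (JJ v l t0 : ℝ) * ((JJ v l t0 : ℝ) * 10) ≤
      (JJ v l t0 : ℝ) * (16 * ((D : ℝ) + 2) * u ^ (52 * (D + 2)) * (3 * 10 ^ 7 * u ^ 12) * u) := by
    have h1 : (JJ v l t0 : ℝ) * (10 ^ 5 * (JJ v l t0 : ℝ)) * (1 / 3200 * (1 / (3 * u))) * u =
        (JJ v l t0 : ℝ) * ((JJ v l t0 : ℝ) * (10 ^ 5 / 9600)) := by
      field_simp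
      norm_num
    have h2 := mul_le_mul_of_nonneg_right hL hup.le
    rw [h1] at h2
    have h3 : 0 ≤ (JJ v l t0 : ℝ) * (JJ v l t0 : ℝ) := by positivity
    nlinarith
  have hL3 := le_of_mul_le_mul_left hL2 hJpos
  have hfin : u ^ (52 * (D + 2) + 17) * 10 ≤
      16 * ((D : ℝ) + 2) * u ^ (52 * (D + 2)) * (3 * 10 ^ 7 * u ^ 12) * u := by linarith
  have e1 : u ^ (52 * (D + 2) + 17) = u ^ (52 * (D + 2)) * u ^ 13 * u ^ 4 := by
    rw [show 52 * (D + 2) + 17 = (52 * (D + 2)) + 13 + 4 by omega, pow_add, pow_add]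
  have e2 : 16 * ((D : ℝ) + 2) * u ^ (52 * (D + 2)) * (3 * 10 ^ 7 * u ^ 12) * u =
      u ^ (52 * (D + 2)) * u ^ 13 * (48 * 10 ^ 7 * ((D : ℝ) + 2)) := by ring
  rw [e1, e2, mul_assoc] at hfin
  have h9 := le_of_mul_le_mul_left hfin (by positivity)
  have h10 : u ≤ u ^ 4 := le_self_pow₀ hu (by norm_num)
  nlinarith

end CONTR_

open CONTR_

/-- CONTR from COUNT and MOM. -/
theorem p_CONTR (hCOUNT : T_COUNT) (hMOM : T_MOM) (hSYM : T_SYM) (hVMON : T_VMON)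
    (hPMON : T_PMON) : T_CONTR := by
  intro D
  have hD : (0 : ℝ) ≤ D := Nat.cast_nonneg D
  refine ⟨52 * (D + 2) + 30, by omega, √(3 * 10 ^ 33 * ((D : ℝ) + 1)), by positivity,
    1 / (10 ^ 40 * ((D : ℝ) + 2)), by positivity, ?_, ?_⟩
  · rw [div_lt_div_iff₀ (by positivity) (by norm_num)]
    nlinarith
  intro t1 ht1 ht1le hC
  by_contra hcon
  push Not at hcon
  obtain ⟨A₀, hA₀⟩ : ∃ A : ℕ, A = 52 * (D + 2) + 30 := ⟨_, rfl⟩
  rw [← hA₀] at hC hcon
  obtain ⟨t0, ht0def⟩ : ∃ t : ℝ, t = t1 ^ A₀ := ⟨_, rfl⟩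
  rw [← ht0def] at hC hcon
  obtain ⟨v, hv⟩ : ∃ v : ℝ, v = vv D t0 := ⟨_, rfl⟩
  rw [← hv] at hC hcon
  obtain ⟨u, hu⟩ : ∃ u : ℝ, u = 1 / t1 := ⟨_, rfl⟩
  rw [← hu] at hC
  have hup : 0 < u := by rw [hu]; positivity
  have hub : 10 ^ 40 * ((D : ℝ) + 2) ≤ u := by
    rw [hu, le_div_iff₀ ht1]
    rw [le_div_iff₀ (by positivity)] at ht1le
    linarith
  have hu40 : 10 ^ 40 ≤ u := by nlinarith
  have hu1 : 1 ≤ u := by linarith [show (1:ℝ) ≤ 10 ^ 40 by norm_num]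
  have ht0 : 0 < t0 := by rw [ht0def]; positivity
  have ht1u : t1 = 1 / u := by rw [hu]; simp
  have hlogpos : 0 < Real.log u := Real.log_pos (by linarith [show (1:ℝ) < 10 ^ 40 by norm_num])
  have hsq : 0 < √(Real.log u) := Real.sqrt_pos.mpr hlogpos
  have hC' : √(3 * 10 ^ 33 * ((D : ℝ) + 1)) ≤ v * √(Real.log u) := by
    rwa [div_le_iff₀ hsq] at hC
  have hC1 : (1 : ℝ) ≤ √(3 * 10 ^ 33 * ((D : ℝ) + 1)) := by
    rw [Real.one_le_sqrt]
    nlinarith
  have hv0 : 0 < v := by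
    by_contra hv0
    push Not at hv0
    have : v * √(Real.log u) ≤ 0 := mul_nonpos_of_nonpos_of_nonneg hv0 hsq.le
    linarith
  obtain ⟨-, -, hv1, -⟩ := hVMON D t0 ht0
  rw [← hv] at hv1
  have hv2 : 3 * 10 ^ 33 * ((D : ℝ) + 1) ≤ v ^ 2 * Real.log u := by
    have h1 := pow_le_pow_left₀ (by positivity) hC' 2
    rw [Real.sq_sqrt (by positivity), mul_pow, Real.sq_sqrt hlogpos.le] at h1
    exact h1
  have hv3 : 1 ≤ v * u := by
    have h1 : √(Real.log u) ≤ u := by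
      rw [Real.sqrt_le_left hup.le]
      have := Real.log_le_sub_one_of_pos hup
      nlinarith
    calc (1 : ℝ) ≤ v * √(Real.log u) := hC1.trans hC'
      _ ≤ v * u := mul_le_mul_of_nonneg_left h1 hv0.le
  have ht1v : t1 ≤ v := by
    rw [ht1u, div_le_iff₀ hup]
    exact hv3
  have ht1s : t1 ≤ 1 / 100 := by
    rw [ht1u]
    apply one_div_le_one_div_of_le (by norm_num)
    linarith [show (100:ℝ) ≤ 10 ^ 40 by norm_num]
  have ht0u : t0 * u ^ A₀ = 1 := by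
    rw [ht0def, hu, ← mul_pow, mul_one_div_cancel ht1.ne', one_pow]
  have ht0u' : t0 * u ^ (52 * (D + 2) + 30) = 1 := by rw [← hA₀]; exact ht0u
  have h100 : 100 * t0 ≤ t1 := by
    have h1 : t1 ^ A₀ ≤ t1 ^ 2 := pow_le_pow_of_le_one ht1.le (by linarith) (by omega)
    rw [← ht0def] at h1
    nlinarith
  obtain ⟨K, m1, m2, m3, m4, m5, m6⟩ := hMOM D t0 t1 (t0 ^ 2) ht0 h100 ht1s
    (by rw [← hv]; exact ht1v) (by rw [← hv]; exact hcon) (by positivity)
  rw [← hv] at m5 m6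
  obtain ⟨l, hl⟩ : ∃ l : ℝ, l = ∑ w ∈ IrLe D K, pw D (2 * t0) w * (w.length : ℝ) := ⟨_, rfl⟩
  rw [← hl] at m3 m4 m5 m6
  have hl2 : l ≤ u ^ 12 := by
    rw [hu, one_div, inv_pow]
    rw [← one_div, le_div_iff₀ (by positivity)]
    linarith
  have H : Hyp D u v l t0 := ⟨hub, ht0u', hv0, hv1, hv2, hv3, m3, hl2⟩
  have hlaw : LawOK (IrLe D K) (pw D (2 * t0)) Lw Xw (Yw (D := D)) (par D u v l t0) := by
    refine ⟨fun a _ => (Real.exp_pos _).le, m2, m1, ?_, ?_, ?_, ?_, ?_, ?_, ?_, ?_⟩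
    · intro a ha
      have := (mem_IrLe.mp ha).2.2.1
      simp only [Lw]
      exact_mod_cast this
    · intro a ha
      have h1 := (mem_IrLe.mp ha).2
      have h2 := h1.1.2 a.length h1.2.1 le_rfl
      simp only [Xw]
      exact_mod_cast h2.1.le
    · intro a ha
      have := le_trans (le_abs_self _) (abs_hx_le a)
      simp only [Xw, Lw]
      exact_mod_cast this
    · intro j a ha
      have := abs_pos_le_length a a.length j.1
      simp only [Yw, Lw]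
      exact_mod_cast this
    · intro j T
      exact hSYM D K (2 * t0) T j.1 j.2
    · simp only [par, Xw, hh]
      have : (80 : ℝ) * (v / 40 * l) = 2 * v * l := by ring
      rw [this]
      exact m5
    · have e : ∀ w ∈ IrLe D K, (Lw w ≤ (par D u v l t0).x ↔ t1 ^ 10 * (w.length : ℝ) ≤ 1) := by
        intro w _
        simp only [par, Lw]
        rw [hu, one_div, inv_pow, ← one_div, le_div_iff₀ (by positivity)]
        constructor <;> intro h <;> linarith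
      rw [Finset.filter_congr e]
      exact m6
    · simp only [par, Lw, hh]
      have : 40 / v * (v / 40 * l) = l := by field_simp
      rw [this, hl]
  have hcount := hCOUNT D K (JJ v l t0) (rr D u v l) (Nm D u v l t0) (2 * t0) (1 / 4)
    (par D u v l t0) H.parOK hlaw H.numOK
  obtain ⟨-, -, hP, -⟩ := hPMON D (2 * t0) (by positivity)
  exact H.final _ hP hcount

end Pool.Agent.SBW
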