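import Mathlib

set_option autoImplicit false

/-!
# MP_b5172a_pr: quantitative sub-ballisticity of self-avoiding walk on `ℤ^(D+2)`: definitions

A walk started at the origin is the list of its steps. Coordinate `0` is the main direction
(direction of bridges), coordinate `1` the direction of the inserted stick.
All decidability is classical.
-/

open scoped Classical

noncomputable section

namespace Pool.Agent.SBW

/-- signed unit steps of `ℤ^(D+2)` -/
abbrev St (D : ℕ) := Fin (D + 2) × Bool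

/-- a walk started at the origin: the list of its steps -/
abbrev Wk (D : ℕ) := List (St D)

/-- the sign of a step -/
def sg (b : Bool) : ℤ := if b then 1 else -1

/-- coordinate `j` of a step -/
def stv {D : ℕ} (s : St D) (j : Fin (D + 2)) : ℤ := if s.1 = j then sg s.2 else 0

/-- coordinate `j` of the position after `k` steps -/
def pos {D : ℕ} (w : Wk D) (k : ℕ) (j : Fin (D + 2)) : ℤ :=
  ((w.take k).map (fun s => stv s j)).sum

/-- height: coordinate `0` of the end point -/
def hx {D : ℕ} (w : Wk D) : ℤ := pos w w.length 0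

/-- self-avoiding -/
def Saw {D : ℕ} (w : Wk D) : Prop :=
  ∀ i ≤ w.length, ∀ k ≤ w.length, (∀ j, pos w i j = pos w k j) → i = k

/-- bridge -/
def Br {D : ℕ} (w : Wk D) : Prop :=
  Saw w ∧ ∀ k, 0 < k → k ≤ w.length → 0 < pos w k 0 ∧ pos w k 0 ≤ hx w

/-- half-space walk -/
def Hs {D : ℕ} (w : Wk D) : Prop :=
  Saw w ∧ ∀ k, 0 < k → k ≤ w.length → 0 < pos w k 0

/-- cut time (renewal time) in the main direction -/
def Cut {D : ℕ} (w : Wk D) (k : ℕ) : Prop :=
  k ≤ w.length ∧ (∀ i ≤ k, pos w i 0 ≤ pos w k 0) ∧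
    ∀ i, k < i → i ≤ w.length → pos w k 0 < pos w i 0

/-- irreducible bridge -/
def Irr {D : ℕ} (w : Wk D) : Prop :=
  Br w ∧ 0 < w.length ∧ ∀ k, 0 < k → k < w.length → ¬ Cut w k

/-- the cut times -/
def cutF {D : ℕ} (w : Wk D) : Finset ℕ := (Finset.range (w.length + 1)).filter (Cut w)

/-- all walks with `n` steps -/
def WL (D n : ℕ) : Finset (Wk D) := (List.finite_length_eq (St D) n).toFinset

/-- bridges with `n` steps -/
def BrF (D n : ℕ) : Finset (Wk D) := (WL D n).filter Br
/-- half-space walks with `n` steps -/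
def HsF (D n : ℕ) : Finset (Wk D) := (WL D n).filter Hs
/-- irreducible bridges with `n` steps -/
def IrF (D n : ℕ) : Finset (Wk D) := (WL D n).filter Irr
/-- self-avoiding walks with `n` steps -/
def SwF (D n : ℕ) : Finset (Wk D) := (WL D n).filter Saw
/-- irreducible bridges with at most `K` steps -/
def IrLe (D K : ℕ) : Finset (Wk D) := (Finset.range (K + 1)).biUnion (IrF D)

/-- partition function of bridges -/
def bS (D n : ℕ) (t : ℝ) : ℝ := ∑ w ∈ BrF D n, Real.exp (t * (hx w : ℝ))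
/-- partition function of irreducible bridges -/
def aS (D n : ℕ) (t : ℝ) : ℝ := ∑ w ∈ IrF D n, Real.exp (t * (hx w : ℝ))
/-- partition function of half-space walks -/
def hS (D n : ℕ) (t : ℝ) : ℝ := ∑ w ∈ HsF D n, Real.exp (t * (hx w : ℝ))
/-- partition function of self-avoiding walks -/
def cS (D n : ℕ) (t : ℝ) : ℝ := ∑ w ∈ SwF D n, Real.exp (t * (hx w : ℝ))

/-- the pressure of bridges with tilt `t` -/
def PP (D : ℕ) (t : ℝ) : ℝ := ⨆ n : ℕ, Real.log (bS D (n + 1) t) / ((n : ℝ) + 1)

/-- `v(t) = (P(t) - P(0)) / t` -/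
def vv (D : ℕ) (t : ℝ) : ℝ := (PP D t - PP D 0) / t

/-- reflection of a step in coordinate `c` -/
def flipS {D : ℕ} (c : Fin (D + 2)) (s : St D) : St D := if s.1 = c then (s.1, !s.2) else s
/-- exchange of the coordinates `0` and `1` -/
def swS {D : ℕ} (s : St D) : St D := (Equiv.swap 0 1 s.1, s.2)
/-- reversed step -/
def negS {D : ℕ} (s : St D) : St D := (s.1, !s.2)
/-- reversed walk -/
def revW {D : ℕ} (w : Wk D) : Wk D := w.reverse.map negS

/-- reflect in coordinate `0` the steps with index in `U` -/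
def flipAt {D : ℕ} (w : Wk D) (U : Set ℕ) : Wk D :=
  w.mapIdx (fun i s => if i ∈ U then flipS 0 s else s)

/-- backtrack pair of times -/
def Pair {D : ℕ} (w : Wk D) (p : ℕ × ℕ) : Prop :=
  p.1 < p.2 ∧ p.2 ≤ w.length ∧
  (∀ i ≤ p.2, pos w i 0 ≤ pos w p.1 0) ∧
  (∀ i, p.1 < i → i ≤ p.2 → pos w i 0 < pos w p.1 0) ∧
  (∀ i, p.1 ≤ i → i ≤ w.length → pos w p.2 0 ≤ pos w i 0) ∧
  (∀ i, p.2 < i → i ≤ w.length → pos w p.2 0 < pos w i 0)

/-- the backtrack pairs of a walk -/
def pairF {D : ℕ} (w : Wk D) : Finset (ℕ × ℕ) :=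
  ((Finset.range (w.length + 1)) ×ˢ (Finset.range (w.length + 1))).filter (Pair w)

/-- depth of a pair of times -/
def dep {D : ℕ} (w : Wk D) (p : ℕ × ℕ) : ℕ := (pos w p.1 0 - pos w p.2 0).toNat

/-- the steps covered by a set of pairs -/
def cov (S : Finset (ℕ × ℕ)) : Set ℕ := {i | ∃ p ∈ S, p.1 ≤ i ∧ i < p.2}

end Pool.Agent.SBW
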