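import Pool.Agent.SBW.Targets

set_option autoImplicit false

/-!
# MP_b5172a_pr: conditioned laws and the cost of conditioning
-/

open scoped Classical

noncomputable section

namespace Pool.Agent.SBW

open Finset

namespace QEX_

theorem exp_le {u : ℝ} (h0 : 0 ≤ u) (h1 : u ≤ 1 / 2) : Real.exp (-(2 * u)) ≤ 1 - u := by
  rw [Real.exp_neg]
  have h2 := Real.add_one_le_exp (2 * u)
  have h3 : 0 < 2 * u + 1 := by linarith
  have h4 : (Real.exp (2 * u))⁻¹ ≤ (2 * u + 1)⁻¹ := inv_anti₀ h3 h2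
  refine h4.trans ?_
  rw [inv_eq_one_div, div_le_iff₀ h3]
  nlinarith

theorem card_lt (n : ℕ) (c L : ℝ) (hc : 0 < c) (hL : 0 ≤ L) :
    (((univ : Finset (Fin n)).filter (fun i : Fin n => c * (((i : ℕ) : ℝ) + 1) < L)).card : ℝ) ≤
      L / c := by
  have h1 : ((univ : Finset (Fin n)).filter (fun i : Fin n => c * (((i : ℕ) : ℝ) + 1) < L)).card ≤
      (range ⌊L / c⌋₊).card := by
    apply card_le_card_of_injOn (fun i : Fin n => (i : ℕ))
    · intro i hi
      rw [mem_coe, mem_filter] at hi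
      rw [mem_coe, mem_range]
      show (i : ℕ) < _
      have h2 : (((i : ℕ) + 1 : ℕ) : ℝ) ≤ L / c := by
        rw [le_div_iff₀ hc]
        push_cast
        have := hi.2
        linarith
      exact Nat.lt_of_succ_le (Nat.le_floor h2)
    · intro i _ j _ hij
      exact Fin.ext hij
  rw [card_range] at h1
  have h2 : ((⌊L / c⌋₊ : ℕ) : ℝ) ≤ L / c := Nat.floor_le (by positivity)
  exact le_trans (by exact_mod_cast h1) h2

/-- the truncation level -/
def TT (P : Par) (i : ℕ) : ℝ := P.θ1 * P.h * max ((i : ℝ) + 1) (P.N : ℝ)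

/-- the normalisation -/
def ZZ {α : Type} (Ω : Finset α) (p L : α → ℝ) (P : Par) (i : ℕ) : ℝ :=
  ∑ b ∈ Ω.filter (fun b => L b ≤ TT P i), p b

theorem qlaw_eq {α : Type} (Ω : Finset α) (p L : α → ℝ) (P : Par) (i : ℕ) (a : α) :
    qlaw Ω p L P i a = if L a ≤ TT P i then p a / ZZ Ω p L P i else 0 := rfl

variable {α ι : Type} [Fintype ι] {Ω : Finset α} {p L X : α → ℝ} {Y : ι → α → ℝ} {P : Par}

omit [Fintype ι] in
theorem TT_ge (m : ℕ) (hP : ParOK m P) (i : ℕ) :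
    P.θ1 * P.h * P.N ≤ TT P i ∧ P.θ1 * P.h * ((i : ℝ) + 1) ≤ TT P i ∧ 0 < TT P i := by
  have h1 : 0 < P.θ1 * P.h := mul_pos hP.t1 hP.h0
  have h2 : (0 : ℝ) < (i : ℝ) + 1 := by positivity
  refine ⟨mul_le_mul_of_nonneg_left (le_max_right _ _) h1.le,
    mul_le_mul_of_nonneg_left (le_max_left _ _) h1.le, ?_⟩
  exact mul_pos h1 (lt_of_lt_of_le h2 (le_max_left _ _))

omit [Fintype ι] in
theorem tail (m : ℕ) (hP : ParOK m P) (hL : LawOK Ω p L X Y P) (i : ℕ) :
    ∑ a ∈ Ω.filter (fun a => ¬ L a ≤ TT P i), p a ≤ 1 / 16 := by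
  obtain ⟨h1, -, h3⟩ := TT_ge m hP i
  have h4 : TT P i * ∑ a ∈ Ω.filter (fun a => ¬ L a ≤ TT P i), p a ≤ P.A * P.h := by
    rw [mul_sum]
    calc ∑ a ∈ Ω.filter (fun a => ¬ L a ≤ TT P i), TT P i * p a
        ≤ ∑ a ∈ Ω.filter (fun a => ¬ L a ≤ TT P i), p a * L a := by
          refine sum_le_sum fun a ha => ?_
          rw [mem_filter] at ha
          have h5 := hL.p0 a ha.1
          have h6 : TT P i ≤ L a := (not_le.1 ha.2).le
          rw [mul_comm]
          exact mul_le_mul_of_nonneg_left h6 h5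
      _ ≤ ∑ a ∈ Ω, p a * L a := by
          refine sum_le_sum_of_subset_of_nonneg (filter_subset _ _) fun a ha _ => ?_
          exact mul_nonneg (hL.p0 a ha) (by linarith [hL.L1 a ha])
      _ ≤ P.A * P.h := hL.EL
  have h5 : 16 * (P.A * P.h) ≤ TT P i := by
    have h6 := mul_le_mul_of_nonneg_right hP.k3 hP.h0.le
    calc 16 * (P.A * P.h) = 16 * P.A * P.h := by ring
      _ ≤ P.θ1 * P.N * P.h := h6
      _ = P.θ1 * P.h * P.N := by ring
      _ ≤ _ := h1
  have h6 : TT P i * ∑ a ∈ Ω.filter (fun a => ¬ L a ≤ TT P i), p a ≤ TT P i * (1 / 16) := by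
    linarith
  exact le_of_mul_le_mul_left h6 h3

omit [Fintype ι] in
theorem ZZ_add (i : ℕ) : ZZ Ω p L P i + ∑ a ∈ Ω.filter (fun a => ¬ L a ≤ TT P i), p a =
    ∑ a ∈ Ω, p a := sum_filter_add_sum_filter_not Ω (fun a => L a ≤ TT P i) p

omit [Fintype ι] in
theorem ZZ_bd (m : ℕ) (hP : ParOK m P) (hL : LawOK Ω p L X Y P) (i : ℕ) :
    7 / 8 ≤ ZZ Ω p L P i ∧ ZZ Ω p L P i ≤ 1 := by
  have h1 := ZZ_add (Ω := Ω) (p := p) (L := L) (P := P) i
  have h2 := tail m hP hL i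
  have h3 : 0 ≤ ∑ a ∈ Ω.filter (fun a => ¬ L a ≤ TT P i), p a :=
    sum_nonneg fun a ha => hL.p0 a (mem_filter.1 ha).1
  have h4 := hL.m1
  have h5 := hL.m2
  have h6 := hP.e1
  constructor <;> linarith

omit [Fintype ι] in
/-- sums against the conditioned law -/
theorem sum_q (i : ℕ) (g : α → ℝ) : ∑ a ∈ Ω, qlaw Ω p L P i a * g a =
    (∑ a ∈ Ω.filter (fun a => L a ≤ TT P i), p a * g a) / ZZ Ω p L P i := by
  rw [sum_div, sum_filter]
  refine sum_congr rfl fun a _ => ?_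
  rw [qlaw_eq]
  split_ifs
  · ring
  · ring

omit [Fintype ι] in
theorem qok (m : ℕ) (hP : ParOK m P) (hL : LawOK Ω p L X Y P) (n : ℕ) :
    QOK Ω p L X Y P n (fun i => qlaw Ω p L P i) := by
  have hZ := fun i : ℕ => ZZ_bd m hP hL i
  have hZ0 : ∀ i : ℕ, 0 < ZZ Ω p L P i := fun i => by linarith [(hZ i).1]
  refine ⟨?_, ?_, ?_, ?_, ?_, ?_⟩
  · intro i a ha
    show 0 ≤ qlaw Ω p L P i a
    rw [qlaw_eq]
    split_ifs
    · exact div_nonneg (hL.p0 a ha) (hZ0 i).le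
    · exact le_rfl
  · intro i
    have h1 := sum_q (Ω := Ω) (p := p) (L := L) (P := P) i (fun _ => 1)
    simp only [mul_one] at h1
    rw [h1]
    exact div_self (hZ0 i).ne'
  · intro i a ha
    show qlaw Ω p L P i a ≤ 2 * p a
    have h1 := hL.p0 a ha
    rw [qlaw_eq]
    split_ifs
    · rw [div_le_iff₀ (hZ0 i)]
      have h2 := (hZ i).1
      nlinarith
    · linarith
  · intro i a _ h
    by_contra h2
    apply h
    show qlaw Ω p L P i a = 0
    rw [qlaw_eq]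
    exact if_neg h2
  · intro i j
    show ∑ a ∈ Ω, qlaw Ω p L P i a * Y j a = 0
    rw [sum_q, hL.Y0 j, zero_div]
  · intro i
    show P.h ≤ ∑ a ∈ Ω.filter (fun a => L a ≤ P.x), qlaw Ω p L P i a * X a
    refine hL.EXx.trans (sum_le_sum fun a ha => ?_)
    rw [mem_filter] at ha
    have h1 : L a ≤ TT P i := (ha.2.trans hP.k2).trans (TT_ge m hP i).1
    rw [qlaw_eq, if_pos h1]
    apply mul_le_mul_of_nonneg_right _ (hL.X0 a ha.1)
    rw [le_div_iff₀ (hZ0 i)]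
    have h2 := (hZ i).2
    have h3 := hL.p0 a ha.1
    nlinarith

omit [Fintype ι] in
/-- the total defect -/
theorem defect (m : ℕ) (hP : ParOK m P) (hL : LawOK Ω p L X Y P) (n : ℕ) :
    ∑ i : Fin n, (1 - ZZ Ω p L P i) ≤ n * P.ε + P.A / P.θ1 := by
  have hc : 0 < P.θ1 * P.h := mul_pos hP.t1 hP.h0
  have h1 : ∀ i : Fin n, 1 - ZZ Ω p L P i ≤ P.ε +
      ∑ a ∈ Ω, if P.θ1 * P.h * (((i : ℕ) : ℝ) + 1) < L a then p a else 0 := by
    intro i
    have h2 := ZZ_add (Ω := Ω) (p := p) (L := L) (P := P) (i : ℕ)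
    have h3 := hL.m2
    have h4 : ∑ a ∈ Ω.filter (fun a => ¬ L a ≤ TT P i), p a ≤
        ∑ a ∈ Ω, if P.θ1 * P.h * (((i : ℕ) : ℝ) + 1) < L a then p a else 0 := by
      rw [sum_filter]
      refine sum_le_sum fun a ha => ?_
      by_cases h5 : L a ≤ TT P i
      · rw [if_neg (not_not.2 h5)]
        split_ifs
        · exact hL.p0 a ha
        · exact le_rfl
      · rw [if_pos h5, if_pos (lt_of_le_of_lt (TT_ge m hP i).2.1 (not_le.1 h5))]
    linarith
  have h2 : ∑ i : Fin n, (1 - ZZ Ω p L P i) ≤ ∑ i : Fin n, (P.ε +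
      ∑ a ∈ Ω, if P.θ1 * P.h * (((i : ℕ) : ℝ) + 1) < L a then p a else 0) :=
    sum_le_sum fun i _ => h1 i
  rw [sum_add_distrib, sum_const, card_univ, Fintype.card_fin, nsmul_eq_mul, sum_comm] at h2
  have h3 : ∑ a ∈ Ω, ∑ i : Fin n,
      (if P.θ1 * P.h * (((i : ℕ) : ℝ) + 1) < L a then p a else 0) ≤
      ∑ a ∈ Ω, p a * L a / (P.θ1 * P.h) := by
    refine sum_le_sum fun a ha => ?_
    rw [← sum_filter, sum_const, nsmul_eq_mul, mul_comm, mul_div_assoc]
    exact mul_le_mul_of_nonneg_left (card_lt n _ _ hc (by linarith [hL.L1 a ha]))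
      (hL.p0 a ha)
  have h4 : ∑ a ∈ Ω, p a * L a / (P.θ1 * P.h) ≤ P.A / P.θ1 := by
    rw [← sum_div, ← mul_div_mul_right P.A P.θ1 hP.h0.ne']
    exact div_le_div_of_nonneg_right hL.EL hc.le
  linarith

end QEX_

open QEX_ in
theorem p_QEX : T_QEX := by
  intro α ι _ Ω p L X Y P hP hL n
  refine ⟨qok _ hP hL n, ?_⟩
  intro f hf
  have hZ := fun i : ℕ => ZZ_bd _ hP hL i
  have hp : 0 ≤ ∏ i, p (f i) := prod_nonneg fun i _ => hL.p0 _ (hf i)
  by_cases h : ∀ i : Fin n, L (f i) ≤ TT P i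
  · have h1 : ∏ i, p (f i) = (∏ i : Fin n, ZZ Ω p L P i) * ∏ i : Fin n, qlaw Ω p L P i (f i) := by
      rw [← prod_mul_distrib]
      refine prod_congr rfl fun i _ => ?_
      rw [qlaw_eq, if_pos (h i), mul_div_cancel₀]
      have := (hZ i).1
      linarith
    rw [h1]
    apply mul_le_mul_of_nonneg_right
    · have h2 : Real.exp (∑ i : Fin n, -(2 * (1 - ZZ Ω p L P i))) ≤ ∏ i : Fin n, ZZ Ω p L P i := by
        rw [Real.exp_sum]
        refine prod_le_prod (fun i _ => (Real.exp_pos _).le) fun i _ => ?_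
        have h3 := exp_le (u := 1 - ZZ Ω p L P i) (by linarith [(hZ i).2])
          (by linarith [(hZ i).1])
        linarith
      refine le_trans ?_ h2
      apply Real.exp_le_exp.2
      have h4 := defect _ hP hL n
      rw [sum_neg_distrib, ← mul_sum]
      have h5 : 2 * P.A / P.θ1 = 2 * (P.A / P.θ1) := by ring
      rw [h5]
      linarith
    · exact prod_nonneg fun i _ => (qok _ hP hL n).q0 i _ (hf i)
  · push Not at h
    obtain ⟨i, hi⟩ := h
    have h1 : ∏ i : Fin n, qlaw Ω p L P i (f i) = 0 := by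
      apply prod_eq_zero (mem_univ i)
      rw [qlaw_eq, if_neg (not_le.2 hi)]
    rw [h1, mul_zero]
    exact hp

end Pool.Agent.SBW
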