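import Pool.Agent.SBW.Targets

set_option autoImplicit false

/-!
# UNFP: positions of the unfolded walk
-/

open scoped Classical

noncomputable section

namespace Pool.Agent.SBW

namespace UNFP_

theorem gsh_succ {D : ℕ} (w : Wk D) (p : ℕ × ℕ) (hp : p.1 < p.2) (k : ℕ) :
    gsh w p (k + 1) = gsh w p k +
      if p.1 ≤ k ∧ k < p.2 then -(pos w (k + 1) 0 - pos w k 0) else 0 := by
  unfold gsh
  rcases Nat.lt_or_ge k p.1 with h1 | h1
  · rw [if_pos (by omega : k + 1 ≤ p.1), if_pos h1.le, if_neg (by omega), add_zero]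
  · rcases Nat.lt_or_ge k p.2 with h2 | h2
    · rw [if_neg (by omega : ¬ k + 1 ≤ p.1), if_pos (by omega : k + 1 ≤ p.2),
        if_pos (⟨h1, h2⟩ : p.1 ≤ k ∧ k < p.2)]
      rcases Nat.eq_or_lt_of_le h1 with h3 | h3
      · rw [if_pos h3.symm.le, h3]
        ring
      · rw [if_neg (by omega : ¬ k ≤ p.1), if_pos h2.le]
        ring
    · rw [if_neg (by omega : ¬ k + 1 ≤ p.1), if_neg (by omega : ¬ k + 1 ≤ p.2),
        if_neg (by omega : ¬ k ≤ p.1), if_neg (by omega : ¬ (p.1 ≤ k ∧ k < p.2)), add_zero]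
      rcases Nat.eq_or_lt_of_le h2 with h3 | h3
      · rw [if_pos h3.symm.le, h3]
      · rw [if_neg (by omega : ¬ k ≤ p.2)]

theorem sum_ind {D : ℕ} (h1 : T_PDIS) (w : Wk D) (S : Finset (ℕ × ℕ)) (hS : S ⊆ pairF w) (k : ℕ)
    (a : ℤ) : ∑ p ∈ S, (if p.1 ≤ k ∧ k < p.2 then a else 0) = if k ∈ cov S then a else 0 := by
  by_cases h : k ∈ cov S
  · rw [if_pos h]
    obtain ⟨p, hp, hk1, hk2⟩ := h
    rw [Finset.sum_eq_single p]
    · rw [if_pos ⟨hk1, hk2⟩]
    · intro q hq hqp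
      rw [if_neg]
      rintro ⟨h3, h4⟩
      have := h1 D w p q (mem_pairF.1 (hS hp)) (mem_pairF.1 (hS hq)) (Ne.symm hqp)
      omega
    · intro h
      exact absurd hp h
  · rw [if_neg h]
    refine Finset.sum_eq_zero fun p hp => ?_
    rw [if_neg]
    rintro ⟨h3, h4⟩
    exact h ⟨p, hp, h3, h4⟩

end UNFP_

open UNFP_ in
theorem p_UNFP (h1 : T_PDIS) : T_UNFP := by
  intro D w S hS k
  induction k with
  | zero =>
    intro _
    simp [gsh]
  | succ k ih =>
    intro hk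
    have hk' : k < w.length := by omega
    have h2 := ih hk'.le
    have h3 := pos_flipAt_succ w (cov S) hk' 0
    have h4 : ∑ p ∈ S, gsh w p (k + 1) = ∑ p ∈ S, gsh w p k +
        if k ∈ cov S then -(pos w (k + 1) 0 - pos w k 0) else 0 := by
      rw [← sum_ind h1 w S hS k, ← Finset.sum_add_distrib]
      refine Finset.sum_congr rfl fun p hp => ?_
      exact gsh_succ w p (mem_pairF.1 (hS hp)).1 k
    rw [h4]
    by_cases hc : k ∈ cov S
    · rw [if_pos ⟨hc, rfl⟩] at h3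
      rw [if_pos hc]
      linarith
    · rw [if_neg (fun h => hc h.1)] at h3
      rw [if_neg hc]
      linarith

end Pool.Agent.SBW
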